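import Pool.Agent.W338.QS.Line
import Pool.Agent.R311.BS.M

set_option autoImplicit false

/-! The factor of the functional equation near one height. -/

namespace Pool.Agent.R311.SE

open Finset MeasureTheory Filter Topology
open Pool.Agent.W188.QS
open Pool.Agent.R311.BS (ex ex_norm)

noncomputable section

lemma log_diff {τ t R : ℝ} (hτ : 0 < τ) (hR : R ≤ τ / 2) (ht : |t - τ| ≤ R) :
    |Real.log (t / (2 * Real.pi)) - Real.log (τ / (2 * Real.pi))| ≤ 2 * R / τ := by
  have h1 := abs_le.mp ht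
  have ht0 : 0 < t := by linarith
  have hpi := Real.pi_pos
  rw [Real.log_div ht0.ne' (by positivity), Real.log_div hτ.ne' (by positivity)]
  have e : Real.log t - Real.log (2 * Real.pi) - (Real.log τ - Real.log (2 * Real.pi)) =
    Real.log t - Real.log τ := by ring
  rw [e, abs_le]
  constructor
  · have h2 := Real.log_le_sub_one_of_pos (show 0 < τ / t by positivity)
    rw [Real.log_div hτ.ne' ht0.ne'] at h2
    have h3 : τ / t - 1 ≤ 2 * R / τ := by
      rw [div_sub_one ht0.ne', div_le_div_iff₀ ht0 hτ]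
      nlinarith
    linarith
  · have h2 := Real.log_le_sub_one_of_pos (show 0 < t / τ by positivity)
    rw [Real.log_div ht0.ne' hτ.ne'] at h2
    have h3 : t / τ - 1 ≤ 2 * R / τ := by
      rw [div_sub_one hτ.ne', div_le_div_iff_of_pos_right hτ]
      linarith [abs_nonneg (t - τ)]
    linarith

lemma XX_deriv {t : ℝ} (ht : 50 ≤ t) :
    HasDerivAt (fun t : ℝ => XX (cp t)) (XX (cp t) * ((lam t : ℂ) * Complex.I)) t := by
  obtain ⟨hl, hn, -⟩ := Pool.Agent.W338.QS.qs_line
  have h1 := (hl t ht).1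
  have him : (cp t).im = t := by simp [cp]
  have hre : (cp t).re = 1 / 2 := by simp [cp]
  have h2 : HasDerivAt XX (XX (cp t) * logDeriv XX (cp t)) (cp t) := by
    rw [Pool.Agent.W338.QS.ld (by rw [hre]; norm_num) (by rw [him]; linarith)]
    exact H345.Chi.hasDerivAt_XX (by rw [hre]; norm_num) (by rw [him]; linarith)
  rw [h1] at h2
  have h3 : HasDerivAt cp Complex.I t := by
    unfold cp
    have := (Complex.ofRealCLM.hasDerivAt (x := t)).mul_const Complex.I
    simpa using this.const_add (1 / 2 : ℂ)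
  have h4 := HasDerivAt.scomp t h2 h3
  simp only [smul_eq_mul] at h4
  have e : XX (cp t) * ((lam t : ℂ) * Complex.I) = Complex.I * (XX (cp t) * (lam t : ℂ)) := by ring
  rw [e]
  exact h4

/-- linearisation of the phase -/
theorem XX_lin {τ R t : ℝ} (hτ : 100 ≤ τ) (hR : R ≤ τ / 2) (ht : |t - τ| ≤ R) :
    ‖XX (cp t) - XX (cp τ) * ex (Real.log (τ / (2 * Real.pi))) (t - τ)‖ ≤ R * (28 + 2 * R) / τ := by
  obtain ⟨hl, hn, -⟩ := Pool.Agent.W338.QS.qs_line
  have hR0 : 0 ≤ R := (abs_nonneg _).trans ht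
  set Ω := Real.log (τ / (2 * Real.pi)) with hΩ
  set h : ℝ → ℂ := fun t => XX (cp t) * ex (-Ω) (t - τ) with hh
  have hder : ∀ x ∈ Set.Icc (τ - R) (τ + R), HasDerivWithinAt h
      (h x * (((lam x - Ω : ℝ) : ℂ) * Complex.I)) (Set.Icc (τ - R) (τ + R)) x := by
    intro x hx
    have hx50 : 50 ≤ x := by linarith [hx.1]
    have h1 := XX_deriv hx50
    have h2 : HasDerivAt (fun t : ℝ => ex (-Ω) (t - τ)) (ex (-Ω) (x - τ) * (((-Ω : ℝ) : ℂ) * Complex.I)) x := by
      unfold ex
      have h3 : HasDerivAt (fun t : ℝ => (((-Ω * (t - τ) : ℝ) : ℂ) * Complex.I)) (((-Ω : ℝ) : ℂ) * Complex.I) x := by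
        have h4 : HasDerivAt (fun t : ℝ => -Ω * (t - τ)) (-Ω) x := by
          simpa using ((hasDerivAt_id x).sub_const τ).const_mul (-Ω)
        exact (h4.ofReal_comp).mul_const Complex.I
      exact h3.cexp
    have h5 := h1.mul h2
    refine (h5.congr_deriv ?_).hasDerivWithinAt
    rw [hh]
    simp only
    push_cast
    ring
  have hbd : ∀ x ∈ Set.Icc (τ - R) (τ + R), ‖h x * (((lam x - Ω : ℝ) : ℂ) * Complex.I)‖ ≤ (28 + 2 * R) / τ := by
    intro x hx
    have hx50 : 50 ≤ x := by linarith [hx.1]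
    have hxa : |x - τ| ≤ R := by rw [abs_le]; constructor <;> linarith [hx.1, hx.2]
    have e1 : ‖h x‖ = 1 := by
      rw [hh]; simp only
      rw [norm_mul, ex_norm, hn x, mul_one]
    rw [norm_mul (h x), e1, one_mul, norm_mul, Complex.norm_I, mul_one, Complex.norm_real, Real.norm_eq_abs]
    have h1 := (hl x hx50).2.1
    have h2 := log_diff (by linarith) hR hxa
    have h3 : |lam x - Ω| ≤ |lam x - Real.log (x / (2 * Real.pi))| + |Real.log (x / (2 * Real.pi)) - Ω| := by
      have : lam x - Ω = (lam x - Real.log (x / (2 * Real.pi))) + (Real.log (x / (2 * Real.pi)) - Ω) := by ring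
      rw [this]; exact abs_add_le _ _
    have h4 : 14 / x ≤ 28 / τ := by
      rw [div_le_div_iff₀ (by linarith) (by linarith)]
      linarith [hx.1]
    calc |lam x - Ω| ≤ 28 / τ + 2 * R / τ := by linarith
      _ = _ := by ring
  have hτm : τ ∈ Set.Icc (τ - R) (τ + R) := ⟨by linarith, by linarith⟩
  have htm : t ∈ Set.Icc (τ - R) (τ + R) := by
    have := abs_le.mp ht
    constructor <;> linarith [this.1, this.2]
  have key := Convex.norm_image_sub_le_of_norm_hasDerivWithin_le hder hbd (convex_Icc _ _) hτm htm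
  have e0 : h τ = XX (cp τ) := by
    rw [hh]; simp only
    unfold ex
    simp
  rw [e0] at key
  have e2 : XX (cp t) - XX (cp τ) * ex Ω (t - τ) = (h t - XX (cp τ)) * ex Ω (t - τ) := by
    rw [hh]; simp only
    have : ex (-Ω) (t - τ) * ex Ω (t - τ) = 1 := by
      rw [← Pool.Agent.R311.BS.ex_add]
      unfold ex
      simp
    calc _ = XX (cp t) * 1 - XX (cp τ) * ex Ω (t - τ) := by ring
      _ = XX (cp t) * (ex (-Ω) (t - τ) * ex Ω (t - τ)) - XX (cp τ) * ex Ω (t - τ) := by rw [this]
      _ = _ := by ring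
  rw [e2, norm_mul, ex_norm, mul_one]
  refine key.trans ?_
  rw [Real.norm_eq_abs]
  calc (28 + 2 * R) / τ * |t - τ| ≤ (28 + 2 * R) / τ * R := by gcongr
    _ = _ := by ring

end

end Pool.Agent.R311.SE
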