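import Pool.Agent.R311.BS.WC
import Pool.Agent.H306R2.Window

set_option autoImplicit false

/-! Gaussian averages of zeta times short Dirichlet polynomials and exponentials, off resonance. -/

namespace Pool.Agent.R311.SE

open Finset MeasureTheory Filter Topology
open Pool.Agent.H306R2 Pool.Agent.R311.BS

noncomputable section

/-- zeta on the critical line -/
def zl (t : ℝ) : ℂ := riemannZeta (1 / 2 + t * Complex.I)

lemma zl_cont : Continuous zl := zeta_line_continuous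

/-- `A^a` -/
def Aq (N : ℝ) (a : ℕ) : ArithmeticFunction ℝ := cA 1 N (1 / 2) ^ a

/-- `A^a ζ` -/
def zA (N X : ℝ) (a : ℕ) : ArithmeticFunction ℝ := cA 1 N (1 / 2) ^ a * cA 1 X 1

/-- the short polynomial on the line -/
def AL (N t : ℝ) : ℂ := Dp (cA 1 N (1 / 2)) N (1 / 2 + t * Complex.I)

lemma Dp_cont (f : ℕ → ℝ) (X : ℝ) : Continuous fun t : ℝ => Dp f X (1 / 2 + t * Complex.I) :=
  Dp_line_continuous f X

lemma AL_cont (N : ℝ) : Continuous (AL N) := Dp_cont _ _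

lemma Aq_Dp (N : ℝ) (hN : 1 ≤ N) (a : ℕ) (t : ℝ) :
    Dp (Aq N a) (N ^ a) (1 / 2 + t * Complex.I) = AL N t ^ a :=
  (Dp_pow (cA 1 N (1 / 2)) N hN (cA_supp 1 N (1 / 2)) (1 / 2 + t * Complex.I) a).2

lemma zA_Dp (N X : ℝ) (hN : 1 ≤ N) (hX : 0 ≤ X) (a : ℕ) (t : ℝ) :
    Dp (zA N X a) (N ^ a * X) (1 / 2 + t * Complex.I) = AL N t ^ a * zX X t := by
  have h1 := Dp_pow (cA 1 N (1 / 2)) N hN (cA_supp 1 N (1 / 2)) (1 / 2 + t * Complex.I) a
  have h2 := Dp_mul (cA 1 N (1 / 2) ^ a) (cA 1 X 1) (N ^ a) X (by positivity) hX h1.1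
    (cA_supp 1 X 1) (1 / 2 + t * Complex.I)
  rw [h1.2] at h2
  exact h2.2

lemma AL_norm (N : ℝ) (hN : 1 ≤ N) (t : ℝ) : ‖AL N t‖ ≤ N := by
  have h := l1_PB (PB_cA_one 1 N (α := 1 / 2) (by norm_num) (by norm_num)) hN
  rw [zero_add, pow_one] at h
  exact (Dp_line_norm _ _ _).trans h

/-- the diagonal sum -/
def Sd (N X : ℝ) (a b : ℕ) : ℝ := ∑ n ∈ Icc 1 ⌊N ^ b⌋₊, zA N X a n * Aq N b n / n

/-- one nonresonant frequency -/
lemma TT_nonres (f g : ℕ → ℝ) (X Y τ H ω : ℝ)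
    (h : ∀ n l : ℕ, 1 ≤ n → (n:ℝ) ≤ X → 1 ≤ l → (l:ℝ) ≤ Y → 1 ≤ |ω - Real.log n + Real.log l|) :
    ‖TT f g X Y τ H ω‖ ≤ l1 f X * l1 g Y * gq H 1 := by
  refine (TT_le f g X Y τ H 1 ω zero_le_one).trans ?_
  have : NN f g X Y 1 ω = 0 := by
    unfold NN
    refine sum_eq_zero fun n hn => sum_eq_zero fun l hl => ?_
    rw [mem_Icc] at hn hl
    rw [if_neg]
    rw [not_lt]
    have hX : (n:ℝ) ≤ X := by
      have h0 : 0 < ⌊X⌋₊ := by omega
      exact (Nat.cast_le.mpr hn.2).trans (Nat.floor_le ((Nat.floor_pos.mp h0).trans' zero_le_one))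
    have hY : (l:ℝ) ≤ Y := by
      have h0 : 0 < ⌊Y⌋₊ := by omega
      exact (Nat.cast_le.mpr hl.2).trans (Nat.floor_le ((Nat.floor_pos.mp h0).trans' zero_le_one))
    exact h n l hn.1 hX hl.1 hY
  rw [this, zero_add]

/-- the window average of zeta times short polynomials and exponentials -/
theorem LJ (a b : ℕ) (M : Finset ℤ) (h0 : (0:ℤ) ∈ M) (C : ℤ → ℂ) (K : ℝ)
    (hK : ∑ m ∈ M, ‖C m‖ ≤ K) (N X Z ρ τ H R e₁ Ω L : ℝ) (hN : 1 ≤ N) (hX : 1 ≤ X)
    (hNX : N ^ b ≤ N ^ a * X) (hρ : 0 ≤ ρ) (hρ1 : ρ ≤ 1) (hZ : N ^ b * Real.exp 1 ≤ Z)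
    (hρ2 : ρ ≤ 1 / Z) (hH : 0 < H) (hR : 0 ≤ R) (he₁ : 0 ≤ e₁)
    (hL1 : l1 (zA N X a) (N ^ a * X) ≤ L) (hL2 : l1 (Aq N b) (N ^ b) ≤ L)
    (happ : ∀ t ∈ Set.Ioc (τ - R) (τ + R), ‖zl t - zX X t‖ ≤ e₁)
    (hnr : ∀ m ∈ M, m ≠ 0 → ∀ n l : ℕ, 1 ≤ n → (n:ℝ) ≤ N ^ a * X → 1 ≤ l → (l:ℝ) ≤ N ^ b →
      1 ≤ |m * Ω - Real.log n + Real.log l|) :
    ‖(∫ t in Set.Ioc (τ - R) (τ + R), ((∑ m ∈ M, C m * ex (m * Ω) t) *
        (zl t * AL N t ^ a * (starRingEnd ℂ) (AL N t ^ b))) * (gw τ H t : ℂ)) -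
      C 0 * ((Sd N X a b : ℝ) : ℂ)‖ ≤
    K * (L * L * gq H ρ + L * L * (2 * Real.exp (-(R ^ 2 / (2 * H ^ 2)))) + e₁ * N ^ (a + b)) := by
  have hX0 : 0 ≤ X := by linarith
  have hY1 : 1 ≤ N ^ b := one_le_pow₀ hN
  have hK0 : 0 ≤ K := (sum_nonneg fun _ _ => norm_nonneg _).trans hK
  have hL0 : 0 ≤ L := (l1_nonneg _ _).trans hL2
  set Y := N ^ b with hYd
  set Xf := N ^ a * X with hXfd
  obtain ⟨hGint0, hGval0⟩ := expansion M C (fun m => (m:ℝ) * Ω) (zA N X a) (Aq N b) Xf Y τ H hH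
  set G : ℝ → ℂ := fun t => ((∑ m ∈ M, C m * ex (m * Ω) t) * Dp (zA N X a) Xf (1 / 2 + t * Complex.I) *
      (starRingEnd ℂ) (Dp (Aq N b) Y (1 / 2 + t * Complex.I))) * (gw τ H t : ℂ) with hG
  have hGint : Integrable G := hGint0
  have hGval : ∫ t, G t = ∑ m ∈ M, C m * TT (zA N X a) (Aq N b) Xf Y τ H (m * Ω) := by
    rw [hG]
    rw [hGval0]
    refine sum_congr rfl fun m _ => ?_
    unfold TT
    rw [mul_sum]
    refine sum_congr rfl fun n _ => ?_
    rw [mul_sum]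
    refine sum_congr rfl fun l _ => ?_
    ring
  have hLL : l1 (zA N X a) Xf * l1 (Aq N b) Y ≤ L * L := mul_le_mul hL1 hL2 (l1_nonneg _ _) hL0
  -- main term
  have hmain : ‖(∫ t, G t) - C 0 * ((Sd N X a b : ℝ) : ℂ)‖ ≤ K * (L * L * gq H ρ) := by
    have e1 : (∫ t, G t) - C 0 * ((Sd N X a b : ℝ) : ℂ) =
        ∑ m ∈ M, C m * (TT (zA N X a) (Aq N b) Xf Y τ H (m * Ω) -
          if m = 0 then ((Sd N X a b : ℝ) : ℂ) else 0) := by
      rw [hGval]
      simp only [mul_sub, sum_sub_distrib]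
      congr 1
      simp only [mul_ite, mul_zero]
      rw [sum_ite_eq' M 0 (fun m => C m * ((Sd N X a b : ℝ) : ℂ)), if_pos h0]
    rw [e1]
    have h1 : ∀ m ∈ M, ‖C m * (TT (zA N X a) (Aq N b) Xf Y τ H (m * Ω) -
          if m = 0 then ((Sd N X a b : ℝ) : ℂ) else 0)‖ ≤ ‖C m‖ * (L * L * gq H ρ) := by
      intro m hm
      rw [norm_mul]
      refine mul_le_mul_of_nonneg_left ?_ (norm_nonneg _)
      have hg := gq_nonneg H ρ
      by_cases h : m = 0
      · rw [if_pos h, h]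
        have h2 := zero_freq (zA N X a) (Aq N b) Xf Y Z ρ τ H hY1 hNX hρ hρ1 hZ hρ2
        simp only [Int.cast_zero, zero_mul]
        refine le_trans (le_of_eq ?_) (h2.trans (mul_le_mul_of_nonneg_right hLL hg))
        rfl
      · rw [if_neg h, sub_zero]
        refine (TT_nonres _ _ _ _ τ H _ (hnr m hm h)).trans ?_
        have hg1 := gq_nonneg H 1
        have h3 : gq H 1 ≤ gq H ρ := gq_far H 1 ρ hρ (by rw [abs_one]; exact hρ1)
        calc _ ≤ L * L * gq H 1 := mul_le_mul_of_nonneg_right hLL hg1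
          _ ≤ _ := mul_le_mul_of_nonneg_left h3 (by positivity)
    refine (norm_sum_le_of_le _ h1).trans ?_
    rw [← sum_mul]
    have hg := gq_nonneg H ρ
    exact mul_le_mul_of_nonneg_right hK (by positivity)
  set I := Set.Ioc (τ - R) (τ + R) with hI
  have hImeas : MeasurableSet I := measurableSet_Ioc
  have hgwI := gw_integrable τ H hH
  have hCn : ∀ t : ℝ, ‖∑ m ∈ M, C m * ex (m * Ω) t‖ ≤ K := by
    intro t
    refine (norm_sum_le _ _).trans (le_trans (sum_le_sum fun m _ => ?_) hK)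
    rw [norm_mul, ex_norm, mul_one]
  -- outside
  have hout : ‖∫ t in Iᶜ, G t‖ ≤ K * (L * L * (2 * Real.exp (-(R ^ 2 / (2 * H ^ 2))))) := by
    calc ‖∫ t in Iᶜ, G t‖ ≤ ∫ t in Iᶜ, ‖G t‖ := norm_integral_le_integral_norm _
      _ ≤ ∫ t in Iᶜ, K * (L * L) * gw τ H t := by
          refine setIntegral_mono_on hGint.norm.integrableOn (hgwI.const_mul _).integrableOn
            hImeas.compl fun t _ => ?_
          rw [hG]
          simp only
          have hg := gw_nonneg τ H t hH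
          rw [norm_mul, norm_mul, norm_mul, RCLike.norm_conj, Complex.norm_real,
            Real.norm_of_nonneg hg]
          have a1 := hCn t
          have a2 : ‖Dp (zA N X a) Xf (1 / 2 + t * Complex.I)‖ ≤ L := (Dp_line_norm _ _ _).trans hL1
          have a3 : ‖Dp (Aq N b) Y (1 / 2 + t * Complex.I)‖ ≤ L := (Dp_line_norm _ _ _).trans hL2
          calc _ ≤ K * L * L * gw τ H t := by gcongr
            _ = _ := by ring
      _ = K * (L * L) * ∫ t in Iᶜ, gw τ H t := integral_const_mul _ _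
      _ ≤ K * (L * L) * (2 * Real.exp (-(R ^ 2 / (2 * H ^ 2)))) := by
          gcongr
          exact gw_tail τ H R hH hR
      _ = _ := by ring
  -- replacement
  set G' : ℝ → ℂ := fun t => ((∑ m ∈ M, C m * ex (m * Ω) t) *
        (zl t * AL N t ^ a * (starRingEnd ℂ) (AL N t ^ b))) * (gw τ H t : ℂ) with hG'
  have hG'c : Continuous G' := by
    rw [hG']
    have c1 := AL_cont N
    have c4 := zl_cont
    have c5 : Continuous fun t : ℝ => (starRingEnd ℂ) (AL N t ^ b) :=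
      Complex.continuous_conj.comp (c1.pow b)
    have c6 : Continuous fun t : ℝ => ∑ m ∈ M, C m * ex (m * Ω) t :=
      continuous_finsetSum _ fun m _ => (ex_cont _).const_mul _ |>.congr fun _ => rfl
    have c7 : Continuous fun t : ℝ => (gw τ H t : ℂ) := Complex.continuous_ofReal.comp (gw_continuous τ H)
    fun_prop
  have hG'I : IntegrableOn G' I := (hG'c.integrableOn_Icc (a := τ - R) (b := τ + R)).mono_set
    Set.Ioc_subset_Icc_self
  have happx : ‖(∫ t in I, G' t) - ∫ t in I, G t‖ ≤ K * (e₁ * N ^ (a + b)) := by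
    rw [← integral_sub hG'I hGint.integrableOn]
    calc ‖∫ t in I, (G' t - G t)‖ ≤ ∫ t in I, ‖G' t - G t‖ := norm_integral_le_integral_norm _
      _ ≤ ∫ t in I, K * (e₁ * N ^ (a + b)) * gw τ H t := by
          refine setIntegral_mono_on (hG'I.sub hGint.integrableOn).norm
            (hgwI.const_mul _).integrableOn hImeas fun t ht => ?_
          have e1 : G' t - G t = ((∑ m ∈ M, C m * ex (m * Ω) t) *
              ((zl t - zX X t) * AL N t ^ a * (starRingEnd ℂ) (AL N t ^ b))) * (gw τ H t : ℂ) := by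
            rw [hG, hG']
            simp only
            rw [hYd, hXfd, zA_Dp N X hN hX0, Aq_Dp N hN]
            ring
          have hg := gw_nonneg τ H t hH
          rw [e1, norm_mul, norm_mul, norm_mul, norm_mul, RCLike.norm_conj, norm_pow, norm_pow,
            Complex.norm_real, Real.norm_of_nonneg hg]
          have b1 := happ t ht
          have a1 := hCn t
          have a3 := AL_norm N hN t
          calc _ ≤ K * (e₁ * N ^ a * N ^ b) * gw τ H t := by gcongr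
            _ = _ := by rw [pow_add]; ring
      _ ≤ ∫ t, K * (e₁ * N ^ (a + b)) * gw τ H t := by
          refine setIntegral_le_integral (hgwI.const_mul _) (Eventually.of_forall fun t => ?_)
          have := gw_nonneg τ H t hH
          simp only [Pi.zero_apply]
          positivity
      _ = K * (e₁ * N ^ (a + b)) := by
          rw [integral_const_mul, gw_integral τ H hH, mul_one]
  have hsplit := integral_add_compl hImeas hGint
  have e2 : (∫ t in I, G' t) - C 0 * ((Sd N X a b : ℝ) : ℂ) =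
      ((∫ t in I, G' t) - ∫ t in I, G t) + ((∫ t, G t) - C 0 * ((Sd N X a b : ℝ) : ℂ)) -
        ∫ t in Iᶜ, G t := by
    rw [← hsplit]; ring
  rw [e2]
  refine (norm_sub_le _ _).trans ?_
  have h5 := norm_add_le ((∫ t in I, G' t) - ∫ t in I, G t) ((∫ t, G t) - C 0 * ((Sd N X a b : ℝ) : ℂ))
  linarith

end

end Pool.Agent.R311.SE
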