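import Pool.Agent.R311.SE.B

set_option autoImplicit false

/-! Averages against a kernel in the phase of the functional equation. -/

namespace Pool.Agent.R311.SE

open Finset MeasureTheory Filter Topology
open Pool.Agent.H306R2 Pool.Agent.R311.BS

noncomputable section

/-- the weight: kernel in the linear phase -/
def Wk (D : ℕ) (δ Ω ψ t : ℝ) : ℝ := FD D δ ((Ω * t + ψ) / (2 * Real.pi))

lemma Wk_nonneg (D : ℕ) {δ : ℝ} (hδ : 0 ≤ δ) (Ω ψ t : ℝ) : 0 ≤ Wk D δ Ω ψ t := FD_nonneg _ _ _ hδ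

lemma Wk_le (D : ℕ) {δ : ℝ} (hδ : 0 ≤ δ) (hδ1 : δ ≤ 1) (Ω ψ t : ℝ) : Wk D δ Ω ψ t ≤ Lam :=
  FD_le _ _ _ hδ hδ1

lemma Wk_cont (D : ℕ) (δ Ω ψ : ℝ) : Continuous (Wk D δ Ω ψ) := by
  unfold Wk
  exact (FD_cont D δ).comp (by fun_prop)

/-- coefficients -/
def CW (D : ℕ) (δ ψ : ℝ) (m : ℤ) : ℂ := (cD D δ m : ℂ) * Complex.exp (((m * ψ : ℝ) : ℂ) * Complex.I)

lemma CW_norm (D : ℕ) (δ ψ : ℝ) (m : ℤ) : ‖CW D δ ψ m‖ = cD D δ m := by
  unfold CW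
  rw [norm_mul, Complex.norm_exp_ofReal_mul_I, mul_one, Complex.norm_real,
    Real.norm_of_nonneg (cD_nonneg _ _ _)]

lemma Wk_eq (D : ℕ) (δ Ω ψ t : ℝ) : ((Wk D δ Ω ψ t : ℝ) : ℂ) =
    ∑ m ∈ Icc (-(D:ℤ)) D, CW D δ ψ m * ex (m * Ω) t := by
  unfold Wk
  rw [FD_eq]
  refine sum_congr rfl fun m _ => ?_
  unfold CW
  rw [mul_assoc]
  congr 1
  unfold ee ex
  rw [← Complex.exp_add]
  congr 1
  have hpi := Real.pi_ne_zero
  have e : 2 * Real.pi * (m * ((Ω * t + ψ) / (2 * Real.pi))) = m * ψ + m * Ω * t := by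
    field_simp
    ring
  rw [e]
  push_cast
  ring

theorem LW (a b D : ℕ) (hD : 1 ≤ D) {δ : ℝ} (hδ : 0 ≤ δ) (hδ1 : δ ≤ 1)
    (N X Z ρ τ H R e₁ e₂ Ω L ψ : ℝ) (v : ℂ) (hv : ‖v‖ = 1) (hN : 1 ≤ N) (hX : 1 ≤ X)
    (hNX : N ^ b ≤ N ^ a * X) (hNX' : N ^ a ≤ N ^ b * X) (hρ : 0 ≤ ρ) (hρ1 : ρ ≤ 1)
    (hZ : N ^ b * Real.exp 1 ≤ Z) (hZ' : N ^ a * Real.exp 1 ≤ Z)
    (hρ2 : ρ ≤ 1 / Z) (hH : 0 < H) (hR : 0 ≤ R) (he₁ : 0 ≤ e₁) (he₂ : 0 ≤ e₂)
    (hL1 : l1 (zA N X a) (N ^ a * X) ≤ L) (hL2 : l1 (Aq N b) (N ^ b) ≤ L)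
    (hL1' : l1 (zA N X b) (N ^ b * X) ≤ L) (hL2' : l1 (Aq N a) (N ^ a) ≤ L)
    (happ : ∀ t ∈ Set.Ioc (τ - R) (τ + R), ‖zl t - zX X t‖ ≤ e₁)
    (hnr : ∀ m : ℤ, m ≠ 0 → m ≠ 1 → ∀ n l : ℕ, 1 ≤ n → (n:ℝ) ≤ N ^ a * X → 1 ≤ l → (l:ℝ) ≤ N ^ b →
      1 ≤ |m * Ω - Real.log n + Real.log l|)
    (hph : ∀ t ∈ Set.Ioc (τ - R) (τ + R), ‖Complex.exp ((ψ : ℂ) * Complex.I) * ex Ω t * zl t -
      v * (starRingEnd ℂ) (zl t)‖ ≤ e₂) :
    ‖(∫ t in Set.Ioc (τ - R) (τ + R), ((Wk D δ Ω ψ t : ℝ) : ℂ) *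
        (zl t * AL N t ^ a * (starRingEnd ℂ) (AL N t ^ b)) * (gw τ H t : ℂ)) -
      ((cD D δ 0 : ℂ) * ((Sd N X a b : ℝ) : ℂ) + (cD D δ 1 : ℂ) * v * ((Sd N X b a : ℝ) : ℂ))‖ ≤
    (Lam + 1) * (L * L * gq H ρ + L * L * (2 * Real.exp (-(R ^ 2 / (2 * H ^ 2)))) + e₁ * N ^ (a + b)) +
      e₂ * N ^ (a + b) := by
  set I := Set.Ioc (τ - R) (τ + R) with hI
  have hImeas : MeasurableSet I := measurableSet_Ioc
  have hgwI := gw_integrable τ H hH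
  set E := L * L * gq H ρ + L * L * (2 * Real.exp (-(R ^ 2 / (2 * H ^ 2)))) + e₁ * N ^ (a + b) with hE
  set M := (Icc (-(D:ℤ)) D).erase 1 with hM
  have h1mem : (1:ℤ) ∈ Icc (-(D:ℤ)) D := by rw [mem_Icc]; constructor <;> omega
  have h0mem : (0:ℤ) ∈ M := by
    rw [hM, mem_erase, mem_Icc]
    refine ⟨by norm_num, by omega, by omega⟩
  have hsum : ∑ m ∈ M, ‖CW D δ ψ m‖ ≤ Lam := by
    refine le_trans (sum_le_sum fun m _ => ?_) (sum_lam_le M)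
    rw [CW_norm]; exact cD_le D δ hδ hδ1 m
  have j1 := LJ a b M h0mem (CW D δ ψ) Lam hsum N X Z ρ τ H R e₁ Ω L hN hX hNX hρ hρ1 hZ hρ2 hH hR he₁
    hL1 hL2 happ (fun m hm hm0 => hnr m hm0 (by rw [hM, mem_erase] at hm; exact hm.1))
  have j2 := LJ b a {0} (mem_singleton_self _) (fun _ => (1:ℂ)) 1 (by simp) N X Z ρ τ H R e₁ Ω L hN hX
    hNX' hρ hρ1 hZ' hρ2 hH hR he₁ hL1' hL2' happ (fun m hm hm0 => by
      rw [mem_singleton] at hm; exact absurd hm hm0)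
  have c1 := AL_cont N
  have c4 := zl_cont
  have c5 : ∀ k : ℕ, Continuous fun t : ℝ => (starRingEnd ℂ) (AL N t ^ k) := fun k =>
    Complex.continuous_conj.comp (c1.pow k)
  have c7 : Continuous fun t : ℝ => (gw τ H t : ℂ) := Complex.continuous_ofReal.comp (gw_continuous τ H)
  have c8 : Continuous fun t : ℝ => (starRingEnd ℂ) (zl t) := Complex.continuous_conj.comp c4
  have hcI : ∀ F : ℝ → ℂ, Continuous F → IntegrableOn F I := fun F hF =>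
    (hF.integrableOn_Icc (a := τ - R) (b := τ + R)).mono_set Set.Ioc_subset_Icc_self
  -- the two pieces
  set F1 : ℝ → ℂ := fun t => ((∑ m ∈ M, CW D δ ψ m * ex (m * Ω) t) *
        (zl t * AL N t ^ a * (starRingEnd ℂ) (AL N t ^ b))) * (gw τ H t : ℂ) with hF1
  set F2 : ℝ → ℂ := fun t => (cD D δ 1 : ℂ) * ((Complex.exp ((ψ : ℂ) * Complex.I) * ex Ω t * zl t) *
        (AL N t ^ a * (starRingEnd ℂ) (AL N t ^ b)) * (gw τ H t : ℂ)) with hF2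
  set F3 : ℝ → ℂ := fun t => (cD D δ 1 : ℂ) * ((v * (starRingEnd ℂ) (zl t)) *
        (AL N t ^ a * (starRingEnd ℂ) (AL N t ^ b)) * (gw τ H t : ℂ)) with hF3
  have k5 : ∀ k : ℕ, Continuous fun t : ℝ => (starRingEnd ℂ) (AL N t) ^ k := fun k =>
    (Complex.continuous_conj.comp c1).pow k
  have cF1 : Continuous F1 := by
    rw [hF1]
    have c6 : Continuous fun t : ℝ => ∑ m ∈ M, CW D δ ψ m * ex (m * Ω) t :=
      continuous_finsetSum _ fun m _ => (ex_cont _).const_mul _ |>.congr fun _ => rfl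
    have := c5 b
    fun_prop
  have cF2 : Continuous F2 := by
    rw [hF2]
    have := c5 b
    have c6 := ex_cont Ω
    fun_prop
  have cF3 : Continuous F3 := by
    rw [hF3]
    have := c5 b
    fun_prop
  have hdec : ∀ t : ℝ, ((Wk D δ Ω ψ t : ℝ) : ℂ) *
        (zl t * AL N t ^ a * (starRingEnd ℂ) (AL N t ^ b)) * (gw τ H t : ℂ) = F1 t + F2 t := by
    intro t
    rw [Wk_eq, ← add_sum_erase _ _ h1mem, ← hM, hF1, hF2]
    simp only
    have e1 : CW D δ ψ 1 = (cD D δ 1 : ℂ) * Complex.exp ((ψ : ℂ) * Complex.I) := by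
      unfold CW; simp
    rw [e1]
    simp only [Int.cast_one, one_mul]
    ring
  simp only [hdec]
  rw [integral_add (hcI F1 cF1) (hcI F2 cF2)]
  -- third piece
  have hF3v : ∫ t in I, F3 t = (cD D δ 1 : ℂ) * v * (starRingEnd ℂ) (∫ t in I,
      ((∑ m ∈ ({0} : Finset ℤ), (1:ℂ) * ex (m * Ω) t) *
        (zl t * AL N t ^ b * (starRingEnd ℂ) (AL N t ^ a))) * (gw τ H t : ℂ)) := by
    rw [← integral_conj, ← integral_const_mul]
    refine integral_congr_ae (Eventually.of_forall fun t => ?_)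
    rw [hF3]
    simp only [sum_singleton, Int.cast_zero, zero_mul, one_mul, map_mul, Complex.conj_conj,
      Complex.conj_ofReal, map_pow]
    have e0 : (starRingEnd ℂ) (ex 0 t) = 1 := by unfold ex; simp
    rw [e0]
    ring
  have hcD1 : 0 ≤ cD D δ 1 := cD_nonneg _ _ _
  have hcD1' : cD D δ 1 ≤ 1 := by
    have := cD_le D δ hδ hδ1 1
    unfold lam at this
    simpa using this
  have hE0 : 0 ≤ E := by
    have := gq_nonneg H ρ
    have hL0 : 0 ≤ L := (l1_nonneg _ _).trans hL2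
    positivity
  have h3 : ‖(∫ t in I, F3 t) - (cD D δ 1 : ℂ) * v * ((Sd N X b a : ℝ) : ℂ)‖ ≤ E := by
    rw [hF3v, ← mul_sub]
    have e1 : (starRingEnd ℂ) (∫ t in I,
      ((∑ m ∈ ({0} : Finset ℤ), (1:ℂ) * ex (m * Ω) t) *
        (zl t * AL N t ^ b * (starRingEnd ℂ) (AL N t ^ a))) * (gw τ H t : ℂ)) - ((Sd N X b a : ℝ) : ℂ) =
        (starRingEnd ℂ) ((∫ t in I, ((∑ m ∈ ({0} : Finset ℤ), (1:ℂ) * ex (m * Ω) t) *
        (zl t * AL N t ^ b * (starRingEnd ℂ) (AL N t ^ a))) * (gw τ H t : ℂ)) - 1 * ((Sd N X b a : ℝ) : ℂ)) := by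
      rw [map_sub, one_mul, Complex.conj_ofReal]
    rw [e1, norm_mul, norm_mul, hv, mul_one, Complex.norm_real, Real.norm_of_nonneg hcD1, RCLike.norm_conj]
    have j3 : ‖(∫ t in I, ((∑ m ∈ ({0} : Finset ℤ), (1:ℂ) * ex (m * Ω) t) *
        (zl t * AL N t ^ b * (starRingEnd ℂ) (AL N t ^ a))) * (gw τ H t : ℂ)) -
          1 * ((Sd N X b a : ℝ) : ℂ)‖ ≤ E := by
      refine j2.trans (le_of_eq ?_)
      rw [one_mul, hE, add_comm b a]
    calc _ ≤ 1 * E := mul_le_mul hcD1' j3 (norm_nonneg _) zero_le_one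
      _ = E := one_mul E
  have h4 : ‖(∫ t in I, F2 t) - ∫ t in I, F3 t‖ ≤ e₂ * N ^ (a + b) := by
    rw [← integral_sub (hcI F2 cF2) (hcI F3 cF3)]
    calc ‖∫ t in I, (F2 t - F3 t)‖ ≤ ∫ t in I, ‖F2 t - F3 t‖ := norm_integral_le_integral_norm _
      _ ≤ ∫ t in I, e₂ * N ^ (a + b) * gw τ H t := by
          refine setIntegral_mono_on ((hcI F2 cF2).sub (hcI F3 cF3)).norm
            (hgwI.const_mul _).integrableOn hImeas fun t ht => ?_
          have e1 : F2 t - F3 t = (cD D δ 1 : ℂ) * ((Complex.exp ((ψ : ℂ) * Complex.I) * ex Ω t * zl t -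
              v * (starRingEnd ℂ) (zl t)) * (AL N t ^ a * (starRingEnd ℂ) (AL N t ^ b)) *
              (gw τ H t : ℂ)) := by
            rw [hF2, hF3]
            simp only
            ring
          have hg := gw_nonneg τ H t hH
          rw [e1, norm_mul, norm_mul, norm_mul, norm_mul, RCLike.norm_conj, norm_pow, norm_pow,
            Complex.norm_real, Complex.norm_real, Real.norm_of_nonneg hg, Real.norm_of_nonneg hcD1]
          have b1 := hph t ht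
          have a3 := AL_norm N hN t
          calc _ ≤ 1 * (e₂ * (N ^ a * N ^ b) * gw τ H t) := by gcongr
            _ = _ := by rw [pow_add]; ring
      _ ≤ ∫ t, e₂ * N ^ (a + b) * gw τ H t := by
          refine setIntegral_le_integral (hgwI.const_mul _) (Eventually.of_forall fun t => ?_)
          have := gw_nonneg τ H t hH
          simp only [Pi.zero_apply]
          positivity
      _ = e₂ * N ^ (a + b) := by
          rw [integral_const_mul, gw_integral τ H hH, mul_one]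
  have e0 : CW D δ ψ 0 = (cD D δ 0 : ℂ) := by unfold CW; simp
  rw [e0] at j1
  have j1' : ‖(∫ t in I, F1 t) - (cD D δ 0 : ℂ) * ((Sd N X a b : ℝ) : ℂ)‖ ≤ Lam * E := j1
  have e2 : ((∫ t in I, F1 t) + ∫ t in I, F2 t) -
      ((cD D δ 0 : ℂ) * ((Sd N X a b : ℝ) : ℂ) + (cD D δ 1 : ℂ) * v * ((Sd N X b a : ℝ) : ℂ)) =
      ((∫ t in I, F1 t) - (cD D δ 0 : ℂ) * ((Sd N X a b : ℝ) : ℂ)) +
      (((∫ t in I, F2 t) - ∫ t in I, F3 t) + ((∫ t in I, F3 t) - (cD D δ 1 : ℂ) * v * ((Sd N X b a : ℝ) : ℂ))) := by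
    ring
  rw [e2]
  refine (norm_add_le _ _).trans ?_
  have := norm_add_le ((∫ t in I, F2 t) - ∫ t in I, F3 t)
    ((∫ t in I, F3 t) - (cD D δ 1 : ℂ) * v * ((Sd N X b a : ℝ) : ℂ))
  linarith

end

end Pool.Agent.R311.SE
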