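import Pool.Agent.R311.SE.C
import Pool.Agent.W181.Mom.Ser

set_option autoImplicit false

/-! The diagonal sums. -/

namespace Pool.Agent.R311.SE

open Finset MeasureTheory Filter Topology
open Pool.Agent.H306R2 Pool.Agent.R311.BS

noncomputable section

lemma Aq_bd (N : ℝ) (b n : ℕ) : 0 ≤ Aq N b n ∧ Aq N b n ≤ dv ((b:ℝ) / 2) n := by
  have h := cA_pow_le 1 N (α := 1 / 2) (by norm_num) b n
  refine ⟨h.1, h.2.trans ?_⟩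
  have e : (b:ℝ) * (1 / 2) = (b:ℝ) / 2 := by ring
  rw [e]
  exact xA_le 1 (by positivity) n

lemma zA_bd (N X : ℝ) (a n : ℕ) (hn : (n:ℝ) ≤ X) : 0 ≤ zA N X a n ∧ zA N X a n ≤ dv ((a:ℝ) / 2 + 1) n := by
  have h1 := mul_mono_le X (f := cA 1 N (1 / 2) ^ a) (f' := xA 1 ((a : ℝ) * (1 / 2)))
    (g := cA 1 X 1) (g' := xA 1 1) (fun m _ => cA_pow_le 1 N (by norm_num) a m)
    (fun m hm => ⟨cA_nonneg 1 X zero_le_one m, cA_le 1 X zero_le_one m⟩) n hn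
  rw [xA_mul] at h1
  refine ⟨h1.1, h1.2.trans ?_⟩
  have e : (a:ℝ) * (1 / 2) + 1 = (a:ℝ) / 2 + 1 := by ring
  rw [e]
  exact xA_le 1 (by positivity) n

lemma Aq_eq (N : ℝ) (b n : ℕ) (hn : (n:ℝ) ≤ N) : Aq N b n = dv ((b:ℝ) / 2) n := by
  have h := cA_pow_eq 1 (N := N) (1 / 2) b n hn
  have e : (b:ℝ) * (1 / 2) = (b:ℝ) / 2 := by ring
  rw [e, xA_apply, if_pos (Nat.coprime_one_right n)] at h
  exact h

lemma zA_eq (N X : ℝ) (hNX : N ≤ X) (a n : ℕ) (hn : (n:ℝ) ≤ N) : zA N X a n = dv ((a:ℝ) / 2 + 1) n := by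
  have h1 := mul_congr_le N (f := cA 1 N (1 / 2) ^ a) (f' := xA 1 ((a : ℝ) * (1 / 2)))
    (g := cA 1 X 1) (g' := xA 1 1) (fun m hm => cA_pow_eq 1 (1 / 2) a m hm)
    (fun m hm => cA_eq 1 1 (hm.trans hNX)) n hn
  rw [xA_mul] at h1
  have e : (a:ℝ) * (1 / 2) + 1 = (a:ℝ) / 2 + 1 := by ring
  rw [e, xA_apply, if_pos (Nat.coprime_one_right n)] at h1
  exact h1

lemma mem_real {n : ℕ} {Y : ℝ} (h : n ∈ Icc 1 ⌊Y⌋₊) : 1 ≤ n ∧ (n:ℝ) ≤ Y := by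
  rw [mem_Icc] at h
  refine ⟨h.1, ?_⟩
  have h0 : 0 < ⌊Y⌋₊ := by omega
  exact (Nat.cast_le.mpr h.2).trans (Nat.floor_le ((Nat.floor_pos.mp h0).trans' zero_le_one))

lemma Sd_nonneg (N X : ℝ) (a b : ℕ) (h : N ^ b ≤ X) : 0 ≤ Sd N X a b := by
  unfold Sd
  refine sum_nonneg fun n hn => ?_
  obtain ⟨h1, h2⟩ := mem_real hn
  have h3 := (zA_bd N X a n (h2.trans h)).1
  have h4 := (Aq_bd N b n).1
  positivity

lemma Sd_le (N X : ℝ) (a b : ℕ) (h : N ^ b ≤ X) :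
    Sd N X a b ≤ ∑ n ∈ Icc 1 ⌊N ^ b⌋₊, dv ((a:ℝ) / 2 + 1) n * dv ((b:ℝ) / 2) n / n := by
  unfold Sd
  refine sum_le_sum fun n hn => ?_
  obtain ⟨h1, h2⟩ := mem_real hn
  have h3 := zA_bd N X a n (h2.trans h)
  have h4 := Aq_bd N b n
  have h5 := h3.1.trans h3.2
  gcongr
  · exact h4.1
  · exact h3.2
  · exact h4.2

lemma Sd_ge (N X : ℝ) (hN : 1 ≤ N) (hNX : N ≤ X) (q : ℕ) (hq : 2 ≤ q) (h : N ^ q ≤ X) :
    ∑ n ∈ Icc 1 ⌊N⌋₊, dv ((q:ℝ) / 2) n ^ 2 / n ≤ Sd N X (q - 2) q := by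
  unfold Sd
  have hNN : N ≤ N ^ q := by
    calc N = N ^ 1 := (pow_one N).symm
      _ ≤ N ^ q := pow_le_pow_right₀ hN (by omega)
  have hsub : Icc 1 ⌊N⌋₊ ⊆ Icc 1 ⌊N ^ q⌋₊ := Icc_subset_Icc_right (Nat.floor_le_floor hNN)
  refine le_trans (le_of_eq ?_) (sum_le_sum_of_subset_of_nonneg hsub fun n hn _ => ?_)
  · refine sum_congr rfl fun n hn => ?_
    obtain ⟨h1, h2⟩ := mem_real hn
    rw [zA_eq N X hNX _ n h2, Aq_eq N q n h2]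
    have e : (((q - 2 : ℕ) : ℝ)) / 2 + 1 = (q:ℝ) / 2 := by
      rw [Nat.cast_sub hq]; push_cast; ring
    rw [e]
    ring
  · obtain ⟨h1, h2⟩ := mem_real hn
    have h3 := (zA_bd N X (q - 2) n (h2.trans h)).1
    have h4 := (Aq_bd N q n).1
    positivity

/-- mixed sums -/
theorem mixed {κ f : ℝ} (hκ : 0 < κ) (hf : 0 ≤ f) (hfκ : f ≤ κ) : ∃ C : ℝ, 0 < C ∧
    ∀ Y : ℝ, Real.exp 1 ≤ Y → ∑ n ∈ Icc 1 ⌊Y⌋₊, dv κ n * dv f n / n ≤ C * Real.log Y ^ (κ * f) := by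
  obtain ⟨C, hC, h⟩ := Pool.Agent.W181.Mom.DD_le hκ
  refine ⟨3 * C, by positivity, fun Y hY => ?_⟩
  have hY0 : 0 < Y := (Real.exp_pos 1).trans_le hY
  have hlog : 1 ≤ Real.log Y := by rwa [Real.le_log_iff_exp_le hY0]
  have hσ : 0 < 1 / Real.log Y := by positivity
  have hσ1 : 1 / Real.log Y ≤ 1 := by rw [div_le_one (by linarith)]; exact hlog
  have h1 := h f (1 / Real.log Y) hf hfκ hσ hσ1
  rw [one_div_one_div] at h1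
  have hs := Pool.Agent.W181.Mom.hh_summable hf hfκ hσ
  have h2 : ∑ n ∈ Icc 1 ⌊Y⌋₊, dv κ n * dv f n / n ≤
      3 * ∑ n ∈ Icc 1 ⌊Y⌋₊, Pool.Agent.W181.Mom.hh κ f (1 / Real.log Y) n := by
    rw [mul_sum]
    refine sum_le_sum fun n hn => ?_
    obtain ⟨h3, h4⟩ := mem_real hn
    have hn0 : (0:ℝ) < n := by exact_mod_cast h3
    unfold Pool.Agent.W181.Mom.hh
    have h5 : (n:ℝ) ^ (-1 - 1 / Real.log Y) = (n:ℝ)⁻¹ * ((n:ℝ) ^ (1 / Real.log Y))⁻¹ := by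
      rw [sub_eq_add_neg, Real.rpow_add hn0, Real.rpow_neg_one, Real.rpow_neg hn0.le]
    have h6 : (n:ℝ) ^ (1 / Real.log Y) ≤ 3 := by
      calc (n:ℝ) ^ (1 / Real.log Y) ≤ Y ^ (1 / Real.log Y) := Real.rpow_le_rpow hn0.le h4 hσ.le
        _ = Real.exp 1 := by
            rw [Real.rpow_def_of_pos hY0]
            congr 1
            field_simp
        _ ≤ 3 := by have := Real.exp_one_lt_d9; linarith
    have h7 : 0 < (n:ℝ) ^ (1 / Real.log Y) := Real.rpow_pos_of_pos hn0 _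
    have h8 : 1 ≤ 3 * ((n:ℝ) ^ (1 / Real.log Y))⁻¹ := by
      rw [← div_eq_mul_inv, le_div_iff₀ h7]; linarith
    have h9 := dv_nonneg hf n
    have h10 := dv_nonneg hκ.le n
    rw [h5]
    calc dv κ n * dv f n / n = (dv κ n * dv f n / n) * 1 := (mul_one _).symm
      _ ≤ (dv κ n * dv f n / n) * (3 * ((n:ℝ) ^ (1 / Real.log Y))⁻¹) := by gcongr
      _ = _ := by ring
  have h3 : ∑ n ∈ Icc 1 ⌊Y⌋₊, Pool.Agent.W181.Mom.hh κ f (1 / Real.log Y) n ≤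
      Pool.Agent.W181.Mom.DD κ f (1 / Real.log Y) :=
    hs.sum_le_tsum _ (fun n _ => Pool.Agent.W181.Mom.hh_nonneg hf hfκ _ n)
  calc _ ≤ 3 * (C * Real.log Y ^ (κ * f)) := by linarith
    _ = _ := by ring

/-- the mean square of the power of the short polynomial -/
theorem sq_mean (N : ℝ) (hN : 1 ≤ N) (q : ℕ) (Z ρ τ H L : ℝ) (hH : 0 < H) (hρ : 0 ≤ ρ) (hρ1 : ρ ≤ 1)
    (hZ : N ^ q * Real.exp 1 ≤ Z) (hρ2 : ρ ≤ 1 / Z) (hL : l1 (Aq N q) (N ^ q) ≤ L) :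
    Integrable (fun t : ℝ => ‖AL N t‖ ^ (2 * q) * gw τ H t) ∧
    ∫ t : ℝ, ‖AL N t‖ ^ (2 * q) * gw τ H t ≤
      (∑ n ∈ Icc 1 ⌊N ^ q⌋₊, dv ((q:ℝ) / 2) n * dv ((q:ℝ) / 2) n / n) + L * L * gq H ρ := by
  have hY1 : 1 ≤ N ^ q := one_le_pow₀ hN
  obtain ⟨h1, h2⟩ := expansion ({0} : Finset ℤ) (fun _ => (1:ℂ)) (fun _ => (0:ℝ)) (Aq N q) (Aq N q)
    (N ^ q) (N ^ q) τ H hH
  have e1 : ∀ t : ℝ, ((∑ i ∈ ({0} : Finset ℤ), (1:ℂ) * ex 0 t) * Dp (Aq N q) (N ^ q) (1 / 2 + t * Complex.I) *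
      (starRingEnd ℂ) (Dp (Aq N q) (N ^ q) (1 / 2 + t * Complex.I))) * (gw τ H t : ℂ) =
      ((‖AL N t‖ ^ (2 * q) * gw τ H t : ℝ) : ℂ) := by
    intro t
    have e0 : ex 0 t = 1 := by unfold ex; simp
    rw [sum_singleton, e0, one_mul, one_mul, Complex.mul_conj, Complex.normSq_eq_norm_sq,
      Aq_Dp N hN, norm_pow, ← pow_mul, mul_comm q 2]
    push_cast
    rfl
  simp only [e1] at h1 h2
  have hint : Integrable (fun t : ℝ => ‖AL N t‖ ^ (2 * q) * gw τ H t) := by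
    refine h1.re.congr (Eventually.of_forall fun t => ?_)
    exact Complex.ofReal_re _
  refine ⟨hint, ?_⟩
  have h3 : ∑ i ∈ ({0} : Finset ℤ), ∑ n ∈ Icc 1 ⌊N ^ q⌋₊, ∑ l ∈ Icc 1 ⌊N ^ q⌋₊,
      ((1:ℂ) * ((Aq N q n * (Real.sqrt n)⁻¹ : ℝ) : ℂ) * ((Aq N q l * (Real.sqrt l)⁻¹ : ℝ) : ℂ)) *
        (ex (0 - Real.log n + Real.log l) τ * (gq H (0 - Real.log n + Real.log l) : ℝ)) =
      TT (Aq N q) (Aq N q) (N ^ q) (N ^ q) τ H 0 := by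
    rw [sum_singleton]
    unfold TT
    simp only [one_mul]
  rw [h3, integral_complex_ofReal] at h2
  have h4 := zero_freq (Aq N q) (Aq N q) (N ^ q) (N ^ q) Z ρ τ H hY1 le_rfl hρ hρ1 hZ hρ2
  rw [← h2, ← Complex.ofReal_sub, Complex.norm_real, Real.norm_eq_abs] at h4
  have h5 := (abs_le.mp h4).2
  have hL0 : 0 ≤ L := (l1_nonneg _ _).trans hL
  have h6 : l1 (Aq N q) (N ^ q) * l1 (Aq N q) (N ^ q) * gq H ρ ≤ L * L * gq H ρ := by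
    have := gq_nonneg H ρ
    have := l1_nonneg (Aq N q) (N ^ q)
    gcongr
  have h7 : ∑ n ∈ Icc 1 ⌊N ^ q⌋₊, Aq N q n * Aq N q n / n ≤
      ∑ n ∈ Icc 1 ⌊N ^ q⌋₊, dv ((q:ℝ) / 2) n * dv ((q:ℝ) / 2) n / n := by
    refine sum_le_sum fun n _ => ?_
    have h8 := Aq_bd N q n
    have h9 := h8.1.trans h8.2
    gcongr
    · exact h8.1
    · exact h8.2
    · exact h8.2
  linarith

lemma l1_zA (N X : ℝ) (hN : 1 ≤ N) (hX : 1 ≤ X) (a q : ℕ) (ha : a ≤ q) :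
    l1 (zA N X a) (N ^ a * X) ≤ (N ^ q * X) ^ (q + 2) := by
  have h1 := (PB_cA_one 1 N (α := 1 / 2) (by norm_num) (by norm_num)).pow a
  have h2 := h1.mul (PB_cA_one 1 X (α := 1) (by norm_num) (by norm_num))
  have h3 : PB (zA N X a) (a + 1) := h2.mono (by simp)
  have hY : 1 ≤ N ^ a * X := one_le_mul_of_one_le_of_one_le (one_le_pow₀ hN) hX
  have h4 := l1_PB h3 hY
  have h5 : N ^ a * X ≤ N ^ q * X := by
    have := pow_le_pow_right₀ hN ha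
    gcongr
  calc _ ≤ (N ^ a * X) ^ (a + 1 + 1) := h4
    _ ≤ (N ^ q * X) ^ (a + 1 + 1) := pow_le_pow_left₀ (by linarith) h5 _
    _ ≤ _ := pow_le_pow_right₀ (hY.trans h5) (by omega)

lemma l1_Aq (N X : ℝ) (hN : 1 ≤ N) (hX : 1 ≤ X) (b q : ℕ) (hb : b ≤ q) :
    l1 (Aq N b) (N ^ b) ≤ (N ^ q * X) ^ (q + 2) := by
  have h1 := (PB_cA_one 1 N (α := 1 / 2) (by norm_num) (by norm_num)).pow b
  have h3 : PB (Aq N b) b := h1.mono (by simp)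
  have hY : 1 ≤ N ^ b := one_le_pow₀ hN
  have h4 := l1_PB h3 hY
  have h5 : N ^ b ≤ N ^ q * X := by
    have h6 := pow_le_pow_right₀ hN hb
    have h7 : 0 ≤ N ^ q := by positivity
    nlinarith
  calc _ ≤ (N ^ b) ^ (b + 1) := h4
    _ ≤ (N ^ q * X) ^ (b + 1) := pow_le_pow_left₀ (by linarith) h5 _
    _ ≤ _ := pow_le_pow_right₀ (hY.trans h5) (by omega)

end

end Pool.Agent.R311.SE
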