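import Pool.Agent.R311.SE.D

set_option autoImplicit false

/-! The core inequality in one window. -/

namespace Pool.Agent.R311.SE

open Finset MeasureTheory Filter Topology
open Pool.Agent.H306R2 Pool.Agent.R311.BS

noncomputable section

/-- the sector around the direction `u` -/
def SS (u : ℂ) (κ₀ : ℝ) : Set ℝ := {t | κ₀ * ‖zl t‖ < ((starRingEnd ℂ) u * zl t).re}

lemma SS_meas (u : ℂ) (κ₀ : ℝ) : MeasurableSet (SS u κ₀) := by
  have c := zl_cont
  have h1 : Continuous fun t : ℝ => κ₀ * ‖zl t‖ := by fun_prop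
  have h2 : Continuous fun t : ℝ => ((starRingEnd ℂ) u * zl t).re :=
    Complex.continuous_re.comp (continuous_const.mul c)
  exact (isOpen_lt h1 h2).measurableSet

/-- the pointwise inequality -/
lemma point {w : ℂ} {κ₀ κ₁ : ℝ} (hκ : κ₀ < 1 - κ₁) (him : |w.im| ≤ κ₁ * ‖w‖) :
    ‖w‖ + w.re ≤ κ₁ * ‖w‖ ∨ (κ₀ * ‖w‖ < w.re) ∨ w = 0 := by
  have h1 : ‖w‖ ≤ |w.re| + |w.im| := Complex.norm_le_abs_re_add_abs_im w
  rcases le_or_gt w.re 0 with h | h
  · left
    rw [abs_of_nonpos h] at h1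
    linarith
  · by_cases hw : w = 0
    · right; right; exact hw
    · right; left
      rw [abs_of_pos h] at h1
      have h2 : 0 < ‖w‖ := norm_pos_iff.mpr hw
      nlinarith

theorem core (q : ℕ) (hq : 2 ≤ q) (D : ℕ) (hD : 1 ≤ D) {δ : ℝ} (hδ : 0 ≤ δ) (hδ1 : δ ≤ 1 / 4)
    (N X Z ρ τ H R e₁ e₂ Ω L ψ κ₀ κ₁ Zb μ : ℝ) (u : ℂ) (hu : ‖u‖ = 1) (hN : 1 ≤ N)
    (hNX : N ^ q ≤ X) (hρ : 0 ≤ ρ) (hρ1 : ρ ≤ 1)
    (hZ : N ^ q * Real.exp 1 ≤ Z) (hρ2 : ρ ≤ 1 / Z) (hH : 0 < H) (hR : 0 < R) (he₁ : 0 ≤ e₁) (he₂ : 0 ≤ e₂)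
    (hL : (N ^ q * X) ^ (q + 2) ≤ L) (hμ : 0 < μ) (hκ₁ : 0 ≤ κ₁) (hκ1 : κ₁ ≤ 1 / 2) (hκ : κ₀ < 1 - κ₁)
    (happ : ∀ t ∈ Set.Ioc (τ - R) (τ + R), ‖zl t - zX X t‖ ≤ e₁)
    (hnr : ∀ m : ℤ, m ≠ 0 → m ≠ 1 → ∀ n l : ℕ, 1 ≤ n → (n:ℝ) ≤ N ^ q * X → 1 ≤ l → (l:ℝ) ≤ N ^ q →
      1 ≤ |m * Ω - Real.log n + Real.log l|)
    (hph : ∀ t ∈ Set.Ioc (τ - R) (τ + R), ‖Complex.exp ((ψ : ℂ) * Complex.I) * ex Ω t * zl t -
      u ^ 2 * (starRingEnd ℂ) (zl t)‖ ≤ e₂)
    (hB : ∀ t ∈ Set.Ioc (τ - R) (τ + R), ∀ n : ℤ, |(Ω * t + ψ) / (2 * Real.pi) - n| < 2 * δ →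
      |((starRingEnd ℂ) u * zl t).im| ≤ κ₁ * ‖zl t‖)
    (hZb : ∀ t ∈ Set.Ioc (τ - R) (τ + R), ‖zl t‖ ≤ Zb) :
    1 / 2 * (δ ^ 2 * Sd N X (q - 2) q - Sd N X q (q - 2) -
        ((Lam + 1) * (L * L * gq H ρ + L * L * (2 * Real.exp (-(R ^ 2 / (2 * H ^ 2)))) +
          e₁ * N ^ (2 * q - 2)) + e₂ * N ^ (2 * q - 2))) - 2 * Sd N X (q - 1) (q - 1) -
        ((Lam + 1) * (L * L * gq H ρ + L * L * (2 * Real.exp (-(R ^ 2 / (2 * H ^ 2)))) +
          e₁ * N ^ (2 * q - 2)) + e₂ * N ^ (2 * q - 2)) -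
        2 * (2 * D * Real.cos (Real.pi * δ) ^ (2 * D)) * Zb * N ^ (2 * q - 2) ≤
      2 * (Lam * (2 * μ * ((∑ n ∈ Icc 1 ⌊N ^ q⌋₊, dv ((q:ℝ) / 2) n * dv ((q:ℝ) / 2) n / n) +
          L * L * gq H ρ)) + Lam * (μ⁻¹) ^ (q - 1) *
        ∫ t in Set.Ioc (τ - R) (τ + R) ∩ SS u κ₀, ‖zl t‖ ^ q * gw τ H t) := by
  have hLam := Lam_ge_one
  have hX1 : 1 ≤ X := (one_le_pow₀ hN).trans hNX
  have hNk : ∀ k : ℕ, k ≤ q → N ^ k ≤ N ^ q := fun k hk => pow_le_pow_right₀ hN hk
  have hN1 : ∀ k : ℕ, 1 ≤ N ^ k := fun k => one_le_pow₀ hN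
  have hNaX : ∀ a b : ℕ, b ≤ q → N ^ b ≤ N ^ a * X := by
    intro a b hb
    calc N ^ b ≤ X := (hNk b hb).trans hNX
      _ = 1 * X := (one_mul X).symm
      _ ≤ N ^ a * X := by gcongr; exact hN1 a
  have hZk : ∀ k : ℕ, k ≤ q → N ^ k * Real.exp 1 ≤ Z := by
    intro k hk
    refine le_trans ?_ hZ
    have := hNk k hk
    gcongr
  have hl1 : ∀ a : ℕ, a ≤ q → l1 (zA N X a) (N ^ a * X) ≤ L := fun a ha => (l1_zA N X hN hX1 a q ha).trans hL
  have hl2 : ∀ a : ℕ, a ≤ q → l1 (Aq N a) (N ^ a) ≤ L := fun a ha => (l1_Aq N X hN hX1 a q ha).trans hL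
  have hδ1' : δ ≤ 1 := by linarith
  set I := Set.Ioc (τ - R) (τ + R) with hI
  have hImeas : MeasurableSet I := measurableSet_Ioc
  have hgwI := gw_integrable τ H hH
  obtain ⟨Er, hEr⟩ : ∃ Er : ℝ, Er = (Lam + 1) * (L * L * gq H ρ +
    L * L * (2 * Real.exp (-(R ^ 2 / (2 * H ^ 2)))) + e₁ * N ^ (2 * q - 2)) + e₂ * N ^ (2 * q - 2) := ⟨_, rfl⟩
  have hlw : ∀ a b : ℕ, a ≤ q → b ≤ q → a + b = 2 * q - 2 →
      ‖(∫ t in I, ((Wk D δ Ω ψ t : ℝ) : ℂ) *
        (zl t * AL N t ^ a * (starRingEnd ℂ) (AL N t ^ b)) * (gw τ H t : ℂ)) -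
      ((cD D δ 0 : ℂ) * ((Sd N X a b : ℝ) : ℂ) + (cD D δ 1 : ℂ) * u ^ 2 * ((Sd N X b a : ℝ) : ℂ))‖ ≤ Er := by
    intro a b ha hb hab
    have h := LW a b D hD hδ hδ1' N X Z ρ τ H R e₁ e₂ Ω L ψ (u ^ 2) (by rw [norm_pow, hu, one_pow]) hN hX1
      (hNaX a b hb) (hNaX b a ha) hρ hρ1 (hZk b hb) (hZk a ha) hρ2 hH hR.le he₁ he₂ (hl1 a ha) (hl2 b hb)
      (hl1 b hb) (hl2 a ha) happ (by
        intro m h0 h1 n l hn hnX hl hlY
        refine hnr m h0 h1 n l hn (hnX.trans ?_) hl (hlY.trans (hNk b hb))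
        have := hNk a ha
        gcongr) hph
    rw [hab, ← hEr] at h
    exact h
  have hcD0 : cD D δ 0 = δ ^ 2 := cD_zero D δ
  have hcD1 : 0 ≤ cD D δ 1 := cD_nonneg _ _ _
  have hcD1' : cD D δ 1 ≤ 1 := by
    have := cD_le D δ hδ hδ1' 1
    unfold lam at this
    simpa using this
  have hS : ∀ a b : ℕ, b ≤ q → 0 ≤ Sd N X a b := fun a b hb => Sd_nonneg N X a b ((hNk b hb).trans hNX)
  -- continuity
  have c1 := AL_cont N
  have c4 := zl_cont
  have c5 : ∀ k : ℕ, Continuous fun t : ℝ => (starRingEnd ℂ) (AL N t ^ k) := fun k =>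
    Complex.continuous_conj.comp (c1.pow k)
  have c7 : Continuous fun t : ℝ => gw τ H t := gw_continuous τ H
  have c9 : Continuous fun t : ℝ => Wk D δ Ω ψ t := Wk_cont D δ Ω ψ
  have c10 : Continuous fun t : ℝ => ((starRingEnd ℂ) u * zl t).re :=
    Complex.continuous_re.comp (continuous_const.mul c4)
  have hcI : ∀ F : ℝ → ℂ, Continuous F → IntegrableOn F I := fun F hF =>
    (hF.integrableOn_Icc (a := τ - R) (b := τ + R)).mono_set Set.Ioc_subset_Icc_self
  have hcIr : ∀ F : ℝ → ℝ, Continuous F → IntegrableOn F I := fun F hF =>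
    (hF.integrableOn_Icc (a := τ - R) (b := τ + R)).mono_set Set.Ioc_subset_Icc_self
  set W := Wk D δ Ω ψ with hW
  have hW0 : ∀ t, 0 ≤ W t := fun t => Wk_nonneg D hδ Ω ψ t
  have hW1 : ∀ t, W t ≤ Lam := fun t => Wk_le D hδ hδ1' Ω ψ t
  -- the mass
  set FM : ℝ → ℝ := fun t => W t * ‖zl t‖ * ‖AL N t‖ ^ (2 * q - 2) * gw τ H t with hFM
  set FR : ℝ → ℝ := fun t => W t * ((starRingEnd ℂ) u * zl t).re * ‖AL N t‖ ^ (2 * q - 2) * gw τ H t with hFR
  have cFM : Continuous FM := by rw [hFM]; fun_prop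
  have cFR : Continuous FR := by rw [hFR]; fun_prop
  have hFM0 : ∀ t, 0 ≤ FM t := by
    intro t
    have a1 := hW0 t
    have a2 := gw_nonneg τ H t hH
    rw [hFM]; simp only
    positivity
  set MW := ∫ t in I, FM t with hMW
  have hMW0 : 0 ≤ MW := setIntegral_nonneg hImeas fun t _ => hFM0 t
  have hMW1 : δ ^ 2 * Sd N X (q - 2) q - Sd N X q (q - 2) - Er ≤ MW := by
    have h1 := hlw (q - 2) q (by omega) le_rfl (by omega)
    set J := ∫ t in I, ((W t : ℝ) : ℂ) *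
        (zl t * AL N t ^ (q - 2) * (starRingEnd ℂ) (AL N t ^ q)) * (gw τ H t : ℂ) with hJ
    have h2 : ‖J‖ ≤ MW := by
      refine (norm_integral_le_integral_norm _).trans (le_of_eq ?_)
      refine setIntegral_congr_fun hImeas fun t _ => ?_
      have a2 := gw_nonneg τ H t hH
      rw [norm_mul, norm_mul, norm_mul, norm_mul, RCLike.norm_conj, norm_pow, norm_pow,
        Complex.norm_real, Complex.norm_real, Real.norm_of_nonneg a2, Real.norm_of_nonneg (hW0 t), hFM]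
      simp only
      have e : ‖AL N t‖ ^ (2 * q - 2) = ‖AL N t‖ ^ (q - 2) * ‖AL N t‖ ^ q := by
        rw [← pow_add]; congr 1; omega
      rw [e]; ring
    have h3 : ‖(cD D δ 0 : ℂ) * ((Sd N X (q - 2) q : ℝ) : ℂ) +
        (cD D δ 1 : ℂ) * u ^ 2 * ((Sd N X q (q - 2) : ℝ) : ℂ)‖ ≥
        δ ^ 2 * Sd N X (q - 2) q - Sd N X q (q - 2) := by
      have h4 := norm_sub_norm_le ((cD D δ 0 : ℂ) * ((Sd N X (q - 2) q : ℝ) : ℂ))
        (-((cD D δ 1 : ℂ) * u ^ 2 * ((Sd N X q (q - 2) : ℝ) : ℂ)))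
      rw [sub_neg_eq_add, norm_neg, norm_mul, norm_mul, norm_mul, norm_pow, hu, one_pow, mul_one,
        Complex.norm_real, Complex.norm_real, Complex.norm_real, Complex.norm_real,
        Real.norm_of_nonneg (hS (q - 2) q le_rfl), Real.norm_of_nonneg (hS q (q - 2) (by omega)),
        Real.norm_of_nonneg hcD1, hcD0, Real.norm_of_nonneg (by positivity : (0:ℝ) ≤ δ ^ 2)] at h4
      have h5 : cD D δ 1 * Sd N X q (q - 2) ≤ 1 * Sd N X q (q - 2) :=
        mul_le_mul_of_nonneg_right hcD1' (hS q (q - 2) (by omega))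
      rw [hcD0]
      linarith
    have h6 := norm_sub_norm_le ((cD D δ 0 : ℂ) * ((Sd N X (q - 2) q : ℝ) : ℂ) +
        (cD D δ 1 : ℂ) * u ^ 2 * ((Sd N X q (q - 2) : ℝ) : ℂ)) J
    rw [norm_sub_rev] at h6
    linarith
  have hFR1 : -(2 * Sd N X (q - 1) (q - 1) + Er) ≤ ∫ t in I, FR t := by
    have h1 := hlw (q - 1) (q - 1) (by omega) (by omega) (by omega)
    set J := ∫ t in I, ((W t : ℝ) : ℂ) *
        (zl t * AL N t ^ (q - 1) * (starRingEnd ℂ) (AL N t ^ (q - 1))) * (gw τ H t : ℂ) with hJ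
    have h2 : ∫ t in I, FR t = ((starRingEnd ℂ) u * J).re := by
      have hc : Continuous fun t : ℝ => (starRingEnd ℂ) u * (((W t : ℝ) : ℂ) *
        (zl t * AL N t ^ (q - 1) * (starRingEnd ℂ) (AL N t ^ (q - 1))) * (gw τ H t : ℂ)) := by
        have := c5 (q - 1)
        have c8 : Continuous fun t : ℝ => ((gw τ H t : ℝ) : ℂ) := Complex.continuous_ofReal.comp c7
        have c11 : Continuous fun t : ℝ => ((W t : ℝ) : ℂ) := Complex.continuous_ofReal.comp c9
        fun_prop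
      rw [hJ, ← integral_const_mul]
      have h3 := integral_re (hcI _ hc)
      have h4 : ∀ z : ℂ, RCLike.re z = z.re := fun z => rfl
      simp only [h4] at h3
      rw [← h3]
      refine setIntegral_congr_fun hImeas fun t _ => ?_
      have e1 : (starRingEnd ℂ) u * (((W t : ℝ) : ℂ) *
        (zl t * AL N t ^ (q - 1) * (starRingEnd ℂ) (AL N t ^ (q - 1))) * (gw τ H t : ℂ)) =
        ((W t * ‖AL N t‖ ^ (2 * q - 2) * gw τ H t : ℝ) : ℂ) * ((starRingEnd ℂ) u * zl t) := by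
        have e2 : AL N t ^ (q - 1) * (starRingEnd ℂ) (AL N t ^ (q - 1)) = ((‖AL N t‖ ^ (2 * q - 2) : ℝ) : ℂ) := by
          rw [Complex.mul_conj, Complex.normSq_eq_norm_sq, norm_pow, ← pow_mul]
          congr 3
          omega
        calc _ = ((W t : ℝ) : ℂ) * (AL N t ^ (q - 1) * (starRingEnd ℂ) (AL N t ^ (q - 1))) *
              (gw τ H t : ℂ) * ((starRingEnd ℂ) u * zl t) := by ring
          _ = _ := by rw [e2]; push_cast; ring
      rw [e1, Complex.re_ofReal_mul, hFR]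
      ring
    rw [h2]
    have h5 : ‖J‖ ≤ 2 * Sd N X (q - 1) (q - 1) + Er := by
      have h6 : ‖(cD D δ 0 : ℂ) * ((Sd N X (q - 1) (q - 1) : ℝ) : ℂ) +
        (cD D δ 1 : ℂ) * u ^ 2 * ((Sd N X (q - 1) (q - 1) : ℝ) : ℂ)‖ ≤ 2 * Sd N X (q - 1) (q - 1) := by
        refine (norm_add_le _ _).trans ?_
        rw [norm_mul, norm_mul, norm_mul, norm_pow, hu, one_pow, mul_one, Complex.norm_real,
          Complex.norm_real, Complex.norm_real, Real.norm_of_nonneg (hS (q - 1) (q - 1) (by omega)),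
          Real.norm_of_nonneg hcD1, hcD0, Real.norm_of_nonneg (by positivity : (0:ℝ) ≤ δ ^ 2)]
        have h7 := hS (q - 1) (q - 1) (by omega)
        have h8 : δ ^ 2 ≤ 1 := pow_le_one₀ hδ hδ1'
        nlinarith
      have h7 := norm_sub_norm_le J ((cD D δ 0 : ℂ) * ((Sd N X (q - 1) (q - 1) : ℝ) : ℂ) +
        (cD D δ 1 : ℂ) * u ^ 2 * ((Sd N X (q - 1) (q - 1) : ℝ) : ℂ))
      linarith
    have h8 : |((starRingEnd ℂ) u * J).re| ≤ ‖J‖ := by
      refine (Complex.abs_re_le_norm _).trans (le_of_eq ?_)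
      rw [norm_mul, RCLike.norm_conj, hu, one_mul]
    have h9 := (abs_le.mp h8).1
    linarith
  -- the tail of the kernel
  set TL := 2 * (D:ℝ) * Real.cos (Real.pi * δ) ^ (2 * D) with hTL
  have hcos : 0 ≤ Real.cos (Real.pi * δ) := by
    apply Real.cos_nonneg_of_mem_Icc
    constructor <;> nlinarith [Real.pi_pos]
  have hTL0 : 0 ≤ TL := by positivity
  have hSm := SS_meas u κ₀
  have hsum : ∫ t in I, (FM t + FR t) ≤ 2 * (∫ t in I ∩ SS u κ₀, FM t) + κ₁ * MW +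
      2 * TL * Zb * N ^ (2 * q - 2) := by
    have e1 : ∫ t in I ∩ SS u κ₀, FM t = ∫ t in I, (SS u κ₀).indicator FM t := by
      rw [integral_indicator hSm, Measure.restrict_restrict hSm, Set.inter_comm]
    have hi1 : IntegrableOn (fun t => (SS u κ₀).indicator FM t) I := (hcIr FM cFM).indicator hSm
    have hi2 : IntegrableOn (fun t => 2 * TL * Zb * N ^ (2 * q - 2) * gw τ H t) I :=
      (hgwI.const_mul _).integrableOn
    have hi12 : IntegrableOn (fun t => 2 * (SS u κ₀).indicator FM t + κ₁ * FM t) I :=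
      (hi1.const_mul 2).add ((hcIr FM cFM).const_mul κ₁)
    calc ∫ t in I, (FM t + FR t) ≤ ∫ t in I, (2 * (SS u κ₀).indicator FM t + κ₁ * FM t +
          2 * TL * Zb * N ^ (2 * q - 2) * gw τ H t) := by
          refine setIntegral_mono_on ((hcIr FM cFM).add (hcIr FR cFR)) (hi12.add hi2) hImeas fun t ht => ?_
          have hg := gw_nonneg τ H t hH
          have hw := hW0 t
          have hz := hZb t ht
          have hz0 : 0 ≤ ‖zl t‖ := norm_nonneg _
          have ha := AL_norm N hN t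
          have hnw : ‖(starRingEnd ℂ) u * zl t‖ = ‖zl t‖ := by
            rw [norm_mul, RCLike.norm_conj, hu, one_mul]
          have hre : ((starRingEnd ℂ) u * zl t).re ≤ ‖zl t‖ := by
            rw [← hnw]; exact Complex.re_le_norm _
          have hind : 0 ≤ (SS u κ₀).indicator FM t := Set.indicator_nonneg (fun t _ => hFM0 t) t
          have hPow : 0 ≤ ‖AL N t‖ ^ (2 * q - 2) := by positivity
          have hPow2 : ‖AL N t‖ ^ (2 * q - 2) ≤ N ^ (2 * q - 2) := pow_le_pow_left₀ (norm_nonneg _) ha _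
          by_cases hn : ∃ n : ℤ, |(Ω * t + ψ) / (2 * Real.pi) - n| < 2 * δ
          · obtain ⟨n, hn⟩ := hn
            have him := hB t ht n hn
            rw [← hnw] at him
            have hp := point hκ him
            rw [hnw] at hp
            have hlast : 0 ≤ 2 * TL * Zb * N ^ (2 * q - 2) * gw τ H t := by
              have : 0 ≤ Zb := hz0.trans hz
              positivity
            have hFMt : FM t = W t * ‖zl t‖ * ‖AL N t‖ ^ (2 * q - 2) * gw τ H t := rfl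
            have hFRt : FR t = W t * ((starRingEnd ℂ) u * zl t).re * ‖AL N t‖ ^ (2 * q - 2) * gw τ H t := rfl
            have hK : 0 ≤ W t * ‖AL N t‖ ^ (2 * q - 2) * gw τ H t := by positivity
            have hFM0t := hFM0 t
            rcases hp with hp | hp | hp
            · have h1 : FM t + FR t ≤ κ₁ * FM t := by
                have h2 := mul_le_mul_of_nonneg_left hp hK
                rw [hFMt, hFRt]
                nlinarith
              linarith
            · have h3 : (SS u κ₀).indicator FM t = FM t := Set.indicator_of_mem (show t ∈ SS u κ₀ from hp) FM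
              have h1 : FR t ≤ FM t := by
                have h2 := mul_le_mul_of_nonneg_left hre hK
                rw [hFMt, hFRt]
                nlinarith
              rw [h3]
              have h4 : 0 ≤ κ₁ * FM t := by positivity
              linarith
            · have h1 : FM t + FR t = 0 := by
                rw [hFMt, hFRt, ← hnw, hp]
                simp
              rw [h1]
              have h4 : 0 ≤ κ₁ * FM t := by positivity
              linarith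
          · have htail : W t ≤ TL := by
              refine FD_tail D hD δ _ hδ hδ1 fun n => ?_
              push Not at hn
              exact hn n
            have hK : 0 ≤ ‖AL N t‖ ^ (2 * q - 2) * gw τ H t := by positivity
            have h1 : FM t + FR t ≤ 2 * (W t * ‖zl t‖ * ‖AL N t‖ ^ (2 * q - 2) * gw τ H t) := by
              have h2 := mul_le_mul_of_nonneg_left hre (mul_nonneg hw hK)
              rw [hFM, hFR]
              simp only
              nlinarith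
            have h2 : W t * ‖zl t‖ * ‖AL N t‖ ^ (2 * q - 2) * gw τ H t ≤ TL * Zb * N ^ (2 * q - 2) * gw τ H t := by
              have : 0 ≤ Zb := hz0.trans hz
              gcongr
            have h4 : 0 ≤ κ₁ * FM t := mul_nonneg hκ₁ (hFM0 t)
            linarith
      _ = 2 * (∫ t in I ∩ SS u κ₀, FM t) + κ₁ * MW + ∫ t in I, 2 * TL * Zb * N ^ (2 * q - 2) * gw τ H t := by
          rw [integral_add hi12 hi2, integral_add (hi1.const_mul 2) ((hcIr FM cFM).const_mul κ₁),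
            integral_const_mul, integral_const_mul, e1]
      _ ≤ _ := by
          have h1 : ∫ t in I, 2 * TL * Zb * N ^ (2 * q - 2) * gw τ H t ≤ 2 * TL * Zb * N ^ (2 * q - 2) := by
            rw [integral_const_mul]
            have h2 : ∫ t in I, gw τ H t ≤ 1 := by
              rw [← gw_integral τ H hH]
              exact setIntegral_le_integral hgwI (Eventually.of_forall fun t => gw_nonneg τ H t hH)
            have ht : τ ∈ I := by
              rw [hI]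
              constructor <;> linarith
            have hzb : 0 ≤ Zb := (norm_nonneg _).trans (hZb τ ht)
            have : 0 ≤ 2 * TL * Zb * N ^ (2 * q - 2) := by positivity
            nlinarith
          linarith
  rw [integral_add (hcIr FM cFM) (hcIr FR cFR)] at hsum
  -- Young
  obtain ⟨hV1, hV2⟩ := sq_mean N hN q Z ρ τ H L hH hρ hρ1 hZ hρ2 (hl2 q le_rfl)
  have hG1 : ∫ t in I ∩ SS u κ₀, FM t ≤ Lam * (2 * μ * ∫ t : ℝ, ‖AL N t‖ ^ (2 * q) * gw τ H t) +
      Lam * (μ⁻¹) ^ (q - 1) * ∫ t in I ∩ SS u κ₀, ‖zl t‖ ^ q * gw τ H t := by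
    have hIS : MeasurableSet (I ∩ SS u κ₀) := hImeas.inter hSm
    have hg1 : IntegrableOn (fun t => ‖zl t‖ ^ q * gw τ H t) (I ∩ SS u κ₀) :=
      (hcIr _ ((c4.norm.pow q).mul c7)).mono_set Set.inter_subset_left
    have hi1 : IntegrableOn (fun t => Lam * (2 * μ) * (‖AL N t‖ ^ (2 * q) * gw τ H t)) (I ∩ SS u κ₀) :=
      (hV1.const_mul _).integrableOn
    have hi2 : IntegrableOn (fun t => Lam * (μ⁻¹) ^ (q - 1) * (‖zl t‖ ^ q * gw τ H t)) (I ∩ SS u κ₀) :=
      hg1.const_mul _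
    calc ∫ t in I ∩ SS u κ₀, FM t ≤ ∫ t in I ∩ SS u κ₀, (Lam * (2 * μ) * (‖AL N t‖ ^ (2 * q) * gw τ H t) +
          Lam * (μ⁻¹) ^ (q - 1) * (‖zl t‖ ^ q * gw τ H t)) := by
          refine setIntegral_mono_on ((hcIr FM cFM).mono_set Set.inter_subset_left) (hi1.add hi2) hIS
            fun t ht => ?_
          have hg := gw_nonneg τ H t hH
          have hw := hW0 t
          have hw1 := hW1 t
          have hy := young q hq ‖zl t‖ ‖AL N t‖ (‖AL N t‖ ^ q) μ (norm_nonneg _) (norm_nonneg _)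
            (by positivity) hμ
          have e1 : ‖zl t‖ * ‖AL N t‖ ^ (q - 2) * ‖AL N t‖ ^ q = ‖zl t‖ * ‖AL N t‖ ^ (2 * q - 2) := by
            rw [mul_assoc, ← pow_add]; congr 2; omega
          have e2 : (‖AL N t‖ ^ q) ^ 2 = ‖AL N t‖ ^ (2 * q) := by rw [← pow_mul, mul_comm q 2]
          rw [e1, e2] at hy
          have hy0 : 0 ≤ ‖zl t‖ * ‖AL N t‖ ^ (2 * q - 2) := by positivity
          calc FM t = W t * (‖zl t‖ * ‖AL N t‖ ^ (2 * q - 2)) * gw τ H t := by rw [hFM]; ring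
            _ ≤ Lam * (μ * (‖AL N t‖ ^ (2 * q) + ‖AL N t‖ ^ (2 * q)) + (μ⁻¹) ^ (q - 1) * ‖zl t‖ ^ q) * gw τ H t := by
                gcongr
            _ = _ := by ring
      _ = Lam * (2 * μ) * (∫ t in I ∩ SS u κ₀, ‖AL N t‖ ^ (2 * q) * gw τ H t) +
          Lam * (μ⁻¹) ^ (q - 1) * ∫ t in I ∩ SS u κ₀, ‖zl t‖ ^ q * gw τ H t := by
          rw [integral_add hi1 hi2, integral_const_mul, integral_const_mul]
      _ ≤ _ := by
          have h1 : ∫ t in I ∩ SS u κ₀, ‖AL N t‖ ^ (2 * q) * gw τ H t ≤ ∫ t : ℝ, ‖AL N t‖ ^ (2 * q) * gw τ H t := by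
            refine setIntegral_le_integral hV1 (Eventually.of_forall fun t => ?_)
            have hg := gw_nonneg τ H t hH
            simp only [Pi.zero_apply]
            positivity
          have h2 : Lam * (2 * μ) * (∫ t in I ∩ SS u κ₀, ‖AL N t‖ ^ (2 * q) * gw τ H t) ≤
              Lam * (2 * μ) * ∫ t : ℝ, ‖AL N t‖ ^ (2 * q) * gw τ H t := by
            apply mul_le_mul_of_nonneg_left h1
            positivity
          linarith
  have hG2 : Lam * (2 * μ * ∫ t : ℝ, ‖AL N t‖ ^ (2 * q) * gw τ H t) ≤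
      Lam * (2 * μ * ((∑ n ∈ Icc 1 ⌊N ^ q⌋₊, dv ((q:ℝ) / 2) n * dv ((q:ℝ) / 2) n / n) + L * L * gq H ρ)) := by
    gcongr
  have hhalf : 1 / 2 * MW ≤ (1 - κ₁) * MW := by nlinarith
  have hm : 1 / 2 * (δ ^ 2 * Sd N X (q - 2) q - Sd N X q (q - 2) - Er) ≤ 1 / 2 * MW := by linarith
  rw [← hEr]
  have e9 : (∫ t in I, FM t) = MW := rfl
  rw [e9] at hsum
  linarith

end

end Pool.Agent.R311.SE
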