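import Pool.Agent.R311.SE.A
import Pool.Agent.R311.SE.B

set_option autoImplicit false

/-! The phase and the direction of zeta. -/

namespace Pool.Agent.R311.SE

open Finset MeasureTheory Filter Topology
open Pool.Agent.W188.QS (cp XX)
open Pool.Agent.H306R2 Pool.Agent.R311.BS

noncomputable section

lemma zl_cp (t : ℝ) : zl t = riemannZeta (cp t) := rfl

lemma fe {t : ℝ} (ht : 1 ≤ t) : (starRingEnd ℂ) (zl t) = XX (cp t) * zl t := by
  obtain ⟨-, -, h, -⟩ := Pool.Agent.W338.QS.qs_line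
  exact h t ht

lemma exp_sub_one (y : ℝ) : ‖Complex.exp ((y : ℂ) * Complex.I) - 1‖ ≤ |y| := by
  have := Real.norm_exp_I_mul_ofReal_sub_one_le (x := y)
  rw [mul_comm]
  exact this

theorem phase {τ R : ℝ} (hτ : 100 ≤ τ) (hR0 : 0 ≤ R) (hR : R ≤ τ / 2) {u : ℂ} (hu : ‖u‖ = 1) :
    ∃ ψ : ℝ, (∀ t : ℝ, |t - τ| ≤ R →
      ‖Complex.exp ((ψ : ℂ) * Complex.I) * ex (Real.log (τ / (2 * Real.pi))) t * zl t -
        u ^ 2 * (starRingEnd ℂ) (zl t)‖ ≤ ‖zl t‖ * (R * (28 + 2 * R) / τ)) ∧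
      ∀ (δ t : ℝ), |t - τ| ≤ R → ∀ n : ℤ,
        |(Real.log (τ / (2 * Real.pi)) * t + ψ) / (2 * Real.pi) - n| < 2 * δ →
        |((starRingEnd ℂ) u * zl t).im| ≤ (2 * Real.pi * δ + R * (28 + 2 * R) / τ / 2) * ‖zl t‖ := by
  obtain ⟨-, hn, -, -⟩ := Pool.Agent.W338.QS.qs_line
  set Ω := Real.log (τ / (2 * Real.pi)) with hΩ
  obtain ⟨z, hz⟩ : ∃ z : ℂ, z = XX (cp τ) * u ^ 2 * ex (-Ω) τ := ⟨_, rfl⟩
  have hz1 : ‖z‖ = 1 := by
    rw [hz, norm_mul, norm_mul, norm_pow, hu, ex_norm, hn τ]; norm_num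
  have hψ : Complex.exp ((z.arg : ℂ) * Complex.I) = z := by
    have := Complex.norm_mul_exp_arg_mul_I z
    rwa [hz1, Complex.ofReal_one, one_mul] at this
  have hE : ∀ t : ℝ, Complex.exp ((z.arg : ℂ) * Complex.I) * ex Ω t = u ^ 2 * (XX (cp τ) * ex Ω (t - τ)) := by
    intro t
    rw [hψ, hz]
    have : ex (-Ω) τ * ex Ω t = ex Ω (t - τ) := by
      unfold ex
      rw [← Complex.exp_add]
      congr 1
      push_cast
      ring
    calc _ = u ^ 2 * (XX (cp τ) * (ex (-Ω) τ * ex Ω t)) := by ring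
      _ = _ := by rw [this]
  have hlin : ∀ t : ℝ, |t - τ| ≤ R → ‖Complex.exp ((z.arg : ℂ) * Complex.I) * ex Ω t - u ^ 2 * XX (cp t)‖ ≤
      R * (28 + 2 * R) / τ := by
    intro t ht
    rw [hE, ← mul_sub, norm_mul, norm_pow, hu, one_pow, one_mul, norm_sub_rev]
    exact XX_lin hτ hR ht
  have ht1 : ∀ t : ℝ, |t - τ| ≤ R → 1 ≤ t := by
    intro t ht
    have := (abs_le.mp ht).1
    linarith
  refine ⟨z.arg, fun t ht => ?_, fun δ t ht n hx => ?_⟩
  · rw [fe (ht1 t ht)]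
    have e1 : Complex.exp ((z.arg : ℂ) * Complex.I) * ex Ω t * zl t - u ^ 2 * (XX (cp t) * zl t) =
      zl t * (Complex.exp ((z.arg : ℂ) * Complex.I) * ex Ω t - u ^ 2 * XX (cp t)) := by ring
    rw [e1, norm_mul]
    exact mul_le_mul_of_nonneg_left (hlin t ht) (norm_nonneg _)
  · obtain ⟨w, hw⟩ : ∃ w : ℂ, w = (starRingEnd ℂ) u * zl t := ⟨_, rfl⟩
    have hnw : ‖w‖ = ‖zl t‖ := by rw [hw, norm_mul, RCLike.norm_conj, hu, one_mul]
    have huu : u * (starRingEnd ℂ) u = 1 := by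
      rw [Complex.mul_conj, Complex.normSq_eq_norm_sq, hu]; simp
    have hcw : (starRingEnd ℂ) w = (u ^ 2 * XX (cp t)) * w := by
      rw [hw, map_mul, Complex.conj_conj, fe (ht1 t ht)]
      calc u * (XX (cp t) * zl t) = u * 1 * (XX (cp t) * zl t) := by ring
        _ = u * (u * (starRingEnd ℂ) u) * (XX (cp t) * zl t) := by rw [huu]
        _ = _ := by ring
    have h1 : ‖Complex.exp ((z.arg : ℂ) * Complex.I) * ex Ω t - 1‖ ≤ 4 * Real.pi * δ := by
      have e1 : Complex.exp ((z.arg : ℂ) * Complex.I) * ex Ω t =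
          Complex.exp (((2 * Real.pi * ((Ω * t + z.arg) / (2 * Real.pi) - n) : ℝ) : ℂ) * Complex.I) := by
        unfold ex
        rw [← Complex.exp_add, Complex.exp_eq_exp_iff_exists_int]
        refine ⟨n, ?_⟩
        have hpi := Real.pi_ne_zero
        have e2 : 2 * Real.pi * ((Ω * t + z.arg) / (2 * Real.pi) - n) = Ω * t + z.arg - n * (2 * Real.pi) := by
          field_simp
        rw [e2]
        push_cast
        ring
      rw [e1]
      refine (exp_sub_one _).trans ?_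
      rw [abs_mul, abs_of_pos (by positivity : (0:ℝ) < 2 * Real.pi)]
      have := Real.pi_pos
      nlinarith
    have h2 := hlin t ht
    have h3 : ‖u ^ 2 * XX (cp t) - 1‖ ≤ 4 * Real.pi * δ + R * (28 + 2 * R) / τ := by
      have e1 : u ^ 2 * XX (cp t) - 1 = (Complex.exp ((z.arg : ℂ) * Complex.I) * ex Ω t - 1) -
        (Complex.exp ((z.arg : ℂ) * Complex.I) * ex Ω t - u ^ 2 * XX (cp t)) := by ring
      rw [e1]
      exact (norm_sub_le _ _).trans (add_le_add h1 h2)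
    have h4 : (starRingEnd ℂ) w - w = (u ^ 2 * XX (cp t) - 1) * w := by rw [hcw]; ring
    have h5 : 2 * |w.im| = ‖(starRingEnd ℂ) w - w‖ := by
      have e1 : (starRingEnd ℂ) w - w = ((-(2 * w.im) : ℝ) : ℂ) * Complex.I := by
        apply Complex.ext <;> simp
        ring
      rw [e1, norm_mul, Complex.norm_I, mul_one, Complex.norm_real, Real.norm_eq_abs, abs_neg, abs_mul]
      norm_num
    rw [← hw, ← hnw]
    rw [h4, norm_mul] at h5
    have h6 := mul_le_mul_of_nonneg_right h3 (norm_nonneg w)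
    nlinarith [h5, h6]

/-- trivial bound -/
lemma sum_inv_sqrt (N : ℕ) : ∑ n ∈ Icc 1 N, (Real.sqrt n)⁻¹ ≤ 2 * Real.sqrt N := by
  induction N with
  | zero => simp
  | succ N ih =>
    rw [Finset.sum_Icc_succ_top (by omega)]
    have h1 : (0:ℝ) ≤ N := Nat.cast_nonneg N
    have h2 : 0 < Real.sqrt ((N:ℝ) + 1) := Real.sqrt_pos.mpr (by linarith)
    have h3 := Real.sqrt_nonneg (N:ℝ)
    have h4 : Real.sqrt ((N:ℝ) + 1) ^ 2 = N + 1 := Real.sq_sqrt (by linarith)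
    have h5 : Real.sqrt (N:ℝ) ^ 2 = N := Real.sq_sqrt h1
    have h6 : (Real.sqrt ((N:ℝ) + 1))⁻¹ ≤ 2 * Real.sqrt ((N:ℝ) + 1) - 2 * Real.sqrt N := by
      rw [inv_le_iff_one_le_mul₀ h2]
      nlinarith [sq_nonneg (Real.sqrt ((N:ℝ) + 1) - Real.sqrt N)]
    push_cast
    linarith

lemma zX_norm (N : ℕ) (t : ℝ) : ‖zX N t‖ ≤ 2 * Real.sqrt N := by
  rw [zX_eq]
  refine le_trans (norm_sum_le_of_le _ fun n hn => ?_) (sum_inv_sqrt N)
  rw [mem_Icc] at hn
  rw [ncpow_line n hn.1, norm_mul, ex_norm, mul_one, Complex.norm_real, Real.norm_of_nonneg (by positivity)]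

end

end Pool.Agent.R311.SE
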