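import Pool.Agent.R311.SE.E
import Pool.Agent.R311.SE.P
import Pool.Agent.R311.BS.WF

set_option autoImplicit false

/-! Choice of the parameters. -/

namespace Pool.Agent.R311.SE

open Finset MeasureTheory Filter Topology
open Pool.Agent.H306R2
open Pool.Agent.R311.BS (ex gq FD Lam Lam_ge_one zX ev_small ev_pow ev_rpow_ge
  ev_log_rpow_ge U_lower zX_eq l1)

noncomputable section

lemma ev_logpow (K α β : ℝ) (h : α < β) : ∀ᶠ T : ℝ in atTop, K * Real.log T ^ α ≤ Real.log T ^ β := by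
  have h1 : Tendsto (fun T : ℝ => Real.log T ^ (β - α)) atTop atTop :=
    (tendsto_rpow_atTop (by linarith)).comp Real.tendsto_log_atTop
  filter_upwards [h1.eventually (eventually_ge_atTop K), Real.tendsto_log_atTop.eventually_gt_atTop 0]
    with T hT hl
  have e : Real.log T ^ β = Real.log T ^ (β - α) * Real.log T ^ α := by
    rw [← Real.rpow_add hl]; congr 1; ring
  rw [e]
  have : 0 ≤ Real.log T ^ α := Real.rpow_nonneg hl.le _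
  gcongr

/-- mixed diagonal sums are small -/
theorem Sd_upper (q a b : ℕ) (hq : 1 ≤ q) (hb : b ≤ q) (hba : (b:ℝ) / 2 ≤ (a:ℝ) / 2 + 1) (ν : ℝ) (hν : 0 < ν) :
    ∃ C : ℝ, 0 < C ∧ ∀ᶠ T : ℝ in atTop, ∀ X : ℝ, (T ^ ν) ^ q ≤ X →
      Sd (T ^ ν) X a b ≤ C * Real.log T ^ (((a:ℝ) / 2 + 1) * ((b:ℝ) / 2)) := by
  obtain ⟨C, hC, h⟩ := mixed (κ := (a:ℝ) / 2 + 1) (f := (b:ℝ) / 2) (by positivity) (by positivity) hba
  have hqr : (1:ℝ) ≤ q := by exact_mod_cast hq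
  refine ⟨C * (ν * q) ^ (((a:ℝ) / 2 + 1) * ((b:ℝ) / 2)), by positivity, ?_⟩
  filter_upwards [ev_rpow_ge (Real.exp 1) (ν * q) (by positivity), eventually_ge_atTop 1] with T hT hT1 X hX
  have hT0 : 0 < T := by linarith
  have hN1 : 1 ≤ T ^ ν := Real.one_le_rpow hT1 hν.le
  have e1 : (T ^ ν) ^ q = T ^ (ν * q) := by rw [← Real.rpow_natCast, ← Real.rpow_mul hT0.le]
  have hbq : (T ^ ν) ^ b ≤ (T ^ ν) ^ q := pow_le_pow_right₀ hN1 hb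
  refine (Sd_le (T ^ ν) X a b (hbq.trans hX)).trans ?_
  have h2 : ∑ n ∈ Icc 1 ⌊(T ^ ν) ^ b⌋₊, dv ((a:ℝ) / 2 + 1) n * dv ((b:ℝ) / 2) n / n ≤
      ∑ n ∈ Icc 1 ⌊(T ^ ν) ^ q⌋₊, dv ((a:ℝ) / 2 + 1) n * dv ((b:ℝ) / 2) n / n := by
    refine sum_le_sum_of_subset_of_nonneg (Icc_subset_Icc_right (Nat.floor_le_floor hbq)) fun n _ _ => ?_
    have h3 := dv_nonneg (show (0:ℝ) ≤ (a:ℝ) / 2 + 1 by positivity) n
    have h4 := dv_nonneg (show (0:ℝ) ≤ (b:ℝ) / 2 by positivity) n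
    positivity
  refine h2.trans ?_
  rw [e1]
  refine (h _ hT).trans (le_of_eq ?_)
  rw [Real.log_rpow hT0, Real.mul_rpow (by positivity) (Real.log_nonneg hT1)]
  ring

theorem U_up (q : ℕ) (hq : 1 ≤ q) (ν : ℝ) (hν : 0 < ν) : ∃ C : ℝ, 0 < C ∧ ∀ᶠ T : ℝ in atTop,
    ∑ n ∈ Icc 1 ⌊(T ^ ν) ^ q⌋₊, dv ((q:ℝ) / 2) n * dv ((q:ℝ) / 2) n / n ≤
      C * Real.log T ^ (((q:ℝ) / 2) * ((q:ℝ) / 2)) := by
  have hqr : (1:ℝ) ≤ q := by exact_mod_cast hq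
  obtain ⟨C, hC, h⟩ := mixed (κ := (q:ℝ) / 2) (f := (q:ℝ) / 2) (by positivity) (by positivity) le_rfl
  refine ⟨C * (ν * q) ^ (((q:ℝ) / 2) * ((q:ℝ) / 2)), by positivity, ?_⟩
  filter_upwards [ev_rpow_ge (Real.exp 1) (ν * q) (by positivity), eventually_ge_atTop 1] with T hT hT1
  have hT0 : 0 < T := by linarith
  have e1 : (T ^ ν) ^ q = T ^ (ν * q) := by rw [← Real.rpow_natCast, ← Real.rpow_mul hT0.le]
  rw [e1]
  refine (h _ hT).trans (le_of_eq ?_)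
  rw [Real.log_rpow hT0, Real.mul_rpow (by positivity) (Real.log_nonneg hT1)]
  ring

lemma fin_arith {A S2 S3 Er TLt M6 V G : ℝ}
    (h : 1 / 2 * (A - S2 - Er) - 2 * S3 - Er - TLt ≤ 2 * (V + M6 + G))
    (h2 : S2 ≤ A / 16) (h3 : S3 ≤ A / 32) (hE : Er ≤ 1) (hT : TLt ≤ 1) (h6 : M6 ≤ 1)
    (hV : V ≤ A / 16) (hA : 200 ≤ A) : A / 8 ≤ G := by linarith

lemma nonres {ℓ Ω lx ly : ℝ} (m : ℤ) (h0 : m ≠ 0) (h1 : m ≠ 1) (hℓ : 10 ≤ ℓ) (hΩ : ℓ - 2 ≤ Ω)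
    (hx0 : 0 ≤ lx) (hx : lx ≤ 65 / 64 * ℓ + 3) (hy0 : 0 ≤ ly) (hy : ly ≤ ℓ / 64) :
    1 ≤ |m * Ω - lx + ly| := by
  rcases lt_or_ge m 0 with h | h
  · have hm : (m:ℝ) ≤ -1 := by exact_mod_cast (by omega : m ≤ -1)
    have h2 : (m:ℝ) * Ω ≤ -1 * Ω := mul_le_mul_of_nonneg_right hm (by linarith)
    rw [abs_of_nonpos (by linarith)]
    linarith
  · have hm : (2:ℝ) ≤ m := by exact_mod_cast (by omega : 2 ≤ m)
    have h2 : 2 * Ω ≤ (m:ℝ) * Ω := mul_le_mul_of_nonneg_right hm (by linarith)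
    refine le_trans ?_ (le_abs_self _)
    linarith

lemma gq_val {T ε N H Z ρ : ℝ} {q : ℕ} (hT0 : 0 < T) (hHdef : H = T ^ ε) (hNq : N ^ q = T ^ (ε / 4))
    (hZdef : Z = 3 * N ^ q) (hρdef : ρ = 1 / Z) : gq H ρ = Real.exp (-(1 / 36 * T ^ (3 * ε / 2))) := by
  unfold gq
  congr 1
  have e1 : H ^ 2 = T ^ (2 * ε) := by
    rw [hHdef, ← Real.rpow_natCast, ← Real.rpow_mul hT0.le]
    congr 1; push_cast; ring
  have e2 : ρ ^ 2 = 1 / 9 * T ^ (-(ε / 2)) := by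
    rw [hρdef, hZdef, hNq, one_div, inv_pow, mul_pow, mul_inv, ← Real.rpow_natCast (T ^ (ε / 4)),
      ← Real.rpow_mul hT0.le, ← Real.rpow_neg hT0.le]
    norm_num
    congr 1
    ring
  rw [e1, e2]
  have e3 : T ^ (3 * ε / 2) = T ^ (2 * ε) * T ^ (-(ε / 2)) := by
    rw [← Real.rpow_add hT0]; congr 1; ring
  rw [e3]; ring

lemma RH_val {T ε H R : ℝ} (hT0 : 0 < T) (hHdef : H = T ^ ε) (hRdef : R = T ^ (2 * ε)) (hH : 0 < H) :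
    Real.exp (-(R ^ 2 / (2 * H ^ 2))) = Real.exp (-(1 / 2 * T ^ (2 * ε))) := by
  congr 1
  have e1 : R ^ 2 = H ^ 2 * T ^ (2 * ε) := by
    rw [hHdef, hRdef, ← Real.rpow_natCast, ← Real.rpow_natCast, ← Real.rpow_mul hT0.le,
      ← Real.rpow_mul hT0.le, ← Real.rpow_add hT0]
    congr 1; push_cast; ring
  rw [e1]
  field_simp

lemma R4_le {T ε R : ℝ} (hT0 : 0 < T) (hRdef : R = T ^ (2 * ε)) (g18 : 4 * T ^ (-(1 - 2 * ε)) ≤ 1) :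
    4 * R ≤ T := by
  have e1 : 4 * R = (4 * T ^ (-(1 - 2 * ε))) * T := by
    have : T ^ (2 * ε) = T ^ (-(1 - 2 * ε)) * T := by
      conv_rhs => rw [← Real.rpow_one T, ← Real.rpow_mul hT0.le, ← Real.rpow_add hT0]
      congr 1; ring
    rw [hRdef, this]; ring
  rw [e1]
  calc _ ≤ 1 * T := by gcongr
    _ = T := one_mul T

lemma app_val {T τ R e₁ : ℝ} {X₀ : ℕ} (hT : 1000 ≤ T) (hτ1 : T ≤ τ) (h4R : 4 * R ≤ T)
    (hX3 : 3 * τ ≤ X₀) (hX4 : (X₀:ℝ) ≤ 3 * τ + 1) (he₁def : e₁ = 1575 * (Real.sqrt 2 * T ^ (-(1 / 2) : ℝ))) :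
    ∀ t ∈ Set.Ioc (τ - R) (τ + R), ‖zl t - zX X₀ t‖ ≤ e₁ := by
  intro t ht
  have hT0 : 0 < T := by linarith
  have ht1 : T / 2 ≤ t := by linarith [ht.1]
  have ht2 : t ≤ τ + T / 4 := by linarith [ht.2]
  have ht3 : τ - T / 4 ≤ t := by linarith [ht.1]
  have h := Pool.Agent.Y210.R9.zap0 t X₀ (by linarith) (by linarith) (by linarith)
  unfold zl
  rw [zX_eq]
  refine h.trans ?_
  rw [he₁def]
  have h5 : t ^ (-(1 / 2) : ℝ) ≤ (T / 2) ^ (-(1 / 2) : ℝ) :=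
    Real.rpow_le_rpow_of_nonpos (by linarith) ht1 (by norm_num)
  have h6 : (T / 2) ^ (-(1 / 2) : ℝ) = Real.sqrt 2 * T ^ (-(1 / 2) : ℝ) := by
    rw [Real.div_rpow hT0.le (by norm_num), Real.rpow_neg (by norm_num : (0:ℝ) ≤ 2), div_inv_eq_mul,
      Real.sqrt_eq_rpow, mul_comm]
  rw [h6] at h5
  gcongr

lemma Zb_val {T τ R e₁ : ℝ} {X₀ : ℕ} (hT : 1000 ≤ T) (hXT : (X₀:ℝ) ≤ 10 * T) (he₁1 : e₁ ≤ 1)
    (happ : ∀ t ∈ Set.Ioc (τ - R) (τ + R), ‖zl t - zX X₀ t‖ ≤ e₁) :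
    ∀ t ∈ Set.Ioc (τ - R) (τ + R), ‖zl t‖ ≤ 8 * T ^ (1 / 2 : ℝ) := by
  intro t ht
  have hT0 : 0 < T := by linarith
  have h1 := happ t ht
  have h2 := zX_norm X₀ t
  have h3 : ‖zl t‖ ≤ ‖zX X₀ t‖ + e₁ := by
    have := norm_sub_norm_le (zl t) (zX X₀ t)
    linarith
  have h4 : Real.sqrt X₀ ≤ 7 / 2 * T ^ (1 / 2 : ℝ) := by
    rw [← Real.sqrt_eq_rpow]
    apply Real.sqrt_le_iff.mpr
    refine ⟨by positivity, ?_⟩
    rw [mul_pow, Real.sq_sqrt hT0.le]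
    linarith
  have h5 : 1 ≤ T ^ (1 / 2 : ℝ) := Real.one_le_rpow (by linarith) (by norm_num)
  linarith

lemma w_val {T τ R ε w : ℝ} (hT : 1000 ≤ T) (hτ1 : T ≤ τ) (hRdef : R = T ^ (2 * ε)) (hR28 : 28 ≤ R)
    (hw : w = R * (28 + 2 * R) / τ) : w ≤ 3 * T ^ (-(1 - 4 * ε)) := by
  have hT0 : 0 < T := by linarith
  have e1 : T ^ (-(1 - 4 * ε)) = R ^ 2 / T := by
    have : R ^ 2 = T ^ (-(1 - 4 * ε)) * T := by
      conv_rhs => rw [← Real.rpow_one T, ← Real.rpow_mul hT0.le, ← Real.rpow_add hT0]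
      rw [hRdef, ← Real.rpow_natCast, ← Real.rpow_mul hT0.le]
      congr 1; push_cast; ring
    rw [this]; field_simp
  rw [e1, hw]
  have h1 : R * (28 + 2 * R) ≤ 3 * R ^ 2 := by nlinarith
  calc R * (28 + 2 * R) / τ ≤ 3 * R ^ 2 / T := by gcongr
    _ = _ := by ring

lemma Om_val {T τ : ℝ} (hT : 1000 ≤ T) (hτ1 : T ≤ τ) : Real.log T - 2 ≤ Real.log (τ / (2 * Real.pi)) := by
  have hT0 : 0 < T := by linarith
  have hτ0 : 0 < τ := by linarith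
  have hpi := Real.pi_pos
  have hpi4 := Real.pi_lt_d2
  rw [Real.log_div hτ0.ne' (by positivity)]
  have h1 := Real.log_le_log hT0 hτ1
  have h2 : Real.log (2 * Real.pi) ≤ 2 := by
    rw [Real.log_le_iff_le_exp (by positivity)]
    have h3 : (2.7:ℝ) ≤ Real.exp 1 := by have := Real.exp_one_gt_d9; linarith
    have h4 : Real.exp 2 = Real.exp 1 * Real.exp 1 := by rw [← Real.exp_add]; norm_num
    rw [h4]
    nlinarith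
  linarith

lemma nr_val {T Ω N X : ℝ} {q : ℕ} (hT : 1000 ≤ T) (hℓ : 10 ≤ Real.log T) (hΩ : Real.log T - 2 ≤ Ω)
    (hX0 : 0 ≤ X) (hXT : X ≤ 10 * T) (hNqT : N ^ q ≤ T ^ (1 / 64 : ℝ)) :
    ∀ m : ℤ, m ≠ 0 → m ≠ 1 → ∀ n l : ℕ, 1 ≤ n → (n:ℝ) ≤ N ^ q * X → 1 ≤ l → (l:ℝ) ≤ N ^ q →
      1 ≤ |m * Ω - Real.log n + Real.log l| := by
  have hT0 : 0 < T := by linarith
  intro m h0 h1 n l hn hnX hl hlN
  have hn1 : (1:ℝ) ≤ n := by exact_mod_cast hn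
  have hl1 : (1:ℝ) ≤ l := by exact_mod_cast hl
  have hlogT64 : Real.log (T ^ (1 / 64 : ℝ)) = Real.log T / 64 := by rw [Real.log_rpow hT0]; ring
  refine nonres m h0 h1 hℓ hΩ (Real.log_nonneg hn1) ?_ (Real.log_nonneg hl1) ?_
  · have h2 : (n:ℝ) ≤ T ^ (1 / 64 : ℝ) * (10 * T) := by
      refine hnX.trans ?_
      gcongr
    have h3 := Real.log_le_log (by linarith) h2
    rw [Real.log_mul (by positivity) (by positivity), Real.log_mul (by norm_num) hT0.ne', hlogT64] at h3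
    have h4 : Real.log 10 ≤ 3 := by
      rw [Real.log_le_iff_le_exp (by norm_num)]
      have h5 : (2.7:ℝ) ≤ Real.exp 1 := by have := Real.exp_one_gt_d9; linarith
      have h6 : Real.exp 3 = Real.exp 1 ^ 3 := by rw [← Real.exp_nat_mul]; norm_num
      rw [h6]
      calc (10:ℝ) ≤ 2.7 ^ 3 := by norm_num
        _ ≤ _ := pow_le_pow_left₀ (by norm_num) h5 3
    linarith
  · have h3 := Real.log_le_log (by linarith) (hlN.trans hNqT)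
    rw [hlogT64] at h3
    exact h3

lemma kB_val {δ w T b : ℝ} (hδ : 0 < δ) (hwb : w ≤ 3 * T ^ (-b)) (g16 : 30 / δ * T ^ (-b) ≤ 1) :
    2 * Real.pi * δ + w / 2 ≤ 8 * δ := by
  have h1 : T ^ (-b) ≤ δ / 30 := by
    rw [div_mul_eq_mul_div, div_le_one hδ] at g16
    linarith
  have hpi4 := Real.pi_lt_d2
  have h2 : 2 * Real.pi * δ ≤ 2 * 3.15 * δ := by gcongr
  linarith

lemma E12_val {Λ B T4 x k : ℝ} (g : k * ((Λ + 1) * B) * (T4 * x) ≤ 1) (hk : 0 < k) :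
    (Λ + 1) * (B * T4 * x) ≤ 1 / k := by
  rw [le_div_iff₀ hk]
  calc _ = k * ((Λ + 1) * B) * (T4 * x) := by ring
    _ ≤ 1 := g

lemma E3_val {Λ e₁ M T ε : ℝ} (hT0 : 0 < T) (hΛ : 0 ≤ Λ) (hM : M ≤ T ^ (ε / 2))
    (he₁def : e₁ = 1575 * (Real.sqrt 2 * T ^ (-(1 / 2) : ℝ)))
    (g10 : 4 * ((Λ + 1) * (1575 * Real.sqrt 2)) * T ^ (-(1 / 2 - ε / 2)) ≤ 1) :
    (Λ + 1) * (e₁ * M) ≤ 1 / 4 := by
  have he₁0 : 0 ≤ e₁ := by rw [he₁def]; positivity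
  have k5 : T ^ (-(1 / 2) : ℝ) * T ^ (ε / 2) = T ^ (-(1 / 2 - ε / 2)) := by
    rw [← Real.rpow_add hT0]
    congr 1
    ring
  calc (Λ + 1) * (e₁ * M) ≤ (Λ + 1) * (e₁ * T ^ (ε / 2)) := by gcongr
    _ = (4 * ((Λ + 1) * (1575 * Real.sqrt 2)) * (T ^ (-(1 / 2) : ℝ) * T ^ (ε / 2))) / 4 := by
        rw [he₁def]; ring
    _ ≤ 1 / 4 := by rw [k5]; linarith only [g10]

lemma E4_val {Zb w M T ε : ℝ} (hT0 : 0 < T) (hM0 : 0 ≤ M) (hM : M ≤ T ^ (ε / 2)) (hw0 : 0 ≤ w)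
    (hZbdef : Zb = 8 * T ^ (1 / 2 : ℝ)) (hwb : w ≤ 3 * T ^ (-(1 - 4 * ε)))
    (g11 : 4 * 240 * T ^ (-(1 / 2 - (4 * ε + ε / 2))) ≤ 1) : Zb * w * M ≤ 1 / 4 := by
  have k5 : T ^ (1 / 2 : ℝ) * T ^ (-(1 - 4 * ε)) * T ^ (ε / 2) = T ^ (-(1 / 2 - (4 * ε + ε / 2))) := by
    rw [← Real.rpow_add hT0, ← Real.rpow_add hT0]
    congr 1
    ring
  have k6 : 0 ≤ T ^ (-(1 / 2 - (4 * ε + ε / 2))) := by positivity
  calc Zb * w * M ≤ (8 * T ^ (1 / 2 : ℝ) * (3 * T ^ (-(1 - 4 * ε)))) * T ^ (ε / 2) := by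
        rw [hZbdef]
        gcongr
    _ = 24 * (T ^ (1 / 2 : ℝ) * T ^ (-(1 - 4 * ε)) * T ^ (ε / 2)) := by ring
    _ ≤ 1 / 4 := by rw [k5]; linarith only [g11, k6]

lemma TL_val {D : ℕ} {γ K T ε M : ℝ} (hT0 : 0 < T) (hT1 : 1 ≤ T) (hγ0 : 0 < γ) (hlogγ : Real.log γ < 0)
    (hK : K = 1 / (-(2 * Real.log γ))) (hKpos : 0 < K) (hε : 0 < ε)
    (hDge : K * Real.log T ≤ D) (hDle : (D:ℝ) ≤ K * Real.log T + 1) (hM0 : 0 ≤ M) (hM : M ≤ T ^ (ε / 2))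
    (g12 : 32 * (K / ε + 1) * T ^ (-(1 / 2 - 3 * ε / 2)) ≤ 1) :
    2 * (2 * D * γ ^ (2 * D)) * (8 * T ^ (1 / 2 : ℝ)) * M ≤ 1 := by
  have h1 : γ ^ (2 * D) ≤ T ^ (-1 : ℝ) := by
    rw [← Real.rpow_natCast γ, Real.rpow_def_of_pos hγ0, Real.rpow_def_of_pos hT0]
    apply Real.exp_le_exp.mpr
    push_cast
    have h2 : Real.log γ * (2 * D) ≤ Real.log γ * (2 * (K * Real.log T)) :=
      mul_le_mul_of_nonpos_left (by linarith) hlogγ.le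
    have h3 : Real.log γ * (2 * (K * Real.log T)) = -Real.log T := by
      rw [hK]
      have : Real.log γ ≠ 0 := hlogγ.ne
      field_simp
    linarith
  have h2 : (D:ℝ) ≤ (K / ε + 1) * T ^ ε := by
    have h3 : Real.log T ≤ T ^ ε / ε := Real.log_le_rpow_div hT0.le hε
    have h4 : 1 ≤ T ^ ε := Real.one_le_rpow hT1 hε.le
    calc (D:ℝ) ≤ K * Real.log T + 1 := hDle
      _ ≤ K * (T ^ ε / ε) + T ^ ε := by gcongr
      _ = _ := by ring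
  have k5 : T ^ ε * T ^ (-1 : ℝ) * T ^ (1 / 2 : ℝ) * T ^ (ε / 2) = T ^ (-(1 / 2 - 3 * ε / 2)) := by
    rw [← Real.rpow_add hT0, ← Real.rpow_add hT0, ← Real.rpow_add hT0]
    congr 1
    ring
  calc 2 * (2 * D * γ ^ (2 * D)) * (8 * T ^ (1 / 2 : ℝ)) * M ≤
      2 * (2 * ((K / ε + 1) * T ^ ε) * T ^ (-1 : ℝ)) * (8 * T ^ (1 / 2 : ℝ)) * T ^ (ε / 2) := by
        gcongr
    _ = 32 * (K / ε + 1) * (T ^ ε * T ^ (-1 : ℝ) * T ^ (1 / 2 : ℝ) * T ^ (ε / 2)) := by ring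
    _ ≤ 1 := by rw [k5]; exact g12

set_option maxHeartbeats 4000000 in
theorem window_sec (q : ℕ) (hq : 2 ≤ q) {ε κ₀ : ℝ} (hε : 0 < ε) (hε1 : ε ≤ 1 / 16) (hκ₀ : κ₀ < 1) :
    ∃ c : ℝ, 0 < c ∧ ∀ᶠ T : ℝ in atTop, ∀ τ : ℝ, T ≤ τ → τ ≤ 3 * T → ∀ u : ℂ, ‖u‖ = 1 →
      c * Real.log T ^ (((q:ℝ) / 2) * ((q:ℝ) / 2)) ≤
        ∫ t in Set.Ioc (τ - T ^ (2 * ε)) (τ + T ^ (2 * ε)) ∩ SS u κ₀, ‖zl t‖ ^ q * gw τ (T ^ ε) t := by
  have hqr : (2:ℝ) ≤ q := by exact_mod_cast hq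
  obtain ⟨κ, hκdef⟩ : ∃ κ : ℝ, κ = (q:ℝ) / 2 := ⟨_, rfl⟩
  have hκ1 : 1 ≤ κ := by rw [hκdef]; linarith only [hqr]
  have hLam := Lam_ge_one
  have hLam0 : 0 < Lam := by linarith only [hLam]
  -- the width
  obtain ⟨δ, hδdef⟩ : ∃ δ : ℝ, δ = min (1 / 16) ((1 - κ₀) / 16) := ⟨_, rfl⟩
  have hδ : 0 < δ := by rw [hδdef]; exact lt_min (by norm_num) (by linarith only [hκ₀])
  have hδa : δ ≤ 1 / 16 := by rw [hδdef]; exact min_le_left _ _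
  have hδb : δ ≤ (1 - κ₀) / 16 := by rw [hδdef]; exact min_le_right _ _
  obtain ⟨γ, hγ⟩ : ∃ γ : ℝ, γ = Real.cos (Real.pi * δ) := ⟨_, rfl⟩
  have hγ0 : 0 < γ := by
    rw [hγ]
    apply Real.cos_pos_of_mem_Ioo
    constructor <;> nlinarith [Real.pi_pos]
  have hγ1 : γ < 1 := by
    rw [hγ]
    have h1 : Real.cos (Real.pi * δ) < Real.cos 0 := by
      apply Real.cos_lt_cos_of_nonneg_of_le_pi_div_two le_rfl
      · nlinarith [Real.pi_pos]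
      · nlinarith [Real.pi_pos]
    rwa [Real.cos_zero] at h1
  have hlogγ : Real.log γ < 0 := Real.log_neg hγ0 hγ1
  obtain ⟨K, hK⟩ : ∃ K : ℝ, K = 1 / (-(2 * Real.log γ)) := ⟨_, rfl⟩
  have hKpos : 0 < K := by rw [hK]; apply one_div_pos.mpr; linarith only [hlogγ]
  -- exponents
  obtain ⟨ν, hν⟩ : ∃ ν : ℝ, ν = ε / (4 * q) := ⟨_, rfl⟩
  have hνpos : 0 < ν := by rw [hν]; positivity
  have hνq : ν * q = ε / 4 := by rw [hν]; field_simp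
  -- constants
  obtain ⟨cS, hcS, hSev⟩ := U_lower (κ := κ) hκ1
  obtain ⟨C2, hC2, h2ev⟩ := Sd_upper q q (q - 2) (by omega) (by omega) (by
    rw [Nat.cast_sub hq]; push_cast; linarith only) ν hνpos
  obtain ⟨C3, hC3, h3ev⟩ := Sd_upper q (q - 1) (q - 1) (by omega) (by omega) (by linarith only) ν hνpos
  obtain ⟨C4, hC4, h4ev⟩ := U_up q (by omega) ν hνpos
  obtain ⟨A₀, hA₀⟩ : ∃ A₀ : ℝ, A₀ = δ ^ 2 * (cS * ν ^ (κ ^ 2)) := ⟨_, rfl⟩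
  have hA₀pos : 0 < A₀ := by rw [hA₀]; positivity
  obtain ⟨μ, hμdef⟩ : ∃ μ : ℝ, μ = A₀ / (32 * Lam * C4) := ⟨_, rfl⟩
  have hμpos : 0 < μ := by rw [hμdef]; positivity
  have hconst : 0 < A₀ / (8 * (Lam * (μ⁻¹) ^ (q - 1))) := by positivity
  refine ⟨A₀ / (8 * (Lam * (μ⁻¹) ^ (q - 1))), hconst, ?_⟩
  have ev1 : ∀ᶠ T : ℝ in atTop, cS * (ν * Real.log T) ^ (κ ^ 2) ≤
      ∑ n ∈ Icc 1 ⌊T ^ ν⌋₊, dv κ n ^ 2 / n := by
    have h1 : Tendsto (fun T : ℝ => ν * Real.log T) atTop atTop :=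
      Real.tendsto_log_atTop.const_mul_atTop hνpos
    filter_upwards [h1.eventually hSev, eventually_gt_atTop 0] with T hT hT0
    rw [Real.rpow_def_of_pos hT0, mul_comm (Real.log T)]
    exact hT
  have hα2 : ((q:ℝ) / 2 + 1) * (((q - 2 : ℕ) : ℝ) / 2) < κ ^ 2 := by
    rw [hκdef, Nat.cast_sub hq]; push_cast; nlinarith only [hqr]
  have hα3 : (((q - 1 : ℕ) : ℝ) / 2 + 1) * (((q - 1 : ℕ) : ℝ) / 2) < κ ^ 2 := by
    rw [hκdef, Nat.cast_sub (by omega : 1 ≤ q)]; push_cast; nlinarith only [hqr]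
  obtain ⟨B, hBd⟩ : ∃ B : ℝ, B = ((10:ℝ) ^ (q + 2)) ^ 2 := ⟨_, rfl⟩
  have hBpos : 0 < B := by rw [hBd]; positivity
  have ev2 := ev_logpow (16 * C2 / A₀) _ _ hα2
  have ev3 := ev_logpow (32 * C3 / A₀) _ _ hα3
  have ev4 := ev_small (4 * (q + 2)) (1 / 36) (3 * ε / 2) (4 * ((Lam + 1) * B)) (by norm_num) (by positivity)
  have ev5 := ev_small (4 * (q + 2)) (1 / 2) (2 * ε) (8 * ((Lam + 1) * B)) (by norm_num) (by positivity)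
  have ev6 := ev_small (4 * (q + 2)) (1 / 36) (3 * ε / 2) (Lam * (2 * μ * B)) (by norm_num) (by positivity)
  have ev7 := ev_pow (4 * ((Lam + 1) * (1575 * Real.sqrt 2))) (1 / 2 - ε / 2) (by linarith only [hε1])
  have ev8 := ev_pow (4 * 240) (1 / 2 - (4 * ε + ε / 2)) (by linarith only [hε1])
  have ev9 := ev_pow (32 * (K / ε + 1)) (1 / 2 - 3 * ε / 2) (by linarith only [hε1])
  have ev10 := ev_log_rpow_ge 200 A₀ (κ ^ 2) hA₀pos (by positivity)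
  have ev11 : ∀ᶠ T : ℝ in atTop, 10 ≤ Real.log T :=
    Real.tendsto_log_atTop.eventually (eventually_ge_atTop 10)
  have ev12 := ev_pow (1575 * Real.sqrt 2) (1 / 2) (by norm_num)
  have ev13 := ev_pow (30 / δ) (1 - 4 * ε) (by linarith only [hε1])
  have ev14 := ev_rpow_ge 28 (2 * ε) (by positivity)
  have ev15 := ev_pow 4 (1 - 2 * ε) (by linarith only [hε1])
  filter_upwards [ev1, h2ev, h3ev, h4ev, ev2, ev3, ev4, ev5, ev6, ev7, ev8, ev9, ev10, ev11, ev12, ev13, ev14,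
    ev15, eventually_ge_atTop 1000] with T g1 g2 g3 g4 g5 g6 g7 g8 g9 g10 g11 g12 g13 g14 g15 g16 g17 g18 hT τ hτ1 hτ2 u hu
  clear ev1 h2ev h3ev h4ev ev2 ev3 ev4 ev5 ev6 ev7 ev8 ev9 ev10 ev11 ev12 ev13 ev14 ev15 hSev
  have hT0 : 0 < T := by linarith only [hT]
  have hT1 : 1 ≤ T := by linarith only [hT]
  obtain ⟨N, hNdef⟩ : ∃ N : ℝ, N = T ^ ν := ⟨_, rfl⟩
  rw [← hNdef] at g1 g2 g3 g4
  have hN1 : 1 ≤ N := by rw [hNdef]; exact Real.one_le_rpow hT1 hνpos.le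
  have hNq : N ^ q = T ^ (ε / 4) := by
    rw [hNdef, ← Real.rpow_natCast, ← Real.rpow_mul hT0.le, hνq]
  have hNqT : N ^ q ≤ T ^ (1 / 64 : ℝ) := by
    rw [hNq]; exact Real.rpow_le_rpow_of_exponent_le hT1 (by linarith only [hε1])
  have hT64 : T ^ (1 / 64 : ℝ) ≤ T := by
    calc T ^ (1 / 64 : ℝ) ≤ T ^ (1:ℝ) := Real.rpow_le_rpow_of_exponent_le hT1 (by norm_num)
      _ = T := Real.rpow_one T
  have hN2 : N ^ (2 * q - 2) ≤ T ^ (ε / 2) := by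
    calc N ^ (2 * q - 2) ≤ N ^ (2 * q) := pow_le_pow_right₀ hN1 (by omega)
      _ = (N ^ q) ^ 2 := by rw [← pow_mul, mul_comm]
      _ = T ^ (ε / 2) := by
          rw [hNq, ← Real.rpow_natCast, ← Real.rpow_mul hT0.le]
          congr 1; push_cast; ring
  have hN0 : 0 < N := by linarith only [hN1]
  have hN20 : 0 ≤ N ^ (2 * q - 2) := (pow_pos hN0 _).le
  obtain ⟨X₀, hX₀⟩ : ∃ X₀ : ℕ, X₀ = ⌈3 * τ⌉₊ := ⟨_, rfl⟩
  have hτ0 : 0 < τ := by linarith only [hτ1, hT0]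
  have hX3 : 3 * τ ≤ X₀ := by rw [hX₀]; exact Nat.le_ceil _
  have hX4 : (X₀:ℝ) ≤ 3 * τ + 1 := by
    rw [hX₀]
    exact (Nat.ceil_lt_add_one (by linarith only [hτ0])).le
  have hXT : (X₀:ℝ) ≤ 10 * T := by linarith only [hX4, hτ2, hT]
  have hXTl : T ≤ (X₀:ℝ) := by linarith only [hX3, hτ1, hT0]
  have hX0 : (0:ℝ) ≤ X₀ := Nat.cast_nonneg _
  have hNX : N ^ q ≤ (X₀:ℝ) := by linarith only [hNqT, hT64, hXTl]
  obtain ⟨H, hHdef⟩ : ∃ H : ℝ, H = T ^ ε := ⟨_, rfl⟩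
  have hH : 0 < H := by rw [hHdef]; exact Real.rpow_pos_of_pos hT0 _
  obtain ⟨R, hRdef⟩ : ∃ R : ℝ, R = T ^ (2 * ε) := ⟨_, rfl⟩
  have hR : 0 < R := by rw [hRdef]; exact Real.rpow_pos_of_pos hT0 _
  rw [← hHdef, ← hRdef]
  obtain ⟨Z, hZdef⟩ : ∃ Z : ℝ, Z = 3 * N ^ q := ⟨_, rfl⟩
  have hNq1 : 1 ≤ N ^ q := one_le_pow₀ hN1
  have hZ3 : 3 ≤ Z := by rw [hZdef]; linarith only [hNq1]
  obtain ⟨ρ, hρdef⟩ : ∃ ρ : ℝ, ρ = 1 / Z := ⟨_, rfl⟩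
  have hZ0 : 0 < Z := by linarith only [hZ3]
  have hρ0 : 0 < ρ := by rw [hρdef]; exact one_div_pos.mpr hZ0
  have hρ1 : ρ ≤ 1 := by rw [hρdef, div_le_one hZ0]; linarith only [hZ3]
  have hZe : N ^ q * Real.exp 1 ≤ Z := by
    rw [hZdef]
    have := Real.exp_one_lt_d9
    nlinarith only [this, hNq1]
  obtain ⟨L, hLdef⟩ : ∃ L : ℝ, L = 10 ^ (q + 2) * T ^ (2 * (q + 2)) := ⟨_, rfl⟩
  have hL : (N ^ q * (X₀:ℝ)) ^ (q + 2) ≤ L := by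
    have h1 : N ^ q * (X₀:ℝ) ≤ 10 * T ^ 2 := by
      calc N ^ q * (X₀:ℝ) ≤ T * (10 * T) :=
            mul_le_mul (hNqT.trans hT64) hXT hX0 hT0.le
        _ = 10 * T ^ 2 := by ring
    calc (N ^ q * (X₀:ℝ)) ^ (q + 2) ≤ (10 * T ^ 2) ^ (q + 2) := pow_le_pow_left₀ (by positivity) h1 _
      _ = L := by rw [hLdef, mul_pow, ← pow_mul]
  have hLL : L * L = B * T ^ (4 * (q + 2)) := by
    rw [hLdef, hBd]
    have : T ^ (4 * (q + 2)) = T ^ (2 * (q + 2)) * T ^ (2 * (q + 2)) := by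
      rw [← pow_add]; congr 1; omega
    rw [this]; ring
  -- errors
  have hgq := gq_val (q := q) (N := N) hT0 hHdef hNq hZdef hρdef
  have hRH := RH_val hT0 hHdef hRdef hH
  obtain ⟨e₁, he₁def⟩ : ∃ e₁ : ℝ, e₁ = 1575 * (Real.sqrt 2 * T ^ (-(1 / 2) : ℝ)) := ⟨_, rfl⟩
  have he₁0 : 0 ≤ e₁ := by rw [he₁def]; positivity
  have he₁1 : e₁ ≤ 1 := by rw [he₁def, ← mul_assoc]; exact g15
  have h4R := R4_le hT0 hRdef g18
  have happ := app_val hT hτ1 h4R hX3 hX4 he₁def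
  have hZb0 := Zb_val hT hXT he₁1 happ
  obtain ⟨Zb, hZbdef⟩ : ∃ Zb : ℝ, Zb = 8 * T ^ (1 / 2 : ℝ) := ⟨_, rfl⟩
  have hZb : ∀ t ∈ Set.Ioc (τ - R) (τ + R), ‖zl t‖ ≤ Zb := by
    rw [hZbdef]; exact hZb0
  obtain ⟨w, hw⟩ : ∃ w : ℝ, w = R * (28 + 2 * R) / τ := ⟨_, rfl⟩
  have hR28 : 28 ≤ R := by rw [hRdef]; exact g17
  have hw0 : 0 ≤ w := by rw [hw]; positivity
  have hwb := w_val hT hτ1 hRdef hR28 hw
  have hZbn : 0 ≤ Zb := by rw [hZbdef]; positivity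
  obtain ⟨e₂, he₂def⟩ : ∃ e₂ : ℝ, e₂ = Zb * w := ⟨_, rfl⟩
  have he₂0 : 0 ≤ e₂ := by rw [he₂def]; exact mul_nonneg hZbn hw0
  obtain ⟨Ω, hΩdef⟩ : ∃ Ω : ℝ, Ω = Real.log (τ / (2 * Real.pi)) := ⟨_, rfl⟩
  have hΩ : Real.log T - 2 ≤ Ω := by rw [hΩdef]; exact Om_val hT hτ1
  have hnr := nr_val (q := q) (N := N) hT g14 hΩ hX0 hXT hNqT
  obtain ⟨ψ, hψ1, hψ2⟩ := phase (τ := τ) (R := R) (by linarith only [hτ1, hT]) hR.le
    (by linarith only [hτ1, hT, h4R, hR]) hu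
  rw [← hΩdef, ← hw] at hψ1 hψ2
  have htR : ∀ t ∈ Set.Ioc (τ - R) (τ + R), |t - τ| ≤ R := by
    intro t ht
    have h1 := ht.1
    have h2 := ht.2
    rw [abs_le]; constructor <;> linarith only [h1, h2]
  have hph : ∀ t ∈ Set.Ioc (τ - R) (τ + R), ‖Complex.exp ((ψ : ℂ) * Complex.I) * ex Ω t * zl t -
      u ^ 2 * (starRingEnd ℂ) (zl t)‖ ≤ e₂ := by
    intro t ht
    refine (hψ1 t (htR t ht)).trans ?_
    rw [he₂def]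
    exact mul_le_mul_of_nonneg_right (hZb t ht) hw0
  have hκB := kB_val hδ hwb g16
  have hB : ∀ t ∈ Set.Ioc (τ - R) (τ + R), ∀ n : ℤ, |(Ω * t + ψ) / (2 * Real.pi) - n| < 2 * δ →
      |((starRingEnd ℂ) u * zl t).im| ≤ 8 * δ * ‖zl t‖ := by
    intro t ht n hn
    exact (hψ2 δ t (htR t ht) n hn).trans (mul_le_mul_of_nonneg_right hκB (norm_nonneg _))
  obtain ⟨D, hDdef⟩ : ∃ D : ℕ, D = ⌈K * Real.log T⌉₊ := ⟨_, rfl⟩
  have hKℓ : 0 < K * Real.log T := mul_pos hKpos (by linarith only [g14])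
  have hD : 1 ≤ D := by rw [hDdef]; exact Nat.one_le_ceil_iff.mpr hKℓ
  have hDge : K * Real.log T ≤ D := by rw [hDdef]; exact Nat.le_ceil _
  have hDle : (D:ℝ) ≤ K * Real.log T + 1 := by
    rw [hDdef]; exact (Nat.ceil_lt_add_one hKℓ.le).le
  have hcore := core q hq D hD hδ.le (by linarith only [hδa]) N X₀ Z ρ τ H R e₁ e₂ Ω L ψ κ₀ (8 * δ) Zb μ u hu hN1 hNX
    hρ0.le hρ1 hZe (le_of_eq hρdef) hH hR he₁0 he₂0 hL hμpos (by linarith only [hδ]) (by linarith only [hδa])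
    (by linarith only [hδb, hκ₀]) happ hnr hph hB hZb
  rw [← hγ] at hcore
  obtain ⟨Er, hEr⟩ : ∃ Er : ℝ, Er = (Lam + 1) * (L * L * gq H ρ +
    L * L * (2 * Real.exp (-(R ^ 2 / (2 * H ^ 2)))) + e₁ * N ^ (2 * q - 2)) + e₂ * N ^ (2 * q - 2) := ⟨_, rfl⟩
  rw [← hEr] at hcore
  have hE1 : (Lam + 1) * (L * L * gq H ρ) ≤ 1 / 4 := by
    rw [hLL, hgq]
    exact E12_val g7 (by norm_num)
  have hE2 : (Lam + 1) * (L * L * (2 * Real.exp (-(R ^ 2 / (2 * H ^ 2))))) ≤ 1 / 4 := by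
    rw [hLL, hRH]
    have h1 := E12_val g8 (by norm_num)
    calc _ = 2 * ((Lam + 1) * (B * T ^ (4 * (q + 2)) * Real.exp (-(1 / 2 * T ^ (2 * ε))))) := by ring
      _ ≤ 2 * (1 / 8) := by gcongr
      _ = 1 / 4 := by norm_num
  have hE3 := E3_val hT0 hLam0.le hN2 he₁def g10
  have hE4 : e₂ * N ^ (2 * q - 2) ≤ 1 / 4 := by
    rw [he₂def]
    exact E4_val hT0 hN20 hN2 hw0 hZbdef hwb g11
  have hErb : Er ≤ 1 := by
    rw [hEr]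
    have : (Lam + 1) * (L * L * gq H ρ + L * L * (2 * Real.exp (-(R ^ 2 / (2 * H ^ 2)))) + e₁ * N ^ (2 * q - 2)) =
      (Lam + 1) * (L * L * gq H ρ) + (Lam + 1) * (L * L * (2 * Real.exp (-(R ^ 2 / (2 * H ^ 2))))) +
        (Lam + 1) * (e₁ * N ^ (2 * q - 2)) := by ring
    linarith only [this, hE1, hE2, hE3, hE4]
  have hTLb : 2 * (2 * D * γ ^ (2 * D)) * Zb * N ^ (2 * q - 2) ≤ 1 := by
    rw [hZbdef]
    exact TL_val hT0 hT1 hγ0 hlogγ hK hKpos hε hDge hDle hN20 hN2 g12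
  -- the main quantities
  have hNN : N ≤ N ^ q := by
    calc N = N ^ 1 := (pow_one N).symm
      _ ≤ N ^ q := pow_le_pow_right₀ hN1 (by omega)
  have hSd := Pool.Agent.R311.SE.Sd_ge N X₀ hN1 (hNN.trans hNX) q hq hNX
  rw [← hκdef] at hSd
  have hℓ0 : 0 < Real.log T := by linarith only [g14]
  obtain ⟨P, hP⟩ : ∃ P : ℝ, P = Real.log T ^ (κ ^ 2) := ⟨_, rfl⟩
  have hP0 : 0 ≤ P := by rw [hP]; positivity
  obtain ⟨S1, hS1⟩ : ∃ S1 : ℝ, S1 = δ ^ 2 * Sd N X₀ (q - 2) q := ⟨_, rfl⟩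
  have hA : A₀ * P ≤ S1 := by
    have h1 := g1.trans hSd
    rw [Real.mul_rpow hνpos.le hℓ0.le, ← hP] at h1
    calc A₀ * P = δ ^ 2 * (cS * (ν ^ (κ ^ 2) * P)) := by rw [hA₀]; ring
      _ ≤ S1 := by rw [hS1]; exact mul_le_mul_of_nonneg_left h1 (by positivity)
  have hS2 : Sd N X₀ q (q - 2) ≤ S1 / 16 := by
    refine (g2 X₀ hNX).trans ?_
    rw [← hP] at g5
    rw [div_mul_eq_mul_div, div_le_iff₀ hA₀pos] at g5
    linarith only [g5, hA]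
  have hS3 : Sd N X₀ (q - 1) (q - 1) ≤ S1 / 32 := by
    refine (g3 X₀ hNX).trans ?_
    rw [← hP] at g6
    rw [div_mul_eq_mul_div, div_le_iff₀ hA₀pos] at g6
    linarith only [g6, hA]
  have hexp : ((q:ℝ) / 2) * ((q:ℝ) / 2) = κ ^ 2 := by rw [hκdef]; ring
  rw [hexp] at g4 ⊢
  rw [← hP] at g4 g13 ⊢
  obtain ⟨U, hU⟩ : ∃ U : ℝ, U = ∑ n ∈ Icc 1 ⌊N ^ q⌋₊, dv ((q:ℝ) / 2) n * dv ((q:ℝ) / 2) n / (n:ℝ) := ⟨_, rfl⟩
  rw [← hU] at g4 hcore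
  obtain ⟨G, hG⟩ : ∃ G : ℝ, G = ∫ t in Set.Ioc (τ - R) (τ + R) ∩ SS u κ₀, ‖zl t‖ ^ q * gw τ H t := ⟨_, rfl⟩
  rw [← hG] at hcore ⊢
  have hV : Lam * (2 * μ * U) ≤ S1 / 16 := by
    have h1 : Lam * (2 * μ * U) ≤ Lam * (2 * μ * (C4 * P)) := by gcongr
    have h2 : Lam * (2 * μ * (C4 * P)) = A₀ * P / 16 := by
      rw [hμdef]; field_simp; ring
    linarith only [h1, h2, hA]
  have hM6 : Lam * (2 * μ * (L * L * gq H ρ)) ≤ 1 := by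
    rw [hLL, hgq]
    refine le_trans (le_of_eq ?_) g9
    ring
  have hsplit : 2 * (Lam * (2 * μ * (U + L * L * gq H ρ)) + Lam * (μ⁻¹) ^ (q - 1) * G) =
      2 * (Lam * (2 * μ * U) + Lam * (2 * μ * (L * L * gq H ρ)) + Lam * (μ⁻¹) ^ (q - 1) * G) := by ring
  rw [hsplit, ← hS1] at hcore
  have hfin := fin_arith hcore hS2 hS3 hErb hTLb hM6 hV (by linarith only [g13, hA])
  have hden : 0 < 8 * (Lam * (μ⁻¹) ^ (q - 1)) := by positivity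
  rw [div_mul_eq_mul_div, div_le_iff₀ hden]
  linarith only [hfin, hA]

end

end Pool.Agent.R311.SE
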