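import Pool.Agent.R311.SE.F

set_option autoImplicit false

/-! Averaging over windows: the final theorem on sectors. -/

namespace Pool.Agent.R311.SE

open Finset MeasureTheory Filter Topology
open Pool.Agent.H306R2
open Pool.Agent.R311.BS (ev_rpow_ge averaging gw_uncurry gw_lint)

noncomputable section

theorem main_sec (q : ℕ) (hq : 2 ≤ q) (ε κ₀ : ℝ) (hε : 0 < ε) (hκ₀ : κ₀ < 1) :
    ∃ c : ℝ, 0 < c ∧ ∀ᶠ T : ℝ in atTop, ∀ H : ℝ, T ^ ε ≤ H → H ≤ T → ∀ u : ℂ, ‖u‖ = 1 →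
      c * H * Real.log T ^ ((q:ℝ) ^ 2 / 4) ≤
        ∫ t in {t : ℝ | t ∈ Set.Icc T (T + H) ∧ κ₀ * ‖zl t‖ < ((starRingEnd ℂ) u * zl t).re},
          ‖zl t‖ ^ q := by
  obtain ⟨e, he⟩ : ∃ e : ℝ, e = min (ε / 3) (1 / 16) := ⟨_, rfl⟩
  have he0 : 0 < e := by rw [he]; exact lt_min (by positivity) (by norm_num)
  have he1 : e ≤ 1 / 16 := by rw [he]; exact min_le_right _ _
  have he2 : e ≤ ε / 3 := by rw [he]; exact min_le_left _ _
  obtain ⟨c, hc, h⟩ := window_sec q hq he0 he1 hκ₀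
  refine ⟨c / 2, by positivity, ?_⟩
  filter_upwards [h, ev_rpow_ge 4 (ε / 3) (by positivity), eventually_ge_atTop 1] with T hT h4 hT1 H hH1 hH2 u hu
  have hT0 : 0 < T := by linarith
  have hlog : 0 ≤ Real.log T := Real.log_nonneg hT1
  obtain ⟨R, hR⟩ : ∃ R : ℝ, R = T ^ (2 * e) := ⟨_, rfl⟩
  have hR0 : 0 < R := by rw [hR]; positivity
  have hRH : 4 * R ≤ H := by
    refine le_trans ?_ hH1
    calc 4 * R ≤ T ^ (ε / 3) * T ^ (2 * e) := by rw [hR]; gcongr
      _ = T ^ (ε / 3 + 2 * e) := by rw [← Real.rpow_add hT0]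
      _ ≤ T ^ ε := Real.rpow_le_rpow_of_exponent_le hT1 (by linarith)
  have hH0 : 0 < H := by linarith
  rw [← hR] at hT
  have hset : {t : ℝ | t ∈ Set.Icc T (T + H) ∧ κ₀ * ‖zl t‖ < ((starRingEnd ℂ) u * zl t).re} =
      Set.Icc T (T + H) ∩ SS u κ₀ := rfl
  rw [hset]
  have hex : (q:ℝ) / 2 * ((q:ℝ) / 2) = (q:ℝ) ^ 2 / 4 := by ring
  rw [hex] at hT
  have hav := averaging (fun t => ‖zl t‖ ^ q) (zl_cont.norm.pow q) (fun t => by positivity)
    (Set.Icc T (T + H) ∩ SS u κ₀) (measurableSet_Icc.inter (SS_meas u κ₀)) T (T + H)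
    Set.inter_subset_left (fun τ t => gw τ (T ^ e) t) (gw_uncurry _)
    (fun τ t => gw_nonneg _ _ _ (by positivity)) (gw_lint _ (by positivity)) (T + R) (T + H - R)
    (c * Real.log T ^ ((q:ℝ) ^ 2 / 4)) (by linarith) (by positivity) (by
      intro τ hτ
      refine (hT τ (by linarith [hτ.1]) (by linarith [hτ.2]) u hu).trans ?_
      refine setIntegral_mono_set ?_ ?_ ?_
      · have hc : Continuous fun t => ‖zl t‖ ^ q * gw τ (T ^ e) t :=
          (zl_cont.norm.pow q).mul (gw_continuous _ _)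
        exact hc.integrableOn_Icc.mono_set Set.inter_subset_left
      · refine Eventually.of_forall fun t => ?_
        have := gw_nonneg τ (T ^ e) t (by positivity)
        simp only [Pi.zero_apply]
        positivity
      · refine Eventually.of_forall fun t ht => ?_
        refine ⟨⟨?_, ?_⟩, ht.2⟩
        · linarith [ht.1.1, hτ.1]
        · linarith [ht.1.2, hτ.2])
  refine le_trans ?_ hav
  have hp : 0 ≤ c * Real.log T ^ ((q:ℝ) ^ 2 / 4) := by positivity
  calc c / 2 * H * Real.log T ^ ((q:ℝ) ^ 2 / 4) = (H / 2) * (c * Real.log T ^ ((q:ℝ) ^ 2 / 4)) := by ring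
    _ ≤ (T + H - R - (T + R)) * (c * Real.log T ^ ((q:ℝ) ^ 2 / 4)) := by
        gcongr
        linarith

end

end Pool.Agent.R311.SE
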