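import Pool.Agent.R311.SE.D
import Pool.Agent.R311.SE.P
import Pool.Agent.R311.AP.T

set_option autoImplicit false

/-! Discrete averages over the points at which the linear phase is an integer. -/

namespace Pool.Agent.R311.SE

open Finset MeasureTheory Filter Topology
open Pool.Agent.H306R2
open Pool.Agent.R311.BS (ex ex_norm ex_add ex_cont gq gq_nonneg gq_le_one gq_far Lam Lam_ge_one zX l1
  l1_nonneg expansion Dp_line_norm inv_sqrt_le_one)
open Pool.Agent.R311.AP (Dl dt Dl_approx dt_norm far_terms ap_expansion outside_bound mass_le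
  gwk_summable bdd_summable Kw mem_Kw)

noncomputable section

lemma lam_le_one (m : ℤ) : Pool.Agent.R311.BS.lam m ≤ 1 := by
  unfold Pool.Agent.R311.BS.lam
  split_ifs with h
  · exact le_refl _
  · have h1 : (1:ℝ) ≤ |(m:ℝ)| := by
      have : (1:ℤ) ≤ |m| := Int.one_le_abs h
      exact_mod_cast this
    have h2 : (1:ℝ) ≤ (m:ℝ) ^ 2 := by
      rw [← sq_abs]; exact one_le_pow₀ h1
    rw [div_le_one (by linarith)]
    exact h2

lemma exp_le_gq (H h : ℝ) (h2 : 2 ≤ h) : Real.exp (-(H ^ 2 * h ^ 2 / 16)) ≤ gq H 1 := by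
  unfold gq
  apply Real.exp_le_exp.mpr
  have h3 : 0 ≤ H ^ 2 := by positivity
  have h4 : 4 ≤ h ^ 2 := by nlinarith
  nlinarith

lemma Dl_two (α β τ H x : ℝ) (hα : 0 < α) (hH : 0 < H) (h2 : 2 ≤ 2 * Real.pi / α)
    (hy : 1 ≤ H ^ 2 * (2 * Real.pi / α) ^ 2 / 16)
    (hnr : ∀ m : ℤ, m ≠ 0 → m ≠ 1 → 1 ≤ |m * (2 * Real.pi / α) + x|) :
    ‖Dl α β τ H x - (dt α β τ H x 0 + dt α β τ H x (-1))‖ ≤ (Lam + 3) * gq H 1 := by
  set h := 2 * Real.pi / α with hh
  have hh0 : 0 < h := by linarith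
  have hap := Dl_approx α β τ H x hα hH hy
  rw [← hh] at hap
  have hE := exp_le_gq H h h2
  have hL := Lam_ge_one
  have hg := gq_nonneg H 1
  have hap2 : ‖Dl α β τ H x - dt α β τ H x (round (x / h))‖ ≤ Lam * gq H 1 :=
    hap.trans (mul_le_mul_of_nonneg_left hE (by linarith))
  have hfar : ∀ m : ℤ, m ≠ round (x / h) → ‖dt α β τ H x m‖ ≤ gq H 1 := by
    intro m hm
    rw [dt_norm, ← hh]
    refine (far_terms h H x hh0 hH hy m hm).trans ?_
    have h1 := lam_le_one (m - round (x / h))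
    have h3 := Pool.Agent.R311.BS.lam_nonneg (m - round (x / h))
    calc _ ≤ gq H 1 * 1 := mul_le_mul hE h1 h3 hg
      _ = _ := mul_one _
  obtain ⟨A, hA⟩ : ∃ A : ℂ, A = Dl α β τ H x := ⟨_, rfl⟩
  obtain ⟨B, hB⟩ : ∃ B : ℂ, B = dt α β τ H x (round (x / h)) := ⟨_, rfl⟩
  obtain ⟨C, hC⟩ : ∃ C : ℂ, C = dt α β τ H x 0 := ⟨_, rfl⟩
  obtain ⟨D, hD⟩ : ∃ D : ℂ, D = dt α β τ H x (-1) := ⟨_, rfl⟩
  rw [← hA, ← hC, ← hD]
  by_cases h0 : round (x / h) = 0
  · rw [h0, ← hA, ← hC] at hap2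
    have h1 := hfar (-1) (by rw [h0]; norm_num)
    rw [← hD] at h1
    have e : A - (C + D) = (A - C) - D := by ring
    rw [e]
    refine (norm_sub_le _ _).trans ?_
    linarith
  · by_cases h1 : round (x / h) = -1
    · rw [h1, ← hA, ← hD] at hap2
      have h3 := hfar 0 (by rw [h1]; norm_num)
      rw [← hC] at h3
      have e : A - (C + D) = (A - D) - C := by ring
      rw [e]
      refine (norm_sub_le _ _).trans ?_
      linarith
    · have h3 := hfar 0 (Ne.symm h0)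
      have h4 := hfar (-1) (Ne.symm h1)
      have h5 : ‖dt α β τ H x (round (x / h))‖ ≤ gq H 1 := by
        rw [dt_norm, ← hh]
        refine gq_far H _ 1 zero_le_one ?_
        have h6 := hnr (-(round (x / h))) (by omega) (by omega)
        push_cast at h6
        have e : h * (round (x / h) : ℝ) - x = -(-(round (x / h) : ℝ) * h + x) := by ring
        rw [e, abs_neg]
        exact h6
      rw [← hA, ← hB] at hap2
      rw [← hC] at h3
      rw [← hD] at h4
      rw [← hB] at h5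
      have e : A - (C + D) = ((A - B) + B) - (C + D) := by ring
      rw [e]
      have k1 := norm_sub_le ((A - B) + B) (C + D)
      have k2 := norm_add_le (A - B) B
      have k3 := norm_add_le C D
      linarith

lemma dt_val (α β τ H x : ℝ) (m : ℤ) : dt α β τ H x (-m) =
    ex 1 (-(m * (2 * Real.pi / α * β))) *
      (ex (m * (2 * Real.pi / α) + x) τ * (gq H (m * (2 * Real.pi / α) + x) : ℝ)) := by
  unfold dt
  have e1 : gq H (2 * Real.pi / α * ((-m : ℤ) : ℝ) - x) = gq H (m * (2 * Real.pi / α) + x) := by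
    unfold gq
    congr 2
    push_cast
    ring
  rw [e1]
  have e2 : ex 1 (x * τ + 2 * Real.pi / α * ((-m : ℤ) : ℝ) * (β - τ)) =
      ex 1 (-(m * (2 * Real.pi / α * β))) * ex (m * (2 * Real.pi / α) + x) τ := by
    unfold ex
    rw [← Complex.exp_add]
    congr 1
    push_cast
    ring
  rw [e2]
  ring

/-- the discrete average against two harmonics -/
theorem disc_cont (α β τ H : ℝ) (hα : 0 < α) (hH : 0 < H) (h2 : 2 ≤ 2 * Real.pi / α)
    (hy : 1 ≤ H ^ 2 * (2 * Real.pi / α) ^ 2 / 16) (f g : ℕ → ℝ) (X Y : ℝ)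
    (hnr : ∀ m : ℤ, m ≠ 0 → m ≠ 1 → ∀ n l : ℕ, 1 ≤ n → (n:ℝ) ≤ X → 1 ≤ l → (l:ℝ) ≤ Y →
      1 ≤ |m * (2 * Real.pi / α) - Real.log n + Real.log l|) :
    ‖(α : ℂ) * ∑' k : ℤ, (Dp f X (1 / 2 + ((α * k + β : ℝ) : ℂ) * Complex.I) *
      (starRingEnd ℂ) (Dp g Y (1 / 2 + ((α * k + β : ℝ) : ℂ) * Complex.I))) * (gw τ H (α * k + β) : ℂ) -
      ∫ t : ℝ, ((∑ m ∈ ({0, 1} : Finset ℤ), ex 1 (-(m * (2 * Real.pi / α * β))) * ex (m * (2 * Real.pi / α)) t) *
        Dp f X (1 / 2 + t * Complex.I) * (starRingEnd ℂ) (Dp g Y (1 / 2 + t * Complex.I))) *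
        (gw τ H t : ℂ)‖ ≤ l1 f X * l1 g Y * ((Lam + 3) * gq H 1) := by
  rw [ap_expansion α β τ H hα hH, (expansion ({0, 1} : Finset ℤ)
    (fun m : ℤ => ex 1 (-(m * (2 * Real.pi / α * β)))) (fun m : ℤ => (m:ℝ) * (2 * Real.pi / α)) f g X Y τ H hH).2,
    sum_comm' (s := ({0, 1} : Finset ℤ)) (t := fun _ => Icc 1 ⌊X⌋₊) (t' := Icc 1 ⌊X⌋₊)
      (s' := fun _ => ({0, 1} : Finset ℤ)) (by intro x y; tauto), ← sum_sub_distrib]
  unfold l1
  rw [sum_mul_sum, sum_mul]
  refine norm_sum_le_of_le _ fun n hn => ?_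
  obtain ⟨hn1, hnX⟩ := mem_real hn
  rw [sum_comm' (s := ({0, 1} : Finset ℤ)) (t := fun _ => Icc 1 ⌊Y⌋₊) (t' := Icc 1 ⌊Y⌋₊)
      (s' := fun _ => ({0, 1} : Finset ℤ)) (by intro x y; tauto), ← sum_sub_distrib, sum_mul]
  refine norm_sum_le_of_le _ fun l hl => ?_
  obtain ⟨hl1, hlY⟩ := mem_real hl
  have hD := Dl_two α β τ H (Real.log l - Real.log n) hα hH h2 hy (by
    intro m h0 h1
    have := hnr m h0 h1 n l hn1 hnX hl1 hlY
    rw [show (m:ℝ) * (2 * Real.pi / α) + (Real.log l - Real.log n) =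
      m * (2 * Real.pi / α) - Real.log n + Real.log l by ring]
    exact this)
  have hd0 := dt_val α β τ H (Real.log l - Real.log n) 0
  have hd1 := dt_val α β τ H (Real.log l - Real.log n) 1
  rw [neg_zero] at hd0
  have e : (((f n * (Real.sqrt n)⁻¹ : ℝ) : ℂ) * ((g l * (Real.sqrt l)⁻¹ : ℝ) : ℂ)) *
        Dl α β τ H (Real.log l - Real.log n) -
      ∑ m ∈ ({0, 1} : Finset ℤ), (ex 1 (-(m * (2 * Real.pi / α * β))) * ((f n * (Real.sqrt n)⁻¹ : ℝ) : ℂ) *
        ((g l * (Real.sqrt l)⁻¹ : ℝ) : ℂ)) *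
        (ex (m * (2 * Real.pi / α) - Real.log n + Real.log l) τ *
          (gq H (m * (2 * Real.pi / α) - Real.log n + Real.log l) : ℝ)) =
      (((f n * (Real.sqrt n)⁻¹ : ℝ) : ℂ) * ((g l * (Real.sqrt l)⁻¹ : ℝ) : ℂ)) *
        (Dl α β τ H (Real.log l - Real.log n) - (dt α β τ H (Real.log l - Real.log n) 0 +
          dt α β τ H (Real.log l - Real.log n) (-1))) := by
    rw [hd0, hd1, sum_pair (by norm_num)]
    have e1 : ∀ m : ℤ, (m:ℝ) * (2 * Real.pi / α) - Real.log n + Real.log l =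
      m * (2 * Real.pi / α) + (Real.log l - Real.log n) := fun m => by ring
    rw [e1, e1]
    ring
  rw [e, norm_mul, norm_mul, Complex.norm_real, Complex.norm_real, Real.norm_eq_abs, Real.norm_eq_abs,
    abs_mul, abs_mul, abs_of_nonneg (by positivity : (0:ℝ) ≤ (Real.sqrt n)⁻¹),
    abs_of_nonneg (by positivity : (0:ℝ) ≤ (Real.sqrt l)⁻¹)]
  have k1 := inv_sqrt_le_one hn1
  have k2 := inv_sqrt_le_one hl1
  have k3 : 0 ≤ (Lam + 3) * gq H 1 := (norm_nonneg _).trans hD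
  calc |f n| * (Real.sqrt n)⁻¹ * (|g l| * (Real.sqrt l)⁻¹) * _ ≤
      |f n| * 1 * (|g l| * 1) * ((Lam + 3) * gq H 1) := by gcongr
    _ = _ := by ring

/-- replacement of the Dirichlet polynomial by zeta, and restriction to the window -/
lemma repl (a b : ℕ) (N X τ H R e₁ L : ℝ) (hN : 1 ≤ N) (hX0 : 0 ≤ X) (hH : 0 < H) (hR : 0 ≤ R)
    (he₁ : 0 ≤ e₁) (hL1 : l1 (zA N X a) (N ^ a * X) ≤ L) (hL2 : l1 (Aq N b) (N ^ b) ≤ L)
    (happ : ∀ t ∈ Set.Ioc (τ - R) (τ + R), ‖zl t - zX X t‖ ≤ e₁) (c : ℝ → ℂ) (hc : Continuous c) (K : ℝ)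
    (hcK : ∀ t, ‖c t‖ ≤ K) :
    ‖(∫ t in Set.Ioc (τ - R) (τ + R), (c t * (zl t * AL N t ^ a * (starRingEnd ℂ) (AL N t ^ b))) * (gw τ H t : ℂ)) -
      ∫ t : ℝ, (c t * Dp (zA N X a) (N ^ a * X) (1 / 2 + t * Complex.I) *
        (starRingEnd ℂ) (Dp (Aq N b) (N ^ b) (1 / 2 + t * Complex.I))) * (gw τ H t : ℂ)‖ ≤
    K * (L * L * (2 * Real.exp (-(R ^ 2 / (2 * H ^ 2)))) + e₁ * N ^ (a + b)) := by
  have hK0 : 0 ≤ K := (norm_nonneg _).trans (hcK 0)
  have hL0 : 0 ≤ L := (l1_nonneg _ _).trans hL2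
  set I := Set.Ioc (τ - R) (τ + R) with hI
  have hImeas : MeasurableSet I := measurableSet_Ioc
  have hgwI := gw_integrable τ H hH
  set G : ℝ → ℂ := fun t => (c t * Dp (zA N X a) (N ^ a * X) (1 / 2 + t * Complex.I) *
        (starRingEnd ℂ) (Dp (Aq N b) (N ^ b) (1 / 2 + t * Complex.I))) * (gw τ H t : ℂ) with hG
  have cD1 := Dp_cont (zA N X a) (N ^ a * X)
  have cD2 := Complex.continuous_conj.comp (Dp_cont (Aq N b) (N ^ b))
  have hGb : ∀ t : ℝ, ‖c t * Dp (zA N X a) (N ^ a * X) (1 / 2 + t * Complex.I) *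
        (starRingEnd ℂ) (Dp (Aq N b) (N ^ b) (1 / 2 + t * Complex.I))‖ ≤ K * L * L := by
    intro t
    rw [norm_mul, norm_mul, RCLike.norm_conj]
    have a1 := hcK t
    have a2 : ‖Dp (zA N X a) (N ^ a * X) (1 / 2 + t * Complex.I)‖ ≤ L := (Dp_line_norm _ _ _).trans hL1
    have a3 : ‖Dp (Aq N b) (N ^ b) (1 / 2 + t * Complex.I)‖ ≤ L := (Dp_line_norm _ _ _).trans hL2
    gcongr
  have hGint : Integrable G := by
    have hgc : Integrable (fun t : ℝ => (gw τ H t : ℂ)) := hgwI.ofReal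
    refine hgc.bdd_mul (c := K * L * L) ?_ (Eventually.of_forall fun t => hGb t)
    exact ((hc.mul cD1).mul cD2).aestronglyMeasurable
  have hout : ‖∫ t in Iᶜ, G t‖ ≤ K * (L * L * (2 * Real.exp (-(R ^ 2 / (2 * H ^ 2))))) := by
    calc ‖∫ t in Iᶜ, G t‖ ≤ ∫ t in Iᶜ, ‖G t‖ := norm_integral_le_integral_norm _
      _ ≤ ∫ t in Iᶜ, K * (L * L) * gw τ H t := by
          refine setIntegral_mono_on hGint.norm.integrableOn (hgwI.const_mul _).integrableOn
            hImeas.compl fun t _ => ?_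
          have hg := gw_nonneg τ H t hH
          have h1 : ‖G t‖ = ‖c t * Dp (zA N X a) (N ^ a * X) (1 / 2 + t * Complex.I) *
              (starRingEnd ℂ) (Dp (Aq N b) (N ^ b) (1 / 2 + t * Complex.I))‖ * gw τ H t := by
            rw [hG]
            simp only
            rw [norm_mul _ ((gw τ H t : ℝ) : ℂ), Complex.norm_real, Real.norm_of_nonneg hg]
          rw [h1]
          have h2 := hGb t
          calc _ ≤ K * L * L * gw τ H t := mul_le_mul_of_nonneg_right h2 hg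
            _ = _ := by ring
      _ = K * (L * L) * ∫ t in Iᶜ, gw τ H t := integral_const_mul _ _
      _ ≤ K * (L * L) * (2 * Real.exp (-(R ^ 2 / (2 * H ^ 2)))) := by
          gcongr
          exact gw_tail τ H R hH hR
      _ = _ := by ring
  set G' : ℝ → ℂ := fun t => (c t * (zl t * AL N t ^ a * (starRingEnd ℂ) (AL N t ^ b))) * (gw τ H t : ℂ) with hG'
  have hG'c : Continuous G' := by
    rw [hG']
    have c1 := AL_cont N
    have c4 := zl_cont
    have c5 : Continuous fun t : ℝ => (starRingEnd ℂ) (AL N t ^ b) :=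
      Complex.continuous_conj.comp (c1.pow b)
    have c7 : Continuous fun t : ℝ => (gw τ H t : ℂ) := Complex.continuous_ofReal.comp (gw_continuous τ H)
    fun_prop
  have hG'I : IntegrableOn G' I := (hG'c.integrableOn_Icc (a := τ - R) (b := τ + R)).mono_set
    Set.Ioc_subset_Icc_self
  have happx : ‖(∫ t in I, G' t) - ∫ t in I, G t‖ ≤ K * (e₁ * N ^ (a + b)) := by
    rw [← integral_sub hG'I hGint.integrableOn]
    calc ‖∫ t in I, (G' t - G t)‖ ≤ ∫ t in I, ‖G' t - G t‖ := norm_integral_le_integral_norm _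
      _ ≤ ∫ t in I, K * (e₁ * N ^ (a + b)) * gw τ H t := by
          refine setIntegral_mono_on (hG'I.sub hGint.integrableOn).norm
            (hgwI.const_mul _).integrableOn hImeas fun t ht => ?_
          have e1 : G' t - G t = (c t *
              ((zl t - zX X t) * AL N t ^ a * (starRingEnd ℂ) (AL N t ^ b))) * (gw τ H t : ℂ) := by
            rw [hG, hG']
            simp only
            rw [zA_Dp N X hN hX0, Aq_Dp N hN]
            ring
          have hg := gw_nonneg τ H t hH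
          rw [e1, norm_mul, norm_mul, norm_mul, norm_mul, RCLike.norm_conj, norm_pow, norm_pow,
            Complex.norm_real, Real.norm_of_nonneg hg]
          have b1 := happ t ht
          have a1 := hcK t
          have a3 := AL_norm N hN t
          calc _ ≤ K * (e₁ * N ^ a * N ^ b) * gw τ H t := by gcongr
            _ = _ := by rw [pow_add]; ring
      _ ≤ ∫ t, K * (e₁ * N ^ (a + b)) * gw τ H t := by
          refine setIntegral_le_integral (hgwI.const_mul _) (Eventually.of_forall fun t => ?_)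
          have := gw_nonneg τ H t hH
          simp only [Pi.zero_apply]
          positivity
      _ = K * (e₁ * N ^ (a + b)) := by
          rw [integral_const_mul, gw_integral τ H hH, mul_one]
  have hsplit := integral_add_compl hImeas hGint
  have e2 : (∫ t in I, G' t) - ∫ t, G t = ((∫ t in I, G' t) - ∫ t in I, G t) - ∫ t in Iᶜ, G t := by
    rw [← hsplit]; ring
  rw [e2]
  refine (norm_sub_le _ _).trans ?_
  linarith

end

end Pool.Agent.R311.SE
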