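import Pool.Agent.R311.SE.R1

set_option autoImplicit false

/-! Discrete averages of zeta times short polynomials. -/

namespace Pool.Agent.R311.SE

open Finset MeasureTheory Filter Topology
open Pool.Agent.H306R2
open Pool.Agent.R311.BS (ex ex_norm ex_add ex_cont gq gq_nonneg gq_le_one gq_far Lam Lam_ge_one zX l1
  l1_nonneg expansion Dp_line_norm inv_sqrt_le_one TT)
open Pool.Agent.R311.AP (Dl dt mass_le gwk_summable bdd_summable Kw mem_Kw outside_bound sum_Kw_le)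

noncomputable section

set_option maxHeartbeats 1000000 in
theorem LD (a b : ℕ) (N X Z ρ τ H R e₁ e₂ L α β : ℝ) (v : ℂ) (hv : ‖v‖ = 1) (hN : 1 ≤ N) (hX : 1 ≤ X)
    (hNX : N ^ b ≤ N ^ a * X) (hNX' : N ^ a ≤ N ^ b * X) (hρ : 0 ≤ ρ) (hρ1 : ρ ≤ 1)
    (hZ : N ^ b * Real.exp 1 ≤ Z) (hZ' : N ^ a * Real.exp 1 ≤ Z)
    (hρ2 : ρ ≤ 1 / Z) (hH : 0 < H) (hR : 0 ≤ R) (he₁ : 0 ≤ e₁) (he₂ : 0 ≤ e₂)
    (hα : 0 < α) (h2 : 2 ≤ 2 * Real.pi / α) (hy : 1 ≤ H ^ 2 * (2 * Real.pi / α) ^ 2 / 16)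
    (hy2 : Lam * Real.exp (-(H ^ 2 * (2 * Real.pi / α) ^ 2 / 16)) ≤ 1)
    (hL1 : l1 (zA N X a) (N ^ a * X) ≤ L) (hL2 : l1 (Aq N b) (N ^ b) ≤ L)
    (hL1' : l1 (zA N X b) (N ^ b * X) ≤ L) (hL2' : l1 (Aq N a) (N ^ a) ≤ L)
    (happ : ∀ t ∈ Set.Ioc (τ - R) (τ + R), ‖zl t - zX X t‖ ≤ e₁)
    (hnr : ∀ m : ℤ, m ≠ 0 → m ≠ 1 → ∀ n l : ℕ, 1 ≤ n → (n:ℝ) ≤ N ^ a * X → 1 ≤ l → (l:ℝ) ≤ N ^ b →
      1 ≤ |m * (2 * Real.pi / α) - Real.log n + Real.log l|)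
    (hph : ∀ t ∈ Set.Ioc (τ - R) (τ + R), ‖ex 1 (-(2 * Real.pi / α * β)) * ex (2 * Real.pi / α) t * zl t -
      v * (starRingEnd ℂ) (zl t)‖ ≤ e₂) :
    ‖(α : ℂ) * (∑ k ∈ Kw α β τ R, (zl (α * k + β) * AL N (α * k + β) ^ a *
        (starRingEnd ℂ) (AL N (α * k + β) ^ b)) * (gw τ H (α * k + β) : ℂ)) -
      (((Sd N X a b : ℝ) : ℂ) + v * ((Sd N X b a : ℝ) : ℂ))‖ ≤
    3 * ((Lam + 1) * (L * L * gq H ρ + L * L * (2 * Real.exp (-(R ^ 2 / (2 * H ^ 2)))) + e₁ * N ^ (a + b))) +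
      e₂ * N ^ (a + b) := by
  have hLam := Lam_ge_one
  have hL0 : 0 ≤ L := (l1_nonneg _ _).trans hL2
  have hX0 : 0 ≤ X := by linarith
  set h := 2 * Real.pi / α with hh
  set I := Set.Ioc (τ - R) (τ + R) with hI
  have hImeas : MeasurableSet I := measurableSet_Ioc
  have hgwI := gw_integrable τ H hH
  obtain ⟨Q, hQ⟩ : ∃ Q : ℝ, Q = L * L * gq H ρ := ⟨_, rfl⟩
  obtain ⟨Eo, hEo⟩ : ∃ Eo : ℝ, Eo = L * L * (2 * Real.exp (-(R ^ 2 / (2 * H ^ 2)))) := ⟨_, rfl⟩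
  obtain ⟨E1, hE1⟩ : ∃ E1 : ℝ, E1 = e₁ * N ^ (a + b) := ⟨_, rfl⟩
  have hQ0 : 0 ≤ Q := by rw [hQ]; have := gq_nonneg H ρ; positivity
  have hEo0 : 0 ≤ Eo := by rw [hEo]; positivity
  have hE10 : 0 ≤ E1 := by rw [hE1]; positivity
  have hgq1 : gq H 1 ≤ gq H ρ := gq_far H 1 ρ hρ (by rw [abs_one]; exact hρ1)
  -- discrete to continuous
  set F : ℝ → ℂ := fun t => Dp (zA N X a) (N ^ a * X) (1 / 2 + (t : ℂ) * Complex.I) *
      (starRingEnd ℂ) (Dp (Aq N b) (N ^ b) (1 / 2 + (t : ℂ) * Complex.I)) with hF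
  set F' : ℝ → ℂ := fun t => zl t * AL N t ^ a * (starRingEnd ℂ) (AL N t ^ b) with hF'
  have hFn : ∀ t : ℝ, ‖F t‖ ≤ L * L := by
    intro t
    rw [hF]
    simp only
    rw [norm_mul, RCLike.norm_conj]
    exact mul_le_mul ((Dp_line_norm _ _ _).trans hL1) ((Dp_line_norm _ _ _).trans hL2) (norm_nonneg _) hL0
  have hdc := disc_cont α β τ H hα hH h2 hy (zA N X a) (Aq N b) (N ^ a * X) (N ^ b) hnr
  rw [← hh] at hdc
  have hdc2 : l1 (zA N X a) (N ^ a * X) * l1 (Aq N b) (N ^ b) * ((Lam + 3) * gq H 1) ≤ (Lam + 3) * Q := by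
    have k1 : l1 (zA N X a) (N ^ a * X) * l1 (Aq N b) (N ^ b) ≤ L * L :=
      mul_le_mul hL1 hL2 (l1_nonneg _ _) hL0
    have k2 := gq_nonneg H 1
    calc _ ≤ L * L * ((Lam + 3) * gq H ρ) := by gcongr
      _ = _ := by rw [hQ]; ring
  set K := Kw α β τ R with hK
  have hFs : Summable fun k : ℤ => F (α * k + β) * (gw τ H (α * k + β) : ℂ) :=
    bdd_summable α β τ H hα hH _ _ fun k => hFn _
  have hsplit : (α : ℂ) * ∑' k : ℤ, F (α * k + β) * (gw τ H (α * k + β) : ℂ) =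
      (α : ℂ) * (∑ k ∈ K, F (α * k + β) * (gw τ H (α * k + β) : ℂ)) +
      (α : ℂ) * ∑' k : (((K : Finset ℤ) : Set ℤ)ᶜ : Set ℤ), F (α * (k : ℤ) + β) * (gw τ H (α * (k : ℤ) + β) : ℂ) := by
    rw [← mul_add]
    congr 1
    exact (hFs.sum_add_tsum_compl (s := K)).symm
  have hout := outside_bound α β τ H R (L * L) hα hH hR (by positivity) hy hy2 F hFn
  rw [← hK] at hout
  have hout2 : L * L * (3 * Real.exp (-(R ^ 2 / (2 * H ^ 2)))) ≤ 2 * Eo := by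
    have k1 := Real.exp_pos (-(R ^ 2 / (2 * H ^ 2)))
    rw [hEo]
    have : 0 ≤ L * L * Real.exp (-(R ^ 2 / (2 * H ^ 2))) := by positivity
    linarith
  have hmass := mass_le α β τ H hα hH hy
  have hgws := gwk_summable α β τ H hα hH
  have hgw0 : ∀ k : ℤ, 0 ≤ gw τ H (α * k + β) := fun k => gw_nonneg _ _ _ hH
  have hmK : α * ∑ k ∈ K, gw τ H (α * k + β) ≤ 2 := by
    have := sum_Kw_le α β τ R hα _ hgw0 hgws
    rw [← hK] at this
    linarith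
  have happx : ‖(α : ℂ) * (∑ k ∈ K, F (α * k + β) * (gw τ H (α * k + β) : ℂ)) -
      (α : ℂ) * (∑ k ∈ K, F' (α * k + β) * (gw τ H (α * k + β) : ℂ))‖ ≤ 2 * E1 := by
    rw [← mul_sub, ← sum_sub_distrib, norm_mul, Complex.norm_real, Real.norm_of_nonneg hα.le]
    have hterm : ∀ k ∈ K, ‖F (α * k + β) * (gw τ H (α * k + β) : ℂ) -
        F' (α * k + β) * (gw τ H (α * k + β) : ℂ)‖ ≤ E1 * gw τ H (α * k + β) := by
      intro k hk
      rw [hK, mem_Kw hα] at hk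
      set t := α * (k:ℝ) + β with ht
      have e1 : F t * (gw τ H t : ℂ) - F' t * (gw τ H t : ℂ) =
          ((zX X t - zl t) * AL N t ^ a * (starRingEnd ℂ) (AL N t ^ b)) * (gw τ H t : ℂ) := by
        rw [hF, hF']
        simp only
        rw [zA_Dp N X hN hX0, Aq_Dp N hN]
        ring
      rw [e1, norm_mul, norm_mul, norm_mul, RCLike.norm_conj, norm_pow, norm_pow,
        Complex.norm_real, Real.norm_of_nonneg (gw_nonneg τ H t hH)]
      have b1 := happ t hk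
      rw [norm_sub_rev] at b1
      have := gw_nonneg τ H t hH
      have a3 := AL_norm N hN t
      calc _ ≤ e₁ * N ^ a * N ^ b * gw τ H t := by gcongr
        _ = _ := by rw [hE1, pow_add]; ring
    calc α * ‖∑ k ∈ K, (F (α * k + β) * (gw τ H (α * k + β) : ℂ) -
        F' (α * k + β) * (gw τ H (α * k + β) : ℂ))‖ ≤
        α * ∑ k ∈ K, E1 * gw τ H (α * k + β) := by
          refine mul_le_mul_of_nonneg_left ?_ hα.le
          exact norm_sum_le_of_le _ hterm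
      _ = E1 * (α * ∑ k ∈ K, gw τ H (α * k + β)) := by
          rw [← mul_sum]; ring
      _ ≤ E1 * 2 := by gcongr
      _ = _ := by ring
  -- the continuous side
  set c : ℝ → ℂ := fun t => ∑ m ∈ ({0, 1} : Finset ℤ), ex 1 (-(m * (h * β))) * ex (m * h) t with hc
  have hcc : Continuous c := by
    rw [hc]
    exact continuous_finsetSum _ fun m _ => (ex_cont _).const_mul _ |>.congr fun _ => rfl
  have hcK : ∀ t, ‖c t‖ ≤ 2 := by
    intro t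
    rw [hc]
    simp only
    rw [sum_pair (by norm_num)]
    refine (norm_add_le _ _).trans ?_
    rw [norm_mul, norm_mul, ex_norm, ex_norm, ex_norm, ex_norm]
    norm_num
  have hrp := repl a b N X τ H R e₁ L hN hX0 hH hR he₁ hL1 hL2 happ c hcc 2 hcK
  rw [← hEo, ← hE1, ← hI] at hrp
  have hJint : (fun t : ℝ => (c t * Dp (zA N X a) (N ^ a * X) (1 / 2 + t * Complex.I) *
        (starRingEnd ℂ) (Dp (Aq N b) (N ^ b) (1 / 2 + t * Complex.I))) * (gw τ H t : ℂ)) =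
      fun t : ℝ => ((∑ m ∈ ({0, 1} : Finset ℤ), ex 1 (-(m * (h * β))) * ex (m * h) t) *
        Dp (zA N X a) (N ^ a * X) (1 / 2 + t * Complex.I) *
        (starRingEnd ℂ) (Dp (Aq N b) (N ^ b) (1 / 2 + t * Complex.I))) * (gw τ H t : ℂ) := rfl
  rw [← hJint] at hdc
  -- the two integrals over the window
  have c1 := AL_cont N
  have c4 := zl_cont
  have c5 : ∀ k : ℕ, Continuous fun t : ℝ => (starRingEnd ℂ) (AL N t ^ k) := fun k =>
    Complex.continuous_conj.comp (c1.pow k)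
  have k5 : ∀ k : ℕ, Continuous fun t : ℝ => (starRingEnd ℂ) (AL N t) ^ k := fun k =>
    (Complex.continuous_conj.comp c1).pow k
  have c7 : Continuous fun t : ℝ => (gw τ H t : ℂ) := Complex.continuous_ofReal.comp (gw_continuous τ H)
  have c8 : Continuous fun t : ℝ => (starRingEnd ℂ) (zl t) := Complex.continuous_conj.comp c4
  have hcI : ∀ F : ℝ → ℂ, Continuous F → IntegrableOn F I := fun F hF =>
    (hF.integrableOn_Icc (a := τ - R) (b := τ + R)).mono_set Set.Ioc_subset_Icc_self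
  have j1 := LJ a b {0} (mem_singleton_self _) (fun _ => (1:ℂ)) 1 (by simp) N X Z ρ τ H R e₁ h L hN hX
    hNX hρ hρ1 hZ hρ2 hH hR he₁ hL1 hL2 happ (fun m hm hm0 => by
      rw [mem_singleton] at hm; exact absurd hm hm0)
  have j2 := LJ b a {0} (mem_singleton_self _) (fun _ => (1:ℂ)) 1 (by simp) N X Z ρ τ H R e₁ h L hN hX
    hNX' hρ hρ1 hZ' hρ2 hH hR he₁ hL1' hL2' happ (fun m hm hm0 => by
      rw [mem_singleton] at hm; exact absurd hm hm0)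
  rw [← hQ, ← hEo, ← hE1, ← hI, one_mul] at j1
  rw [add_comm b a, ← hQ, ← hEo, ← hE1, ← hI, one_mul, one_mul] at j2
  set F1 : ℝ → ℂ := fun t => ((∑ m ∈ ({0} : Finset ℤ), (1:ℂ) * ex (m * h) t) *
        (zl t * AL N t ^ a * (starRingEnd ℂ) (AL N t ^ b))) * (gw τ H t : ℂ) with hF1
  set F2 : ℝ → ℂ := fun t => (ex 1 (-(h * β)) * ex h t * zl t) *
        (AL N t ^ a * (starRingEnd ℂ) (AL N t ^ b)) * (gw τ H t : ℂ) with hF2
  set F3 : ℝ → ℂ := fun t => (v * (starRingEnd ℂ) (zl t)) *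
        (AL N t ^ a * (starRingEnd ℂ) (AL N t ^ b)) * (gw τ H t : ℂ) with hF3
  have cF1 : Continuous F1 := by
    rw [hF1]
    have c6 : Continuous fun t : ℝ => ∑ m ∈ ({0} : Finset ℤ), (1:ℂ) * ex (m * h) t :=
      continuous_finsetSum _ fun m _ => (ex_cont _).const_mul _ |>.congr fun _ => rfl
    have := c5 b
    fun_prop
  have cF2 : Continuous F2 := by
    rw [hF2]
    have := c5 b
    have c6 := ex_cont h
    fun_prop
  have cF3 : Continuous F3 := by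
    rw [hF3]
    have := c5 b
    fun_prop
  have hdec : ∀ t : ℝ, (c t * (zl t * AL N t ^ a * (starRingEnd ℂ) (AL N t ^ b))) * (gw τ H t : ℂ) =
      F1 t + F2 t := by
    intro t
    rw [hc, hF1, hF2]
    simp only
    rw [sum_pair (by norm_num), sum_singleton]
    simp only [Int.cast_zero, Int.cast_one, zero_mul, one_mul, neg_zero]
    have e0 : ex 1 0 = 1 := by unfold ex; simp
    rw [e0]
    ring
  have hI12 : ∫ t in I, (c t * (zl t * AL N t ^ a * (starRingEnd ℂ) (AL N t ^ b))) * (gw τ H t : ℂ) =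
      (∫ t in I, F1 t) + ∫ t in I, F2 t := by
    rw [← integral_add (hcI F1 cF1) (hcI F2 cF2)]
    exact setIntegral_congr_fun hImeas fun t _ => hdec t
  rw [hI12] at hrp
  have hF3v : ∫ t in I, F3 t = v * (starRingEnd ℂ) (∫ t in I,
      ((∑ m ∈ ({0} : Finset ℤ), (1:ℂ) * ex (m * h) t) *
        (zl t * AL N t ^ b * (starRingEnd ℂ) (AL N t ^ a))) * (gw τ H t : ℂ)) := by
    rw [← integral_conj, ← integral_const_mul]
    refine integral_congr_ae (Eventually.of_forall fun t => ?_)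
    rw [hF3]
    simp only [sum_singleton, Int.cast_zero, zero_mul, one_mul, map_mul, Complex.conj_conj,
      Complex.conj_ofReal, map_pow]
    have e0 : (starRingEnd ℂ) (ex 0 t) = 1 := by unfold ex; simp
    rw [e0]
    ring
  have h3 : ‖(∫ t in I, F3 t) - v * ((Sd N X b a : ℝ) : ℂ)‖ ≤ Q + Eo + E1 := by
    rw [hF3v, ← mul_sub]
    have e1 : (starRingEnd ℂ) (∫ t in I,
      ((∑ m ∈ ({0} : Finset ℤ), (1:ℂ) * ex (m * h) t) *
        (zl t * AL N t ^ b * (starRingEnd ℂ) (AL N t ^ a))) * (gw τ H t : ℂ)) - ((Sd N X b a : ℝ) : ℂ) =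
        (starRingEnd ℂ) ((∫ t in I, ((∑ m ∈ ({0} : Finset ℤ), (1:ℂ) * ex (m * h) t) *
        (zl t * AL N t ^ b * (starRingEnd ℂ) (AL N t ^ a))) * (gw τ H t : ℂ)) - ((Sd N X b a : ℝ) : ℂ)) := by
      rw [map_sub, Complex.conj_ofReal]
    rw [e1, norm_mul, hv, one_mul, RCLike.norm_conj]
    exact j2
  have h4 : ‖(∫ t in I, F2 t) - ∫ t in I, F3 t‖ ≤ e₂ * N ^ (a + b) := by
    rw [← integral_sub (hcI F2 cF2) (hcI F3 cF3)]
    calc ‖∫ t in I, (F2 t - F3 t)‖ ≤ ∫ t in I, ‖F2 t - F3 t‖ := norm_integral_le_integral_norm _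
      _ ≤ ∫ t in I, e₂ * N ^ (a + b) * gw τ H t := by
          refine setIntegral_mono_on ((hcI F2 cF2).sub (hcI F3 cF3)).norm
            (hgwI.const_mul _).integrableOn hImeas fun t ht => ?_
          have e1 : F2 t - F3 t = (ex 1 (-(h * β)) * ex h t * zl t -
              v * (starRingEnd ℂ) (zl t)) * (AL N t ^ a * (starRingEnd ℂ) (AL N t ^ b)) *
              (gw τ H t : ℂ) := by
            rw [hF2, hF3]
            simp only
            ring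
          have hg := gw_nonneg τ H t hH
          rw [e1, norm_mul, norm_mul, norm_mul, RCLike.norm_conj, norm_pow, norm_pow,
            Complex.norm_real, Real.norm_of_nonneg hg]
          have b1 := hph t ht
          have a3 := AL_norm N hN t
          calc _ ≤ e₂ * (N ^ a * N ^ b) * gw τ H t := by gcongr
            _ = _ := by rw [pow_add]
      _ ≤ ∫ t, e₂ * N ^ (a + b) * gw τ H t := by
          refine setIntegral_le_integral (hgwI.const_mul _) (Eventually.of_forall fun t => ?_)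
          have := gw_nonneg τ H t hH
          simp only [Pi.zero_apply]
          positivity
      _ = e₂ * N ^ (a + b) := by
          rw [integral_const_mul, gw_integral τ H hH, mul_one]
  rw [one_mul] at j1
  -- conclusion
  obtain ⟨z1, hz1⟩ : ∃ z1 : ℂ, z1 = (α : ℂ) * ∑' k : ℤ, F (α * k + β) * (gw τ H (α * k + β) : ℂ) := ⟨_, rfl⟩
  obtain ⟨z2, hz2⟩ : ∃ z2 : ℂ, z2 = ∫ t : ℝ, (c t * Dp (zA N X a) (N ^ a * X) (1 / 2 + t * Complex.I) *
        (starRingEnd ℂ) (Dp (Aq N b) (N ^ b) (1 / 2 + t * Complex.I))) * (gw τ H t : ℂ) := ⟨_, rfl⟩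
  obtain ⟨z3, hz3⟩ : ∃ z3 : ℂ, z3 = (α : ℂ) * (∑ k ∈ K, F (α * k + β) * (gw τ H (α * k + β) : ℂ)) := ⟨_, rfl⟩
  obtain ⟨z4, hz4⟩ : ∃ z4 : ℂ, z4 = (α : ℂ) * (∑ k ∈ K, F' (α * k + β) * (gw τ H (α * k + β) : ℂ)) := ⟨_, rfl⟩
  obtain ⟨z5, hz5⟩ : ∃ z5 : ℂ, z5 = (α : ℂ) * ∑' k : (((K : Finset ℤ) : Set ℤ)ᶜ : Set ℤ), F (α * (k : ℤ) + β) * (gw τ H (α * (k : ℤ) + β) : ℂ) := ⟨_, rfl⟩
  have hdc3 : ‖z1 - z2‖ ≤ (Lam + 3) * Q := by
    rw [hz1, hz2]
    exact hdc.trans hdc2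
  rw [← hz1, ← hz3, ← hz5] at hsplit
  rw [← hz5] at hout
  rw [← hz3, ← hz4] at happx
  rw [← hz2] at hrp
  have hgoal : (α : ℂ) * (∑ k ∈ K, (zl (α * k + β) * AL N (α * k + β) ^ a *
        (starRingEnd ℂ) (AL N (α * k + β) ^ b)) * (gw τ H (α * k + β) : ℂ)) = z4 := hz4.symm
  rw [hgoal, ← hEo, ← hQ, ← hE1]
  obtain ⟨w1, hw1⟩ : ∃ w1 : ℂ, w1 = ∫ t in I, F1 t := ⟨_, rfl⟩
  obtain ⟨w2, hw2⟩ : ∃ w2 : ℂ, w2 = ∫ t in I, F2 t := ⟨_, rfl⟩
  obtain ⟨w3, hw3⟩ : ∃ w3 : ℂ, w3 = ∫ t in I, F3 t := ⟨_, rfl⟩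
  rw [← hw1, ← hw2] at hrp
  rw [← hw1] at j1
  rw [← hw3] at h3
  rw [← hw2, ← hw3] at h4
  obtain ⟨s1, hs1⟩ : ∃ s1 : ℂ, s1 = ((Sd N X a b : ℝ) : ℂ) := ⟨_, rfl⟩
  obtain ⟨s2, hs2⟩ : ∃ s2 : ℂ, s2 = v * ((Sd N X b a : ℝ) : ℂ) := ⟨_, rfl⟩
  rw [← hs1] at j1
  rw [← hs2] at h3
  rw [← hs1, ← hs2]
  have e9 : z4 - (s1 + s2) = -(z3 - z4) - z5 + (z1 - z2) - ((w1 + w2) - z2) + (w1 - s1) + (w2 - w3) + (w3 - s2) := by
    rw [hsplit]; ring
  rw [e9]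
  have t1 := norm_add_le (-(z3 - z4) - z5 + (z1 - z2) - ((w1 + w2) - z2) + (w1 - s1) + (w2 - w3)) (w3 - s2)
  have t2 := norm_add_le (-(z3 - z4) - z5 + (z1 - z2) - ((w1 + w2) - z2) + (w1 - s1)) (w2 - w3)
  have t3 := norm_add_le (-(z3 - z4) - z5 + (z1 - z2) - ((w1 + w2) - z2)) (w1 - s1)
  have t4 := norm_sub_le (-(z3 - z4) - z5 + (z1 - z2)) ((w1 + w2) - z2)
  have t5 := norm_add_le (-(z3 - z4) - z5) (z1 - z2)
  have t6 := norm_sub_le (-(z3 - z4)) z5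
  rw [norm_neg] at t6
  have hLQ : 0 ≤ Lam * Q := by positivity
  have hLEo : 0 ≤ (Lam - 1) * Eo := mul_nonneg (by linarith) hEo0
  have hLE1 : 0 ≤ (Lam - 1) * E1 := mul_nonneg (by linarith) hE10
  have hLQ2 : 0 ≤ (Lam - 1) * Q := mul_nonneg (by linarith) hQ0
  nlinarith only [t1, t2, t3, t4, t5, t6, h3, h4, j1, hrp, hdc3, happx, hout, hout2, hLQ, hLEo, hLE1, hLQ2,
    hQ0, hEo0, hE10]

end

end Pool.Agent.R311.SE
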