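import Pool.Agent.R311.SE.R2
import Pool.Agent.R311.SE.E

set_option autoImplicit false

/-! The core inequality over the discrete points of one window. -/

namespace Pool.Agent.R311.SE

open Finset MeasureTheory Filter Topology
open Pool.Agent.H306R2
open Pool.Agent.R311.BS (ex ex_norm ex_add ex_cont gq gq_nonneg gq_le_one gq_far Lam Lam_ge_one zX l1
  l1_nonneg expansion Dp_line_norm inv_sqrt_le_one TT zero_freq young)
open Pool.Agent.R311.AP (Dl dt mass_le gwk_summable bdd_summable Kw mem_Kw outside_bound sum_Kw_le)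

noncomputable section

theorem sq_disc (N : ℝ) (hN : 1 ≤ N) (q : ℕ) (Z ρ τ H L α β : ℝ) (hα : 0 < α) (hH : 0 < H)
    (h2 : 2 ≤ 2 * Real.pi / α) (hy : 1 ≤ H ^ 2 * (2 * Real.pi / α) ^ 2 / 16) (hρ : 0 ≤ ρ) (hρ1 : ρ ≤ 1)
    (hZ : N ^ q * Real.exp 1 ≤ Z) (hρ2 : ρ ≤ 1 / Z) (hL : l1 (Aq N q) (N ^ q) ≤ L)
    (hnr : ∀ m : ℤ, m ≠ 0 → m ≠ 1 → ∀ n l : ℕ, 1 ≤ n → (n:ℝ) ≤ N ^ q → 1 ≤ l → (l:ℝ) ≤ N ^ q →
      1 ≤ |m * (2 * Real.pi / α) - Real.log n + Real.log l|)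
    (hnr1 : ∀ n l : ℕ, 1 ≤ n → (n:ℝ) ≤ N ^ q → 1 ≤ l → (l:ℝ) ≤ N ^ q →
      1 ≤ |2 * Real.pi / α - Real.log n + Real.log l|) :
    Summable (fun k : ℤ => ‖AL N (α * k + β)‖ ^ (2 * q) * gw τ H (α * k + β)) ∧
    α * ∑' k : ℤ, ‖AL N (α * k + β)‖ ^ (2 * q) * gw τ H (α * k + β) ≤
      (∑ n ∈ Icc 1 ⌊N ^ q⌋₊, dv ((q:ℝ) / 2) n * dv ((q:ℝ) / 2) n / n) + (Lam + 5) * (L * L * gq H ρ) := by
  have hLam := Lam_ge_one
  have hY1 : 1 ≤ N ^ q := one_le_pow₀ hN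
  have hL0 : 0 ≤ L := (l1_nonneg _ _).trans hL
  have hgq1 : gq H 1 ≤ gq H ρ := gq_far H 1 ρ hρ (by rw [abs_one]; exact hρ1)
  have hg0 := gq_nonneg H ρ
  have hLL : l1 (Aq N q) (N ^ q) * l1 (Aq N q) (N ^ q) ≤ L * L := mul_le_mul hL hL (l1_nonneg _ _) hL0
  set h := 2 * Real.pi / α with hh
  have hsum : Summable (fun k : ℤ => ‖AL N (α * k + β)‖ ^ (2 * q) * gw τ H (α * k + β)) := by
    have h1 := bdd_summable α β τ H hα hH (fun k : ℤ => ((‖AL N (α * k + β)‖ ^ (2 * q) : ℝ) : ℂ)) (N ^ (2 * q))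
      (fun k => by
        rw [Complex.norm_real, Real.norm_of_nonneg (by positivity)]
        exact pow_le_pow_left₀ (norm_nonneg _) (AL_norm N hN _) _)
    have h3 := Complex.reCLM.summable h1
    refine h3.congr fun k => ?_
    simp only [Complex.reCLM_apply]
    rw [← Complex.ofReal_mul, Complex.ofReal_re]
  refine ⟨hsum, ?_⟩
  have hdc := disc_cont α β τ H hα hH h2 hy (Aq N q) (Aq N q) (N ^ q) (N ^ q) hnr
  rw [← hh] at hdc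
  have hval : ∫ t : ℝ, ((∑ m ∈ ({0, 1} : Finset ℤ), ex 1 (-(m * (h * β))) * ex (m * h) t) *
        Dp (Aq N q) (N ^ q) (1 / 2 + t * Complex.I) *
        (starRingEnd ℂ) (Dp (Aq N q) (N ^ q) (1 / 2 + t * Complex.I))) * (gw τ H t : ℂ) =
      ∑ m ∈ ({0, 1} : Finset ℤ), ex 1 (-(m * (h * β))) * TT (Aq N q) (Aq N q) (N ^ q) (N ^ q) τ H (m * h) := by
    rw [(expansion ({0, 1} : Finset ℤ) (fun m : ℤ => ex 1 (-(m * (h * β)))) (fun m : ℤ => (m:ℝ) * h)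
      (Aq N q) (Aq N q) (N ^ q) (N ^ q) τ H hH).2]
    refine sum_congr rfl fun m _ => ?_
    unfold TT
    rw [mul_sum]
    refine sum_congr rfl fun n _ => ?_
    rw [mul_sum]
    refine sum_congr rfl fun l _ => ?_
    ring
  rw [hval, sum_pair (by norm_num)] at hdc
  have e0 : ex 1 (-(((0:ℤ):ℝ) * (h * β))) = 1 := by unfold ex; simp
  rw [e0, one_mul, Int.cast_zero, zero_mul, Int.cast_one, one_mul, one_mul] at hdc
  have hT1 : ‖TT (Aq N q) (Aq N q) (N ^ q) (N ^ q) τ H h‖ ≤ L * L * gq H ρ := by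
    refine (TT_nonres _ _ _ _ τ H h (fun n l h1 h3 h4 h5 => hnr1 n l h1 h3 h4 h5)).trans ?_
    have := gq_nonneg H 1
    gcongr
  have h4 := zero_freq (Aq N q) (Aq N q) (N ^ q) (N ^ q) Z ρ τ H hY1 le_rfl hρ hρ1 hZ hρ2
  have h7 : ∑ n ∈ Icc 1 ⌊N ^ q⌋₊, Aq N q n * Aq N q n / n ≤
      ∑ n ∈ Icc 1 ⌊N ^ q⌋₊, dv ((q:ℝ) / 2) n * dv ((q:ℝ) / 2) n / n := by
    refine sum_le_sum fun n _ => ?_
    have h8 := Aq_bd N q n
    have h9 := h8.1.trans h8.2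
    gcongr
    · exact h8.1
    · exact h8.2
    · exact h8.2
  have h70 : 0 ≤ ∑ n ∈ Icc 1 ⌊N ^ q⌋₊, Aq N q n * Aq N q n / (n:ℝ) := by
    refine sum_nonneg fun n _ => ?_
    have h8 := (Aq_bd N q n).1
    positivity
  have hT0 : ‖TT (Aq N q) (Aq N q) (N ^ q) (N ^ q) τ H 0‖ ≤
      (∑ n ∈ Icc 1 ⌊N ^ q⌋₊, dv ((q:ℝ) / 2) n * dv ((q:ℝ) / 2) n / n) + L * L * gq H ρ := by
    have k1 := norm_sub_norm_le (TT (Aq N q) (Aq N q) (N ^ q) (N ^ q) τ H 0)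
      (((∑ n ∈ Icc 1 ⌊N ^ q⌋₊, Aq N q n * Aq N q n / n : ℝ) : ℂ))
    rw [Complex.norm_real, Real.norm_of_nonneg h70] at k1
    have k2 : l1 (Aq N q) (N ^ q) * l1 (Aq N q) (N ^ q) * gq H ρ ≤ L * L * gq H ρ := by gcongr
    linarith
  have hE : l1 (Aq N q) (N ^ q) * l1 (Aq N q) (N ^ q) * ((Lam + 3) * gq H 1) ≤ (Lam + 3) * (L * L * gq H ρ) := by
    have := gq_nonneg H 1
    calc _ ≤ L * L * ((Lam + 3) * gq H ρ) := by gcongr
      _ = _ := by ring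
  have e1 : (α : ℂ) * ∑' k : ℤ, (Dp (Aq N q) (N ^ q) (1 / 2 + ((α * k + β : ℝ) : ℂ) * Complex.I) *
      (starRingEnd ℂ) (Dp (Aq N q) (N ^ q) (1 / 2 + ((α * k + β : ℝ) : ℂ) * Complex.I))) * (gw τ H (α * k + β) : ℂ) =
      ((α * ∑' k : ℤ, ‖AL N (α * k + β)‖ ^ (2 * q) * gw τ H (α * k + β) : ℝ) : ℂ) := by
    push_cast
    congr 1
    refine tsum_congr fun k => ?_
    rw [Complex.mul_conj, Complex.normSq_eq_norm_sq]
    have h8 := Aq_Dp N hN q (α * k + β)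
    push_cast at h8 ⊢
    rw [h8, norm_pow]
    push_cast
    ring
  rw [e1] at hdc
  obtain ⟨V, hV⟩ : ∃ V : ℝ, V = α * ∑' k : ℤ, ‖AL N (α * k + β)‖ ^ (2 * q) * gw τ H (α * k + β) := ⟨_, rfl⟩
  rw [← hV] at hdc ⊢
  have h9 := norm_sub_norm_le ((V : ℝ) : ℂ) (TT (Aq N q) (Aq N q) (N ^ q) (N ^ q) τ H 0 +
    ex 1 (-(h * β)) * TT (Aq N q) (Aq N q) (N ^ q) (N ^ q) τ H h)
  have h10 := norm_add_le (TT (Aq N q) (Aq N q) (N ^ q) (N ^ q) τ H 0)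
    (ex 1 (-(h * β)) * TT (Aq N q) (Aq N q) (N ^ q) (N ^ q) τ H h)
  rw [norm_mul, ex_norm, one_mul] at h10
  have h11 : V ≤ ‖((V : ℝ) : ℂ)‖ := by rw [Complex.norm_real]; exact Real.le_norm_self V
  linarith

theorem coreD (q : ℕ) (hq : 2 ≤ q)
    (N X Z ρ τ H R e₁ e₂ L α β κ₀ κ₁ μ : ℝ) (u : ℂ) (hu : ‖u‖ = 1) (hN : 1 ≤ N)
    (hNX : N ^ q ≤ X) (hρ : 0 ≤ ρ) (hρ1 : ρ ≤ 1)
    (hZ : N ^ q * Real.exp 1 ≤ Z) (hρ2 : ρ ≤ 1 / Z) (hH : 0 < H) (hR : 0 < R) (he₁ : 0 ≤ e₁) (he₂ : 0 ≤ e₂)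
    (hL : (N ^ q * X) ^ (q + 2) ≤ L) (hμ : 0 < μ) (hκ₁ : 0 ≤ κ₁) (hκ1 : κ₁ ≤ 1 / 2) (hκ : κ₀ < 1 - κ₁)
    (hα : 0 < α) (h2 : 2 ≤ 2 * Real.pi / α) (hy : 1 ≤ H ^ 2 * (2 * Real.pi / α) ^ 2 / 16)
    (hy2 : Lam * Real.exp (-(H ^ 2 * (2 * Real.pi / α) ^ 2 / 16)) ≤ 1)
    (happ : ∀ t ∈ Set.Ioc (τ - R) (τ + R), ‖zl t - zX X t‖ ≤ e₁)
    (hnr : ∀ m : ℤ, m ≠ 0 → m ≠ 1 → ∀ n l : ℕ, 1 ≤ n → (n:ℝ) ≤ N ^ q * X → 1 ≤ l → (l:ℝ) ≤ N ^ q →
      1 ≤ |m * (2 * Real.pi / α) - Real.log n + Real.log l|)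
    (hnr1 : ∀ n l : ℕ, 1 ≤ n → (n:ℝ) ≤ N ^ q → 1 ≤ l → (l:ℝ) ≤ N ^ q →
      1 ≤ |2 * Real.pi / α - Real.log n + Real.log l|)
    (hph : ∀ t ∈ Set.Ioc (τ - R) (τ + R), ‖ex 1 (-(2 * Real.pi / α * β)) * ex (2 * Real.pi / α) t * zl t -
      u ^ 2 * (starRingEnd ℂ) (zl t)‖ ≤ e₂)
    (hB : ∀ k ∈ Kw α β τ R, |((starRingEnd ℂ) u * zl (α * k + β)).im| ≤ κ₁ * ‖zl (α * k + β)‖) :
    1 / 2 * (Sd N X (q - 2) q - Sd N X q (q - 2) -
        (3 * ((Lam + 1) * (L * L * gq H ρ + L * L * (2 * Real.exp (-(R ^ 2 / (2 * H ^ 2)))) +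
          e₁ * N ^ (2 * q - 2))) + e₂ * N ^ (2 * q - 2))) - 2 * Sd N X (q - 1) (q - 1) -
        (3 * ((Lam + 1) * (L * L * gq H ρ + L * L * (2 * Real.exp (-(R ^ 2 / (2 * H ^ 2)))) +
          e₁ * N ^ (2 * q - 2))) + e₂ * N ^ (2 * q - 2)) ≤
      2 * ((2 * μ * ((∑ n ∈ Icc 1 ⌊N ^ q⌋₊, dv ((q:ℝ) / 2) n * dv ((q:ℝ) / 2) n / n) +
          (Lam + 5) * (L * L * gq H ρ))) + (μ⁻¹) ^ (q - 1) *
        (α * ∑ k ∈ Kw α β τ R, (SS u κ₀).indicator (fun t => ‖zl t‖ ^ q * gw τ H t) (α * k + β))) := by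
  have hLam := Lam_ge_one
  have hX1 : 1 ≤ X := (one_le_pow₀ hN).trans hNX
  have hNk : ∀ k : ℕ, k ≤ q → N ^ k ≤ N ^ q := fun k hk => pow_le_pow_right₀ hN hk
  have hN1 : ∀ k : ℕ, 1 ≤ N ^ k := fun k => one_le_pow₀ hN
  have hNaX : ∀ a b : ℕ, b ≤ q → N ^ b ≤ N ^ a * X := by
    intro a b hb
    calc N ^ b ≤ X := (hNk b hb).trans hNX
      _ = 1 * X := (one_mul X).symm
      _ ≤ N ^ a * X := by gcongr; exact hN1 a
  have hZk : ∀ k : ℕ, k ≤ q → N ^ k * Real.exp 1 ≤ Z := by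
    intro k hk
    refine le_trans ?_ hZ
    have := hNk k hk
    gcongr
  have hl1 : ∀ a : ℕ, a ≤ q → l1 (zA N X a) (N ^ a * X) ≤ L := fun a ha => (l1_zA N X hN hX1 a q ha).trans hL
  have hl2 : ∀ a : ℕ, a ≤ q → l1 (Aq N a) (N ^ a) ≤ L := fun a ha => (l1_Aq N X hN hX1 a q ha).trans hL
  obtain ⟨Er, hEr⟩ : ∃ Er : ℝ, Er = 3 * ((Lam + 1) * (L * L * gq H ρ +
    L * L * (2 * Real.exp (-(R ^ 2 / (2 * H ^ 2)))) + e₁ * N ^ (2 * q - 2))) + e₂ * N ^ (2 * q - 2) := ⟨_, rfl⟩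
  have hlw : ∀ a b : ℕ, a ≤ q → b ≤ q → a + b = 2 * q - 2 →
      ‖(α : ℂ) * (∑ k ∈ Kw α β τ R, (zl (α * k + β) * AL N (α * k + β) ^ a *
        (starRingEnd ℂ) (AL N (α * k + β) ^ b)) * (gw τ H (α * k + β) : ℂ)) -
      (((Sd N X a b : ℝ) : ℂ) + u ^ 2 * ((Sd N X b a : ℝ) : ℂ))‖ ≤ Er := by
    intro a b ha hb hab
    have h := LD a b N X Z ρ τ H R e₁ e₂ L α β (u ^ 2) (by rw [norm_pow, hu, one_pow]) hN hX1
      (hNaX a b hb) (hNaX b a ha) hρ hρ1 (hZk b hb) (hZk a ha) hρ2 hH hR.le he₁ he₂ hα h2 hy hy2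
      (hl1 a ha) (hl2 b hb) (hl1 b hb) (hl2 a ha) happ (by
        intro m h0 h1 n l hn hnX hl hlY
        refine hnr m h0 h1 n l hn (hnX.trans ?_) hl (hlY.trans (hNk b hb))
        have := hNk a ha
        gcongr) hph
    rw [hab, ← hEr] at h
    exact h
  have hS : ∀ a b : ℕ, b ≤ q → 0 ≤ Sd N X a b := fun a b hb => Sd_nonneg N X a b ((hNk b hb).trans hNX)
  set K := Kw α β τ R with hK
  set FM : ℝ → ℝ := fun t => ‖zl t‖ * ‖AL N t‖ ^ (2 * q - 2) * gw τ H t with hFM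
  set FR : ℝ → ℝ := fun t => ((starRingEnd ℂ) u * zl t).re * ‖AL N t‖ ^ (2 * q - 2) * gw τ H t with hFR
  have hFM0 : ∀ t, 0 ≤ FM t := by
    intro t
    have a2 := gw_nonneg τ H t hH
    rw [hFM]; simp only
    positivity
  obtain ⟨MW, hMW⟩ : ∃ MW : ℝ, MW = α * ∑ k ∈ K, FM (α * k + β) := ⟨_, rfl⟩
  have hMW0 : 0 ≤ MW := by
    rw [hMW]; exact mul_nonneg hα.le (sum_nonneg fun k _ => hFM0 _)
  have hMW1 : Sd N X (q - 2) q - Sd N X q (q - 2) - Er ≤ MW := by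
    have h1 := hlw (q - 2) q (by omega) le_rfl (by omega)
    set J := (α : ℂ) * (∑ k ∈ K, (zl (α * k + β) * AL N (α * k + β) ^ (q - 2) *
        (starRingEnd ℂ) (AL N (α * k + β) ^ q)) * (gw τ H (α * k + β) : ℂ)) with hJ
    have h3 : ‖J‖ ≤ MW := by
      rw [hJ, norm_mul, Complex.norm_real, Real.norm_of_nonneg hα.le, hMW]
      refine mul_le_mul_of_nonneg_left (norm_sum_le_of_le _ fun k _ => ?_) hα.le
      set t := α * (k:ℝ) + β with ht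
      have a2 := gw_nonneg τ H t hH
      rw [norm_mul, norm_mul, norm_mul, RCLike.norm_conj, norm_pow, norm_pow,
        Complex.norm_real, Real.norm_of_nonneg a2, hFM]
      simp only
      have e : ‖AL N t‖ ^ (2 * q - 2) = ‖AL N t‖ ^ (q - 2) * ‖AL N t‖ ^ q := by
        rw [← pow_add]; congr 1; omega
      rw [e]
      exact le_of_eq (by ring)
    have h4 := norm_sub_norm_le (((Sd N X (q - 2) q : ℝ) : ℂ)) (-(u ^ 2 * ((Sd N X q (q - 2) : ℝ) : ℂ)))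
    rw [sub_neg_eq_add, norm_neg, norm_mul, norm_pow, hu, one_pow, one_mul,
        Complex.norm_real, Complex.norm_real,
        Real.norm_of_nonneg (hS (q - 2) q le_rfl), Real.norm_of_nonneg (hS q (q - 2) (by omega))] at h4
    have h6 := norm_sub_norm_le (((Sd N X (q - 2) q : ℝ) : ℂ) + u ^ 2 * ((Sd N X q (q - 2) : ℝ) : ℂ)) J
    rw [norm_sub_rev] at h6
    linarith
  have hFR1 : -(2 * Sd N X (q - 1) (q - 1) + Er) ≤ α * ∑ k ∈ K, FR (α * k + β) := by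
    have h1 := hlw (q - 1) (q - 1) (by omega) (by omega) (by omega)
    set J := (α : ℂ) * (∑ k ∈ K, (zl (α * k + β) * AL N (α * k + β) ^ (q - 1) *
        (starRingEnd ℂ) (AL N (α * k + β) ^ (q - 1))) * (gw τ H (α * k + β) : ℂ)) with hJ
    have h3 : α * ∑ k ∈ K, FR (α * k + β) = ((starRingEnd ℂ) u * J).re := by
      have e3 : (starRingEnd ℂ) u * J = (α : ℂ) * ∑ k ∈ K, ((‖AL N (α * k + β)‖ ^ (2 * q - 2) * gw τ H (α * k + β) : ℝ) : ℂ) *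
          ((starRingEnd ℂ) u * zl (α * k + β)) := by
        rw [hJ, mul_left_comm, mul_sum]
        congr 1
        refine sum_congr rfl fun k _ => ?_
        set t := α * (k:ℝ) + β with ht
        have e2 : AL N t ^ (q - 1) * (starRingEnd ℂ) (AL N t ^ (q - 1)) = ((‖AL N t‖ ^ (2 * q - 2) : ℝ) : ℂ) := by
          rw [Complex.mul_conj, Complex.normSq_eq_norm_sq, norm_pow, ← pow_mul]
          congr 3
          omega
        calc _ = (AL N t ^ (q - 1) * (starRingEnd ℂ) (AL N t ^ (q - 1))) *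
              (gw τ H t : ℂ) * ((starRingEnd ℂ) u * zl t) := by ring
          _ = _ := by rw [e2]; push_cast; ring
      rw [e3, Complex.re_ofReal_mul, Complex.re_sum]
      congr 1
      refine sum_congr rfl fun k _ => ?_
      rw [Complex.re_ofReal_mul, hFR]
      ring
    rw [h3]
    have h5 : ‖J‖ ≤ 2 * Sd N X (q - 1) (q - 1) + Er := by
      have h6 : ‖((Sd N X (q - 1) (q - 1) : ℝ) : ℂ) + u ^ 2 * ((Sd N X (q - 1) (q - 1) : ℝ) : ℂ)‖ ≤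
          2 * Sd N X (q - 1) (q - 1) := by
        refine (norm_add_le _ _).trans ?_
        rw [norm_mul, norm_pow, hu, one_pow, one_mul, Complex.norm_real,
          Real.norm_of_nonneg (hS (q - 1) (q - 1) (by omega))]
        linarith
      have h7 := norm_sub_norm_le J (((Sd N X (q - 1) (q - 1) : ℝ) : ℂ) + u ^ 2 * ((Sd N X (q - 1) (q - 1) : ℝ) : ℂ))
      linarith
    have h8 : |((starRingEnd ℂ) u * J).re| ≤ ‖J‖ := by
      refine (Complex.abs_re_le_norm _).trans (le_of_eq ?_)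
      rw [norm_mul, RCLike.norm_conj, hu, one_mul]
    have h9 := (abs_le.mp h8).1
    linarith
  have hsum : α * ∑ k ∈ K, (FM (α * k + β) + FR (α * k + β)) ≤
      2 * (α * ∑ k ∈ K, (SS u κ₀).indicator FM (α * k + β)) + κ₁ * MW := by
    have e : 2 * (α * ∑ k ∈ K, (SS u κ₀).indicator FM (α * k + β)) + κ₁ * MW =
        α * ∑ k ∈ K, (2 * (SS u κ₀).indicator FM (α * k + β) + κ₁ * FM (α * k + β)) := by
      rw [hMW, sum_add_distrib, ← mul_sum, ← mul_sum]; ring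
    rw [e]
    refine mul_le_mul_of_nonneg_left (sum_le_sum fun k hk => ?_) hα.le
    have him := hB k hk
    set t := α * (k:ℝ) + β with ht
    have hg := gw_nonneg τ H t hH
    have hz0 : 0 ≤ ‖zl t‖ := norm_nonneg _
    have hnw : ‖(starRingEnd ℂ) u * zl t‖ = ‖zl t‖ := by
      rw [norm_mul, RCLike.norm_conj, hu, one_mul]
    have hre : ((starRingEnd ℂ) u * zl t).re ≤ ‖zl t‖ := by
      rw [← hnw]; exact Complex.re_le_norm _
    have hind : 0 ≤ (SS u κ₀).indicator FM t := Set.indicator_nonneg (fun t _ => hFM0 t) t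
    rw [← hnw] at him
    have hp := point hκ him
    rw [hnw] at hp
    have hFMt : FM t = ‖zl t‖ * ‖AL N t‖ ^ (2 * q - 2) * gw τ H t := rfl
    have hFRt : FR t = ((starRingEnd ℂ) u * zl t).re * ‖AL N t‖ ^ (2 * q - 2) * gw τ H t := rfl
    have hKp : 0 ≤ ‖AL N t‖ ^ (2 * q - 2) * gw τ H t := by positivity
    have hFM0t := hFM0 t
    rcases hp with hp | hp | hp
    · have h1 : FM t + FR t ≤ κ₁ * FM t := by
        have h3 := mul_le_mul_of_nonneg_left hp hKp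
        rw [hFMt, hFRt]
        linarith
      linarith
    · have h3 : (SS u κ₀).indicator FM t = FM t := Set.indicator_of_mem (show t ∈ SS u κ₀ from hp) FM
      have h1 : FR t ≤ FM t := by
        have h4 := mul_le_mul_of_nonneg_left hre hKp
        rw [hFMt, hFRt]
        linarith
      rw [h3]
      have h4 : 0 ≤ κ₁ * FM t := by positivity
      linarith
    · have h1 : FM t + FR t = 0 := by
        rw [hFMt, hFRt, ← hnw, hp]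
        simp
      rw [h1]
      have h4 : 0 ≤ κ₁ * FM t := by positivity
      linarith
  rw [sum_add_distrib, mul_add, ← hMW] at hsum
  -- Young
  obtain ⟨hV1, hV2⟩ := sq_disc N hN q Z ρ τ H L α β hα hH h2 hy hρ hρ1 hZ hρ2 (hl2 q le_rfl) (by
    intro m h0 h1 n l hn hnY hl hlY
    refine hnr m h0 h1 n l hn (hnY.trans ?_) hl hlY
    have := hN1 q
    nlinarith) hnr1
  have hVK : α * ∑ k ∈ K, ‖AL N (α * k + β)‖ ^ (2 * q) * gw τ H (α * k + β) ≤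
      α * ∑' k : ℤ, ‖AL N (α * k + β)‖ ^ (2 * q) * gw τ H (α * k + β) :=
    sum_Kw_le α β τ R hα _ (fun k => by have := gw_nonneg τ H (α * k + β) hH; positivity) hV1
  have hG1 : α * ∑ k ∈ K, (SS u κ₀).indicator FM (α * k + β) ≤
      2 * μ * (α * ∑ k ∈ K, ‖AL N (α * k + β)‖ ^ (2 * q) * gw τ H (α * k + β)) +
      (μ⁻¹) ^ (q - 1) * (α * ∑ k ∈ K, (SS u κ₀).indicator (fun t => ‖zl t‖ ^ q * gw τ H t) (α * k + β)) := by
    have e : 2 * μ * (α * ∑ k ∈ K, ‖AL N (α * k + β)‖ ^ (2 * q) * gw τ H (α * k + β)) +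
      (μ⁻¹) ^ (q - 1) * (α * ∑ k ∈ K, (SS u κ₀).indicator (fun t => ‖zl t‖ ^ q * gw τ H t) (α * k + β)) =
      α * ∑ k ∈ K, (2 * μ * (‖AL N (α * k + β)‖ ^ (2 * q) * gw τ H (α * k + β)) +
        (μ⁻¹) ^ (q - 1) * (SS u κ₀).indicator (fun t => ‖zl t‖ ^ q * gw τ H t) (α * k + β)) := by
      rw [sum_add_distrib, ← mul_sum, ← mul_sum]; ring
    rw [e]
    refine mul_le_mul_of_nonneg_left (sum_le_sum fun k _ => ?_) hα.le
    set t := α * (k:ℝ) + β with ht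
    have hg := gw_nonneg τ H t hH
    by_cases hmem : t ∈ SS u κ₀
    · rw [Set.indicator_of_mem hmem, Set.indicator_of_mem hmem]
      have hy := young q hq ‖zl t‖ ‖AL N t‖ (‖AL N t‖ ^ q) μ (norm_nonneg _) (norm_nonneg _)
        (by positivity) hμ
      have e1 : ‖zl t‖ * ‖AL N t‖ ^ (q - 2) * ‖AL N t‖ ^ q = ‖zl t‖ * ‖AL N t‖ ^ (2 * q - 2) := by
        rw [mul_assoc, ← pow_add]; congr 2; omega
      have e2 : (‖AL N t‖ ^ q) ^ 2 = ‖AL N t‖ ^ (2 * q) := by rw [← pow_mul, mul_comm q 2]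
      rw [e1, e2] at hy
      calc FM t = (‖zl t‖ * ‖AL N t‖ ^ (2 * q - 2)) * gw τ H t := by rw [hFM]
        _ ≤ (μ * (‖AL N t‖ ^ (2 * q) + ‖AL N t‖ ^ (2 * q)) + (μ⁻¹) ^ (q - 1) * ‖zl t‖ ^ q) * gw τ H t := by
            gcongr
        _ = _ := by ring
    · rw [Set.indicator_of_notMem hmem, Set.indicator_of_notMem hmem]
      positivity
  have hhalf : 1 / 2 * MW ≤ (1 - κ₁) * MW := by nlinarith
  have hm : 1 / 2 * (Sd N X (q - 2) q - Sd N X q (q - 2) - Er) ≤ 1 / 2 * MW := by linarith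
  have hG2 : 2 * μ * (α * ∑ k ∈ K, ‖AL N (α * k + β)‖ ^ (2 * q) * gw τ H (α * k + β)) ≤
      2 * μ * ((∑ n ∈ Icc 1 ⌊N ^ q⌋₊, dv ((q:ℝ) / 2) n * dv ((q:ℝ) / 2) n / n) + (Lam + 5) * (L * L * gq H ρ)) :=
    mul_le_mul_of_nonneg_left (hVK.trans hV2) (by positivity)
  rw [← hEr]
  linarith

end

end Pool.Agent.R311.SE
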