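import Pool.Agent.R311.SE.P
import Pool.Agent.W188.Mom.B1

set_option autoImplicit false

/-! Exact points of the ray near the points of the linear phase. -/

namespace Pool.Agent.R311.SE

open Finset MeasureTheory Filter Topology
open Pool.Agent.W188.QS (cp XX)
open Pool.Agent.H306R2
open Pool.Agent.R311.BS (ex ex_norm ex_add ex_cont zX zX_eq ncpow_line)

noncomputable section

theorem phaseL {τ R : ℝ} (hτ : 100 ≤ τ) (hR : R ≤ τ / 2) {u : ℂ} (hu : ‖u‖ = 1) :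
    ∃ ψ : ℝ, ∀ t : ℝ, |t - τ| ≤ R →
      ‖Complex.exp ((ψ : ℂ) * Complex.I) * ex (Real.log (τ / (2 * Real.pi))) t - u ^ 2 * XX (cp t)‖ ≤
        R * (28 + 2 * R) / τ := by
  obtain ⟨-, hn, -, -⟩ := Pool.Agent.W338.QS.qs_line
  set Ω := Real.log (τ / (2 * Real.pi)) with hΩ
  obtain ⟨z, hz⟩ : ∃ z : ℂ, z = XX (cp τ) * u ^ 2 * ex (-Ω) τ := ⟨_, rfl⟩
  have hz1 : ‖z‖ = 1 := by
    rw [hz, norm_mul, norm_mul, norm_pow, hu, ex_norm, hn τ]; norm_num
  have hψ : Complex.exp ((z.arg : ℂ) * Complex.I) = z := by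
    have := Complex.norm_mul_exp_arg_mul_I z
    rwa [hz1, Complex.ofReal_one, one_mul] at this
  have hE : ∀ t : ℝ, Complex.exp ((z.arg : ℂ) * Complex.I) * ex Ω t = u ^ 2 * (XX (cp τ) * ex Ω (t - τ)) := by
    intro t
    rw [hψ, hz]
    have : ex (-Ω) τ * ex Ω t = ex Ω (t - τ) := by
      unfold ex
      rw [← Complex.exp_add]
      congr 1
      push_cast
      ring
    calc _ = u ^ 2 * (XX (cp τ) * (ex (-Ω) τ * ex Ω t)) := by ring
      _ = _ := by rw [this]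
  refine ⟨z.arg, fun t ht => ?_⟩
  rw [hE, ← mul_sub, norm_mul, norm_pow, hu, one_pow, one_mul, norm_sub_rev]
  exact XX_lin hτ hR ht

lemma conj_w {u : ℂ} (hu : ‖u‖ = 1) {t : ℝ} (ht : 1 ≤ t) :
    (starRingEnd ℂ) ((starRingEnd ℂ) u * zl t) = (u ^ 2 * XX (cp t)) * ((starRingEnd ℂ) u * zl t) := by
  have huu : u * (starRingEnd ℂ) u = 1 := by
    rw [Complex.mul_conj, Complex.normSq_eq_norm_sq, hu]; simp
  rw [map_mul, Complex.conj_conj, fe ht]
  calc u * (XX (cp t) * zl t) = u * 1 * (XX (cp t) * zl t) := by ring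
    _ = u * (u * (starRingEnd ℂ) u) * (XX (cp t) * zl t) := by rw [huu]
    _ = _ := by ring

lemma im_small {u : ℂ} (hu : ‖u‖ = 1) {t w : ℝ} (ht : 1 ≤ t) (h : ‖1 - u ^ 2 * XX (cp t)‖ ≤ w) :
    |((starRingEnd ℂ) u * zl t).im| ≤ w / 2 * ‖zl t‖ := by
  obtain ⟨W, hW⟩ : ∃ W : ℂ, W = (starRingEnd ℂ) u * zl t := ⟨_, rfl⟩
  have hnw : ‖W‖ = ‖zl t‖ := by rw [hW, norm_mul, RCLike.norm_conj, hu, one_mul]
  have hc := conj_w hu ht
  rw [← hW] at hc ⊢
  have h4 : (starRingEnd ℂ) W - W = (u ^ 2 * XX (cp t) - 1) * W := by rw [hc]; ring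
  have h5 : 2 * |W.im| = ‖(starRingEnd ℂ) W - W‖ := by
    have e1 : (starRingEnd ℂ) W - W = ((-(2 * W.im) : ℝ) : ℂ) * Complex.I := by
      apply Complex.ext <;> simp
      ring
    rw [e1, norm_mul, Complex.norm_I, mul_one, Complex.norm_real, Real.norm_eq_abs, abs_neg, abs_mul]
    norm_num
  rw [h4, norm_mul] at h5
  rw [norm_sub_rev] at h
  have h6 := mul_le_mul_of_nonneg_right h (norm_nonneg W)
  rw [← hnw]
  linarith

lemma on_ray {u : ℂ} (hu : ‖u‖ = 1) {t : ℝ} (ht : 1 ≤ t) (h : u ^ 2 * XX (cp t) = 1)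
    (hre : 0 < ((starRingEnd ℂ) u * zl t).re) :
    ∃ r : ℝ, 0 < r ∧ riemannZeta (1 / 2 + t * Complex.I) = r * u := by
  have hc := conj_w hu ht
  rw [h, one_mul] at hc
  have him : ((starRingEnd ℂ) u * zl t).im = 0 := by
    have := congrArg Complex.im hc
    rw [Complex.conj_im] at this
    linarith
  refine ⟨((starRingEnd ℂ) u * zl t).re, hre, ?_⟩
  have e1 : (starRingEnd ℂ) u * zl t = ((((starRingEnd ℂ) u * zl t).re : ℝ) : ℂ) := by
    apply Complex.ext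
    · simp
    · rw [him]; simp
  have huu : u * (starRingEnd ℂ) u = 1 := by
    rw [Complex.mul_conj, Complex.normSq_eq_norm_sq, hu]; simp
  rw [← e1]
  calc riemannZeta (1 / 2 + t * Complex.I) = 1 * zl t := by rw [one_mul]; rfl
    _ = (u * (starRingEnd ℂ) u) * zl t := by rw [huu]
    _ = _ := by ring

lemma exact_pt {τ R Ω ψ w s : ℝ} {u : ℂ} (hu : ‖u‖ = 1) (hτR : 51 ≤ τ - R) (hw0 : 0 < w) (hw1 : w ≤ 1 / 10)
    (hΩ : 2 ≤ Ω) (hs : |s - τ| ≤ R)
    (hlin : ∀ t : ℝ, |t - τ| ≤ R + 1 →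
      ‖Complex.exp ((ψ : ℂ) * Complex.I) * ex Ω t - u ^ 2 * XX (cp t)‖ ≤ w)
    (hs1 : Complex.exp ((ψ : ℂ) * Complex.I) * ex Ω s = 1) :
    ∃ t : ℝ, |t - s| ≤ 2 * w / Ω ∧ u ^ 2 * XX (cp t) = 1 := by
  obtain ⟨-, hn, -, -⟩ := Pool.Agent.W338.QS.qs_line
  have hΩ0 : 0 < Ω := by linarith
  obtain ⟨η, hη⟩ : ∃ η : ℝ, η = 2 * w / Ω := ⟨_, rfl⟩
  have hη0 : 0 < η := by rw [hη]; positivity
  have hΩη : Ω * η = 2 * w := by rw [hη]; field_simp
  have hη1 : η ≤ 1 / 10 := by nlinarith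
  have hs' := abs_le.mp hs
  have hE : ∀ x : ℝ, Complex.exp ((ψ : ℂ) * Complex.I) * ex Ω (s + x) = Complex.exp (((Ω * x : ℝ) : ℂ) * Complex.I) := by
    intro x
    have e1 : ex Ω (s + x) = ex Ω s * Complex.exp (((Ω * x : ℝ) : ℂ) * Complex.I) := by
      unfold ex
      rw [← Complex.exp_add]
      congr 1
      push_cast
      ring
    rw [e1, ← mul_assoc, hs1, one_mul]
  have hP : ∀ x : ℝ, |x| ≤ 1 → ‖Complex.exp (((Ω * x : ℝ) : ℂ) * Complex.I) - u ^ 2 * XX (cp (s + x))‖ ≤ w := by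
    intro x hx
    rw [← hE]
    apply hlin
    have := abs_le.mp hx
    rw [abs_le]
    constructor <;> linarith
  have hcont : ContinuousOn (fun t : ℝ => (u ^ 2 * XX (cp t)).im) (Set.Icc (s + -η) (s + η)) := by
    intro t ht
    have h50 : 50 ≤ t := by linarith [ht.1]
    have h1 : ContinuousAt (fun t : ℝ => XX (cp t)) t := (XX_deriv h50).continuousAt
    have h2 : ContinuousAt (fun t : ℝ => (u ^ 2 * XX (cp t)).im) t :=
      Complex.continuous_im.continuousAt.comp (continuousAt_const.mul h1)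
    exact h2.continuousWithinAt
  have hsin : w < Real.sin (2 * w) := by
    have h1 := Real.sin_gt_sub_cube (x := 2 * w) (by linarith)
    have h2 : (2 * w) ^ 3 / 6 ≤ w / 2 := by
      have : w ^ 2 ≤ 1 / 100 := by nlinarith
      nlinarith
    linarith
  have hr : 0 ≤ (u ^ 2 * XX (cp (s + η))).im := by
    have h1 := hP η (by rw [abs_of_pos hη0]; linarith)
    have h2 := (abs_le.mp ((Complex.abs_im_le_norm _).trans h1)).2
    rw [Complex.sub_im, Complex.exp_ofReal_mul_I_im, hΩη] at h2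
    linarith
  have hl : (u ^ 2 * XX (cp (s + -η))).im ≤ 0 := by
    have h1 := hP (-η) (by rw [abs_neg, abs_of_pos hη0]; linarith)
    have h2 := (abs_le.mp ((Complex.abs_im_le_norm _).trans h1)).1
    rw [Complex.sub_im, Complex.exp_ofReal_mul_I_im, show Ω * -η = -(2 * w) by rw [← hΩη]; ring,
      Real.sin_neg] at h2
    linarith
  obtain ⟨t, ht, ht0⟩ := intermediate_value_Icc (by linarith) hcont ⟨hl, hr⟩
  simp only at ht0
  have hts : |t - s| ≤ η := by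
    rw [abs_le]; constructor <;> linarith [ht.1, ht.2]
  refine ⟨t, by rw [← hη]; exact hts, ?_⟩
  have h1 := hP (t - s) (by linarith)
  rw [show s + (t - s) = t by ring] at h1
  have h2 := (abs_le.mp ((Complex.abs_re_le_norm _).trans h1)).2
  rw [Complex.sub_re, Complex.exp_ofReal_mul_I_re] at h2
  have h3 : 1 - (Ω * (t - s)) ^ 2 / 2 ≤ Real.cos (Ω * (t - s)) := Real.one_sub_sq_div_two_le_cos
  have h4 : |Ω * (t - s)| ≤ 2 * w := by
    rw [abs_mul, abs_of_pos hΩ0, ← hΩη]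
    exact mul_le_mul_of_nonneg_left hts hΩ0.le
  have h5 : (Ω * (t - s)) ^ 2 ≤ 1 / 25 := by
    rw [← sq_abs]
    nlinarith [abs_nonneg (Ω * (t - s))]
  have hre : 0 < (u ^ 2 * XX (cp t)).re := by linarith
  have hnorm : ‖u ^ 2 * XX (cp t)‖ = 1 := by rw [norm_mul, norm_pow, hu, one_pow, one_mul, hn t]
  have e1 : u ^ 2 * XX (cp t) = (((u ^ 2 * XX (cp t)).re : ℝ) : ℂ) := by
    apply Complex.ext
    · simp
    · rw [ht0]; simp
  rw [e1, Complex.norm_real, Real.norm_of_nonneg hre.le] at hnorm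
  rw [e1, hnorm]
  simp

/-- the partial sum is Lipschitz -/
lemma zX_lip (N : ℕ) (hN : 1 ≤ N) (s t : ℝ) :
    ‖zX N t - zX N s‖ ≤ |t - s| * (2 * Real.sqrt N * Real.log N) := by
  rw [zX_eq, zX_eq, ← sum_sub_distrib]
  have h1 : ∀ n ∈ Icc 1 N, ‖(n : ℂ) ^ (-(1 / 2 + t * Complex.I)) - (n : ℂ) ^ (-(1 / 2 + s * Complex.I))‖ ≤
      (Real.sqrt n)⁻¹ * (|t - s| * Real.log N) := by
    intro n hn
    rw [mem_Icc] at hn
    rw [ncpow_line n hn.1, ncpow_line n hn.1, ← mul_sub, norm_mul, Complex.norm_real,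
      Real.norm_of_nonneg (by positivity)]
    refine mul_le_mul_of_nonneg_left ?_ (by positivity)
    have e1 : ex (-Real.log n) t - ex (-Real.log n) s = ex (-Real.log n) s *
        (Complex.exp (((-(Real.log n * (t - s)) : ℝ) : ℂ) * Complex.I) - 1) := by
      unfold ex
      rw [mul_sub, mul_one, ← Complex.exp_add]
      congr 2
      push_cast
      ring
    rw [e1, norm_mul, ex_norm, one_mul]
    refine (exp_sub_one _).trans ?_
    have hn1 : (1:ℝ) ≤ n := by exact_mod_cast hn.1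
    have hl0 : 0 ≤ Real.log n := Real.log_nonneg hn1
    have hl1 : Real.log n ≤ Real.log N := Real.log_le_log (by linarith) (by exact_mod_cast hn.2)
    rw [abs_neg, abs_mul, abs_of_nonneg hl0, mul_comm]
    exact mul_le_mul_of_nonneg_left hl1 (abs_nonneg _)
  refine (norm_sum_le_of_le _ h1).trans ?_
  rw [← sum_mul]
  have h2 := sum_inv_sqrt N
  have h3 : 0 ≤ |t - s| * Real.log N := mul_nonneg (abs_nonneg _) (Real.log_nonneg (by exact_mod_cast hN))
  calc _ ≤ 2 * Real.sqrt N * (|t - s| * Real.log N) := mul_le_mul_of_nonneg_right h2 h3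
    _ = _ := by ring

lemma gw_ratio {τ H s t D : ℝ} (hH : 1 ≤ H) (hs : |s - τ| ≤ D) (ht : |t - τ| ≤ D)
    (hst : |t - s| * (2 * D) ≤ 1 / 2) : gw τ H s ≤ 2 * gw τ H t := by
  unfold gw
  have hH0 : 0 < H := by linarith
  have h1 : (t - τ) ^ 2 - (s - τ) ^ 2 ≤ 1 / 2 := by
    have e1 : (t - τ) ^ 2 - (s - τ) ^ 2 = (t - s) * ((t - τ) + (s - τ)) := by ring
    rw [e1]
    refine (le_abs_self _).trans ?_
    rw [abs_mul]
    refine le_trans (mul_le_mul_of_nonneg_left ?_ (abs_nonneg _)) hst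
    exact (abs_add_le _ _).trans (by linarith)
  have h2 : Real.exp (-((s - τ) ^ 2 / H ^ 2)) ≤ 2 * Real.exp (-((t - τ) ^ 2 / H ^ 2)) := by
    have h3 : -((s - τ) ^ 2 / H ^ 2) ≤ 1 / 2 + -((t - τ) ^ 2 / H ^ 2) := by
      have h4 : (t - τ) ^ 2 / H ^ 2 - (s - τ) ^ 2 / H ^ 2 ≤ 1 / 2 := by
        rw [← sub_div, div_le_iff₀ (by positivity)]
        have : 1 ≤ H ^ 2 := one_le_pow₀ hH
        linarith
      linarith
    refine (Real.exp_le_exp.mpr h3).trans ?_
    rw [Real.exp_add]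
    refine mul_le_mul_of_nonneg_right ?_ (Real.exp_pos _).le
    have h5 : Real.exp (1 / 2) * Real.exp (1 / 2) = Real.exp 1 := by rw [← Real.exp_add]; norm_num
    have h6 := Real.exp_one_lt_d9
    nlinarith [Real.exp_pos (1 / 2)]
  have hpi : 0 < Real.sqrt Real.pi := Real.sqrt_pos.mpr Real.pi_pos
  rw [← mul_div_assoc]
  exact div_le_div_of_nonneg_right h2 (by positivity)

end

end Pool.Agent.R311.SE
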