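import Pool.Agent.R311.SE.R3
import Pool.Agent.R311.SE.R4
import Pool.Agent.R311.SE.F

set_option autoImplicit false

/-! From the points of the linear phase to the points of the ray, in one window. -/

namespace Pool.Agent.R311.SE

open Finset MeasureTheory Filter Topology
open Pool.Agent.W188.QS (cp XX)
open Pool.Agent.H306R2
open Pool.Agent.R311.BS (ex ex_norm gq gq_nonneg Lam Lam_ge_one zX)
open Pool.Agent.R311.AP (mass_le gwk_summable Kw mem_Kw sum_Kw_le)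

noncomputable section

/-- the heights between `A` and `B` at which zeta lies on the ray of `u` -/
def RY (u : ℂ) (A B : ℝ) : Set ℝ :=
  {t | A ≤ t ∧ t ≤ B ∧ ∃ r : ℝ, 0 < r ∧ riemannZeta (1 / 2 + t * Complex.I) = r * u}

lemma RY_finite {u : ℂ} (hu : ‖u‖ = 1) {A B : ℝ} (hA : 100 ≤ A) : (RY u A B).Finite :=
  (Pool.Agent.W188.Mom.RP_finite hu B).subset fun _ ht => ⟨hA.trans ht.1, ht.2.1, ht.2.2⟩

theorem transfer (q : ℕ) {τ R H Ω ψ w α β : ℝ} {u : ℂ} (hu : ‖u‖ = 1) (hτR : 51 ≤ τ - R) (hR : 0 ≤ R)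
    (hH : 1 ≤ H) (hw0 : 0 < w) (hw1 : w ≤ 1 / 10) (hΩ : 2 ≤ Ω) (hα : α = 2 * Real.pi / Ω)
    (hβ : β = -ψ / Ω) (hy : 1 ≤ H ^ 2 * (2 * Real.pi / α) ^ 2 / 16)
    (hy2 : Lam * Real.exp (-(H ^ 2 * (2 * Real.pi / α) ^ 2 / 16)) ≤ 1)
    (hlin : ∀ t : ℝ, |t - τ| ≤ R + 1 →
      ‖Complex.exp ((ψ : ℂ) * Complex.I) * ex Ω t - u ^ 2 * XX (cp t)‖ ≤ w)
    (hlip : ∀ s t : ℝ, |s - τ| ≤ R + 1 → |t - τ| ≤ R + 1 → |t - s| ≤ 2 * w / Ω → ‖zl t - zl s‖ ≤ 1 / 4)
    (hgw : 2 * w / Ω * (2 * (R + 1)) ≤ 1 / 2)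
    (F : Finset ℝ) (hF : ∀ t : ℝ, |t - τ| ≤ R + 1 →
      (∃ r : ℝ, 0 < r ∧ riemannZeta (1 / 2 + t * Complex.I) = r * u) → t ∈ F) :
    α * ∑ k ∈ Kw α β τ R, (SS u (1 / 2)).indicator (fun t => ‖zl t‖ ^ q * gw τ H t) (α * k + β) ≤
      2 + α * (2 ^ (q + 1) * ∑ t ∈ F, ‖zl t‖ ^ q * gw τ H t) := by
  classical
  have hpi := Real.pi_pos
  have hpi3 := Real.pi_gt_three
  have hΩ0 : 0 < Ω := by linarith
  have hα0 : 0 < α := by rw [hα]; positivity
  have hH0 : 0 < H := by linarith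
  have hη1 : 2 * w / Ω ≤ 1 := by
    rw [div_le_one hΩ0]; linarith
  have hη0 : 0 ≤ 2 * w / Ω := by positivity
  set K := Kw α β τ R with hK
  set K' := K.filter (fun k : ℤ => α * k + β ∈ SS u (1 / 2) ∧ 1 ≤ ‖zl (α * k + β)‖) with hK'
  have hmass := mass_le α β τ H hα0 hH0 hy
  have hgws := gwk_summable α β τ H hα0 hH0
  have hgw0 : ∀ k : ℤ, 0 ≤ gw τ H (α * k + β) := fun k => gw_nonneg _ _ _ hH0
  have hmK : α * ∑ k ∈ K, gw τ H (α * k + β) ≤ 2 := by
    have := sum_Kw_le α β τ R hα0 _ hgw0 hgws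
    rw [← hK] at this
    linarith
  -- small values
  have h1 : ∑ k ∈ K, (SS u (1 / 2)).indicator (fun t => ‖zl t‖ ^ q * gw τ H t) (α * k + β) ≤
      (∑ k ∈ K, gw τ H (α * k + β)) + ∑ k ∈ K', ‖zl (α * k + β)‖ ^ q * gw τ H (α * k + β) := by
    rw [hK', sum_filter, ← sum_add_distrib]
    refine sum_le_sum fun k _ => ?_
    set s := α * (k:ℝ) + β with hs
    have hg := hgw0 k
    rw [← hs] at hg
    by_cases hmem : s ∈ SS u (1 / 2)
    · rw [Set.indicator_of_mem hmem]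
      by_cases hz : 1 ≤ ‖zl s‖
      · rw [if_pos ⟨hmem, hz⟩]
        linarith
      · rw [if_neg (fun h => hz h.2), add_zero]
        have : ‖zl s‖ ^ q ≤ 1 := pow_le_one₀ (norm_nonneg _) (not_le.mp hz).le
        nlinarith
    · rw [Set.indicator_of_notMem hmem]
      split_ifs with h
      · exact absurd h.1 hmem
      · linarith
  -- choice of the exact points
  have hex : ∀ k : ℤ, k ∈ K' → ∃ t : ℝ, |t - (α * k + β)| ≤ 2 * w / Ω ∧ t ∈ F ∧
      ‖zl (α * k + β)‖ ^ q * gw τ H (α * k + β) ≤ 2 ^ (q + 1) * (‖zl t‖ ^ q * gw τ H t) := by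
    intro k hk
    rw [hK', mem_filter] at hk
    obtain ⟨hkK, hkS, hkz⟩ := hk
    rw [hK, mem_Kw hα0] at hkK
    set s := α * (k:ℝ) + β with hs
    have hsR : |s - τ| ≤ R := by
      rw [abs_le]; constructor <;> linarith [hkK.1, hkK.2]
    have hs1 : Complex.exp ((ψ : ℂ) * Complex.I) * ex Ω s = 1 := by
      unfold ex
      rw [← Complex.exp_add, Complex.exp_eq_one_iff]
      refine ⟨k, ?_⟩
      have e1 : ψ + Ω * s = k * (2 * Real.pi) := by
        rw [hs, hα, hβ]; field_simp; ring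
      have e2 : (ψ : ℂ) * Complex.I + ((Ω * s : ℝ) : ℂ) * Complex.I = ((ψ + Ω * s : ℝ) : ℂ) * Complex.I := by
        push_cast; ring
      rw [e2, e1]
      push_cast
      ring
    obtain ⟨t, ht1, ht2⟩ := exact_pt hu hτR hw0 hw1 hΩ hsR hlin hs1
    have hst := abs_le.mp ht1
    have hsR' := abs_le.mp hsR
    have htR : |t - τ| ≤ R + 1 := by
      rw [abs_le]; constructor <;> linarith
    have hsR1 : |s - τ| ≤ R + 1 := by linarith
    have hL := hlip s t hsR1 htR ht1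
    have hS : 1 / 2 * ‖zl s‖ < ((starRingEnd ℂ) u * zl s).re := hkS
    have hre : 0 < ((starRingEnd ℂ) u * zl t).re := by
      have h5 : ((starRingEnd ℂ) u * zl s).re - ((starRingEnd ℂ) u * zl t).re ≤ 1 / 4 := by
        rw [← Complex.sub_re, ← mul_sub]
        refine (Complex.re_le_norm _).trans ?_
        rw [norm_mul, RCLike.norm_conj, hu, one_mul, norm_sub_rev]
        exact hL
      linarith
    have ht1' : 1 ≤ t := by linarith
    have hray := on_ray hu ht1' ht2 hre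
    refine ⟨t, ht1, hF t htR hray, ?_⟩
    have hzt : ‖zl s‖ ≤ 2 * ‖zl t‖ := by
      have := norm_sub_norm_le (zl s) (zl t)
      rw [norm_sub_rev] at this
      linarith
    have hgr : gw τ H s ≤ 2 * gw τ H t := by
      refine gw_ratio hH hsR1 htR (le_trans ?_ hgw)
      exact mul_le_mul_of_nonneg_right ht1 (by linarith)
    have hg2 := gw_nonneg τ H s hH0
    calc ‖zl s‖ ^ q * gw τ H s ≤ (2 * ‖zl t‖) ^ q * (2 * gw τ H t) := by gcongr
      _ = _ := by rw [mul_pow, pow_succ]; ring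
  choose! g hg1 hg2 hg3 using hex
  have hinj : Set.InjOn g (K' : Set ℤ) := by
    intro k hk j hj hkj
    by_contra hne
    have h2 := abs_le.mp (hg1 k hk)
    have h3 := abs_le.mp (hg1 j hj)
    rw [hkj] at h2
    have h4 : |α * k - α * j| ≤ 2 * (2 * w / Ω) := by
      rw [abs_le]; constructor <;> linarith
    have h5 : (1:ℝ) ≤ |(k:ℝ) - j| := by
      have : (1:ℤ) ≤ |k - j| := Int.one_le_abs (sub_ne_zero.mpr hne)
      exact_mod_cast this
    rw [← mul_sub, abs_mul, abs_of_pos hα0] at h4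
    have h6 : α ≤ 2 * (2 * w / Ω) := by nlinarith
    rw [hα] at h6
    have h7 : 2 * (2 * w / Ω) = 4 * w / Ω := by ring
    rw [h7, div_le_div_iff_of_pos_right hΩ0] at h6
    linarith
  have h2 : ∑ k ∈ K', ‖zl (α * k + β)‖ ^ q * gw τ H (α * k + β) ≤
      2 ^ (q + 1) * ∑ t ∈ F, ‖zl t‖ ^ q * gw τ H t := by
    refine (sum_le_sum fun k hk => hg3 k hk).trans ?_
    rw [← mul_sum]
    refine mul_le_mul_of_nonneg_left ?_ (by positivity)
    rw [← sum_image (f := fun t => ‖zl t‖ ^ q * gw τ H t) (g := g) hinj]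
    refine sum_le_sum_of_subset_of_nonneg ?_ fun t _ _ => ?_
    · intro t ht
      rw [mem_image] at ht
      obtain ⟨k, hk, rfl⟩ := ht
      exact hg2 k hk
    · have := gw_nonneg τ H t hH0
      positivity
  calc _ ≤ α * ((∑ k ∈ K, gw τ H (α * k + β)) + ∑ k ∈ K', ‖zl (α * k + β)‖ ^ q * gw τ H (α * k + β)) :=
        mul_le_mul_of_nonneg_left h1 hα0.le
    _ = α * (∑ k ∈ K, gw τ H (α * k + β)) + α * ∑ k ∈ K', ‖zl (α * k + β)‖ ^ q * gw τ H (α * k + β) := by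
        rw [mul_add]
    _ ≤ _ := add_le_add hmK (mul_le_mul_of_nonneg_left h2 hα0.le)

end

end Pool.Agent.R311.SE
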