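import Pool.Agent.R311.SE.R5

set_option autoImplicit false

/-! Choice of the parameters for the points of the ray. -/

namespace Pool.Agent.R311.SE

open Finset MeasureTheory Filter Topology
open Pool.Agent.W188.QS (cp XX)
open Pool.Agent.H306R2
open Pool.Agent.R311.BS (ex ex_norm gq gq_nonneg gq_far Lam Lam_ge_one zX ev_small ev_pow ev_rpow_ge
  ev_log_rpow_ge U_lower zX_eq l1)
open Pool.Agent.R311.AP (mass_le gwk_summable Kw mem_Kw sum_Kw_le)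

noncomputable section

lemma RK_le {K T ε R : ℝ} (hT0 : 0 < T) (hRdef : R = T ^ (2 * ε)) (g : K * T ^ (-(1 - 2 * ε)) ≤ 1) :
    K * R ≤ T := by
  have e1 : K * R = (K * T ^ (-(1 - 2 * ε))) * T := by
    have : T ^ (2 * ε) = T ^ (-(1 - 2 * ε)) * T := by
      conv_rhs => rw [← Real.rpow_one T, ← Real.rpow_mul hT0.le, ← Real.rpow_add hT0]
      congr 1; ring
    rw [hRdef, this]; ring
  rw [e1]
  calc _ ≤ 1 * T := mul_le_mul_of_nonneg_right g hT0.le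
    _ = T := one_mul T

lemma w_val2 {T τ R ε w : ℝ} (hT : 1000 ≤ T) (hτ1 : T ≤ τ) (hRdef : R = T ^ (2 * ε)) (hR28 : 28 ≤ R)
    (hw : w = (R + 1) * (28 + 2 * (R + 1)) / τ) : w ≤ 4 * T ^ (-(1 - 4 * ε)) := by
  have hT0 : 0 < T := by linarith
  have e1 : T ^ (-(1 - 4 * ε)) = R ^ 2 / T := by
    have : R ^ 2 = T ^ (-(1 - 4 * ε)) * T := by
      conv_rhs => rw [← Real.rpow_one T, ← Real.rpow_mul hT0.le, ← Real.rpow_add hT0]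
      rw [hRdef, ← Real.rpow_natCast, ← Real.rpow_mul hT0.le]
      congr 1; push_cast; ring
    rw [this]; field_simp
  rw [e1, hw]
  have h1 : (R + 1) * (28 + 2 * (R + 1)) ≤ 4 * R ^ 2 := by nlinarith
  calc (R + 1) * (28 + 2 * (R + 1)) / τ ≤ 4 * R ^ 2 / T := by gcongr
    _ = _ := by ring

lemma gw_val {T R ε w Ω : ℝ} (hT0 : 0 < T) (hRdef : R = T ^ (2 * ε)) (hR28 : 28 ≤ R) (hw0 : 0 ≤ w)
    (hwb : w ≤ 4 * T ^ (-(1 - 4 * ε))) (hΩ : 2 ≤ Ω) (g : 32 * T ^ (-(1 - 6 * ε)) ≤ 1) :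
    2 * w / Ω * (2 * (R + 1)) ≤ 1 / 2 := by
  have h1 : 2 * w / Ω ≤ w := by
    rw [div_le_iff₀ (by linarith)]; nlinarith
  have h2 : 2 * (R + 1) ≤ 4 * R := by linarith
  have e1 : T ^ (-(1 - 4 * ε)) * R = T ^ (-(1 - 6 * ε)) := by
    rw [hRdef, ← Real.rpow_add hT0]; congr 1; ring
  calc 2 * w / Ω * (2 * (R + 1)) ≤ (4 * T ^ (-(1 - 4 * ε))) * (4 * R) :=
        mul_le_mul (h1.trans hwb) h2 (by linarith) (by positivity)
    _ = 16 * (T ^ (-(1 - 4 * ε)) * R) := by ring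
    _ = 16 * T ^ (-(1 - 6 * ε)) := by rw [e1]
    _ ≤ 1 / 2 := by linarith only [g]

lemma lip_val {T τ R ε w e₁ Ω : ℝ} {X₀ : ℕ} (hT : 1000 ≤ T) (hX1 : 1 ≤ X₀) (hXT : (X₀:ℝ) ≤ 10 * T)
    (hε : 0 < ε) (hℓ : 10 ≤ Real.log T) (hw0 : 0 ≤ w) (hwb : w ≤ 4 * T ^ (-(1 - 4 * ε)))
    (he₁ : e₁ ≤ 1 / 16) (hΩ : 2 ≤ Ω)
    (happ : ∀ t ∈ Set.Ioc (τ - (R + 2)) (τ + (R + 2)), ‖zl t - zX X₀ t‖ ≤ e₁)
    (g : 448 / ε * T ^ (-(1 / 2 - 5 * ε)) ≤ 1) :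
    ∀ s t : ℝ, |s - τ| ≤ R + 1 → |t - τ| ≤ R + 1 → |t - s| ≤ 2 * w / Ω → ‖zl t - zl s‖ ≤ 1 / 4 := by
  intro s t hs ht hst
  have hT0 : 0 < T := by linarith
  have hs' := abs_le.mp hs
  have ht' := abs_le.mp ht
  have a1 := happ s ⟨by linarith, by linarith⟩
  have a2 := happ t ⟨by linarith, by linarith⟩
  have h1 : 2 * w / Ω ≤ w := by
    rw [div_le_iff₀ (by linarith)]; nlinarith
  have h2 := zX_lip X₀ hX1 s t
  have h4 : Real.sqrt X₀ ≤ 7 / 2 * T ^ (1 / 2 : ℝ) := by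
    rw [← Real.sqrt_eq_rpow]
    apply Real.sqrt_le_iff.mpr
    refine ⟨by positivity, ?_⟩
    rw [mul_pow, Real.sq_sqrt hT0.le]
    linarith
  have hX1r : (1:ℝ) ≤ X₀ := by exact_mod_cast hX1
  have h5 : Real.log X₀ ≤ 2 * (T ^ ε / ε) := by
    have k1 := Real.log_le_log (by linarith) hXT
    rw [Real.log_mul (by norm_num) hT0.ne'] at k1
    have k2 : Real.log 10 ≤ 3 := by
      rw [Real.log_le_iff_le_exp (by norm_num)]
      have h5 : (2.7:ℝ) ≤ Real.exp 1 := by have := Real.exp_one_gt_d9; linarith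
      have h6 : Real.exp 3 = Real.exp 1 ^ 3 := by rw [← Real.exp_nat_mul]; norm_num
      rw [h6]
      calc (10:ℝ) ≤ 2.7 ^ 3 := by norm_num
        _ ≤ _ := pow_le_pow_left₀ (by norm_num) h5 3
    have k3 := Real.log_le_rpow_div hT0.le hε
    linarith
  have h50 : 0 ≤ Real.log X₀ := Real.log_nonneg hX1r
  have h3 : ‖zX X₀ t - zX X₀ s‖ ≤ 1 / 8 := by
    refine h2.trans ?_
    have k5 : T ^ (-(1 - 4 * ε)) * T ^ (1 / 2 : ℝ) * T ^ ε = T ^ (-(1 / 2 - 5 * ε)) := by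
      rw [← Real.rpow_add hT0, ← Real.rpow_add hT0]; congr 1; ring
    calc |t - s| * (2 * Real.sqrt X₀ * Real.log X₀) ≤
        (4 * T ^ (-(1 - 4 * ε))) * (2 * (7 / 2 * T ^ (1 / 2 : ℝ)) * (2 * (T ^ ε / ε))) := by
          have := (hst.trans h1).trans hwb
          gcongr
      _ = (448 / ε * (T ^ (-(1 - 4 * ε)) * T ^ (1 / 2 : ℝ) * T ^ ε)) / 8 := by ring
      _ ≤ 1 / 8 := by rw [k5]; linarith only [g]
  have e1 : zl t - zl s = (zl t - zX X₀ t) + (zX X₀ t - zX X₀ s) - (zl s - zX X₀ s) := by ring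
  rw [e1]
  have b1 := norm_sub_le ((zl t - zX X₀ t) + (zX X₀ t - zX X₀ s)) (zl s - zX X₀ s)
  have b2 := norm_add_le (zl t - zX X₀ t) (zX X₀ t - zX X₀ s)
  linarith

lemma nr1_val {T Ω N : ℝ} {q : ℕ} (hT : 1000 ≤ T) (hℓ : 10 ≤ Real.log T) (hΩ : Real.log T - 2 ≤ Ω)
    (hNqT : N ^ q ≤ T ^ (1 / 64 : ℝ)) :
    ∀ n l : ℕ, 1 ≤ n → (n:ℝ) ≤ N ^ q → 1 ≤ l → (l:ℝ) ≤ N ^ q → 1 ≤ |Ω - Real.log n + Real.log l| := by
  have hT0 : 0 < T := by linarith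
  intro n l hn hnX hl hlN
  have hn1 : (1:ℝ) ≤ n := by exact_mod_cast hn
  have hl1 : (1:ℝ) ≤ l := by exact_mod_cast hl
  have hlogT64 : Real.log (T ^ (1 / 64 : ℝ)) = Real.log T / 64 := by rw [Real.log_rpow hT0]; ring
  have h3 := Real.log_le_log (by linarith) (hnX.trans hNqT)
  rw [hlogT64] at h3
  have h4 := Real.log_nonneg hl1
  refine le_trans ?_ (le_abs_self _)
  linarith

lemma E3_val2 {Λ e₁ M T ε : ℝ} (hT0 : 0 < T) (hΛ : 0 ≤ Λ) (hM : M ≤ T ^ (ε / 2))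
    (he₁def : e₁ = 1575 * (Real.sqrt 2 * T ^ (-(1 / 2) : ℝ)))
    (g10 : 12 * ((Λ + 1) * (1575 * Real.sqrt 2)) * T ^ (-(1 / 2 - ε / 2)) ≤ 1) :
    (Λ + 1) * (e₁ * M) ≤ 1 / 12 := by
  have he₁0 : 0 ≤ e₁ := by rw [he₁def]; positivity
  have k5 : T ^ (-(1 / 2) : ℝ) * T ^ (ε / 2) = T ^ (-(1 / 2 - ε / 2)) := by
    rw [← Real.rpow_add hT0]
    congr 1
    ring
  calc (Λ + 1) * (e₁ * M) ≤ (Λ + 1) * (e₁ * T ^ (ε / 2)) := by gcongr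
    _ = (12 * ((Λ + 1) * (1575 * Real.sqrt 2)) * (T ^ (-(1 / 2) : ℝ) * T ^ (ε / 2))) / 12 := by
        rw [he₁def]; ring
    _ ≤ 1 / 12 := by rw [k5]; linarith only [g10]

lemma E4_val2 {Zb w M T ε : ℝ} (hT0 : 0 < T) (hM0 : 0 ≤ M) (hM : M ≤ T ^ (ε / 2)) (hw0 : 0 ≤ w)
    (hZbdef : Zb = 8 * T ^ (1 / 2 : ℝ)) (hwb : w ≤ 4 * T ^ (-(1 - 4 * ε)))
    (g11 : 4 * 240 * T ^ (-(1 / 2 - (4 * ε + ε / 2))) ≤ 1) : Zb * w * M ≤ 1 / 4 := by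
  have k5 : T ^ (1 / 2 : ℝ) * T ^ (-(1 - 4 * ε)) * T ^ (ε / 2) = T ^ (-(1 / 2 - (4 * ε + ε / 2))) := by
    rw [← Real.rpow_add hT0, ← Real.rpow_add hT0]
    congr 1
    ring
  have k6 : 0 ≤ T ^ (-(1 / 2 - (4 * ε + ε / 2))) := by positivity
  calc Zb * w * M ≤ (8 * T ^ (1 / 2 : ℝ) * (4 * T ^ (-(1 - 4 * ε)))) * T ^ (ε / 2) := by
        rw [hZbdef]
        gcongr
    _ = 32 * (T ^ (1 / 2 : ℝ) * T ^ (-(1 - 4 * ε)) * T ^ (ε / 2)) := by ring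
    _ ≤ 1 / 4 := by rw [k5]; linarith only [g11, k6]

lemma fin2 {c₁ P α M S ℓ Ω : ℝ} (h : c₁ * P ≤ 2 + α * (M * S)) (h4 : 4 ≤ c₁ * P)
    (hα : α = 2 * Real.pi / Ω) (hℓ : 10 ≤ ℓ) (hΩ : ℓ - 2 ≤ Ω) (hM : 0 < M) :
    c₁ / (8 * Real.pi * M) * (P * ℓ) ≤ S := by
  have hpi := Real.pi_pos
  have hΩ0 : 0 < Ω := by linarith
  have h1 : c₁ * P / 2 ≤ α * (M * S) := by linarith
  rw [hα, div_mul_eq_mul_div, le_div_iff₀ hΩ0] at h1
  have h2 : c₁ * P * ℓ / 4 ≤ c₁ * P / 2 * Ω := by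
    have : c₁ * P * (ℓ / 2) ≤ c₁ * P * Ω := mul_le_mul_of_nonneg_left (by linarith) (by linarith)
    linarith
  have h3 : c₁ * P * ℓ / 4 ≤ 2 * Real.pi * (M * S) := h2.trans h1
  rw [div_mul_eq_mul_div, div_le_iff₀ (by positivity)]
  linarith

set_option maxHeartbeats 4000000 in
theorem window_ray (q : ℕ) (hq : 2 ≤ q) {ε : ℝ} (hε : 0 < ε) (hε1 : ε ≤ 1 / 16) :
    ∃ c : ℝ, 0 < c ∧ ∀ᶠ T : ℝ in atTop, ∀ τ : ℝ, T ≤ τ → τ ≤ 3 * T → ∀ u : ℂ, ‖u‖ = 1 →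
      ∀ F : Finset ℝ, (∀ t : ℝ, |t - τ| ≤ T ^ (2 * ε) + 1 →
        (∃ r : ℝ, 0 < r ∧ riemannZeta (1 / 2 + t * Complex.I) = r * u) → t ∈ F) →
      c * (Real.log T ^ (((q:ℝ) / 2) * ((q:ℝ) / 2)) * Real.log T) ≤
        ∑ t ∈ F, ‖zl t‖ ^ q * gw τ (T ^ ε) t := by
  have hqr : (2:ℝ) ≤ q := by exact_mod_cast hq
  obtain ⟨κ, hκdef⟩ : ∃ κ : ℝ, κ = (q:ℝ) / 2 := ⟨_, rfl⟩
  have hκ1 : 1 ≤ κ := by rw [hκdef]; linarith only [hqr]
  have hLam := Lam_ge_one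
  have hLam0 : 0 < Lam := by linarith only [hLam]
  have hpi := Real.pi_pos
  -- exponents
  obtain ⟨ν, hν⟩ : ∃ ν : ℝ, ν = ε / (4 * q) := ⟨_, rfl⟩
  have hνpos : 0 < ν := by rw [hν]; positivity
  have hνq : ν * q = ε / 4 := by rw [hν]; field_simp
  -- constants
  obtain ⟨cS, hcS, hSev⟩ := U_lower (κ := κ) hκ1
  obtain ⟨C2, hC2, h2ev⟩ := Sd_upper q q (q - 2) (by omega) (by omega) (by
    rw [Nat.cast_sub hq]; push_cast; linarith only) ν hνpos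
  obtain ⟨C3, hC3, h3ev⟩ := Sd_upper q (q - 1) (q - 1) (by omega) (by omega) (by linarith only) ν hνpos
  obtain ⟨C4, hC4, h4ev⟩ := U_up q (by omega) ν hνpos
  obtain ⟨A₀, hA₀⟩ : ∃ A₀ : ℝ, A₀ = cS * ν ^ (κ ^ 2) := ⟨_, rfl⟩
  have hA₀pos : 0 < A₀ := by rw [hA₀]; positivity
  obtain ⟨μ, hμdef⟩ : ∃ μ : ℝ, μ = A₀ / (32 * C4) := ⟨_, rfl⟩
  have hμpos : 0 < μ := by rw [hμdef]; positivity
  obtain ⟨c₁, hc₁⟩ : ∃ c₁ : ℝ, c₁ = A₀ / (8 * (μ⁻¹) ^ (q - 1)) := ⟨_, rfl⟩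
  have hc₁pos : 0 < c₁ := by rw [hc₁]; positivity
  refine ⟨c₁ / (8 * Real.pi * 2 ^ (q + 1)), by positivity, ?_⟩
  have ev1 : ∀ᶠ T : ℝ in atTop, cS * (ν * Real.log T) ^ (κ ^ 2) ≤
      ∑ n ∈ Icc 1 ⌊T ^ ν⌋₊, dv κ n ^ 2 / n := by
    have h1 : Tendsto (fun T : ℝ => ν * Real.log T) atTop atTop :=
      Real.tendsto_log_atTop.const_mul_atTop hνpos
    filter_upwards [h1.eventually hSev, eventually_gt_atTop 0] with T hT hT0
    rw [Real.rpow_def_of_pos hT0, mul_comm (Real.log T)]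
    exact hT
  have hα2 : ((q:ℝ) / 2 + 1) * (((q - 2 : ℕ) : ℝ) / 2) < κ ^ 2 := by
    rw [hκdef, Nat.cast_sub hq]; push_cast; nlinarith only [hqr]
  have hα3 : (((q - 1 : ℕ) : ℝ) / 2 + 1) * (((q - 1 : ℕ) : ℝ) / 2) < κ ^ 2 := by
    rw [hκdef, Nat.cast_sub (by omega : 1 ≤ q)]; push_cast; nlinarith only [hqr]
  obtain ⟨B, hBd⟩ : ∃ B : ℝ, B = ((10:ℝ) ^ (q + 2)) ^ 2 := ⟨_, rfl⟩
  have hBpos : 0 < B := by rw [hBd]; positivity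
  have ev2 := ev_logpow (16 * C2 / A₀) _ _ hα2
  have ev3 := ev_logpow (32 * C3 / A₀) _ _ hα3
  have ev4 := ev_small (4 * (q + 2)) (1 / 36) (3 * ε / 2) (12 * ((Lam + 1) * B)) (by norm_num) (by positivity)
  have ev5 := ev_small (4 * (q + 2)) (1 / 2) (2 * ε) (24 * ((Lam + 1) * B)) (by norm_num) (by positivity)
  have ev6 := ev_small (4 * (q + 2)) (1 / 36) (3 * ε / 2) (2 * μ * ((Lam + 5) * B)) (by norm_num) (by positivity)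
  have ev7 := ev_pow (12 * ((Lam + 1) * (1575 * Real.sqrt 2))) (1 / 2 - ε / 2) (by linarith only [hε1])
  have ev8 := ev_pow (4 * 240) (1 / 2 - (4 * ε + ε / 2)) (by linarith only [hε1])
  have ev10 := ev_log_rpow_ge 200 A₀ (κ ^ 2) hA₀pos (by positivity)
  have ev11 : ∀ᶠ T : ℝ in atTop, 10 ≤ Real.log T :=
    Real.tendsto_log_atTop.eventually (eventually_ge_atTop 10)
  have ev12 := ev_pow (16 * (1575 * Real.sqrt 2)) (1 / 2) (by norm_num)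
  have ev13 := ev_pow 40 (1 - 4 * ε) (by linarith only [hε1])
  have ev14 := ev_rpow_ge 28 (2 * ε) (by positivity)
  have ev15 := ev_pow 8 (1 - 2 * ε) (by linarith only [hε1])
  have ev16 := ev_pow (448 / ε) (1 / 2 - 5 * ε) (by linarith only [hε1])
  have ev17 := ev_pow 32 (1 - 6 * ε) (by linarith only [hε1])
  have ev18 := ev_rpow_ge 4 ε hε
  have ev19 := ev_log_rpow_ge 4 c₁ (κ ^ 2) hc₁pos (by positivity)
  filter_upwards [ev1, h2ev, h3ev, h4ev, ev2, ev3, ev4, ev5, ev6, ev7, ev8, ev10, ev11, ev12, ev13, ev14,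
    ev15, ev16, ev17, ev18, ev19, eventually_ge_atTop 1000] with T g1 g2 g3 g4 g5 g6 g7 g8 g9 g10 g11 g13 g14 g15 g16 g17 g18 g19 g20 g21 g22 hT τ hτ1 hτ2 u hu F hF
  clear ev1 h2ev h3ev h4ev ev2 ev3 ev4 ev5 ev6 ev7 ev8 ev10 ev11 ev12 ev13 ev14 ev15 ev16 ev17 ev18 ev19 hSev
  have hT0 : 0 < T := by linarith only [hT]
  have hT1 : 1 ≤ T := by linarith only [hT]
  obtain ⟨N, hNdef⟩ : ∃ N : ℝ, N = T ^ ν := ⟨_, rfl⟩
  rw [← hNdef] at g1 g2 g3 g4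
  have hN1 : 1 ≤ N := by rw [hNdef]; exact Real.one_le_rpow hT1 hνpos.le
  have hNq : N ^ q = T ^ (ε / 4) := by
    rw [hNdef, ← Real.rpow_natCast, ← Real.rpow_mul hT0.le, hνq]
  have hNqT : N ^ q ≤ T ^ (1 / 64 : ℝ) := by
    rw [hNq]; exact Real.rpow_le_rpow_of_exponent_le hT1 (by linarith only [hε1])
  have hT64 : T ^ (1 / 64 : ℝ) ≤ T := by
    calc T ^ (1 / 64 : ℝ) ≤ T ^ (1:ℝ) := Real.rpow_le_rpow_of_exponent_le hT1 (by norm_num)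
      _ = T := Real.rpow_one T
  have hN2 : N ^ (2 * q - 2) ≤ T ^ (ε / 2) := by
    calc N ^ (2 * q - 2) ≤ N ^ (2 * q) := pow_le_pow_right₀ hN1 (by omega)
      _ = (N ^ q) ^ 2 := by rw [← pow_mul, mul_comm]
      _ = T ^ (ε / 2) := by
          rw [hNq, ← Real.rpow_natCast, ← Real.rpow_mul hT0.le]
          congr 1; push_cast; ring
  have hN0 : 0 < N := by linarith only [hN1]
  have hN20 : 0 ≤ N ^ (2 * q - 2) := (pow_pos hN0 _).le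
  obtain ⟨X₀, hX₀⟩ : ∃ X₀ : ℕ, X₀ = ⌈3 * τ⌉₊ := ⟨_, rfl⟩
  have hτ0 : 0 < τ := by linarith only [hτ1, hT0]
  have hX3 : 3 * τ ≤ X₀ := by rw [hX₀]; exact Nat.le_ceil _
  have hX4 : (X₀:ℝ) ≤ 3 * τ + 1 := by
    rw [hX₀]
    exact (Nat.ceil_lt_add_one (by linarith only [hτ0])).le
  have hXT : (X₀:ℝ) ≤ 10 * T := by linarith only [hX4, hτ2, hT]
  have hXTl : T ≤ (X₀:ℝ) := by linarith only [hX3, hτ1, hT0]
  have hX1 : 1 ≤ X₀ := by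
    have : (1:ℝ) ≤ X₀ := by linarith only [hXTl, hT1]
    exact_mod_cast this
  have hX0 : (0:ℝ) ≤ X₀ := Nat.cast_nonneg _
  have hNX : N ^ q ≤ (X₀:ℝ) := by linarith only [hNqT, hT64, hXTl]
  obtain ⟨H, hHdef⟩ : ∃ H : ℝ, H = T ^ ε := ⟨_, rfl⟩
  have hH4 : 4 ≤ H := by rw [hHdef]; exact g21
  have hH : 0 < H := by linarith only [hH4]
  obtain ⟨R, hRdef⟩ : ∃ R : ℝ, R = T ^ (2 * ε) := ⟨_, rfl⟩
  have hR28 : 28 ≤ R := by rw [hRdef]; exact g17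
  have hR : 0 < R := by linarith only [hR28]
  rw [← hHdef]
  rw [← hRdef] at hF
  obtain ⟨Z, hZdef⟩ : ∃ Z : ℝ, Z = 3 * N ^ q := ⟨_, rfl⟩
  have hNq1 : 1 ≤ N ^ q := one_le_pow₀ hN1
  have hZ3 : 3 ≤ Z := by rw [hZdef]; linarith only [hNq1]
  obtain ⟨ρ, hρdef⟩ : ∃ ρ : ℝ, ρ = 1 / Z := ⟨_, rfl⟩
  have hZ0 : 0 < Z := by linarith only [hZ3]
  have hρ0 : 0 < ρ := by rw [hρdef]; exact one_div_pos.mpr hZ0
  have hρ1 : ρ ≤ 1 := by rw [hρdef, div_le_one hZ0]; linarith only [hZ3]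
  have hZe : N ^ q * Real.exp 1 ≤ Z := by
    rw [hZdef]
    have := Real.exp_one_lt_d9
    nlinarith only [this, hNq1]
  obtain ⟨L, hLdef⟩ : ∃ L : ℝ, L = 10 ^ (q + 2) * T ^ (2 * (q + 2)) := ⟨_, rfl⟩
  have hL : (N ^ q * (X₀:ℝ)) ^ (q + 2) ≤ L := by
    have h1 : N ^ q * (X₀:ℝ) ≤ 10 * T ^ 2 := by
      calc N ^ q * (X₀:ℝ) ≤ T * (10 * T) :=
            mul_le_mul (hNqT.trans hT64) hXT hX0 hT0.le
        _ = 10 * T ^ 2 := by ring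
    calc (N ^ q * (X₀:ℝ)) ^ (q + 2) ≤ (10 * T ^ 2) ^ (q + 2) := pow_le_pow_left₀ (by positivity) h1 _
      _ = L := by rw [hLdef, mul_pow, ← pow_mul]
  have hL1 : 1 ≤ L := by
    rw [hLdef]
    exact one_le_mul_of_one_le_of_one_le (one_le_pow₀ (by norm_num)) (one_le_pow₀ hT1)
  have hLL : L * L = B * T ^ (4 * (q + 2)) := by
    rw [hLdef, hBd]
    have : T ^ (4 * (q + 2)) = T ^ (2 * (q + 2)) * T ^ (2 * (q + 2)) := by
      rw [← pow_add]; congr 1; omega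
    rw [this]; ring
  -- errors
  have hgq := gq_val (q := q) (N := N) hT0 hHdef hNq hZdef hρdef
  have hRH := RH_val hT0 hHdef hRdef hH
  obtain ⟨e₁, he₁def⟩ : ∃ e₁ : ℝ, e₁ = 1575 * (Real.sqrt 2 * T ^ (-(1 / 2) : ℝ)) := ⟨_, rfl⟩
  have he₁0 : 0 ≤ e₁ := by rw [he₁def]; positivity
  have he₁1 : e₁ ≤ 1 / 16 := by
    have e1 : e₁ = (16 * (1575 * Real.sqrt 2) * T ^ (-(1 / 2) : ℝ)) / 16 := by rw [he₁def]; ring
    rw [e1]
    linarith only [g15]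
  have h8R := RK_le hT0 hRdef g18
  have h4R : 4 * (R + 2) ≤ T := by linarith only [h8R, hR28]
  have happ2 := app_val hT hτ1 h4R hX3 hX4 he₁def
  have happ : ∀ t ∈ Set.Ioc (τ - R) (τ + R), ‖zl t - zX X₀ t‖ ≤ e₁ := by
    intro t ht
    have k1 := ht.1
    have k2 := ht.2
    exact happ2 t ⟨by linarith only [k1], by linarith only [k2]⟩
  have hZb0 := Zb_val hT hXT (by linarith only [he₁1]) happ
  obtain ⟨Zb, hZbdef⟩ : ∃ Zb : ℝ, Zb = 8 * T ^ (1 / 2 : ℝ) := ⟨_, rfl⟩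
  have hZb : ∀ t ∈ Set.Ioc (τ - R) (τ + R), ‖zl t‖ ≤ Zb := by
    rw [hZbdef]; exact hZb0
  obtain ⟨w, hw⟩ : ∃ w : ℝ, w = (R + 1) * (28 + 2 * (R + 1)) / τ := ⟨_, rfl⟩
  have hw0 : 0 < w := by rw [hw]; positivity
  have hwb := w_val2 hT hτ1 hRdef hR28 hw
  have hw1 : w ≤ 1 / 10 := by linarith only [hwb, g16]
  have hZbn : 0 ≤ Zb := by rw [hZbdef]; positivity
  obtain ⟨e₂, he₂def⟩ : ∃ e₂ : ℝ, e₂ = Zb * w := ⟨_, rfl⟩
  have he₂0 : 0 ≤ e₂ := by rw [he₂def]; exact mul_nonneg hZbn hw0.le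
  obtain ⟨Ω, hΩdef⟩ : ∃ Ω : ℝ, Ω = Real.log (τ / (2 * Real.pi)) := ⟨_, rfl⟩
  have hΩ : Real.log T - 2 ≤ Ω := by rw [hΩdef]; exact Om_val hT hτ1
  have hΩ2 : 2 ≤ Ω := by linarith only [hΩ, g14]
  have hΩ0 : 0 < Ω := by linarith only [hΩ2]
  have hnr := nr_val (q := q) (N := N) hT g14 hΩ hX0 hXT hNqT
  have hnr1 := nr1_val (q := q) (N := N) hT g14 hΩ hNqT
  obtain ⟨ψ, hψ⟩ := phaseL (τ := τ) (R := R + 1) (by linarith only [hτ1, hT])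
    (by linarith only [hτ1, hT, h4R, hR]) hu
  rw [← hΩdef, ← hw] at hψ
  obtain ⟨α, hαdef⟩ : ∃ α : ℝ, α = 2 * Real.pi / Ω := ⟨_, rfl⟩
  obtain ⟨β, hβdef⟩ : ∃ β : ℝ, β = -ψ / Ω := ⟨_, rfl⟩
  have hα0 : 0 < α := by rw [hαdef]; positivity
  have hαΩ : 2 * Real.pi / α = Ω := by rw [hαdef]; field_simp
  have hβΩ : -(Ω * β) = ψ := by rw [hβdef]; field_simp
  have hy : 1 ≤ H ^ 2 * (2 * Real.pi / α) ^ 2 / 16 := by
    rw [hαΩ]
    have k1 : 16 ≤ H ^ 2 := by nlinarith only [hH4]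
    have k2 : 4 ≤ Ω ^ 2 := by nlinarith only [hΩ2]
    nlinarith only [k1, k2]
  have hE1 : (Lam + 1) * (L * L * gq H ρ) ≤ 1 / 12 := by
    rw [hLL, hgq]
    exact E12_val g7 (by norm_num)
  have hy2 : Lam * Real.exp (-(H ^ 2 * (2 * Real.pi / α) ^ 2 / 16)) ≤ 1 := by
    rw [hαΩ]
    have k1 := exp_le_gq H Ω hΩ2
    have k2 : gq H 1 ≤ gq H ρ := gq_far H 1 ρ hρ0.le (by rw [abs_one]; exact hρ1)
    have k3 := gq_nonneg H ρ
    have k4 : 1 ≤ L * L := one_le_mul_of_one_le_of_one_le hL1 hL1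
    calc Lam * Real.exp (-(H ^ 2 * Ω ^ 2 / 16)) ≤ (Lam + 1) * (L * L * gq H ρ) := by
          refine mul_le_mul (by linarith only) ?_ (Real.exp_pos _).le (by linarith only [hLam0])
          refine (k1.trans k2).trans ?_
          nlinarith only [k3, k4]
      _ ≤ 1 := by linarith only [hE1]
  have hτR : 51 ≤ τ - R := by linarith only [hτ1, hT, h4R, hR]
  have hph : ∀ t ∈ Set.Ioc (τ - R) (τ + R), ‖ex 1 (-(2 * Real.pi / α * β)) * ex (2 * Real.pi / α) t * zl t -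
      u ^ 2 * (starRingEnd ℂ) (zl t)‖ ≤ e₂ := by
    intro t ht
    have k1 := ht.1
    have k2 := ht.2
    rw [hαΩ, hβΩ, fe (by linarith only [k1, hτR])]
    have e0 : ex 1 ψ = Complex.exp ((ψ : ℂ) * Complex.I) := by unfold ex; rw [one_mul]
    have e1 : ex 1 ψ * ex Ω t * zl t - u ^ 2 * (XX (cp t) * zl t) =
        (Complex.exp ((ψ : ℂ) * Complex.I) * ex Ω t - u ^ 2 * XX (cp t)) * zl t := by rw [e0]; ring
    rw [e1, norm_mul, he₂def, mul_comm Zb w]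
    have htR : |t - τ| ≤ R + 1 := by rw [abs_le]; constructor <;> linarith only [k1, k2]
    exact mul_le_mul (hψ t htR) (hZb t ht) (norm_nonneg _) hw0.le
  have hB : ∀ k ∈ Kw α β τ R, |((starRingEnd ℂ) u * zl (α * k + β)).im| ≤ w / 2 * ‖zl (α * k + β)‖ := by
    intro k hk
    rw [mem_Kw hα0] at hk
    have k1 := hk.1
    have k2 := hk.2
    refine im_small hu (by linarith only [k1, hτR]) ?_
    have htR : |(α * k + β) - τ| ≤ R + 1 := by rw [abs_le]; constructor <;> linarith only [k1, k2]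
    have h1 := hψ _ htR
    have hs1 : Complex.exp ((ψ : ℂ) * Complex.I) * ex Ω (α * k + β) = 1 := by
      unfold ex
      rw [← Complex.exp_add, Complex.exp_eq_one_iff]
      refine ⟨k, ?_⟩
      have e1 : ψ + Ω * (α * k + β) = k * (2 * Real.pi) := by
        rw [hαdef, hβdef]; field_simp; ring
      have e2 : (ψ : ℂ) * Complex.I + ((Ω * (α * k + β) : ℝ) : ℂ) * Complex.I =
          ((ψ + Ω * (α * k + β) : ℝ) : ℂ) * Complex.I := by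
        push_cast; ring
      rw [e2, e1]
      push_cast
      ring
    rwa [hs1] at h1
  have hcore := coreD q hq N X₀ Z ρ τ H R e₁ e₂ L α β (1 / 2) (w / 2) μ u hu hN1 hNX
    hρ0.le hρ1 hZe (le_of_eq hρdef) hH hR he₁0 he₂0 hL hμpos (by linarith only [hw0]) (by linarith only [hw1])
    (by linarith only [hw1]) hα0 (by rw [hαΩ]; exact hΩ2) hy hy2 happ (by rw [hαΩ]; exact hnr)
    (by rw [hαΩ]; exact hnr1) hph hB
  obtain ⟨Er, hEr⟩ : ∃ Er : ℝ, Er = 3 * ((Lam + 1) * (L * L * gq H ρ +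
    L * L * (2 * Real.exp (-(R ^ 2 / (2 * H ^ 2)))) + e₁ * N ^ (2 * q - 2))) + e₂ * N ^ (2 * q - 2) := ⟨_, rfl⟩
  rw [← hEr] at hcore
  have hE2 : (Lam + 1) * (L * L * (2 * Real.exp (-(R ^ 2 / (2 * H ^ 2))))) ≤ 1 / 12 := by
    rw [hLL, hRH]
    have h1 := E12_val g8 (by norm_num)
    calc _ = 2 * ((Lam + 1) * (B * T ^ (4 * (q + 2)) * Real.exp (-(1 / 2 * T ^ (2 * ε))))) := by ring
      _ ≤ 2 * (1 / 24) := by gcongr
      _ = 1 / 12 := by norm_num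
  have hE3 := E3_val2 hT0 hLam0.le hN2 he₁def g10
  have hE4 : e₂ * N ^ (2 * q - 2) ≤ 1 / 4 := by
    rw [he₂def]
    exact E4_val2 hT0 hN20 hN2 hw0.le hZbdef hwb g11
  have hErb : Er ≤ 1 := by
    rw [hEr]
    have : (Lam + 1) * (L * L * gq H ρ + L * L * (2 * Real.exp (-(R ^ 2 / (2 * H ^ 2)))) + e₁ * N ^ (2 * q - 2)) =
      (Lam + 1) * (L * L * gq H ρ) + (Lam + 1) * (L * L * (2 * Real.exp (-(R ^ 2 / (2 * H ^ 2))))) +
        (Lam + 1) * (e₁ * N ^ (2 * q - 2)) := by ring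
    linarith only [this, hE1, hE2, hE3, hE4]
  -- the main quantities
  have hNN : N ≤ N ^ q := by
    calc N = N ^ 1 := (pow_one N).symm
      _ ≤ N ^ q := pow_le_pow_right₀ hN1 (by omega)
  have hSd := Pool.Agent.R311.SE.Sd_ge N X₀ hN1 (hNN.trans hNX) q hq hNX
  rw [← hκdef] at hSd
  have hℓ0 : 0 < Real.log T := by linarith only [g14]
  obtain ⟨P, hP⟩ : ∃ P : ℝ, P = Real.log T ^ (κ ^ 2) := ⟨_, rfl⟩
  have hP0 : 0 ≤ P := by rw [hP]; positivity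
  obtain ⟨S1, hS1⟩ : ∃ S1 : ℝ, S1 = Sd N X₀ (q - 2) q := ⟨_, rfl⟩
  have hA : A₀ * P ≤ S1 := by
    have h1 := g1.trans hSd
    rw [Real.mul_rpow hνpos.le hℓ0.le, ← hP] at h1
    calc A₀ * P = cS * (ν ^ (κ ^ 2) * P) := by rw [hA₀]; ring
      _ ≤ S1 := by rw [hS1]; exact h1
  have hS2 : Sd N X₀ q (q - 2) ≤ S1 / 16 := by
    refine (g2 X₀ hNX).trans ?_
    rw [← hP] at g5
    rw [div_mul_eq_mul_div, div_le_iff₀ hA₀pos] at g5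
    linarith only [g5, hA]
  have hS3 : Sd N X₀ (q - 1) (q - 1) ≤ S1 / 32 := by
    refine (g3 X₀ hNX).trans ?_
    rw [← hP] at g6
    rw [div_mul_eq_mul_div, div_le_iff₀ hA₀pos] at g6
    linarith only [g6, hA]
  have hexp : ((q:ℝ) / 2) * ((q:ℝ) / 2) = κ ^ 2 := by rw [hκdef]; ring
  rw [hexp] at g4 ⊢
  rw [← hP] at g4 g13 g22 ⊢
  obtain ⟨U, hU⟩ : ∃ U : ℝ, U = ∑ n ∈ Icc 1 ⌊N ^ q⌋₊, dv ((q:ℝ) / 2) n * dv ((q:ℝ) / 2) n / (n:ℝ) := ⟨_, rfl⟩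
  rw [← hU] at g4 hcore
  obtain ⟨G, hG⟩ : ∃ G : ℝ, G = α * ∑ k ∈ Kw α β τ R,
    (SS u (1 / 2)).indicator (fun t => ‖zl t‖ ^ q * gw τ H t) (α * k + β) := ⟨_, rfl⟩
  rw [← hG, ← hS1] at hcore
  have hV : 2 * μ * U ≤ S1 / 16 := by
    have h1 : 2 * μ * U ≤ 2 * μ * (C4 * P) := by gcongr
    have h2 : 2 * μ * (C4 * P) = A₀ * P / 16 := by
      rw [hμdef]; field_simp; ring
    linarith only [h1, h2, hA]
  have hM6 : 2 * μ * ((Lam + 5) * (L * L * gq H ρ)) ≤ 1 := by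
    rw [hLL, hgq]
    refine le_trans (le_of_eq ?_) g9
    ring
  have hcore2 : 1 / 2 * (S1 - Sd N X₀ q (q - 2) - Er) - 2 * Sd N X₀ (q - 1) (q - 1) - Er - 0 ≤
      2 * (2 * μ * U + 2 * μ * ((Lam + 5) * (L * L * gq H ρ)) + (μ⁻¹) ^ (q - 1) * G) := by
    have e1 : 2 * μ * (U + (Lam + 5) * (L * L * gq H ρ)) =
      2 * μ * U + 2 * μ * ((Lam + 5) * (L * L * gq H ρ)) := by ring
    rw [e1] at hcore
    rw [sub_zero]
    exact hcore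
  have hfin := fin_arith hcore2 hS2 hS3 hErb zero_le_one hM6 hV (by linarith only [g13, hA])
  have hden : 0 < 8 * (μ⁻¹) ^ (q - 1) := by positivity
  have hG1 : c₁ * P ≤ G := by
    rw [hc₁, div_mul_eq_mul_div, div_le_iff₀ hden]
    linarith only [hfin, hA]
  have htr := transfer q hu hτR hR.le (by linarith only [hH4]) hw0 hw1 hΩ2 hαdef hβdef hy hy2 hψ
    (lip_val hT hX1 hXT hε g14 hw0.le hwb he₁1 hΩ2 happ2 g19)
    (gw_val hT0 hRdef hR28 hw0.le hwb hΩ2 g20) F hF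
  rw [← hG] at htr
  exact fin2 (hG1.trans htr) g22 hαdef g14 hΩ (by positivity)

end

end Pool.Agent.R311.SE
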