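import Pool.Agent.R311.SE.R6
import Pool.Agent.R311.AP.W

set_option autoImplicit false

/-! Lower bounds for the discrete moments over the points of one ray. -/

namespace Pool.Agent.R311.SE

open Finset MeasureTheory Filter Topology
open Pool.Agent.H306R2
open Pool.Agent.R311.BS (ev_rpow_ge)
open Pool.Agent.R311.AP (gw_int_le)

noncomputable section

theorem ray_averaging (K : Finset ℝ) (F : ℝ → ℝ) (hF : ∀ t, 0 ≤ F t) (H a b J : ℝ)
    (hH : 0 < H) (hab : a ≤ b) (h : ∀ τ ∈ Set.Icc a b, J ≤ ∑ t ∈ K, F t * gw τ H t) :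
    (b - a) * J ≤ ∑ t ∈ K, F t := by
  have hc : ∀ t : ℝ, Continuous fun τ => gw τ H t := fun t => by
    have e : (fun τ => gw τ H t) = fun τ => gw t H τ := by
      funext τ; exact gw_symm τ H t
    rw [e]
    exact gw_continuous _ _
  have h1 : ∫ _τ in Set.Icc a b, J ≤ ∫ τ in Set.Icc a b, ∑ t ∈ K, F t * gw τ H t := by
    refine setIntegral_mono_on ?_ ?_ measurableSet_Icc h
    · exact continuous_const.integrableOn_Icc
    · refine Continuous.integrableOn_Icc ?_
      exact continuous_finsetSum _ fun t _ => continuous_const.mul (hc t)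
  rw [setIntegral_const, Real.volume_real_Icc_of_le hab, smul_eq_mul] at h1
  refine h1.trans ?_
  have hI : ∀ t ∈ K, Integrable (fun τ => F t * gw τ H t) (volume.restrict (Set.Icc a b)) := fun t _ => by
    have : IntegrableOn (fun τ => F t * gw τ H t) (Set.Icc a b) :=
      (continuous_const.mul (hc t)).integrableOn_Icc
    exact this
  rw [integral_finsetSum _ hI]
  refine sum_le_sum fun t _ => ?_
  rw [integral_const_mul]
  have := gw_int_le H t a b hH
  have := hF t
  nlinarith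

theorem main_ray (q : ℕ) (hq : 2 ≤ q) (ε : ℝ) (hε : 0 < ε) :
    ∃ c : ℝ, 0 < c ∧ ∀ᶠ T : ℝ in atTop, ∀ H : ℝ, T ^ ε ≤ H → H ≤ T → ∀ u : ℂ, ‖u‖ = 1 →
      (RY u T (T + H)).Finite ∧
      c * H * Real.log T ^ ((q:ℝ) ^ 2 / 4 + 1) ≤ ∑ᶠ t ∈ RY u T (T + H), ‖zl t‖ ^ q := by
  obtain ⟨e, he⟩ : ∃ e : ℝ, e = min (ε / 3) (1 / 16) := ⟨_, rfl⟩
  have he0 : 0 < e := by rw [he]; exact lt_min (by positivity) (by norm_num)
  have he1 : e ≤ 1 / 16 := by rw [he]; exact min_le_right _ _
  have he2 : e ≤ ε / 3 := by rw [he]; exact min_le_left _ _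
  obtain ⟨c, hc, h⟩ := window_ray q hq he0 he1
  refine ⟨c / 2, by positivity, ?_⟩
  filter_upwards [h, ev_rpow_ge 8 (ε / 3) (by positivity), eventually_ge_atTop 100] with T hT h4 hT1 H hH1 hH2 u hu
  have hT0 : 0 < T := by linarith
  have hlog : 0 < Real.log T := Real.log_pos (by linarith)
  obtain ⟨R, hR⟩ : ∃ R : ℝ, R = T ^ (2 * e) := ⟨_, rfl⟩
  have hR1 : 1 ≤ R := by rw [hR]; exact Real.one_le_rpow (by linarith) (by positivity)
  have hRH : 8 * R ≤ H := by
    refine le_trans ?_ hH1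
    calc 8 * R ≤ T ^ (ε / 3) * T ^ (2 * e) := by rw [hR]; gcongr
      _ = T ^ (ε / 3 + 2 * e) := by rw [← Real.rpow_add hT0]
      _ ≤ T ^ ε := Real.rpow_le_rpow_of_exponent_le (by linarith) (by linarith)
  have hH0 : 0 < H := by linarith
  rw [← hR] at hT
  have hfin := RY_finite hu (A := T) (B := T + H) hT1
  refine ⟨hfin, ?_⟩
  rw [finsum_mem_eq_finite_toFinset_sum _ hfin]
  obtain ⟨P, hP⟩ : ∃ P : ℝ, P = Real.log T ^ ((q:ℝ) ^ 2 / 4 + 1) := ⟨_, rfl⟩
  have hP1 : Real.log T ^ ((q:ℝ) / 2 * ((q:ℝ) / 2)) * Real.log T = P := by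
    rw [hP, Real.rpow_add_one hlog.ne']
    congr 2
    ring
  rw [hP1] at hT
  have hP0 : 0 ≤ P := by rw [hP]; positivity
  have hav := ray_averaging hfin.toFinset (fun t => ‖zl t‖ ^ q) (fun t => by positivity) (T ^ e)
    (T + R + 1) (T + H - R - 1) (c * P) (by positivity) (by linarith) (by
      intro τ hτ
      refine hT τ (by linarith [hτ.1]) (by linarith [hτ.2]) u hu hfin.toFinset ?_
      intro t ht hray
      rw [Set.Finite.mem_toFinset]
      have h5 := abs_le.mp ht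
      exact ⟨by linarith [hτ.1], by linarith [hτ.2], hray⟩)
  refine le_trans ?_ hav
  rw [← hP]
  have hcP : 0 ≤ c * P := by positivity
  calc c / 2 * H * P = (H / 2) * (c * P) := by ring
    _ ≤ (T + H - R - 1 - (T + R + 1)) * (c * P) := by
        gcongr
        linarith

end

end Pool.Agent.R311.SE
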