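import Pool.Agent.R311.SE.C
import Pool.Agent.R311.SE.D

set_option autoImplicit false

/-! Averages of zeta times two arbitrary short polynomials against the kernel. -/

namespace Pool.Agent.R311.SE

open Finset MeasureTheory Filter Topology
open Pool.Agent.H306R2 Pool.Agent.R311.BS

noncomputable section

/-- a polynomial on the line -/
def FL (f : ArithmeticFunction ℝ) (Y t : ℝ) : ℂ := Dp f Y (1 / 2 + t * Complex.I)

lemma FL_cont (f : ArithmeticFunction ℝ) (Y : ℝ) : Continuous (FL f Y) := Dp_cont _ _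

lemma FL_norm (f : ArithmeticFunction ℝ) (Y t : ℝ) : ‖FL f Y t‖ ≤ l1 f Y := Dp_line_norm _ _ _

/-- `f` times truncated zeta -/
def zf (f : ArithmeticFunction ℝ) (X : ℝ) : ArithmeticFunction ℝ := f * cA 1 X 1

lemma zf_Dp (f : ArithmeticFunction ℝ) (X Y : ℝ) (hY : 0 ≤ Y) (hX : 0 ≤ X) (hfs : ∀ n : ℕ, Y < n → f n = 0) (t : ℝ) :
    Dp (zf f X) (Y * X) (1 / 2 + t * Complex.I) = FL f Y t * zX X t :=
  (Dp_mul f (cA 1 X 1) Y X hY hX hfs (cA_supp 1 X 1) (1 / 2 + t * Complex.I)).2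

/-- the diagonal sum -/
def Sg (f g : ArithmeticFunction ℝ) (X Y : ℝ) : ℝ := ∑ n ∈ Icc 1 ⌊Y⌋₊, zf f X n * g n / n

/-- the window average of zeta times short polynomials and exponentials -/
theorem LJg (f g : ArithmeticFunction ℝ) (M : Finset ℤ) (h0 : (0:ℤ) ∈ M) (C : ℤ → ℂ) (K : ℝ)
    (hK : ∑ m ∈ M, ‖C m‖ ≤ K) (X Y Z ρ τ H R e₁ Ω L B : ℝ) (hX : 1 ≤ X) (hY1 : 1 ≤ Y)
    (hfs : ∀ n : ℕ, Y < n → f n = 0) (hρ : 0 ≤ ρ) (hρ1 : ρ ≤ 1) (hZ : Y * Real.exp 1 ≤ Z)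
    (hρ2 : ρ ≤ 1 / Z) (hH : 0 < H) (hR : 0 ≤ R) (he₁ : 0 ≤ e₁)
    (hL1 : l1 (zf f X) (Y * X) ≤ L) (hBf : l1 f Y ≤ B) (hBg : l1 g Y ≤ B) (hBL : B ≤ L)
    (happ : ∀ t ∈ Set.Ioc (τ - R) (τ + R), ‖zl t - zX X t‖ ≤ e₁)
    (hnr : ∀ m ∈ M, m ≠ 0 → ∀ n l : ℕ, 1 ≤ n → (n:ℝ) ≤ Y * X → 1 ≤ l → (l:ℝ) ≤ Y →
      1 ≤ |m * Ω - Real.log n + Real.log l|) :
    ‖(∫ t in Set.Ioc (τ - R) (τ + R), ((∑ m ∈ M, C m * ex (m * Ω) t) *
        (zl t * FL f Y t * (starRingEnd ℂ) (FL g Y t))) * (gw τ H t : ℂ)) -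
      C 0 * ((Sg f g X Y : ℝ) : ℂ)‖ ≤
    K * (L * L * gq H ρ + L * L * (2 * Real.exp (-(R ^ 2 / (2 * H ^ 2)))) + e₁ * (B * B)) := by
  have hX0 : 0 ≤ X := by linarith
  have hK0 : 0 ≤ K := (sum_nonneg fun _ _ => norm_nonneg _).trans hK
  have hL2 : l1 g Y ≤ L := hBg.trans hBL
  have hL0 : 0 ≤ L := (l1_nonneg _ _).trans hL2
  have hB0 : 0 ≤ B := (l1_nonneg _ _).trans hBg
  have hNX : Y ≤ Y * X := le_mul_of_one_le_right (by linarith) hX
  set Xf := Y * X with hXfd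
  obtain ⟨hGint0, hGval0⟩ := expansion M C (fun m => (m:ℝ) * Ω) (zf f X) g Xf Y τ H hH
  set G : ℝ → ℂ := fun t => ((∑ m ∈ M, C m * ex (m * Ω) t) * Dp (zf f X) Xf (1 / 2 + t * Complex.I) *
      (starRingEnd ℂ) (Dp g Y (1 / 2 + t * Complex.I))) * (gw τ H t : ℂ) with hG
  have hGint : Integrable G := hGint0
  have hGval : ∫ t, G t = ∑ m ∈ M, C m * TT (zf f X) g Xf Y τ H (m * Ω) := by
    rw [hG]
    rw [hGval0]
    refine sum_congr rfl fun m _ => ?_
    unfold TT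
    rw [mul_sum]
    refine sum_congr rfl fun n _ => ?_
    rw [mul_sum]
    refine sum_congr rfl fun l _ => ?_
    ring
  have hLL : l1 (zf f X) Xf * l1 g Y ≤ L * L := mul_le_mul hL1 hL2 (l1_nonneg _ _) hL0
  -- main term
  have hmain : ‖(∫ t, G t) - C 0 * ((Sg f g X Y : ℝ) : ℂ)‖ ≤ K * (L * L * gq H ρ) := by
    have e1 : (∫ t, G t) - C 0 * ((Sg f g X Y : ℝ) : ℂ) =
        ∑ m ∈ M, C m * (TT (zf f X) g Xf Y τ H (m * Ω) -
          if m = 0 then ((Sg f g X Y : ℝ) : ℂ) else 0) := by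
      rw [hGval]
      simp only [mul_sub, sum_sub_distrib]
      congr 1
      simp only [mul_ite, mul_zero]
      rw [sum_ite_eq' M 0 (fun m => C m * ((Sg f g X Y : ℝ) : ℂ)), if_pos h0]
    rw [e1]
    have h1 : ∀ m ∈ M, ‖C m * (TT (zf f X) g Xf Y τ H (m * Ω) -
          if m = 0 then ((Sg f g X Y : ℝ) : ℂ) else 0)‖ ≤ ‖C m‖ * (L * L * gq H ρ) := by
      intro m hm
      rw [norm_mul]
      refine mul_le_mul_of_nonneg_left ?_ (norm_nonneg _)
      have hg := gq_nonneg H ρ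
      by_cases h : m = 0
      · rw [if_pos h, h]
        have h2 := zero_freq (zf f X) g Xf Y Z ρ τ H hY1 hNX hρ hρ1 hZ hρ2
        simp only [Int.cast_zero, zero_mul]
        refine le_trans (le_of_eq ?_) (h2.trans (mul_le_mul_of_nonneg_right hLL hg))
        rfl
      · rw [if_neg h, sub_zero]
        refine (TT_nonres _ _ _ _ τ H _ (hnr m hm h)).trans ?_
        have hg1 := gq_nonneg H 1
        have h3 : gq H 1 ≤ gq H ρ := gq_far H 1 ρ hρ (by rw [abs_one]; exact hρ1)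
        calc _ ≤ L * L * gq H 1 := mul_le_mul_of_nonneg_right hLL hg1
          _ ≤ _ := mul_le_mul_of_nonneg_left h3 (by positivity)
    refine (norm_sum_le_of_le _ h1).trans ?_
    rw [← sum_mul]
    have hg := gq_nonneg H ρ
    exact mul_le_mul_of_nonneg_right hK (by positivity)
  set I := Set.Ioc (τ - R) (τ + R) with hI
  have hImeas : MeasurableSet I := measurableSet_Ioc
  have hgwI := gw_integrable τ H hH
  have hCn : ∀ t : ℝ, ‖∑ m ∈ M, C m * ex (m * Ω) t‖ ≤ K := by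
    intro t
    refine (norm_sum_le _ _).trans (le_trans (sum_le_sum fun m _ => ?_) hK)
    rw [norm_mul, ex_norm, mul_one]
  -- outside
  have hout : ‖∫ t in Iᶜ, G t‖ ≤ K * (L * L * (2 * Real.exp (-(R ^ 2 / (2 * H ^ 2))))) := by
    calc ‖∫ t in Iᶜ, G t‖ ≤ ∫ t in Iᶜ, ‖G t‖ := norm_integral_le_integral_norm _
      _ ≤ ∫ t in Iᶜ, K * (L * L) * gw τ H t := by
          refine setIntegral_mono_on hGint.norm.integrableOn (hgwI.const_mul _).integrableOn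
            hImeas.compl fun t _ => ?_
          rw [hG]
          simp only
          have hg := gw_nonneg τ H t hH
          rw [norm_mul, norm_mul, norm_mul, RCLike.norm_conj, Complex.norm_real,
            Real.norm_of_nonneg hg]
          have a1 := hCn t
          have a2 : ‖Dp (zf f X) Xf (1 / 2 + t * Complex.I)‖ ≤ L := (Dp_line_norm _ _ _).trans hL1
          have a3 : ‖Dp g Y (1 / 2 + t * Complex.I)‖ ≤ L := (Dp_line_norm _ _ _).trans hL2
          calc _ ≤ K * L * L * gw τ H t := by gcongr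
            _ = _ := by ring
      _ = K * (L * L) * ∫ t in Iᶜ, gw τ H t := integral_const_mul _ _
      _ ≤ K * (L * L) * (2 * Real.exp (-(R ^ 2 / (2 * H ^ 2)))) := by
          gcongr
          exact gw_tail τ H R hH hR
      _ = _ := by ring
  -- replacement
  set G' : ℝ → ℂ := fun t => ((∑ m ∈ M, C m * ex (m * Ω) t) *
        (zl t * FL f Y t * (starRingEnd ℂ) (FL g Y t))) * (gw τ H t : ℂ) with hG'
  have hG'c : Continuous G' := by
    rw [hG']
    have c1 := FL_cont f Y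
    have c4 := zl_cont
    have c5 : Continuous fun t : ℝ => (starRingEnd ℂ) (FL g Y t) :=
      Complex.continuous_conj.comp (FL_cont g Y)
    have c6 : Continuous fun t : ℝ => ∑ m ∈ M, C m * ex (m * Ω) t :=
      continuous_finsetSum _ fun m _ => (ex_cont _).const_mul _ |>.congr fun _ => rfl
    have c7 : Continuous fun t : ℝ => (gw τ H t : ℂ) := Complex.continuous_ofReal.comp (gw_continuous τ H)
    fun_prop
  have hG'I : IntegrableOn G' I := (hG'c.integrableOn_Icc (a := τ - R) (b := τ + R)).mono_set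
    Set.Ioc_subset_Icc_self
  have happx : ‖(∫ t in I, G' t) - ∫ t in I, G t‖ ≤ K * (e₁ * (B * B)) := by
    rw [← integral_sub hG'I hGint.integrableOn]
    calc ‖∫ t in I, (G' t - G t)‖ ≤ ∫ t in I, ‖G' t - G t‖ := norm_integral_le_integral_norm _
      _ ≤ ∫ t in I, K * (e₁ * (B * B)) * gw τ H t := by
          refine setIntegral_mono_on (hG'I.sub hGint.integrableOn).norm
            (hgwI.const_mul _).integrableOn hImeas fun t ht => ?_
          have e1 : G' t - G t = ((∑ m ∈ M, C m * ex (m * Ω) t) *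
              ((zl t - zX X t) * FL f Y t * (starRingEnd ℂ) (FL g Y t))) * (gw τ H t : ℂ) := by
            rw [hG, hG']
            simp only
            rw [hXfd, zf_Dp f X Y (by linarith) hX0 hfs]
            unfold FL
            ring
          have hg := gw_nonneg τ H t hH
          rw [e1, norm_mul, norm_mul, norm_mul, norm_mul, RCLike.norm_conj,
            Complex.norm_real, Real.norm_of_nonneg hg]
          have b1 := happ t ht
          have a1 := hCn t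
          have a3 := (FL_norm f Y t).trans hBf
          have a4 := (FL_norm g Y t).trans hBg
          calc _ ≤ K * (e₁ * B * B) * gw τ H t := by gcongr
            _ = _ := by ring
      _ ≤ ∫ t, K * (e₁ * (B * B)) * gw τ H t := by
          refine setIntegral_le_integral (hgwI.const_mul _) (Eventually.of_forall fun t => ?_)
          have := gw_nonneg τ H t hH
          simp only [Pi.zero_apply]
          positivity
      _ = K * (e₁ * (B * B)) := by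
          rw [integral_const_mul, gw_integral τ H hH, mul_one]
  have hsplit := integral_add_compl hImeas hGint
  have e2 : (∫ t in I, G' t) - C 0 * ((Sg f g X Y : ℝ) : ℂ) =
      ((∫ t in I, G' t) - ∫ t in I, G t) + ((∫ t, G t) - C 0 * ((Sg f g X Y : ℝ) : ℂ)) -
        ∫ t in Iᶜ, G t := by
    rw [← hsplit]; ring
  rw [e2]
  refine (norm_sub_le _ _).trans ?_
  have h5 := norm_add_le ((∫ t in I, G' t) - ∫ t in I, G t) ((∫ t, G t) - C 0 * ((Sg f g X Y : ℝ) : ℂ))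
  linarith

theorem LWg (f g : ArithmeticFunction ℝ) (D : ℕ) (hD : 1 ≤ D) {δ : ℝ} (hδ : 0 ≤ δ) (hδ1 : δ ≤ 1)
    (X Y Z ρ τ H R e₁ e₂ Ω L B ψ : ℝ) (v : ℂ) (hv : ‖v‖ = 1) (hX : 1 ≤ X) (hY1 : 1 ≤ Y)
    (hfs : ∀ n : ℕ, Y < n → f n = 0) (hgs : ∀ n : ℕ, Y < n → g n = 0) (hρ : 0 ≤ ρ) (hρ1 : ρ ≤ 1)
    (hZ : Y * Real.exp 1 ≤ Z)
    (hρ2 : ρ ≤ 1 / Z) (hH : 0 < H) (hR : 0 ≤ R) (he₁ : 0 ≤ e₁) (he₂ : 0 ≤ e₂)
    (hL1 : l1 (zf f X) (Y * X) ≤ L) (hL2 : l1 (zf g X) (Y * X) ≤ L) (hBf : l1 f Y ≤ B) (hBg : l1 g Y ≤ B)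
    (hBL : B ≤ L)
    (happ : ∀ t ∈ Set.Ioc (τ - R) (τ + R), ‖zl t - zX X t‖ ≤ e₁)
    (hnr : ∀ m : ℤ, m ≠ 0 → m ≠ 1 → ∀ n l : ℕ, 1 ≤ n → (n:ℝ) ≤ Y * X → 1 ≤ l → (l:ℝ) ≤ Y →
      1 ≤ |m * Ω - Real.log n + Real.log l|)
    (hph : ∀ t ∈ Set.Ioc (τ - R) (τ + R), ‖Complex.exp ((ψ : ℂ) * Complex.I) * ex Ω t * zl t -
      v * (starRingEnd ℂ) (zl t)‖ ≤ e₂) :
    ‖(∫ t in Set.Ioc (τ - R) (τ + R), ((Wk D δ Ω ψ t : ℝ) : ℂ) *
        (zl t * FL f Y t * (starRingEnd ℂ) (FL g Y t)) * (gw τ H t : ℂ)) -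
      ((cD D δ 0 : ℂ) * ((Sg f g X Y : ℝ) : ℂ) + (cD D δ 1 : ℂ) * v * ((Sg g f X Y : ℝ) : ℂ))‖ ≤
    (Lam + 1) * (L * L * gq H ρ + L * L * (2 * Real.exp (-(R ^ 2 / (2 * H ^ 2)))) + e₁ * (B * B)) +
      e₂ * (B * B) := by
  set I := Set.Ioc (τ - R) (τ + R) with hI
  have hImeas : MeasurableSet I := measurableSet_Ioc
  have hgwI := gw_integrable τ H hH
  set E := L * L * gq H ρ + L * L * (2 * Real.exp (-(R ^ 2 / (2 * H ^ 2)))) + e₁ * (B * B) with hE
  set M := (Icc (-(D:ℤ)) D).erase 1 with hM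
  have h1mem : (1:ℤ) ∈ Icc (-(D:ℤ)) D := by rw [mem_Icc]; constructor <;> omega
  have h0mem : (0:ℤ) ∈ M := by
    rw [hM, mem_erase, mem_Icc]
    refine ⟨by norm_num, by omega, by omega⟩
  have hsum : ∑ m ∈ M, ‖CW D δ ψ m‖ ≤ Lam := by
    refine le_trans (sum_le_sum fun m _ => ?_) (sum_lam_le M)
    rw [CW_norm]; exact cD_le D δ hδ hδ1 m
  have j1 := LJg f g M h0mem (CW D δ ψ) Lam hsum X Y Z ρ τ H R e₁ Ω L B hX hY1 hfs hρ hρ1 hZ hρ2 hH hR he₁
    hL1 hBf hBg hBL happ (fun m hm hm0 => hnr m hm0 (by rw [hM, mem_erase] at hm; exact hm.1))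
  have j2 := LJg g f {0} (mem_singleton_self _) (fun _ => (1:ℂ)) 1 (by simp) X Y Z ρ τ H R e₁ Ω L B hX hY1
    hgs hρ hρ1 hZ hρ2 hH hR he₁ hL2 hBg hBf hBL happ (fun m hm hm0 => by
      rw [mem_singleton] at hm; exact absurd hm hm0)
  have c1 := FL_cont f Y
  have c2 := FL_cont g Y
  have c4 := zl_cont
  have c5 : Continuous fun t : ℝ => (starRingEnd ℂ) (FL g Y t) := Complex.continuous_conj.comp c2
  have c7 : Continuous fun t : ℝ => (gw τ H t : ℂ) := Complex.continuous_ofReal.comp (gw_continuous τ H)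
  have c8 : Continuous fun t : ℝ => (starRingEnd ℂ) (zl t) := Complex.continuous_conj.comp c4
  have hcI : ∀ F : ℝ → ℂ, Continuous F → IntegrableOn F I := fun F hF =>
    (hF.integrableOn_Icc (a := τ - R) (b := τ + R)).mono_set Set.Ioc_subset_Icc_self
  -- the two pieces
  set F1 : ℝ → ℂ := fun t => ((∑ m ∈ M, CW D δ ψ m * ex (m * Ω) t) *
        (zl t * FL f Y t * (starRingEnd ℂ) (FL g Y t))) * (gw τ H t : ℂ) with hF1
  set F2 : ℝ → ℂ := fun t => (cD D δ 1 : ℂ) * ((Complex.exp ((ψ : ℂ) * Complex.I) * ex Ω t * zl t) *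
        (FL f Y t * (starRingEnd ℂ) (FL g Y t)) * (gw τ H t : ℂ)) with hF2
  set F3 : ℝ → ℂ := fun t => (cD D δ 1 : ℂ) * ((v * (starRingEnd ℂ) (zl t)) *
        (FL f Y t * (starRingEnd ℂ) (FL g Y t)) * (gw τ H t : ℂ)) with hF3
  have cF1 : Continuous F1 := by
    rw [hF1]
    have c6 : Continuous fun t : ℝ => ∑ m ∈ M, CW D δ ψ m * ex (m * Ω) t :=
      continuous_finsetSum _ fun m _ => (ex_cont _).const_mul _ |>.congr fun _ => rfl
    fun_prop
  have cF2 : Continuous F2 := by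
    rw [hF2]
    have c6 := ex_cont Ω
    fun_prop
  have cF3 : Continuous F3 := by
    rw [hF3]
    fun_prop
  have hdec : ∀ t : ℝ, ((Wk D δ Ω ψ t : ℝ) : ℂ) *
        (zl t * FL f Y t * (starRingEnd ℂ) (FL g Y t)) * (gw τ H t : ℂ) = F1 t + F2 t := by
    intro t
    rw [Wk_eq, ← add_sum_erase _ _ h1mem, ← hM, hF1, hF2]
    simp only
    have e1 : CW D δ ψ 1 = (cD D δ 1 : ℂ) * Complex.exp ((ψ : ℂ) * Complex.I) := by
      unfold CW; simp
    rw [e1]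
    simp only [Int.cast_one, one_mul]
    ring
  simp only [hdec]
  rw [integral_add (hcI F1 cF1) (hcI F2 cF2)]
  -- third piece
  have hF3v : ∫ t in I, F3 t = (cD D δ 1 : ℂ) * v * (starRingEnd ℂ) (∫ t in I,
      ((∑ m ∈ ({0} : Finset ℤ), (1:ℂ) * ex (m * Ω) t) *
        (zl t * FL g Y t * (starRingEnd ℂ) (FL f Y t))) * (gw τ H t : ℂ)) := by
    rw [← integral_conj, ← integral_const_mul]
    refine integral_congr_ae (Eventually.of_forall fun t => ?_)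
    rw [hF3]
    simp only [sum_singleton, Int.cast_zero, zero_mul, one_mul, map_mul, Complex.conj_conj,
      Complex.conj_ofReal, map_pow]
    have e0 : (starRingEnd ℂ) (ex 0 t) = 1 := by unfold ex; simp
    rw [e0]
    ring
  have hcD1 : 0 ≤ cD D δ 1 := cD_nonneg _ _ _
  have hB00 : 0 ≤ B := (l1_nonneg _ _).trans hBf
  have hcD1' : cD D δ 1 ≤ 1 := by
    have := cD_le D δ hδ hδ1 1
    unfold lam at this
    simpa using this
  have hE0 : 0 ≤ E := by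
    have := gq_nonneg H ρ
    have hL0 : 0 ≤ L := (l1_nonneg _ _).trans hL2
    have hB0 : 0 ≤ B := (l1_nonneg _ _).trans hBf
    positivity
  have h3 : ‖(∫ t in I, F3 t) - (cD D δ 1 : ℂ) * v * ((Sg g f X Y : ℝ) : ℂ)‖ ≤ E := by
    rw [hF3v, ← mul_sub]
    have e1 : (starRingEnd ℂ) (∫ t in I,
      ((∑ m ∈ ({0} : Finset ℤ), (1:ℂ) * ex (m * Ω) t) *
        (zl t * FL g Y t * (starRingEnd ℂ) (FL f Y t))) * (gw τ H t : ℂ)) - ((Sg g f X Y : ℝ) : ℂ) =
        (starRingEnd ℂ) ((∫ t in I, ((∑ m ∈ ({0} : Finset ℤ), (1:ℂ) * ex (m * Ω) t) *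
        (zl t * FL g Y t * (starRingEnd ℂ) (FL f Y t))) * (gw τ H t : ℂ)) - 1 * ((Sg g f X Y : ℝ) : ℂ)) := by
      rw [map_sub, one_mul, Complex.conj_ofReal]
    rw [e1, norm_mul, norm_mul, hv, mul_one, Complex.norm_real, Real.norm_of_nonneg hcD1, RCLike.norm_conj]
    have j3 : ‖(∫ t in I, ((∑ m ∈ ({0} : Finset ℤ), (1:ℂ) * ex (m * Ω) t) *
        (zl t * FL g Y t * (starRingEnd ℂ) (FL f Y t))) * (gw τ H t : ℂ)) -
          1 * ((Sg g f X Y : ℝ) : ℂ)‖ ≤ E := by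
      refine j2.trans (le_of_eq ?_)
      rw [one_mul, hE]
    calc _ ≤ 1 * E := mul_le_mul hcD1' j3 (norm_nonneg _) zero_le_one
      _ = E := one_mul E
  have h4 : ‖(∫ t in I, F2 t) - ∫ t in I, F3 t‖ ≤ e₂ * (B * B) := by
    rw [← integral_sub (hcI F2 cF2) (hcI F3 cF3)]
    calc ‖∫ t in I, (F2 t - F3 t)‖ ≤ ∫ t in I, ‖F2 t - F3 t‖ := norm_integral_le_integral_norm _
      _ ≤ ∫ t in I, e₂ * (B * B) * gw τ H t := by
          refine setIntegral_mono_on ((hcI F2 cF2).sub (hcI F3 cF3)).norm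
            (hgwI.const_mul _).integrableOn hImeas fun t ht => ?_
          have e1 : F2 t - F3 t = (cD D δ 1 : ℂ) * ((Complex.exp ((ψ : ℂ) * Complex.I) * ex Ω t * zl t -
              v * (starRingEnd ℂ) (zl t)) * (FL f Y t * (starRingEnd ℂ) (FL g Y t)) *
              (gw τ H t : ℂ)) := by
            rw [hF2, hF3]
            simp only
            ring
          have hg := gw_nonneg τ H t hH
          rw [e1, norm_mul, norm_mul, norm_mul, norm_mul, RCLike.norm_conj,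
            Complex.norm_real, Complex.norm_real, Real.norm_of_nonneg hg, Real.norm_of_nonneg hcD1]
          have b1 := hph t ht
          have a3 := (FL_norm f Y t).trans hBf
          have a4 := (FL_norm g Y t).trans hBg
          have hB0 : 0 ≤ B := (l1_nonneg _ _).trans hBf
          calc _ ≤ 1 * (e₂ * (B * B) * gw τ H t) := by gcongr
            _ = _ := by ring
      _ ≤ ∫ t, e₂ * (B * B) * gw τ H t := by
          refine setIntegral_le_integral (hgwI.const_mul _) (Eventually.of_forall fun t => ?_)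
          have := gw_nonneg τ H t hH
          simp only [Pi.zero_apply]
          positivity
      _ = e₂ * (B * B) := by
          rw [integral_const_mul, gw_integral τ H hH, mul_one]
  have e0 : CW D δ ψ 0 = (cD D δ 0 : ℂ) := by unfold CW; simp
  rw [e0] at j1
  have j1' : ‖(∫ t in I, F1 t) - (cD D δ 0 : ℂ) * ((Sg f g X Y : ℝ) : ℂ)‖ ≤ Lam * E := j1
  have e2 : ((∫ t in I, F1 t) + ∫ t in I, F2 t) -
      ((cD D δ 0 : ℂ) * ((Sg f g X Y : ℝ) : ℂ) + (cD D δ 1 : ℂ) * v * ((Sg g f X Y : ℝ) : ℂ)) =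
      ((∫ t in I, F1 t) - (cD D δ 0 : ℂ) * ((Sg f g X Y : ℝ) : ℂ)) +
      (((∫ t in I, F2 t) - ∫ t in I, F3 t) + ((∫ t in I, F3 t) - (cD D δ 1 : ℂ) * v * ((Sg g f X Y : ℝ) : ℂ))) := by
    ring
  rw [e2]
  refine (norm_add_le _ _).trans ?_
  have := norm_add_le ((∫ t in I, F2 t) - ∫ t in I, F3 t)
    ((∫ t in I, F3 t) - (cD D δ 1 : ℂ) * v * ((Sg g f X Y : ℝ) : ℂ))
  linarith

theorem sqg (f : ArithmeticFunction ℝ) (Y Z ρ τ H B : ℝ) (hY1 : 1 ≤ Y) (hH : 0 < H) (hρ : 0 ≤ ρ) (hρ1 : ρ ≤ 1)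
    (hZ : Y * Real.exp 1 ≤ Z) (hρ2 : ρ ≤ 1 / Z) (hB : l1 f Y ≤ B) :
    Integrable (fun t : ℝ => ‖FL f Y t‖ ^ 2 * gw τ H t) ∧
    ∫ t : ℝ, ‖FL f Y t‖ ^ 2 * gw τ H t ≤ (∑ n ∈ Icc 1 ⌊Y⌋₊, f n * f n / n) + B * B * gq H ρ := by
  obtain ⟨h1, h2⟩ := expansion ({0} : Finset ℤ) (fun _ => (1:ℂ)) (fun _ => (0:ℝ)) f f Y Y τ H hH
  have e1 : ∀ t : ℝ, ((∑ i ∈ ({0} : Finset ℤ), (1:ℂ) * ex 0 t) * Dp f Y (1 / 2 + t * Complex.I) *
      (starRingEnd ℂ) (Dp f Y (1 / 2 + t * Complex.I))) * (gw τ H t : ℂ) =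
      ((‖FL f Y t‖ ^ 2 * gw τ H t : ℝ) : ℂ) := by
    intro t
    have e0 : ex 0 t = 1 := by unfold ex; simp
    rw [sum_singleton, e0, one_mul, one_mul, Complex.mul_conj, Complex.normSq_eq_norm_sq]
    unfold FL
    push_cast
    rfl
  simp only [e1] at h1 h2
  have hint : Integrable (fun t : ℝ => ‖FL f Y t‖ ^ 2 * gw τ H t) := by
    refine h1.re.congr (Eventually.of_forall fun t => ?_)
    exact Complex.ofReal_re _
  refine ⟨hint, ?_⟩
  have h3 : ∑ i ∈ ({0} : Finset ℤ), ∑ n ∈ Icc 1 ⌊Y⌋₊, ∑ l ∈ Icc 1 ⌊Y⌋₊,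
      ((1:ℂ) * ((f n * (Real.sqrt n)⁻¹ : ℝ) : ℂ) * ((f l * (Real.sqrt l)⁻¹ : ℝ) : ℂ)) *
        (ex (0 - Real.log n + Real.log l) τ * (gq H (0 - Real.log n + Real.log l) : ℝ)) =
      TT f f Y Y τ H 0 := by
    rw [sum_singleton]
    unfold TT
    simp only [one_mul]
  rw [h3, integral_complex_ofReal] at h2
  have h4 := zero_freq f f Y Y Z ρ τ H hY1 le_rfl hρ hρ1 hZ hρ2
  rw [← h2, ← Complex.ofReal_sub, Complex.norm_real, Real.norm_eq_abs] at h4
  have h5 := (abs_le.mp h4).2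
  have hL0 : 0 ≤ B := (l1_nonneg _ _).trans hB
  have h6 : l1 f Y * l1 f Y * gq H ρ ≤ B * B * gq H ρ := by
    have := gq_nonneg H ρ
    have := l1_nonneg f Y
    gcongr
  linarith

end

end Pool.Agent.R311.SE
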