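import Pool.Agent.R311.SE.R3
import Pool.Agent.R311.SE.V1

set_option autoImplicit false

/-! The core inequality over the discrete points of one window, arbitrary polynomials. -/

namespace Pool.Agent.R311.SE

open Finset MeasureTheory Filter Topology
open Pool.Agent.H306R2
open Pool.Agent.R311.BS (ex ex_norm ex_add ex_cont gq gq_nonneg gq_le_one gq_far Lam Lam_ge_one zX l1
  l1_nonneg expansion Dp_line_norm inv_sqrt_le_one TT zero_freq young)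
open Pool.Agent.R311.AP (Dl dt mass_le gwk_summable bdd_summable Kw mem_Kw outside_bound sum_Kw_le)

noncomputable section

theorem sq_discg (f : ArithmeticFunction ℝ) (Y Z ρ τ H L α β : ℝ) (hY1 : 1 ≤ Y) (hα : 0 < α) (hH : 0 < H)
    (h2 : 2 ≤ 2 * Real.pi / α) (hy : 1 ≤ H ^ 2 * (2 * Real.pi / α) ^ 2 / 16) (hρ : 0 ≤ ρ) (hρ1 : ρ ≤ 1)
    (hZ : Y * Real.exp 1 ≤ Z) (hρ2 : ρ ≤ 1 / Z) (hL : l1 f Y ≤ L)
    (hnr : ∀ m : ℤ, m ≠ 0 → m ≠ 1 → ∀ n l : ℕ, 1 ≤ n → (n:ℝ) ≤ Y → 1 ≤ l → (l:ℝ) ≤ Y →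
      1 ≤ |m * (2 * Real.pi / α) - Real.log n + Real.log l|)
    (hnr1 : ∀ n l : ℕ, 1 ≤ n → (n:ℝ) ≤ Y → 1 ≤ l → (l:ℝ) ≤ Y →
      1 ≤ |2 * Real.pi / α - Real.log n + Real.log l|) :
    Summable (fun k : ℤ => ‖FL f Y (α * k + β)‖ ^ 2 * gw τ H (α * k + β)) ∧
    α * ∑' k : ℤ, ‖FL f Y (α * k + β)‖ ^ 2 * gw τ H (α * k + β) ≤
      (∑ n ∈ Icc 1 ⌊Y⌋₊, f n * f n / n) + (Lam + 5) * (L * L * gq H ρ) := by
  have hLam := Lam_ge_one
  have hL0 : 0 ≤ L := (l1_nonneg _ _).trans hL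
  have hgq1 : gq H 1 ≤ gq H ρ := gq_far H 1 ρ hρ (by rw [abs_one]; exact hρ1)
  have hg0 := gq_nonneg H ρ
  have hLL : l1 f Y * l1 f Y ≤ L * L := mul_le_mul hL hL (l1_nonneg _ _) hL0
  set h := 2 * Real.pi / α with hh
  have hsum : Summable (fun k : ℤ => ‖FL f Y (α * k + β)‖ ^ 2 * gw τ H (α * k + β)) := by
    have h1 := bdd_summable α β τ H hα hH (fun k : ℤ => ((‖FL f Y (α * k + β)‖ ^ 2 : ℝ) : ℂ)) (L ^ 2)
      (fun k => by
        rw [Complex.norm_real, Real.norm_of_nonneg (by positivity)]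
        exact pow_le_pow_left₀ (norm_nonneg _) ((FL_norm f Y _).trans hL) _)
    have h3 := Complex.reCLM.summable h1
    refine h3.congr fun k => ?_
    simp only [Complex.reCLM_apply]
    rw [← Complex.ofReal_mul, Complex.ofReal_re]
  refine ⟨hsum, ?_⟩
  have hdc := disc_cont α β τ H hα hH h2 hy f f Y Y hnr
  rw [← hh] at hdc
  have hval : ∫ t : ℝ, ((∑ m ∈ ({0, 1} : Finset ℤ), ex 1 (-(m * (h * β))) * ex (m * h) t) *
        Dp f Y (1 / 2 + t * Complex.I) *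
        (starRingEnd ℂ) (Dp f Y (1 / 2 + t * Complex.I))) * (gw τ H t : ℂ) =
      ∑ m ∈ ({0, 1} : Finset ℤ), ex 1 (-(m * (h * β))) * TT f f Y Y τ H (m * h) := by
    rw [(expansion ({0, 1} : Finset ℤ) (fun m : ℤ => ex 1 (-(m * (h * β)))) (fun m : ℤ => (m:ℝ) * h)
      f f Y Y τ H hH).2]
    refine sum_congr rfl fun m _ => ?_
    unfold TT
    rw [mul_sum]
    refine sum_congr rfl fun n _ => ?_
    rw [mul_sum]
    refine sum_congr rfl fun l _ => ?_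
    ring
  rw [hval, sum_pair (by norm_num)] at hdc
  have e0 : ex 1 (-(((0:ℤ):ℝ) * (h * β))) = 1 := by unfold ex; simp
  rw [e0, one_mul, Int.cast_zero, zero_mul, Int.cast_one, one_mul, one_mul] at hdc
  have hT1 : ‖TT f f Y Y τ H h‖ ≤ L * L * gq H ρ := by
    refine (TT_nonres _ _ _ _ τ H h (fun n l h1 h3 h4 h5 => hnr1 n l h1 h3 h4 h5)).trans ?_
    have := gq_nonneg H 1
    gcongr
  have h4 := zero_freq f f Y Y Z ρ τ H hY1 le_rfl hρ hρ1 hZ hρ2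
  have h70 : 0 ≤ ∑ n ∈ Icc 1 ⌊Y⌋₊, f n * f n / (n:ℝ) := by
    refine sum_nonneg fun n _ => ?_
    exact div_nonneg (mul_self_nonneg _) (Nat.cast_nonneg _)
  have hT0 : ‖TT f f Y Y τ H 0‖ ≤
      (∑ n ∈ Icc 1 ⌊Y⌋₊, f n * f n / n) + L * L * gq H ρ := by
    have k1 := norm_sub_norm_le (TT f f Y Y τ H 0)
      (((∑ n ∈ Icc 1 ⌊Y⌋₊, f n * f n / n : ℝ) : ℂ))
    rw [Complex.norm_real, Real.norm_of_nonneg h70] at k1
    have k2 : l1 f Y * l1 f Y * gq H ρ ≤ L * L * gq H ρ := by gcongr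
    linarith
  have hE : l1 f Y * l1 f Y * ((Lam + 3) * gq H 1) ≤ (Lam + 3) * (L * L * gq H ρ) := by
    have := gq_nonneg H 1
    calc _ ≤ L * L * ((Lam + 3) * gq H ρ) := by gcongr
      _ = _ := by ring
  have e1 : (α : ℂ) * ∑' k : ℤ, (Dp f Y (1 / 2 + ((α * k + β : ℝ) : ℂ) * Complex.I) *
      (starRingEnd ℂ) (Dp f Y (1 / 2 + ((α * k + β : ℝ) : ℂ) * Complex.I))) * (gw τ H (α * k + β) : ℂ) =
      ((α * ∑' k : ℤ, ‖FL f Y (α * k + β)‖ ^ 2 * gw τ H (α * k + β) : ℝ) : ℂ) := by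
    push_cast
    congr 1
    refine tsum_congr fun k => ?_
    rw [Complex.mul_conj, Complex.normSq_eq_norm_sq]
    unfold FL
    push_cast
    ring
  rw [e1] at hdc
  obtain ⟨V, hV⟩ : ∃ V : ℝ, V = α * ∑' k : ℤ, ‖FL f Y (α * k + β)‖ ^ 2 * gw τ H (α * k + β) := ⟨_, rfl⟩
  rw [← hV] at hdc ⊢
  have h9 := norm_sub_norm_le ((V : ℝ) : ℂ) (TT f f Y Y τ H 0 +
    ex 1 (-(h * β)) * TT f f Y Y τ H h)
  have h10 := norm_add_le (TT f f Y Y τ H 0)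
    (ex 1 (-(h * β)) * TT f f Y Y τ H h)
  rw [norm_mul, ex_norm, one_mul] at h10
  have h11 : V ≤ ‖((V : ℝ) : ℂ)‖ := by rw [Complex.norm_real]; exact Real.le_norm_self V
  linarith

theorem coreDg (f g h : ArithmeticFunction ℝ)
    (X Y Z ρ τ H R e₁ e₂ L B α β κ₀ κ₁ : ℝ) (u : ℂ) (hu : ‖u‖ = 1) (hX1 : 1 ≤ X) (hY1 : 1 ≤ Y)
    (hρ : 0 ≤ ρ) (hρ1 : ρ ≤ 1)
    (hZ : Y * Real.exp 1 ≤ Z) (hρ2 : ρ ≤ 1 / Z) (hH : 0 < H) (hR : 0 < R) (he₁ : 0 ≤ e₁) (he₂ : 0 ≤ e₂)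
    (hfs : ∀ n : ℕ, Y < n → f n = 0) (hgs : ∀ n : ℕ, Y < n → g n = 0) (hhs : ∀ n : ℕ, Y < n → h n = 0)
    (hLf : l1 (zf f X) (Y * X) ≤ L) (hLg : l1 (zf g X) (Y * X) ≤ L) (hLh : l1 (zf h X) (Y * X) ≤ L)
    (hBf : l1 f Y ≤ B) (hBg : l1 g Y ≤ B) (hBh : l1 h Y ≤ B) (hBL : B ≤ L)
    (hfg : ∀ t : ℝ, ‖FL f Y t‖ * ‖FL g Y t‖ = ‖FL h Y t‖ ^ 2)
    (hSfg : 0 ≤ Sg f g X Y) (hSgf : 0 ≤ Sg g f X Y) (hShh : 0 ≤ Sg h h X Y) (hκ₁ : 0 ≤ κ₁) (hκ1 : κ₁ ≤ 1 / 2) (hκ : κ₀ < 1 - κ₁)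
    (hα : 0 < α) (h2 : 2 ≤ 2 * Real.pi / α) (hy : 1 ≤ H ^ 2 * (2 * Real.pi / α) ^ 2 / 16)
    (hy2 : Lam * Real.exp (-(H ^ 2 * (2 * Real.pi / α) ^ 2 / 16)) ≤ 1)
    (happ : ∀ t ∈ Set.Ioc (τ - R) (τ + R), ‖zl t - zX X t‖ ≤ e₁)
    (hnr : ∀ m : ℤ, m ≠ 0 → m ≠ 1 → ∀ n l : ℕ, 1 ≤ n → (n:ℝ) ≤ Y * X → 1 ≤ l → (l:ℝ) ≤ Y →
      1 ≤ |m * (2 * Real.pi / α) - Real.log n + Real.log l|)
    (hph : ∀ t ∈ Set.Ioc (τ - R) (τ + R), ‖ex 1 (-(2 * Real.pi / α * β)) * ex (2 * Real.pi / α) t * zl t -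
      u ^ 2 * (starRingEnd ℂ) (zl t)‖ ≤ e₂)
    (hB : ∀ k ∈ Kw α β τ R, |((starRingEnd ℂ) u * zl (α * k + β)).im| ≤ κ₁ * ‖zl (α * k + β)‖) :
    1 / 2 * (Sg f g X Y - Sg g f X Y -
        (3 * ((Lam + 1) * (L * L * gq H ρ + L * L * (2 * Real.exp (-(R ^ 2 / (2 * H ^ 2)))) +
          e₁ * (B * B))) + e₂ * (B * B))) - 2 * Sg h h X Y -
        (3 * ((Lam + 1) * (L * L * gq H ρ + L * L * (2 * Real.exp (-(R ^ 2 / (2 * H ^ 2)))) +
          e₁ * (B * B))) + e₂ * (B * B)) ≤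
      2 * (α * ∑ k ∈ Kw α β τ R, (SS u κ₀).indicator (fun t => ‖zl t‖ * ‖FL h Y t‖ ^ 2 * gw τ H t) (α * k + β)) := by
  have hLam := Lam_ge_one
  obtain ⟨Er, hEr⟩ : ∃ Er : ℝ, Er = 3 * ((Lam + 1) * (L * L * gq H ρ +
    L * L * (2 * Real.exp (-(R ^ 2 / (2 * H ^ 2)))) + e₁ * (B * B))) + e₂ * (B * B) := ⟨_, rfl⟩
  have hlw1 := LDg f g X Y Z ρ τ H R e₁ e₂ L B α β (u ^ 2) (by rw [norm_pow, hu, one_pow]) hX1 hY1
    hfs hgs hρ hρ1 hZ hρ2 hH hR.le he₁ he₂ hα h2 hy hy2 hLf hLg hBf hBg hBL happ hnr hph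
  have hlw2 := LDg h h X Y Z ρ τ H R e₁ e₂ L B α β (u ^ 2) (by rw [norm_pow, hu, one_pow]) hX1 hY1
    hhs hhs hρ hρ1 hZ hρ2 hH hR.le he₁ he₂ hα h2 hy hy2 hLh hLh hBh hBh hBL happ hnr hph
  rw [← hEr] at hlw1 hlw2
  set K := Kw α β τ R with hK
  set FM : ℝ → ℝ := fun t => ‖zl t‖ * ‖FL h Y t‖ ^ 2 * gw τ H t with hFM
  set FR : ℝ → ℝ := fun t => ((starRingEnd ℂ) u * zl t).re * ‖FL h Y t‖ ^ 2 * gw τ H t with hFR
  have hFM0 : ∀ t, 0 ≤ FM t := by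
    intro t
    have a2 := gw_nonneg τ H t hH
    rw [hFM]; simp only
    positivity
  obtain ⟨MW, hMW⟩ : ∃ MW : ℝ, MW = α * ∑ k ∈ K, FM (α * k + β) := ⟨_, rfl⟩
  have hMW0 : 0 ≤ MW := by
    rw [hMW]; exact mul_nonneg hα.le (sum_nonneg fun k _ => hFM0 _)
  have hMW1 : Sg f g X Y - Sg g f X Y - Er ≤ MW := by
    have h1 := hlw1
    set J := (α : ℂ) * (∑ k ∈ K, (zl (α * k + β) * FL f Y (α * k + β) *
        (starRingEnd ℂ) (FL g Y (α * k + β))) * (gw τ H (α * k + β) : ℂ)) with hJ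
    have h3 : ‖J‖ ≤ MW := by
      rw [hJ, norm_mul, Complex.norm_real, Real.norm_of_nonneg hα.le, hMW]
      refine mul_le_mul_of_nonneg_left (norm_sum_le_of_le _ fun k _ => ?_) hα.le
      set t := α * (k:ℝ) + β with ht
      have a2 := gw_nonneg τ H t hH
      rw [norm_mul, norm_mul, norm_mul, RCLike.norm_conj,
        Complex.norm_real, Real.norm_of_nonneg a2, hFM]
      simp only
      rw [← hfg t]
      exact le_of_eq (by ring)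
    have h4 := norm_sub_norm_le (((Sg f g X Y : ℝ) : ℂ)) (-(u ^ 2 * ((Sg g f X Y : ℝ) : ℂ)))
    rw [sub_neg_eq_add, norm_neg, norm_mul, norm_pow, hu, one_pow, one_mul,
        Complex.norm_real, Complex.norm_real,
        Real.norm_of_nonneg (hSfg), Real.norm_of_nonneg (hSgf)] at h4
    have h6 := norm_sub_norm_le (((Sg f g X Y : ℝ) : ℂ) + u ^ 2 * ((Sg g f X Y : ℝ) : ℂ)) J
    rw [norm_sub_rev] at h6
    linarith
  have hFR1 : -(2 * Sg h h X Y + Er) ≤ α * ∑ k ∈ K, FR (α * k + β) := by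
    have h1 := hlw2
    set J := (α : ℂ) * (∑ k ∈ K, (zl (α * k + β) * FL h Y (α * k + β) *
        (starRingEnd ℂ) (FL h Y (α * k + β))) * (gw τ H (α * k + β) : ℂ)) with hJ
    have h3 : α * ∑ k ∈ K, FR (α * k + β) = ((starRingEnd ℂ) u * J).re := by
      have e3 : (starRingEnd ℂ) u * J = (α : ℂ) * ∑ k ∈ K, ((‖FL h Y (α * k + β)‖ ^ 2 * gw τ H (α * k + β) : ℝ) : ℂ) *
          ((starRingEnd ℂ) u * zl (α * k + β)) := by
        rw [hJ, mul_left_comm, mul_sum]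
        congr 1
        refine sum_congr rfl fun k _ => ?_
        set t := α * (k:ℝ) + β with ht
        have e2 : FL h Y t * (starRingEnd ℂ) (FL h Y t) = ((‖FL h Y t‖ ^ 2 : ℝ) : ℂ) := by
          rw [Complex.mul_conj, Complex.normSq_eq_norm_sq]
        calc _ = (FL h Y t * (starRingEnd ℂ) (FL h Y t)) *
              (gw τ H t : ℂ) * ((starRingEnd ℂ) u * zl t) := by ring
          _ = _ := by rw [e2]; push_cast; ring
      rw [e3, Complex.re_ofReal_mul, Complex.re_sum]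
      congr 1
      refine sum_congr rfl fun k _ => ?_
      rw [Complex.re_ofReal_mul, hFR]
      ring
    rw [h3]
    have h5 : ‖J‖ ≤ 2 * Sg h h X Y + Er := by
      have h6 : ‖((Sg h h X Y : ℝ) : ℂ) + u ^ 2 * ((Sg h h X Y : ℝ) : ℂ)‖ ≤
          2 * Sg h h X Y := by
        refine (norm_add_le _ _).trans ?_
        rw [norm_mul, norm_pow, hu, one_pow, one_mul, Complex.norm_real,
          Real.norm_of_nonneg (hShh)]
        linarith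
      have h7 := norm_sub_norm_le J (((Sg h h X Y : ℝ) : ℂ) + u ^ 2 * ((Sg h h X Y : ℝ) : ℂ))
      linarith
    have h8 : |((starRingEnd ℂ) u * J).re| ≤ ‖J‖ := by
      refine (Complex.abs_re_le_norm _).trans (le_of_eq ?_)
      rw [norm_mul, RCLike.norm_conj, hu, one_mul]
    have h9 := (abs_le.mp h8).1
    linarith
  have hsum : α * ∑ k ∈ K, (FM (α * k + β) + FR (α * k + β)) ≤
      2 * (α * ∑ k ∈ K, (SS u κ₀).indicator FM (α * k + β)) + κ₁ * MW := by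
    have e : 2 * (α * ∑ k ∈ K, (SS u κ₀).indicator FM (α * k + β)) + κ₁ * MW =
        α * ∑ k ∈ K, (2 * (SS u κ₀).indicator FM (α * k + β) + κ₁ * FM (α * k + β)) := by
      rw [hMW, sum_add_distrib, ← mul_sum, ← mul_sum]; ring
    rw [e]
    refine mul_le_mul_of_nonneg_left (sum_le_sum fun k hk => ?_) hα.le
    have him := hB k hk
    set t := α * (k:ℝ) + β with ht
    have hg := gw_nonneg τ H t hH
    have hz0 : 0 ≤ ‖zl t‖ := norm_nonneg _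
    have hnw : ‖(starRingEnd ℂ) u * zl t‖ = ‖zl t‖ := by
      rw [norm_mul, RCLike.norm_conj, hu, one_mul]
    have hre : ((starRingEnd ℂ) u * zl t).re ≤ ‖zl t‖ := by
      rw [← hnw]; exact Complex.re_le_norm _
    have hind : 0 ≤ (SS u κ₀).indicator FM t := Set.indicator_nonneg (fun t _ => hFM0 t) t
    rw [← hnw] at him
    have hp := point hκ him
    rw [hnw] at hp
    have hFMt : FM t = ‖zl t‖ * ‖FL h Y t‖ ^ 2 * gw τ H t := rfl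
    have hFRt : FR t = ((starRingEnd ℂ) u * zl t).re * ‖FL h Y t‖ ^ 2 * gw τ H t := rfl
    have hKp : 0 ≤ ‖FL h Y t‖ ^ 2 * gw τ H t := by positivity
    have hFM0t := hFM0 t
    rcases hp with hp | hp | hp
    · have h1 : FM t + FR t ≤ κ₁ * FM t := by
        have h3 := mul_le_mul_of_nonneg_left hp hKp
        rw [hFMt, hFRt]
        linarith
      linarith
    · have h3 : (SS u κ₀).indicator FM t = FM t := Set.indicator_of_mem (show t ∈ SS u κ₀ from hp) FM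
      have h1 : FR t ≤ FM t := by
        have h4 := mul_le_mul_of_nonneg_left hre hKp
        rw [hFMt, hFRt]
        linarith
      rw [h3]
      have h4 : 0 ≤ κ₁ * FM t := by positivity
      linarith
    · have h1 : FM t + FR t = 0 := by
        rw [hFMt, hFRt, ← hnw, hp]
        simp
      rw [h1]
      have h4 : 0 ≤ κ₁ * FM t := by positivity
      linarith
  rw [sum_add_distrib, mul_add, ← hMW] at hsum
  have hhalf : 1 / 2 * MW ≤ (1 - κ₁) * MW := by nlinarith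
  have hm : 1 / 2 * (Sg f g X Y - Sg g f X Y - Er) ≤ 1 / 2 * MW := by linarith
  rw [← hEr]
  linarith

end

end Pool.Agent.R311.SE
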