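import Pool.Agent.R311.SE.X5

set_option autoImplicit false

/-! The resonance inequality in one window: large values in a sector. -/

namespace Pool.Agent.R311.SE

open Finset MeasureTheory Filter Topology
open Pool.Agent.H306R2 Pool.Agent.R311.BS

noncomputable section

/-- the constant of the short polynomial -/
def Cc (n : ℕ) : ℝ := ∑ e ∈ Icc 1 (n ^ 2), Aq n 1 e * Aq n 1 e / e

lemma Cc_nonneg (n : ℕ) : 0 ≤ Cc n := sum_nonneg fun e _ => by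
  have := (Aq_bd (n:ℝ) 1 e).1
  positivity

lemma res_arith {A1 V G W J Pq E C Λ y q B : ℝ} (hΛ : 0 < Λ) (hC : 0 ≤ C) (hPq : 1 ≤ Pq) (hE : 0 < E) (hA : 0 < A1)
    (hG : A1 * V / 8 ≤ 2 * (Λ * G)) (hV : Pq * E ≤ 2 * V) (hy : y = A1 * E / (64 * Λ * (C + 1)))
    (hW : W ≤ Pq * C + 1) (hGW : G ≤ y * W + y ^ (1 - q) * (B * B * J)) : y ^ q ≤ B * B * J := by
  have hC1 : 0 < C + 1 := by linarith
  have hy0 : 0 < y := by rw [hy]; positivity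
  have h1 : y * (C + 1) * (64 * Λ) = A1 * E := by rw [hy]; field_simp
  have h2 : W ≤ Pq * (C + 1) := by nlinarith
  have h3 : y * W ≤ y * (Pq * (C + 1)) := mul_le_mul_of_nonneg_left h2 hy0.le
  have h4 : 2 * (y * (Pq * (C + 1))) ≤ G := by
    have h5 : A1 * (Pq * E) ≤ A1 * (2 * V) := mul_le_mul_of_nonneg_left hV hA.le
    have h6 : A1 * (Pq * E) = Pq * (y * (C + 1) * (64 * Λ)) := by rw [h1]; ring
    have h7 : 2 * (y * (Pq * (C + 1))) * Λ ≤ G * Λ := by nlinarith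
    exact le_of_mul_le_mul_right h7 hΛ
  have h5 : y ≤ y ^ (1 - q) * (B * B * J) := by
    have h6 : y * 1 ≤ y * (Pq * (C + 1)) := by
      apply mul_le_mul_of_nonneg_left _ hy0.le
      nlinarith
    linarith
  have h6 : 0 ≤ y ^ (q - 1) := by positivity
  have h7 := mul_le_mul_of_nonneg_left h5 h6
  have e1 : y ^ (q - 1) * y = y ^ q := by
    nth_rewrite 2 [← Real.rpow_one y]
    rw [← Real.rpow_add hy0]
    congr 1; ring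
  have e2 : y ^ (q - 1) * (y ^ (1 - q) * (B * B * J)) = B * B * J := by
    rw [← mul_assoc, ← Real.rpow_add hy0]
    simp
  rw [e1, e2] at h7
  exact h7

theorem reso {Q : Finset ℕ} (hQ : ∀ p ∈ Q, p.Prime) {a : ℝ} (ha : 0 ≤ a) (K M n : ℕ) (hM : 1 ≤ M) (hn : 1 ≤ n)
    (hQM : ∀ p ∈ Q, p ≤ M) (hQn : ∀ p ∈ Q, n ^ 2 < p) (hQa1 : ∀ p ∈ Q, a ≤ (p:ℝ)) (hQa : ∀ p ∈ Q, a ^ 2 ≤ (p:ℝ))
    (hK : Real.exp (2 * ∑ p ∈ Q, a * (1 + a) / p) ≤ 2 ^ K)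
    (D : ℕ) (hD : 1 ≤ D) {δ : ℝ} (hδ : 0 < δ) (hδ1 : δ ≤ 1 / 4)
    (X Y Z ρ τ H R e₁ e₂ Ω L B ψ κ₀ κ₁ Zb : ℝ) (u : ℂ) (hu : ‖u‖ = 1) (hX1 : 1 ≤ X)
    (hYd : Y = ((M ^ K * n ^ 2 : ℕ) : ℝ)) (hYX : Y ≤ X)
    (hρ : 0 ≤ ρ) (hρ1 : ρ ≤ 1) (hZ : Y * Real.exp 1 ≤ Z) (hρ2 : ρ ≤ 1 / Z) (hH : 0 < H) (hR : 0 < R)
    (he₁ : 0 ≤ e₁) (he₂ : 0 ≤ e₂) (hB : B = Y ^ 5) (hL : (Y * X) ^ 6 ≤ L)
    (hκ₁ : 0 ≤ κ₁) (hκ1 : κ₁ ≤ 1 / 2) (hκ : κ₀ < 1 - κ₁)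
    (happ : ∀ t ∈ Set.Ioc (τ - R) (τ + R), ‖zl t - zX X t‖ ≤ e₁)
    (hnr : ∀ m : ℤ, m ≠ 0 → m ≠ 1 → ∀ n l : ℕ, 1 ≤ n → (n:ℝ) ≤ Y * X → 1 ≤ l → (l:ℝ) ≤ Y →
      1 ≤ |m * Ω - Real.log n + Real.log l|)
    (hph : ∀ t ∈ Set.Ioc (τ - R) (τ + R), ‖Complex.exp ((ψ : ℂ) * Complex.I) * ex Ω t * zl t -
      u ^ 2 * (starRingEnd ℂ) (zl t)‖ ≤ e₂)
    (hBc : ∀ t ∈ Set.Ioc (τ - R) (τ + R), ∀ n : ℤ, |(Ω * t + ψ) / (2 * Real.pi) - n| < 2 * δ →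
      |((starRingEnd ℂ) u * zl t).im| ≤ κ₁ * ‖zl t‖)
    (hZb : ∀ t ∈ Set.Ioc (τ - R) (τ + R), ‖zl t‖ ≤ Zb)
    (h32 : 32 ≤ δ ^ 2 * Sd n ((n:ℝ) ^ 2) 0 2)
    (h16 : Sd n ((n:ℝ) ^ 2) 2 0 ≤ δ ^ 2 * Sd n ((n:ℝ) ^ 2) 0 2 / 16)
    (h11 : Sd n ((n:ℝ) ^ 2) 1 1 ≤ δ ^ 2 * Sd n ((n:ℝ) ^ 2) 0 2 / 32)
    (hEr : (Lam + 1) * (L * L * gq H ρ + L * L * (2 * Real.exp (-(R ^ 2 / (2 * H ^ 2)))) + e₁ * (B * B)) +
      e₂ * (B * B) ≤ 1)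
    (hTL : 2 * (2 * D * Real.cos (Real.pi * δ) ^ (2 * D)) * Zb * (B * B) ≤ 1)
    (hgB : B * B * gq H ρ ≤ 1) (y : ℝ)
    (hy : y = δ ^ 2 * Sd n ((n:ℝ) ^ 2) 0 2 * Real.exp (a * (∑ p ∈ Q, 1 / (p:ℝ)) / 4) / (64 * Lam * (Cc n + 1)))
    (q : ℝ) (hq : 1 ≤ q) :
    y ^ q ≤ B * B * ∫ t in Set.Ioc (τ - R) (τ + R) ∩ SS u κ₀, ‖zl t‖ ^ q * gw τ H t := by
  have hLam := Lam_ge_one
  obtain ⟨r, hr⟩ : ∃ r : ArithmeticFunction ℝ, r = rr Q a K := ⟨_, rfl⟩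
  have hrs : ∀ m, M ^ K < m → r m = 0 := by rw [hr]; exact rr_supp a K M hM hQM
  have hrL : ∀ m, r m ≠ 0 → Lg (n ^ 2) m := by rw [hr]; exact rr_large a K (n ^ 2) hQn
  have hPB : ∀ k : ℕ, k ≤ 2 → PB (r * Aq n k) 4 := by rw [hr]; exact PB_rA ha K hQa1 n
  obtain ⟨f, hf⟩ : ∃ f : ℕ → ArithmeticFunction ℝ, f = fun k => r * Aq n k := ⟨_, rfl⟩
  have hfk : ∀ k, f k = r * Aq n k := fun k => by rw [hf]
  have hY1 : 1 ≤ Y := by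
    rw [hYd]
    have : 1 ≤ M ^ K * n ^ 2 := Nat.mul_pos (Nat.pow_pos hM) (Nat.pow_pos hn)
    exact_mod_cast this
  have hY0 : 0 ≤ Y := by linarith
  have hfs : ∀ k : ℕ, k ≤ 2 → ∀ m : ℕ, Y < m → f k m = 0 := by
    intro k hk m hm
    rw [hfk]
    refine supp_mul (M ^ K) (n ^ 2) hrs (Aq_supp n hn k hk) m ?_
    rw [hYd] at hm
    exact_mod_cast hm
  have hPf : ∀ k : ℕ, k ≤ 2 → PB (f k) 4 := fun k hk => by rw [hfk]; exact hPB k hk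
  have hl1 : ∀ k : ℕ, k ≤ 2 → l1 (f k) Y ≤ B := fun k hk => by
    rw [hB]; exact l1_PB (hPf k hk) hY1
  have hYX1 : 1 ≤ Y * X := one_le_mul_of_one_le_of_one_le hY1 hX1
  have hl2 : ∀ k : ℕ, k ≤ 2 → l1 (zf (f k) X) (Y * X) ≤ L := fun k hk =>
    (l1_PB (PB_zf (hPf k hk) X) hYX1).trans hL
  have hBL : B ≤ L := by
    rw [hB]
    calc Y ^ 5 ≤ (Y * X) ^ 5 := pow_le_pow_left₀ hY0 (by nlinarith) 5
      _ ≤ (Y * X) ^ 6 := pow_le_pow_right₀ hYX1 (by norm_num)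
      _ ≤ L := hL
  have hfg : ∀ t : ℝ, ‖FL (f 0) Y t‖ * ‖FL (f 2) Y t‖ = ‖FL (f 1) Y t‖ ^ 2 := by
    intro t
    have h1 := (Dp_mul (f 0) (f 2) Y Y hY0 hY0 (hfs 0 (by norm_num)) (hfs 2 le_rfl) (1 / 2 + t * Complex.I)).2
    have h2 := (Dp_mul (f 1) (f 1) Y Y hY0 hY0 (hfs 1 (by norm_num)) (hfs 1 (by norm_num))
      (1 / 2 + t * Complex.I)).2
    have h3 : f 0 * f 2 = f 1 * f 1 := by
      rw [hfk, hfk, hfk]
      unfold Aq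
      ring
    rw [h3, h2] at h1
    rw [← norm_mul, sq, ← norm_mul]
    unfold FL
    rw [h1]
  have hYX' : ((M ^ K * n ^ 2 : ℕ) : ℝ) ≤ X := by rw [← hYd]; exact hYX
  obtain ⟨V, hV⟩ : ∃ V : ℝ, V = ∑ d ∈ Icc 1 (M ^ K), ds r (M ^ K) d * r d / d := ⟨_, rfl⟩
  have hSg : ∀ i j : ℕ, i ≤ 2 → j ≤ 2 → Sg (f i) (f j) X Y = V * Sd n ((n:ℝ) ^ 2) i j := by
    intro i j hi hj
    rw [hfk, hfk, hYd, Sg_factor r (Aq n i) (Aq n j) (M ^ K) (n ^ 2) X hrs (Aq_supp n hn i hi) (Aq_supp n hn j hj)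
      hYX' hrL, ← hV, Sd_small n i j hn hi hj]
  have hn1 : (1:ℝ) ≤ n := by exact_mod_cast hn
  have hSd0 : ∀ i j : ℕ, j ≤ 2 → 0 ≤ Sd n ((n:ℝ) ^ 2) i j := fun i j hj =>
    Sd_nonneg _ _ i j (pow_le_pow_right₀ hn1 hj)
  obtain ⟨E, hE⟩ : ∃ E : ℝ, E = Real.exp (a * (∑ p ∈ Q, 1 / (p:ℝ)) / 4) := ⟨_, rfl⟩
  obtain ⟨Pq, hPq⟩ : ∃ Pq : ℝ, Pq = ∏ p ∈ Q, (1 + a ^ 2 / (p:ℝ)) := ⟨_, rfl⟩
  have hPq1 : 1 ≤ Pq := by
    rw [hPq]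
    calc (1:ℝ) = ∏ _p ∈ Q, (1:ℝ) := by simp
      _ ≤ _ := Finset.prod_le_prod (fun _ _ => zero_le_one) fun p _ => by
        have : 0 ≤ a ^ 2 / (p:ℝ) := by positivity
        linarith
  have hE1 : 1 ≤ E := by
    rw [hE]
    apply Real.one_le_exp
    have : 0 ≤ ∑ p ∈ Q, 1 / (p:ℝ) := sum_nonneg fun p _ => by positivity
    positivity
  have hrat := rr_ratio hQ ha K M hM hQM hQa hK
  rw [← hPq, ← hE, ← hr, ← hV] at hrat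
  have hPqE : 1 ≤ Pq * E := one_le_mul_of_one_le_of_one_le hPq1 hE1
  have hVh : 1 / 2 ≤ V := by linarith
  have hV0 : 0 ≤ V := by linarith
  have hcore := coreG (f 0) (f 2) (f 1) D hD hδ.le hδ1 X Y Z ρ τ H R e₁ e₂ Ω L B ψ κ₀ κ₁ Zb u hu hX1 hY1 hρ hρ1
    hZ hρ2 hH hR he₁ he₂ (hfs 0 (by norm_num)) (hfs 2 le_rfl) (hfs 1 (by norm_num)) (hl2 0 (by norm_num))
    (hl2 2 le_rfl) (hl2 1 (by norm_num)) (hl1 0 (by norm_num)) (hl1 2 le_rfl) (hl1 1 (by norm_num)) hBL hfg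
    (by rw [hSg 0 2 (by norm_num) le_rfl]; exact mul_nonneg hV0 (hSd0 0 2 le_rfl))
    (by rw [hSg 2 0 le_rfl (by norm_num)]; exact mul_nonneg hV0 (hSd0 2 0 (by norm_num)))
    (by rw [hSg 1 1 (by norm_num) (by norm_num)]; exact mul_nonneg hV0 (hSd0 1 1 (by norm_num)))
    hκ₁ hκ1 hκ happ hnr hph hBc hZb
  rw [hSg 0 2 (by norm_num) le_rfl, hSg 2 0 le_rfl (by norm_num), hSg 1 1 (by norm_num) (by norm_num)] at hcore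
  obtain ⟨G, hG⟩ : ∃ G : ℝ, G = ∫ t in Set.Ioc (τ - R) (τ + R) ∩ SS u κ₀, ‖zl t‖ * ‖FL (f 1) Y t‖ ^ 2 * gw τ H t :=
    ⟨_, rfl⟩
  rw [← hG] at hcore
  have hA1 : δ ^ 2 * (V * Sd n ((n:ℝ) ^ 2) 0 2) = (δ ^ 2 * Sd n ((n:ℝ) ^ 2) 0 2) * V := by ring
  rw [hA1] at hcore
  have hfin := fin_res hV0 hcore h16 h11 hEr hTL h32 hVh
  -- mean square
  obtain ⟨hq1, hq2⟩ := sqg (f 1) Y Z ρ τ H B hY1 hH hρ hρ1 hZ hρ2 (hl1 1 (by norm_num))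
  have hB0 : 0 ≤ B := by rw [hB]; positivity
  obtain ⟨W, hW⟩ : ∃ W : ℝ, W = ∫ t : ℝ, ‖FL (f 1) Y t‖ ^ 2 * gw τ H t := ⟨_, rfl⟩
  rw [← hW] at hq2
  have hsq : ∑ m ∈ Icc 1 ⌊Y⌋₊, f 1 m * f 1 m / m ≤ Pq * Cc n := by
    rw [hYd, Nat.floor_natCast, hfk, sq_factor r (Aq n 1) (M ^ K) (n ^ 2) hrs (Aq_supp n hn 1 (by norm_num)) hrL]
    have h1 := rr_D (a := a) hQ K M hM hQM
    rw [← hr, ← hPq] at h1
    exact mul_le_mul_of_nonneg_right h1 (Cc_nonneg n)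
  have hWb : W ≤ Pq * Cc n + 1 := by linarith
  -- Hölder
  have hy0 : 0 < y := by
    rw [hy]
    have h1 := Cc_nonneg n
    have h2 : 0 < δ ^ 2 * Sd n ((n:ℝ) ^ 2) 0 2 := by linarith
    positivity
  set I := Set.Ioc (τ - R) (τ + R) with hI
  have hSm := SS_meas u κ₀
  have hIS : MeasurableSet (I ∩ SS u κ₀) := measurableSet_Ioc.inter hSm
  have hcIr : ∀ F : ℝ → ℝ, Continuous F → IntegrableOn F (I ∩ SS u κ₀) := fun F hF =>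
    (hF.integrableOn_Icc (a := τ - R) (b := τ + R)).mono_set
      (Set.inter_subset_left.trans Set.Ioc_subset_Icc_self)
  have c1 := FL_cont (f 1) Y
  have c2 := zl_cont
  have c3 := gw_continuous τ H
  have c4 : Continuous fun t : ℝ => ‖zl t‖ ^ q := c2.norm.rpow_const fun _ => Or.inr (by linarith)
  obtain ⟨J, hJ⟩ : ∃ J : ℝ, J = ∫ t in I ∩ SS u κ₀, ‖zl t‖ ^ q * gw τ H t := ⟨_, rfl⟩
  rw [← hJ]
  have hGW : G ≤ y * W + y ^ (1 - q) * (B * B * J) := by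
    have k1 : Continuous fun t => ‖zl t‖ * ‖FL (f 1) Y t‖ ^ 2 * gw τ H t := by fun_prop
    have k2 : Continuous fun t => ‖FL (f 1) Y t‖ ^ 2 * gw τ H t := by fun_prop
    have k3 : Continuous fun t => ‖zl t‖ ^ q * gw τ H t := c4.mul c3
    have hy1 : 0 ≤ y ^ (1 - q) := by positivity
    calc G ≤ ∫ t in I ∩ SS u κ₀, (y * (‖FL (f 1) Y t‖ ^ 2 * gw τ H t) +
          y ^ (1 - q) * (B * B) * (‖zl t‖ ^ q * gw τ H t)) := by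
          rw [hG]
          refine setIntegral_mono_on (hcIr _ k1) (((hcIr _ k2).const_mul _).add ((hcIr _ k3).const_mul _)) hIS
            fun t _ => ?_
          have hg := gw_nonneg τ H t hH
          have h1 := hold (norm_nonneg (zl t)) hy0 hq
          have h2 : ‖FL (f 1) Y t‖ ^ 2 ≤ B * B := by
            rw [sq]
            have h3 := (FL_norm (f 1) Y t).trans (hl1 1 (by norm_num))
            exact mul_le_mul h3 h3 (norm_nonneg _) hB0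
          calc ‖zl t‖ * ‖FL (f 1) Y t‖ ^ 2 * gw τ H t ≤
              (y + y ^ (1 - q) * ‖zl t‖ ^ q) * ‖FL (f 1) Y t‖ ^ 2 * gw τ H t := by gcongr
            _ = y * (‖FL (f 1) Y t‖ ^ 2 * gw τ H t) +
              y ^ (1 - q) * (‖FL (f 1) Y t‖ ^ 2) * (‖zl t‖ ^ q * gw τ H t) := by ring
            _ ≤ _ := by gcongr
      _ = y * (∫ t in I ∩ SS u κ₀, ‖FL (f 1) Y t‖ ^ 2 * gw τ H t) + y ^ (1 - q) * (B * B) * J := by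
          rw [integral_add ((hcIr _ k2).const_mul _) ((hcIr _ k3).const_mul _), integral_const_mul,
            integral_const_mul, hJ]
      _ ≤ y * W + y ^ (1 - q) * (B * B) * J := by
          have h1 : ∫ t in I ∩ SS u κ₀, ‖FL (f 1) Y t‖ ^ 2 * gw τ H t ≤ W := by
            rw [hW]
            refine setIntegral_le_integral hq1 (Eventually.of_forall fun t => ?_)
            have hg := gw_nonneg τ H t hH
            simp only [Pi.zero_apply]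
            positivity
          have := mul_le_mul_of_nonneg_left h1 hy0.le
          linarith
      _ = _ := by ring
  have hA : 0 < δ ^ 2 * Sd n ((n:ℝ) ^ 2) 0 2 := by linarith
  rw [← hE] at hy
  exact res_arith (by linarith) (Cc_nonneg n) hPq1 (by linarith) hA hfin hrat hy hWb hGW

end

end Pool.Agent.R311.SE
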