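import Pool.Agent.R311.SE.V2
import Pool.Agent.R311.SE.X6

set_option autoImplicit false

/-! The resonance inequality over the discrete points of one window. -/

namespace Pool.Agent.R311.SE

open Finset MeasureTheory Filter Topology
open Pool.Agent.H306R2
open Pool.Agent.R311.BS (ex ex_norm ex_add ex_cont gq gq_nonneg gq_le_one gq_far Lam Lam_ge_one zX l1
  l1_nonneg l1_PB)
open Pool.Agent.R311.AP (Dl dt mass_le gwk_summable bdd_summable Kw mem_Kw outside_bound sum_Kw_le)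

noncomputable section

lemma resD_arith {A1 V G Pq E C y : ℝ} (hC : 0 ≤ C) (hPq : 1 ≤ Pq) (hE : 0 < E) (hA : 0 < A1)
    (hG : A1 * V / 8 ≤ 2 * G) (hV : Pq * E ≤ 2 * V) (hy : y = A1 * E / (64 * (C + 1)))
    (hW : G ≤ y * (Pq * C + 1)) : False := by
  have hC1 : 0 < C + 1 := by linarith
  have hy0 : 0 < y := by rw [hy]; positivity
  have h1 : y * (C + 1) * 64 = A1 * E := by rw [hy]; field_simp
  have h2 : Pq * C + 1 ≤ Pq * (C + 1) := by nlinarith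
  have h3 : y * (Pq * C + 1) ≤ y * (Pq * (C + 1)) := mul_le_mul_of_nonneg_left h2 hy0.le
  have h5 : A1 * (Pq * E) ≤ A1 * (2 * V) := mul_le_mul_of_nonneg_left hV hA.le
  have h6 : A1 * (Pq * E) = Pq * (y * (C + 1) * 64) := by rw [h1]; ring
  have h7 : 0 < y * (Pq * (C + 1)) := by positivity
  nlinarith

theorem resoD {Q : Finset ℕ} (hQ : ∀ p ∈ Q, p.Prime) {a : ℝ} (ha : 0 ≤ a) (K M n : ℕ) (hM : 1 ≤ M) (hn : 1 ≤ n)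
    (hQM : ∀ p ∈ Q, p ≤ M) (hQn : ∀ p ∈ Q, n ^ 2 < p) (hQa1 : ∀ p ∈ Q, a ≤ (p:ℝ)) (hQa : ∀ p ∈ Q, a ^ 2 ≤ (p:ℝ))
    (hK : Real.exp (2 * ∑ p ∈ Q, a * (1 + a) / p) ≤ 2 ^ K)
    (X Y Z ρ τ H R e₁ e₂ L B α β κ₀ κ₁ : ℝ) (u : ℂ) (hu : ‖u‖ = 1) (hX1 : 1 ≤ X)
    (hYd : Y = ((M ^ K * n ^ 2 : ℕ) : ℝ)) (hYX : Y ≤ X)
    (hρ : 0 ≤ ρ) (hρ1 : ρ ≤ 1) (hZ : Y * Real.exp 1 ≤ Z) (hρ2 : ρ ≤ 1 / Z) (hH : 0 < H) (hR : 0 < R)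
    (he₁ : 0 ≤ e₁) (he₂ : 0 ≤ e₂) (hB : B = Y ^ 5) (hL : (Y * X) ^ 6 ≤ L)
    (hκ₁ : 0 ≤ κ₁) (hκ1 : κ₁ ≤ 1 / 2) (hκ : κ₀ < 1 - κ₁)
    (hα : 0 < α) (h2 : 2 ≤ 2 * Real.pi / α) (hyy : 1 ≤ H ^ 2 * (2 * Real.pi / α) ^ 2 / 16)
    (hyy2 : Lam * Real.exp (-(H ^ 2 * (2 * Real.pi / α) ^ 2 / 16)) ≤ 1)
    (happ : ∀ t ∈ Set.Ioc (τ - R) (τ + R), ‖zl t - zX X t‖ ≤ e₁)
    (hnr : ∀ m : ℤ, m ≠ 0 → m ≠ 1 → ∀ n l : ℕ, 1 ≤ n → (n:ℝ) ≤ Y * X → 1 ≤ l → (l:ℝ) ≤ Y →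
      1 ≤ |m * (2 * Real.pi / α) - Real.log n + Real.log l|)
    (hnr1 : ∀ n l : ℕ, 1 ≤ n → (n:ℝ) ≤ Y → 1 ≤ l → (l:ℝ) ≤ Y →
      1 ≤ |2 * Real.pi / α - Real.log n + Real.log l|)
    (hph : ∀ t ∈ Set.Ioc (τ - R) (τ + R), ‖ex 1 (-(2 * Real.pi / α * β)) * ex (2 * Real.pi / α) t * zl t -
      u ^ 2 * (starRingEnd ℂ) (zl t)‖ ≤ e₂)
    (hBc : ∀ k ∈ Kw α β τ R, |((starRingEnd ℂ) u * zl (α * k + β)).im| ≤ κ₁ * ‖zl (α * k + β)‖)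
    (h32 : 32 ≤ Sd n ((n:ℝ) ^ 2) 0 2)
    (h16 : Sd n ((n:ℝ) ^ 2) 2 0 ≤ Sd n ((n:ℝ) ^ 2) 0 2 / 16)
    (h11 : Sd n ((n:ℝ) ^ 2) 1 1 ≤ Sd n ((n:ℝ) ^ 2) 0 2 / 32)
    (hEr : 3 * ((Lam + 1) * (L * L * gq H ρ + L * L * (2 * Real.exp (-(R ^ 2 / (2 * H ^ 2)))) + e₁ * (B * B))) +
      e₂ * (B * B) ≤ 1)
    (hgB : (Lam + 5) * (B * B * gq H ρ) ≤ 1) (y : ℝ)
    (hy : y = Sd n ((n:ℝ) ^ 2) 0 2 * Real.exp (a * (∑ p ∈ Q, 1 / (p:ℝ)) / 4) / (64 * (Cc n + 1))) :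
    ∃ k ∈ Kw α β τ R, α * k + β ∈ SS u κ₀ ∧ y < ‖zl (α * k + β)‖ := by
  by_contra hcon
  push Not at hcon
  have hLam := Lam_ge_one
  obtain ⟨r, hr⟩ : ∃ r : ArithmeticFunction ℝ, r = rr Q a K := ⟨_, rfl⟩
  have hrs : ∀ m, M ^ K < m → r m = 0 := by rw [hr]; exact rr_supp a K M hM hQM
  have hrL : ∀ m, r m ≠ 0 → Lg (n ^ 2) m := by rw [hr]; exact rr_large a K (n ^ 2) hQn
  have hPB : ∀ k : ℕ, k ≤ 2 → PB (r * Aq n k) 4 := by rw [hr]; exact PB_rA ha K hQa1 n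
  obtain ⟨f, hf⟩ : ∃ f : ℕ → ArithmeticFunction ℝ, f = fun k => r * Aq n k := ⟨_, rfl⟩
  have hfk : ∀ k, f k = r * Aq n k := fun k => by rw [hf]
  have hY1 : 1 ≤ Y := by
    rw [hYd]
    have : 1 ≤ M ^ K * n ^ 2 := Nat.mul_pos (Nat.pow_pos hM) (Nat.pow_pos hn)
    exact_mod_cast this
  have hY0 : 0 ≤ Y := by linarith
  have hfs : ∀ k : ℕ, k ≤ 2 → ∀ m : ℕ, Y < m → f k m = 0 := by
    intro k hk m hm
    rw [hfk]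
    refine supp_mul (M ^ K) (n ^ 2) hrs (Aq_supp n hn k hk) m ?_
    rw [hYd] at hm
    exact_mod_cast hm
  have hPf : ∀ k : ℕ, k ≤ 2 → PB (f k) 4 := fun k hk => by rw [hfk]; exact hPB k hk
  have hl1 : ∀ k : ℕ, k ≤ 2 → l1 (f k) Y ≤ B := fun k hk => by
    rw [hB]; exact l1_PB (hPf k hk) hY1
  have hYX1 : 1 ≤ Y * X := one_le_mul_of_one_le_of_one_le hY1 hX1
  have hl2 : ∀ k : ℕ, k ≤ 2 → l1 (zf (f k) X) (Y * X) ≤ L := fun k hk =>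
    (l1_PB (PB_zf (hPf k hk) X) hYX1).trans hL
  have hBL : B ≤ L := by
    rw [hB]
    calc Y ^ 5 ≤ (Y * X) ^ 5 := pow_le_pow_left₀ hY0 (by nlinarith) 5
      _ ≤ (Y * X) ^ 6 := pow_le_pow_right₀ hYX1 (by norm_num)
      _ ≤ L := hL
  have hfg : ∀ t : ℝ, ‖FL (f 0) Y t‖ * ‖FL (f 2) Y t‖ = ‖FL (f 1) Y t‖ ^ 2 := by
    intro t
    have h1 := (Dp_mul (f 0) (f 2) Y Y hY0 hY0 (hfs 0 (by norm_num)) (hfs 2 le_rfl) (1 / 2 + t * Complex.I)).2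
    have h2 := (Dp_mul (f 1) (f 1) Y Y hY0 hY0 (hfs 1 (by norm_num)) (hfs 1 (by norm_num))
      (1 / 2 + t * Complex.I)).2
    have h3 : f 0 * f 2 = f 1 * f 1 := by
      rw [hfk, hfk, hfk]
      unfold Aq
      ring
    rw [h3, h2] at h1
    rw [← norm_mul, sq, ← norm_mul]
    unfold FL
    rw [h1]
  have hYX' : ((M ^ K * n ^ 2 : ℕ) : ℝ) ≤ X := by rw [← hYd]; exact hYX
  obtain ⟨V, hV⟩ : ∃ V : ℝ, V = ∑ d ∈ Icc 1 (M ^ K), ds r (M ^ K) d * r d / d := ⟨_, rfl⟩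
  have hSg : ∀ i j : ℕ, i ≤ 2 → j ≤ 2 → Sg (f i) (f j) X Y = V * Sd n ((n:ℝ) ^ 2) i j := by
    intro i j hi hj
    rw [hfk, hfk, hYd, Sg_factor r (Aq n i) (Aq n j) (M ^ K) (n ^ 2) X hrs (Aq_supp n hn i hi) (Aq_supp n hn j hj)
      hYX' hrL, ← hV, Sd_small n i j hn hi hj]
  have hn1 : (1:ℝ) ≤ n := by exact_mod_cast hn
  have hSd0 : ∀ i j : ℕ, j ≤ 2 → 0 ≤ Sd n ((n:ℝ) ^ 2) i j := fun i j hj =>
    Sd_nonneg _ _ i j (pow_le_pow_right₀ hn1 hj)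
  obtain ⟨E, hE⟩ : ∃ E : ℝ, E = Real.exp (a * (∑ p ∈ Q, 1 / (p:ℝ)) / 4) := ⟨_, rfl⟩
  obtain ⟨Pq, hPq⟩ : ∃ Pq : ℝ, Pq = ∏ p ∈ Q, (1 + a ^ 2 / (p:ℝ)) := ⟨_, rfl⟩
  have hPq1 : 1 ≤ Pq := by
    rw [hPq]
    calc (1:ℝ) = ∏ _p ∈ Q, (1:ℝ) := by simp
      _ ≤ _ := Finset.prod_le_prod (fun _ _ => zero_le_one) fun p _ => by
        have : 0 ≤ a ^ 2 / (p:ℝ) := by positivity
        linarith
  have hE1 : 1 ≤ E := by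
    rw [hE]
    apply Real.one_le_exp
    have : 0 ≤ ∑ p ∈ Q, 1 / (p:ℝ) := sum_nonneg fun p _ => by positivity
    positivity
  have hrat := rr_ratio hQ ha K M hM hQM hQa hK
  rw [← hPq, ← hE, ← hr, ← hV] at hrat
  have hPqE : 1 ≤ Pq * E := one_le_mul_of_one_le_of_one_le hPq1 hE1
  have hVh : 1 / 2 ≤ V := by linarith
  have hV0 : 0 ≤ V := by linarith
  have hcore := coreDg (f 0) (f 2) (f 1) X Y Z ρ τ H R e₁ e₂ L B α β κ₀ κ₁ u hu hX1 hY1 hρ hρ1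
    hZ hρ2 hH hR he₁ he₂ (hfs 0 (by norm_num)) (hfs 2 le_rfl) (hfs 1 (by norm_num)) (hl2 0 (by norm_num))
    (hl2 2 le_rfl) (hl2 1 (by norm_num)) (hl1 0 (by norm_num)) (hl1 2 le_rfl) (hl1 1 (by norm_num)) hBL hfg
    (by rw [hSg 0 2 (by norm_num) le_rfl]; exact mul_nonneg hV0 (hSd0 0 2 le_rfl))
    (by rw [hSg 2 0 le_rfl (by norm_num)]; exact mul_nonneg hV0 (hSd0 2 0 (by norm_num)))
    (by rw [hSg 1 1 (by norm_num) (by norm_num)]; exact mul_nonneg hV0 (hSd0 1 1 (by norm_num)))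
    hκ₁ hκ1 hκ hα h2 hyy hyy2 happ hnr hph hBc
  rw [hSg 0 2 (by norm_num) le_rfl, hSg 2 0 le_rfl (by norm_num), hSg 1 1 (by norm_num) (by norm_num)] at hcore
  obtain ⟨G, hG⟩ : ∃ G : ℝ, G = α * ∑ k ∈ Kw α β τ R,
    (SS u κ₀).indicator (fun t => ‖zl t‖ * ‖FL (f 1) Y t‖ ^ 2 * gw τ H t) (α * k + β) := ⟨_, rfl⟩
  rw [← hG, mul_comm V (Sd n ((n:ℝ) ^ 2) 0 2), ← sub_zero (_ - _)] at hcore
  have hfin := fin_res hV0 hcore h16 h11 hEr zero_le_one h32 hVh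
  -- mean square
  obtain ⟨hq1, hq2⟩ := sq_discg (f 1) Y Z ρ τ H B α β hY1 hα hH h2 hyy hρ hρ1 hZ hρ2 (hl1 1 (by norm_num))
    (by
      intro m h0 h1 n l hn hnY hl hlY
      exact hnr m h0 h1 n l hn (hnY.trans (by nlinarith)) hl hlY) hnr1
  have hB0 : 0 ≤ B := by rw [hB]; positivity
  obtain ⟨W, hW⟩ : ∃ W : ℝ, W = α * ∑' k : ℤ, ‖FL (f 1) Y (α * k + β)‖ ^ 2 * gw τ H (α * k + β) := ⟨_, rfl⟩
  rw [← hW] at hq2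
  have hsq : ∑ m ∈ Icc 1 ⌊Y⌋₊, f 1 m * f 1 m / m ≤ Pq * Cc n := by
    rw [hYd, Nat.floor_natCast, hfk, sq_factor r (Aq n 1) (M ^ K) (n ^ 2) hrs (Aq_supp n hn 1 (by norm_num)) hrL]
    have h1 := rr_D (a := a) hQ K M hM hQM
    rw [← hr, ← hPq] at h1
    exact mul_le_mul_of_nonneg_right h1 (Cc_nonneg n)
  have hWb : W ≤ Pq * Cc n + 1 := by linarith
  have hA : 0 < Sd n ((n:ℝ) ^ 2) 0 2 := by linarith
  have hy0 : 0 < y := by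
    rw [hy]
    have h1 := Cc_nonneg n
    positivity
  have hgw0 : ∀ k : ℤ, 0 ≤ ‖FL (f 1) Y (α * k + β)‖ ^ 2 * gw τ H (α * k + β) := fun k => by
    have := gw_nonneg τ H (α * k + β) hH
    positivity
  have hGW : G ≤ y * (Pq * Cc n + 1) := by
    have h1 : α * ∑ k ∈ Kw α β τ R, ‖FL (f 1) Y (α * k + β)‖ ^ 2 * gw τ H (α * k + β) ≤ W := by
      rw [hW]
      exact mul_le_mul_of_nonneg_left (hq1.sum_le_tsum _ fun k _ => hgw0 k) hα.le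
    calc G ≤ α * ∑ k ∈ Kw α β τ R, y * (‖FL (f 1) Y (α * k + β)‖ ^ 2 * gw τ H (α * k + β)) := by
          rw [hG]
          refine mul_le_mul_of_nonneg_left (sum_le_sum fun k hk => ?_) hα.le
          by_cases hm : α * k + β ∈ SS u κ₀
          · rw [Set.indicator_of_mem hm, mul_assoc]
            exact mul_le_mul_of_nonneg_right (hcon k hk hm) (hgw0 k)
          · rw [Set.indicator_of_notMem hm]
            exact mul_nonneg hy0.le (hgw0 k)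
      _ = y * (α * ∑ k ∈ Kw α β τ R, ‖FL (f 1) Y (α * k + β)‖ ^ 2 * gw τ H (α * k + β)) := by
          rw [← mul_sum]; ring
      _ ≤ y * (Pq * Cc n + 1) := mul_le_mul_of_nonneg_left (h1.trans hWb) hy0.le
  rw [← hE] at hy
  exact resD_arith (Cc_nonneg n) hPq1 (by linarith) hA hfin hrat hy hGW

end

end Pool.Agent.R311.SE
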