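import Pool.Agent.R311.SE.X4
import Pool.Agent.Helper256.KM.Mertens

set_option autoImplicit false

/-! The parameters of the resonator. -/

namespace Pool.Agent.R311.SE

open Finset MeasureTheory Filter Topology

noncomputable section

/-- the primes in `(P, P^b]` -/
def PQ (P b : ℕ) : Finset ℕ := ((Icc 1 (P ^ b)).filter Nat.Prime) \ ((Icc 1 P).filter Nat.Prime)

lemma mem_PQ {P b p : ℕ} (hp : p ∈ PQ P b) : p.Prime ∧ P < p ∧ p ≤ P ^ b := by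
  unfold PQ at hp
  rw [Finset.mem_sdiff, mem_filter, mem_filter, mem_Icc, mem_Icc] at hp
  refine ⟨hp.1.2, ?_, hp.1.1.2⟩
  by_contra h
  exact hp.2 ⟨⟨hp.1.1.1, by omega⟩, hp.1.2⟩

lemma PQ_sum : ∃ (b : ℕ) (s₁ : ℝ), 1 ≤ b ∧ 1 ≤ s₁ ∧ ∀ P : ℕ, 3 ≤ P →
    1 ≤ ∑ p ∈ PQ P b, 1 / (p:ℝ) ∧ ∑ p ∈ PQ P b, 1 / (p:ℝ) ≤ s₁ := by
  obtain ⟨C, hC⟩ := Pool.Agent.Helper256.KM.mertens_inv
  have hC0 : 0 ≤ C := (abs_nonneg _).trans (hC 3 le_rfl)
  obtain ⟨b, hb⟩ : ∃ b : ℕ, b = ⌈Real.exp (2 * C + 1)⌉₊ := ⟨_, rfl⟩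
  have hb1 : Real.exp (2 * C + 1) ≤ b := by rw [hb]; exact Nat.le_ceil _
  have hb0 : (1:ℝ) ≤ b := (Real.one_le_exp (by linarith)).trans hb1
  have hbn : 1 ≤ b := by exact_mod_cast hb0
  have hlogb : 2 * C + 1 ≤ Real.log b := by
    rw [Real.le_log_iff_exp_le (by linarith)]
    exact hb1
  refine ⟨b, Real.log b + 2 * C, hbn, by linarith, fun P hP => ?_⟩
  have hsub : (Icc 1 P).filter Nat.Prime ⊆ (Icc 1 (P ^ b)).filter Nat.Prime := by
    intro p hp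
    rw [mem_filter, mem_Icc] at hp ⊢
    exact ⟨⟨hp.1.1, hp.1.2.trans (Nat.le_self_pow (by omega) P)⟩, hp.2⟩
  have hs : ∑ p ∈ PQ P b, 1 / (p:ℝ) = ∑ p ∈ (Icc 1 (P ^ b)).filter Nat.Prime, (1:ℝ) / p -
      ∑ p ∈ (Icc 1 P).filter Nat.Prime, (1:ℝ) / p := by
    unfold PQ
    rw [← sum_sdiff hsub]
    ring
  have h1 := abs_le.mp (hC P hP)
  have h2 := abs_le.mp (hC (P ^ b) (hP.trans (Nat.le_self_pow (by omega) P)))
  have hP3 : (3:ℝ) ≤ P := by exact_mod_cast hP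
  have hlogP : 0 < Real.log P := Real.log_pos (by linarith)
  have e1 : Real.log (Real.log ((P ^ b : ℕ) : ℝ)) = Real.log b + Real.log (Real.log P) := by
    push_cast
    rw [Real.log_pow, Real.log_mul (by positivity) hlogP.ne']
  rw [e1] at h2
  rw [hs]
  constructor
  · linarith [h1.1, h1.2, h2.1, h2.2]
  · linarith [h1.1, h1.2, h2.1, h2.2]

theorem params (n : ℕ) {ν : ℝ} (hν : 0 < ν) (hν1 : ν ≤ 1) : ∃ c₁ : ℝ, 0 < c₁ ∧ ∀ᶠ T : ℝ in atTop,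
    ∃ (Q : Finset ℕ) (a : ℝ) (K M : ℕ), 0 ≤ a ∧ 1 ≤ M ∧ (∀ p ∈ Q, p.Prime) ∧ (∀ p ∈ Q, p ≤ M) ∧
      (∀ p ∈ Q, n ^ 2 < p) ∧ (∀ p ∈ Q, a ≤ (p:ℝ)) ∧ (∀ p ∈ Q, a ^ 2 ≤ (p:ℝ)) ∧
      Real.exp (2 * ∑ p ∈ Q, a * (1 + a) / p) ≤ 2 ^ K ∧ ((M ^ K : ℕ) : ℝ) ≤ T ^ ν ∧
      c₁ * Real.sqrt (Real.log T / Real.log (Real.log T)) ≤ a * (∑ p ∈ Q, 1 / (p:ℝ)) / 4 := by
  obtain ⟨b, s₁, hb1, hs1, hPQ⟩ := PQ_sum
  have hbr : (1:ℝ) ≤ b := by exact_mod_cast hb1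
  obtain ⟨η, hη⟩ : ∃ η : ℝ, η = 1 / (8 * s₁) := ⟨_, rfl⟩
  have hη0 : 0 < η := by rw [hη]; positivity
  have hη1 : η ≤ 1 := by
    rw [hη, div_le_one (by positivity)]
    linarith
  have hηs : η * s₁ = 1 / 8 := by rw [hη]; field_simp
  refine ⟨η / 4 * Real.sqrt (ν / (4 * b)), by positivity, ?_⟩
  have hL : Tendsto Real.log atTop atTop := Real.tendsto_log_atTop
  have hLL : Tendsto (fun T : ℝ => Real.log (Real.log T)) atTop atTop := hL.comp hL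
  have hx0 : Tendsto (fun T : ℝ => ν * Real.log T / (2 * b * Real.log (Real.log T))) atTop atTop := by
    have h1 : Tendsto (fun x : ℝ => x / Real.log x) atTop atTop := by
      have h2 := Real.isLittleO_log_id_atTop.tendsto_div_nhds_zero
      have h3 : Tendsto (fun x : ℝ => (Real.log x / x)⁻¹) atTop atTop := by
        apply Tendsto.inv_tendsto_nhdsGT_zero
        rw [tendsto_nhdsWithin_iff]
        refine ⟨h2, ?_⟩
        filter_upwards [eventually_gt_atTop 1] with x hx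
        exact div_pos (Real.log_pos hx) (by linarith)
      refine h3.congr fun x => ?_
      rw [inv_div]
    have h4 := (h1.comp hL).const_mul_atTop (show 0 < ν / (2 * b) by positivity)
    refine h4.congr fun T => ?_
    simp only [Function.comp]
    ring
  filter_upwards [hL.eventually (eventually_ge_atTop ((n:ℝ) ^ 2 + 4)), hLL.eventually (eventually_ge_atTop 1),
    hx0.eventually (eventually_ge_atTop 2), eventually_gt_atTop 1] with T h1 h2 h3 hT1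
  have hT0 : 0 < T := by linarith
  obtain ⟨ℓ, hℓ⟩ : ∃ ℓ : ℝ, ℓ = Real.log T := ⟨_, rfl⟩
  rw [← hℓ] at h1 h2 h3 ⊢
  have hn2 : 0 ≤ (n:ℝ) ^ 2 := by positivity
  have hℓ4 : 4 ≤ ℓ := by linarith
  obtain ⟨P, hP⟩ : ∃ P : ℕ, P = n ^ 2 + ⌈ℓ⌉₊ := ⟨_, rfl⟩
  have hc1 : ℓ ≤ (⌈ℓ⌉₊ : ℝ) := Nat.le_ceil _
  have hc2 : (⌈ℓ⌉₊ : ℝ) ≤ ℓ + 1 := (Nat.ceil_lt_add_one (by linarith)).le
  have hPr : (P:ℝ) = (n:ℝ) ^ 2 + (⌈ℓ⌉₊ : ℝ) := by rw [hP]; push_cast; ring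
  have hPℓ : ℓ ≤ P := by rw [hPr]; linarith
  have hPℓ2 : (P:ℝ) ≤ ℓ ^ 2 := by rw [hPr]; nlinarith
  have hP3 : 3 ≤ P := by
    have : (3:ℝ) ≤ P := by linarith
    exact_mod_cast this
  have hP0 : (0:ℝ) < P := by linarith
  have hlogP1 : 1 ≤ Real.log P := h2.trans (Real.log_le_log (by linarith) hPℓ)
  have hlogP2 : Real.log P ≤ 2 * Real.log ℓ := by
    have h4 := Real.log_le_log hP0 hPℓ2
    rw [Real.log_pow] at h4
    exact_mod_cast h4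
  obtain ⟨x, hx⟩ : ∃ x : ℝ, x = ν * ℓ / (b * Real.log P) := ⟨_, rfl⟩
  have hbP : 1 ≤ b * Real.log P := one_le_mul_of_one_le_of_one_le hbr hlogP1
  have hx2 : ν * ℓ / (2 * b * Real.log ℓ) ≤ x := by
    rw [hx]
    have h5 : b * Real.log P ≤ 2 * b * Real.log ℓ := by
      calc b * Real.log P ≤ b * (2 * Real.log ℓ) := by gcongr
        _ = _ := by ring
    gcongr
  have hxℓ : x ≤ ℓ := by
    rw [hx, div_le_iff₀ (by linarith)]
    have : 0 ≤ ℓ := by linarith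
    nlinarith
  have hx0' : 0 ≤ x := by linarith
  obtain ⟨K, hK⟩ : ∃ K : ℕ, K = ⌊x⌋₊ := ⟨_, rfl⟩
  have hKx : (K:ℝ) ≤ x := by rw [hK]; exact Nat.floor_le hx0'
  have hKx2 : x - 1 ≤ K := by
    rw [hK]
    have := Nat.lt_floor_add_one x
    linarith
  have hK1 : (1:ℝ) ≤ K := by linarith
  have hKlow : ν * ℓ / (2 * b * Real.log ℓ) / 2 ≤ K := by linarith
  obtain ⟨a, ha⟩ : ∃ a : ℝ, a = η * Real.sqrt K := ⟨_, rfl⟩
  have hsqK1 : 1 ≤ Real.sqrt K := Real.one_le_sqrt.mpr hK1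
  have hsqK2 : Real.sqrt K ^ 2 = K := Real.sq_sqrt (by linarith)
  have hsqK3 : Real.sqrt K ≤ K := by nlinarith
  have ha0 : 0 ≤ a := by rw [ha]; positivity
  have haK : a ≤ K := by
    rw [ha]
    calc η * Real.sqrt K ≤ 1 * K := by gcongr
      _ = K := one_mul _
  have ha2 : a ^ 2 ≤ η * K := by
    rw [ha, mul_pow, hsqK2]
    have : η ^ 2 ≤ η := by nlinarith
    gcongr
  have ha2K : a ^ 2 ≤ K := by nlinarith
  have hKP : (K:ℝ) ≤ P := by linarith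
  have haη : a ≤ η * K := by rw [ha]; gcongr
  obtain ⟨hs2, hs3⟩ := hPQ P hP3
  refine ⟨PQ P b, a, K, P ^ b, ha0, Nat.one_le_pow _ _ (by omega), fun p hp => (mem_PQ hp).1,
    fun p hp => (mem_PQ hp).2.2, fun p hp => ?_, fun p hp => ?_, fun p hp => ?_, ?_, ?_, ?_⟩
  · have h6 := (mem_PQ hp).2.1
    omega
  · have h6 : (P:ℝ) ≤ p := by exact_mod_cast (mem_PQ hp).2.1.le
    linarith
  · have h6 : (P:ℝ) ≤ p := by exact_mod_cast (mem_PQ hp).2.1.le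
    linarith
  · have e1 : ∑ p ∈ PQ P b, a * (1 + a) / (p:ℝ) = (a + a ^ 2) * ∑ p ∈ PQ P b, 1 / (p:ℝ) := by
      rw [mul_sum]
      refine sum_congr rfl fun p _ => ?_
      ring
    have e2 : (a + a ^ 2) * ∑ p ∈ PQ P b, 1 / (p:ℝ) ≤ K / 4 := by
      calc (a + a ^ 2) * ∑ p ∈ PQ P b, 1 / (p:ℝ) ≤ (2 * (η * K)) * s₁ := by
            gcongr
            linarith
        _ = 2 * K * (η * s₁) := by ring
        _ = K / 4 := by rw [hηs]; ring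
    rw [e1]
    have e3 : (2:ℝ) ^ K = Real.exp (K * Real.log 2) := by
      rw [mul_comm, Real.exp_mul, Real.exp_log (by norm_num), Real.rpow_natCast]
    rw [e3]
    apply Real.exp_le_exp.mpr
    have h7 := Real.log_two_gt_d9
    nlinarith
  · have e1 : (((P ^ b) ^ K : ℕ) : ℝ) = Real.exp (b * K * Real.log P) := by
      push_cast
      rw [← pow_mul, ← Real.rpow_natCast, Real.rpow_def_of_pos hP0]
      congr 1
      push_cast
      ring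
    rw [e1, Real.rpow_def_of_pos hT0, ← hℓ]
    apply Real.exp_le_exp.mpr
    calc b * K * Real.log P = K * (b * Real.log P) := by ring
      _ ≤ x * (b * Real.log P) := by gcongr
      _ = ℓ * ν := by rw [hx]; field_simp
  · have h8 : ν / (4 * b) * (ℓ / Real.log ℓ) ≤ K := by
      refine le_trans (le_of_eq ?_) hKlow
      have : Real.log ℓ ≠ 0 := by linarith
      field_simp
      ring
    have h9 : Real.sqrt (ν / (4 * b)) * Real.sqrt (ℓ / Real.log ℓ) ≤ Real.sqrt K := by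
      rw [← Real.sqrt_mul (by positivity)]
      exact Real.sqrt_le_sqrt h8
    calc η / 4 * Real.sqrt (ν / (4 * b)) * Real.sqrt (ℓ / Real.log ℓ) =
        η / 4 * (Real.sqrt (ν / (4 * b)) * Real.sqrt (ℓ / Real.log ℓ)) := by ring
      _ ≤ η / 4 * Real.sqrt K := by gcongr
      _ = a * 1 / 4 := by rw [ha]; ring
      _ ≤ a * (∑ p ∈ PQ P b, 1 / (p:ℝ)) / 4 := by gcongr

end

end Pool.Agent.R311.SE
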