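import Pool.Agent.R311.SE.X6
import Pool.Agent.R311.SE.X7

set_option autoImplicit false

/-! Large values in a sector in one window: choice of the parameters. -/

namespace Pool.Agent.R311.SE

open Finset MeasureTheory Filter Topology
open Pool.Agent.H306R2
open Pool.Agent.R311.BS (ex gq gq_nonneg FD Lam Lam_ge_one zX ev_small ev_pow ev_rpow_ge
  ev_log_rpow_ge U_lower zX_eq l1)

noncomputable section

lemma gq_val3 {T e H Y Z ρ : ℝ} (hT1 : 1 ≤ T) (he : 0 < e) (hHdef : H = T ^ e)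
    (hY0 : 0 < Y) (hYT : Y ≤ T ^ (e / 40))
    (hZdef : Z = 3 * Y) (hρdef : ρ = 1 / Z) : gq H ρ ≤ Real.exp (-(1 / 36 * T ^ e)) := by
  have hT0 : 0 < T := by linarith
  unfold gq
  apply Real.exp_le_exp.mpr
  have e1 : H ^ 2 = T ^ (2 * e) := by
    rw [hHdef, ← Real.rpow_natCast, ← Real.rpow_mul hT0.le]
    congr 1; push_cast; ring
  have e2 : 1 / 9 * T ^ (-(e / 20)) ≤ ρ ^ 2 := by
    have h1 : Y ^ 2 ≤ T ^ (e / 20) := by
      calc Y ^ 2 ≤ (T ^ (e / 40)) ^ 2 := pow_le_pow_left₀ hY0.le hYT 2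
        _ = T ^ (e / 20) := by
          rw [← Real.rpow_natCast, ← Real.rpow_mul hT0.le]; congr 1; push_cast; ring
    rw [hρdef, hZdef, one_div, one_div, inv_pow, mul_pow, mul_inv, Real.rpow_neg hT0.le]
    norm_num
    apply inv_anti₀ (by positivity) h1
  rw [e1]
  have e3 : T ^ e ≤ T ^ (2 * e) * T ^ (-(e / 20)) := by
    rw [← Real.rpow_add hT0]
    exact Real.rpow_le_rpow_of_exponent_le hT1 (by linarith)
  have e4 : 0 < T ^ (2 * e) := by positivity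
  have e5 := mul_le_mul_of_nonneg_left e2 e4.le
  linarith

lemma ev_res {c₀ c : ℝ} (hc₀ : 0 < c₀) (hc : 0 < c) : ∀ᶠ T : ℝ in atTop,
    1 ≤ c₀ * Real.exp (c * Real.sqrt (Real.log T / Real.log (Real.log T))) := by
  have hL : Tendsto Real.log atTop atTop := Real.tendsto_log_atTop
  have h1 : Tendsto (fun x : ℝ => x / Real.log x) atTop atTop := by
    have h2 := Real.isLittleO_log_id_atTop.tendsto_div_nhds_zero
    have h3 : Tendsto (fun x : ℝ => (Real.log x / x)⁻¹) atTop atTop := by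
      apply Tendsto.inv_tendsto_nhdsGT_zero
      rw [tendsto_nhdsWithin_iff]
      refine ⟨h2, ?_⟩
      filter_upwards [eventually_gt_atTop 1] with x hx
      exact div_pos (Real.log_pos hx) (by linarith)
    refine h3.congr fun x => ?_
    rw [inv_div]
  have h4 : Tendsto (fun T : ℝ => c * Real.sqrt (Real.log T / Real.log (Real.log T))) atTop atTop :=
    (Real.tendsto_sqrt_atTop.comp (h1.comp hL)).const_mul_atTop hc
  have h5 := ((Real.tendsto_exp_atTop.comp h4).const_mul_atTop hc₀).eventually (eventually_ge_atTop 1)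
  exact h5

set_option maxHeartbeats 4000000 in
theorem window_res {ε κ₀ : ℝ} (hε : 0 < ε) (hε1 : ε ≤ 1 / 16) (hκ₀ : κ₀ < 1) :
    ∃ c : ℝ, 0 < c ∧ ∀ᶠ T : ℝ in atTop, ∀ τ : ℝ, T ≤ τ → τ ≤ 3 * T → ∀ u : ℂ, ‖u‖ = 1 → ∀ q : ℝ, 1 ≤ q →
      T ^ (-ε) * Real.exp (c * q * Real.sqrt (Real.log T / Real.log (Real.log T))) ≤
        ∫ t in Set.Ioc (τ - T ^ (2 * ε)) (τ + T ^ (2 * ε)) ∩ SS u κ₀, ‖zl t‖ ^ q * gw τ (T ^ ε) t := by
  have hLam := Lam_ge_one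
  have hLam0 : 0 < Lam := by linarith only [hLam]
  -- the width
  obtain ⟨δ, hδdef⟩ : ∃ δ : ℝ, δ = min (1 / 16) ((1 - κ₀) / 16) := ⟨_, rfl⟩
  have hδ : 0 < δ := by rw [hδdef]; exact lt_min (by norm_num) (by linarith only [hκ₀])
  have hδa : δ ≤ 1 / 16 := by rw [hδdef]; exact min_le_left _ _
  have hδb : δ ≤ (1 - κ₀) / 16 := by rw [hδdef]; exact min_le_right _ _
  obtain ⟨γ, hγ⟩ : ∃ γ : ℝ, γ = Real.cos (Real.pi * δ) := ⟨_, rfl⟩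
  have hγ0 : 0 < γ := by
    rw [hγ]
    apply Real.cos_pos_of_mem_Ioo
    constructor <;> nlinarith [Real.pi_pos]
  have hγ1 : γ < 1 := by
    rw [hγ]
    have h1 : Real.cos (Real.pi * δ) < Real.cos 0 := by
      apply Real.cos_lt_cos_of_nonneg_of_le_pi_div_two le_rfl
      · nlinarith [Real.pi_pos]
      · nlinarith [Real.pi_pos]
    rwa [Real.cos_zero] at h1
  have hlogγ : Real.log γ < 0 := Real.log_neg hγ0 hγ1
  obtain ⟨K, hK⟩ : ∃ K : ℝ, K = 1 / (-(2 * Real.log γ)) := ⟨_, rfl⟩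
  have hKpos : 0 < K := by rw [hK]; apply one_div_pos.mpr; linarith only [hlogγ]
  -- exponents
  obtain ⟨ν, hν⟩ : ∃ ν : ℝ, ν = ε / 80 := ⟨_, rfl⟩
  have hνpos : 0 < ν := by rw [hν]; positivity
  have hν1 : ν ≤ 1 := by rw [hν]; linarith only [hε1]
  -- constants
  obtain ⟨n, hn1, h32, h16, h11⟩ := small_const hδ
  obtain ⟨c₁, hc₁, hpar⟩ := params n hνpos hν1
  obtain ⟨c₀, hc₀def⟩ : ∃ c₀ : ℝ, c₀ = δ ^ 2 * Sd n ((n:ℝ) ^ 2) 0 2 / (64 * Lam * (Cc n + 1)) := ⟨_, rfl⟩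
  have hCc := Cc_nonneg n
  have hA1 : 0 < δ ^ 2 * Sd n ((n:ℝ) ^ 2) 0 2 := by linarith only [h32]
  have hc₀ : 0 < c₀ := by rw [hc₀def]; positivity
  refine ⟨c₁ / 2, by positivity, ?_⟩
  have evS : ∀ᶠ T : ℝ in atTop, 1 ≤ c₀ * Real.exp (c₁ / 2 * Real.sqrt (Real.log T / Real.log (Real.log T))) :=
    ev_res hc₀ (by positivity)
  obtain ⟨B₁, hB₁d⟩ : ∃ B₁ : ℝ, B₁ = ((10:ℝ) ^ 6) ^ 2 := ⟨_, rfl⟩
  have hB₁pos : 0 < B₁ := by rw [hB₁d]; positivity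
  have ev4 := ev_small 24 (1 / 36) ε (4 * ((Lam + 1) * B₁)) (by norm_num) (by positivity)
  have ev5 := ev_small 24 (1 / 2) (2 * ε) (8 * ((Lam + 1) * B₁)) (by norm_num) (by positivity)
  have ev7 := ev_pow (4 * ((Lam + 1) * (1575 * Real.sqrt 2))) (1 / 2 - ε / 2) (by linarith only [hε1])
  have ev8 := ev_pow (4 * 240) (1 / 2 - (4 * ε + ε / 2)) (by linarith only [hε1])
  have ev9 := ev_pow (32 * (K / ε + 1)) (1 / 2 - 3 * ε / 2) (by linarith only [hε1])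
  have ev10 := ev_rpow_ge ((n:ℝ) ^ 2) ν hνpos
  have ev11 : ∀ᶠ T : ℝ in atTop, 10 ≤ Real.log T :=
    Real.tendsto_log_atTop.eventually (eventually_ge_atTop 10)
  have ev12 := ev_pow (1575 * Real.sqrt 2) (1 / 2) (by norm_num)
  have ev13 := ev_pow (30 / δ) (1 - 4 * ε) (by linarith only [hε1])
  have ev14 := ev_rpow_ge 28 (2 * ε) (by positivity)
  have ev15 := ev_pow 4 (1 - 2 * ε) (by linarith only [hε1])
  filter_upwards [hpar, evS, ev4, ev5, ev7, ev8, ev9, ev10, ev11, ev12, ev13, ev14,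
    ev15, eventually_ge_atTop 1000] with T g1 g2 g7 g8 g10 g11 g12 g13 g14 g15 g16 g17 g18 hT τ hτ1 hτ2 u hu q hq
  clear hpar evS ev4 ev5 ev7 ev8 ev9 ev10 ev11 ev12 ev13 ev14 ev15
  obtain ⟨Q, a, Kk, M, ha0, hM1, hQp, hQM, hQn, hQa1, hQa2, hQK, hMK, hgain⟩ := g1
  have hT0 : 0 < T := by linarith only [hT]
  have hT1 : 1 ≤ T := by linarith only [hT]
  obtain ⟨Y, hYdef⟩ : ∃ Y : ℝ, Y = ((M ^ Kk * n ^ 2 : ℕ) : ℝ) := ⟨_, rfl⟩
  have hY1 : 1 ≤ Y := by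
    rw [hYdef]
    have : 1 ≤ M ^ Kk * n ^ 2 := Nat.mul_pos (Nat.pow_pos hM1) (Nat.pow_pos hn1)
    exact_mod_cast this
  have hY0 : 0 < Y := by linarith only [hY1]
  have hYT : Y ≤ T ^ (ε / 40) := by
    rw [hYdef, Nat.cast_mul]
    calc ((M ^ Kk : ℕ) : ℝ) * ((n ^ 2 : ℕ) : ℝ) ≤ T ^ ν * T ^ ν := by
          push_cast at hMK ⊢
          gcongr
      _ = T ^ (ε / 40) := by rw [← Real.rpow_add hT0, hν]; congr 1; ring
  have hY64 : Y ≤ T ^ (1 / 64 : ℝ) :=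
    hYT.trans (Real.rpow_le_rpow_of_exponent_le hT1 (by linarith only [hε1]))
  have hT64 : T ^ (1 / 64 : ℝ) ≤ T := by
    calc T ^ (1 / 64 : ℝ) ≤ T ^ (1:ℝ) := Real.rpow_le_rpow_of_exponent_le hT1 (by norm_num)
      _ = T := Real.rpow_one T
  obtain ⟨B, hBdef⟩ : ∃ B : ℝ, B = Y ^ 5 := ⟨_, rfl⟩
  have hBB : B * B ≤ T ^ (ε / 4) := by
    calc B * B = Y ^ 10 := by rw [hBdef]; ring
      _ ≤ (T ^ (ε / 40)) ^ 10 := pow_le_pow_left₀ hY0.le hYT 10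
      _ = T ^ (ε / 4) := by
          rw [← Real.rpow_natCast, ← Real.rpow_mul hT0.le]; congr 1; push_cast; ring
  have hB0 : 0 ≤ B := by rw [hBdef]; positivity
  have hBB0 : 0 ≤ B * B := mul_self_nonneg B
  have hN2 : B * B ≤ T ^ (ε / 2) :=
    hBB.trans (Real.rpow_le_rpow_of_exponent_le hT1 (by linarith only [hε]))
  obtain ⟨X₀, hX₀⟩ : ∃ X₀ : ℕ, X₀ = ⌈3 * τ⌉₊ := ⟨_, rfl⟩
  have hτ0 : 0 < τ := by linarith only [hτ1, hT0]
  have hX3 : 3 * τ ≤ X₀ := by rw [hX₀]; exact Nat.le_ceil _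
  have hX4 : (X₀:ℝ) ≤ 3 * τ + 1 := by
    rw [hX₀]
    exact (Nat.ceil_lt_add_one (by linarith only [hτ0])).le
  have hXT : (X₀:ℝ) ≤ 10 * T := by linarith only [hX4, hτ2, hT]
  have hXTl : T ≤ (X₀:ℝ) := by linarith only [hX3, hτ1, hT0]
  have hX0 : (0:ℝ) ≤ X₀ := Nat.cast_nonneg _
  have hYX : Y ≤ (X₀:ℝ) := by linarith only [hY64, hT64, hXTl]
  obtain ⟨H, hHdef⟩ : ∃ H : ℝ, H = T ^ ε := ⟨_, rfl⟩
  have hH : 0 < H := by rw [hHdef]; exact Real.rpow_pos_of_pos hT0 _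
  obtain ⟨R, hRdef⟩ : ∃ R : ℝ, R = T ^ (2 * ε) := ⟨_, rfl⟩
  have hR : 0 < R := by rw [hRdef]; exact Real.rpow_pos_of_pos hT0 _
  rw [← hHdef, ← hRdef]
  obtain ⟨Z, hZdef⟩ : ∃ Z : ℝ, Z = 3 * Y := ⟨_, rfl⟩
  have hZ3 : 3 ≤ Z := by rw [hZdef]; linarith only [hY1]
  obtain ⟨ρ, hρdef⟩ : ∃ ρ : ℝ, ρ = 1 / Z := ⟨_, rfl⟩
  have hZ0 : 0 < Z := by linarith only [hZ3]
  have hρ0 : 0 < ρ := by rw [hρdef]; exact one_div_pos.mpr hZ0
  have hρ1 : ρ ≤ 1 := by rw [hρdef, div_le_one hZ0]; linarith only [hZ3]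
  have hZe : Y * Real.exp 1 ≤ Z := by
    rw [hZdef]
    have := Real.exp_one_lt_d9
    nlinarith only [this, hY1]
  obtain ⟨L, hLdef⟩ : ∃ L : ℝ, L = 10 ^ 6 * T ^ 12 := ⟨_, rfl⟩
  have hL : (Y * (X₀:ℝ)) ^ 6 ≤ L := by
    have h1 : Y * (X₀:ℝ) ≤ 10 * T ^ 2 := by
      calc Y * (X₀:ℝ) ≤ T * (10 * T) :=
            mul_le_mul (hY64.trans hT64) hXT hX0 hT0.le
        _ = 10 * T ^ 2 := by ring
    calc (Y * (X₀:ℝ)) ^ 6 ≤ (10 * T ^ 2) ^ 6 := pow_le_pow_left₀ (by positivity) h1 _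
      _ = L := by rw [hLdef]; ring
  have hLL : L * L = B₁ * T ^ 24 := by
    rw [hLdef, hB₁d]; ring
  have hX1 : (1:ℝ) ≤ X₀ := by linarith only [hXTl, hT]
  -- errors
  have hgq := gq_val3 hT1 hε hHdef hY0 hYT hZdef hρdef
  have hRH := RH_val hT0 hHdef hRdef hH
  obtain ⟨e₁, he₁def⟩ : ∃ e₁ : ℝ, e₁ = 1575 * (Real.sqrt 2 * T ^ (-(1 / 2) : ℝ)) := ⟨_, rfl⟩
  have he₁0 : 0 ≤ e₁ := by rw [he₁def]; positivity
  have he₁1 : e₁ ≤ 1 := by rw [he₁def, ← mul_assoc]; exact g15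
  have h4R := R4_le hT0 hRdef g18
  have happ := app_val hT hτ1 h4R hX3 hX4 he₁def
  have hZb0 := Zb_val hT hXT he₁1 happ
  obtain ⟨Zb, hZbdef⟩ : ∃ Zb : ℝ, Zb = 8 * T ^ (1 / 2 : ℝ) := ⟨_, rfl⟩
  have hZb : ∀ t ∈ Set.Ioc (τ - R) (τ + R), ‖zl t‖ ≤ Zb := by
    rw [hZbdef]; exact hZb0
  obtain ⟨w, hw⟩ : ∃ w : ℝ, w = R * (28 + 2 * R) / τ := ⟨_, rfl⟩
  have hR28 : 28 ≤ R := by rw [hRdef]; exact g17
  have hw0 : 0 ≤ w := by rw [hw]; positivity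
  have hwb := w_val hT hτ1 hRdef hR28 hw
  have hZbn : 0 ≤ Zb := by rw [hZbdef]; positivity
  obtain ⟨e₂, he₂def⟩ : ∃ e₂ : ℝ, e₂ = Zb * w := ⟨_, rfl⟩
  have he₂0 : 0 ≤ e₂ := by rw [he₂def]; exact mul_nonneg hZbn hw0
  obtain ⟨Ω, hΩdef⟩ : ∃ Ω : ℝ, Ω = Real.log (τ / (2 * Real.pi)) := ⟨_, rfl⟩
  have hΩ : Real.log T - 2 ≤ Ω := by rw [hΩdef]; exact Om_val hT hτ1
  have hnr := nr_val (q := 1) (N := Y) hT g14 hΩ hX0 hXT (by rw [pow_one]; exact hY64)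
  simp only [pow_one] at hnr
  obtain ⟨ψ, hψ1, hψ2⟩ := phase (τ := τ) (R := R) (by linarith only [hτ1, hT]) hR.le
    (by linarith only [hτ1, hT, h4R, hR]) hu
  rw [← hΩdef, ← hw] at hψ1 hψ2
  have htR : ∀ t ∈ Set.Ioc (τ - R) (τ + R), |t - τ| ≤ R := by
    intro t ht
    have h1 := ht.1
    have h2 := ht.2
    rw [abs_le]; constructor <;> linarith only [h1, h2]
  have hph : ∀ t ∈ Set.Ioc (τ - R) (τ + R), ‖Complex.exp ((ψ : ℂ) * Complex.I) * ex Ω t * zl t -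
      u ^ 2 * (starRingEnd ℂ) (zl t)‖ ≤ e₂ := by
    intro t ht
    refine (hψ1 t (htR t ht)).trans ?_
    rw [he₂def]
    exact mul_le_mul_of_nonneg_right (hZb t ht) hw0
  have hκB := kB_val hδ hwb g16
  have hB : ∀ t ∈ Set.Ioc (τ - R) (τ + R), ∀ n : ℤ, |(Ω * t + ψ) / (2 * Real.pi) - n| < 2 * δ →
      |((starRingEnd ℂ) u * zl t).im| ≤ 8 * δ * ‖zl t‖ := by
    intro t ht n hn
    exact (hψ2 δ t (htR t ht) n hn).trans (mul_le_mul_of_nonneg_right hκB (norm_nonneg _))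
  obtain ⟨D, hDdef⟩ : ∃ D : ℕ, D = ⌈K * Real.log T⌉₊ := ⟨_, rfl⟩
  have hKℓ : 0 < K * Real.log T := mul_pos hKpos (by linarith only [g14])
  have hD : 1 ≤ D := by rw [hDdef]; exact Nat.one_le_ceil_iff.mpr hKℓ
  have hDge : K * Real.log T ≤ D := by rw [hDdef]; exact Nat.le_ceil _
  have hDle : (D:ℝ) ≤ K * Real.log T + 1 := by
    rw [hDdef]; exact (Nat.ceil_lt_add_one hKℓ.le).le
  have hgB : B * B * gq H ρ ≤ 1 := by
    have h1 : B * B ≤ 4 * ((Lam + 1) * B₁) * T ^ 24 := by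
      have h2 : T ^ (ε / 4) ≤ T := by
        calc T ^ (ε / 4) ≤ T ^ (1:ℝ) := Real.rpow_le_rpow_of_exponent_le hT1 (by linarith only [hε1])
          _ = T := Real.rpow_one T
      have h3 : T ≤ T ^ 24 := le_self_pow₀ hT1 (by norm_num)
      have h4 : 1 ≤ 4 * ((Lam + 1) * B₁) := by
        rw [hB₁d]
        have : (1:ℝ) ≤ (Lam + 1) * ((10:ℝ) ^ 6) ^ 2 := one_le_mul_of_one_le_of_one_le (by linarith only [hLam0]) (by norm_num)
        linarith only [this]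
      calc B * B ≤ 1 * T ^ 24 := by linarith only [hBB, h2, h3]
        _ ≤ _ := by gcongr
    have hg0 := gq_nonneg H ρ
    calc B * B * gq H ρ ≤ (4 * ((Lam + 1) * B₁) * T ^ 24) * Real.exp (-(1 / 36 * T ^ ε)) := by gcongr
      _ = 4 * ((Lam + 1) * B₁) * (T ^ 24 * Real.exp (-(1 / 36 * T ^ ε))) := by ring
      _ ≤ 1 := g7
  have hLL0 : 0 ≤ L * L := mul_self_nonneg L
  have hE1 : (Lam + 1) * (L * L * gq H ρ) ≤ 1 / 4 := by
    have h1 : (Lam + 1) * (L * L * gq H ρ) ≤ (Lam + 1) * (L * L * Real.exp (-(1 / 36 * T ^ ε))) := by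
      gcongr
    refine h1.trans ?_
    rw [hLL]
    exact E12_val g7 (by norm_num)
  have hE2 : (Lam + 1) * (L * L * (2 * Real.exp (-(R ^ 2 / (2 * H ^ 2))))) ≤ 1 / 4 := by
    rw [hLL, hRH]
    have h1 := E12_val g8 (by norm_num)
    calc _ = 2 * ((Lam + 1) * (B₁ * T ^ 24 * Real.exp (-(1 / 2 * T ^ (2 * ε))))) := by ring
      _ ≤ 2 * (1 / 8) := by gcongr
      _ = 1 / 4 := by norm_num
  have hE3 := E3_val hT0 hLam0.le hN2 he₁def g10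
  have hE4 : e₂ * (B * B) ≤ 1 / 4 := by
    rw [he₂def]
    exact E4_val hT0 hBB0 hN2 hw0 hZbdef hwb g11
  have hErb : (Lam + 1) * (L * L * gq H ρ + L * L * (2 * Real.exp (-(R ^ 2 / (2 * H ^ 2)))) + e₁ * (B * B)) +
      e₂ * (B * B) ≤ 1 := by
    have : (Lam + 1) * (L * L * gq H ρ + L * L * (2 * Real.exp (-(R ^ 2 / (2 * H ^ 2)))) + e₁ * (B * B)) =
      (Lam + 1) * (L * L * gq H ρ) + (Lam + 1) * (L * L * (2 * Real.exp (-(R ^ 2 / (2 * H ^ 2))))) +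
        (Lam + 1) * (e₁ * (B * B)) := by ring
    linarith only [this, hE1, hE2, hE3, hE4]
  have hTLb : 2 * (2 * D * Real.cos (Real.pi * δ) ^ (2 * D)) * Zb * (B * B) ≤ 1 := by
    rw [hZbdef, ← hγ]
    exact TL_val hT0 hT1 hγ0 hlogγ hK hKpos hε hDge hDle hBB0 hN2 g12
  obtain ⟨E, hEdef⟩ : ∃ E : ℝ, E = Real.exp (a * (∑ p ∈ Q, 1 / (p:ℝ)) / 4) := ⟨_, rfl⟩
  obtain ⟨y, hy⟩ : ∃ y : ℝ, y = c₀ * E := ⟨_, rfl⟩
  have hy' : y = δ ^ 2 * Sd n ((n:ℝ) ^ 2) 0 2 * Real.exp (a * (∑ p ∈ Q, 1 / (p:ℝ)) / 4) /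
      (64 * Lam * (Cc n + 1)) := by
    rw [hy, hc₀def, hEdef]; ring
  have hreso := reso hQp ha0 Kk M n hM1 hn1 hQM hQn hQa1 hQa2 hQK D hD hδ (by linarith only [hδa]) X₀ Y Z ρ τ H R
    e₁ e₂ Ω L B ψ κ₀ (8 * δ) Zb u hu hX1 hYdef hYX hρ0.le hρ1 hZe (le_of_eq hρdef) hH hR he₁0 he₂0 hBdef hL
    (by linarith only [hδ]) (by linarith only [hδa]) (by linarith only [hδb, hκ₀]) happ hnr hph hB hZb h32 h16 h11
    hErb hTLb hgB y hy' q hq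
  obtain ⟨S, hS⟩ : ∃ S : ℝ, S = Real.sqrt (Real.log T / Real.log (Real.log T)) := ⟨_, rfl⟩
  rw [← hS] at hgain g2 ⊢
  have hyS : Real.exp (c₁ / 2 * S) ≤ y := by
    have h1 : Real.exp (c₁ * S) ≤ E := by rw [hEdef]; exact Real.exp_le_exp.mpr hgain
    have h2 : Real.exp (c₁ * S) = Real.exp (c₁ / 2 * S) * Real.exp (c₁ / 2 * S) := by
      rw [← Real.exp_add]; congr 1; ring
    have h3 := Real.exp_pos (c₁ / 2 * S)
    rw [hy]
    calc Real.exp (c₁ / 2 * S) = 1 * Real.exp (c₁ / 2 * S) := (one_mul _).symm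
      _ ≤ (c₀ * Real.exp (c₁ / 2 * S)) * Real.exp (c₁ / 2 * S) := mul_le_mul_of_nonneg_right g2 h3.le
      _ = c₀ * Real.exp (c₁ * S) := by rw [h2]; ring
      _ ≤ c₀ * E := mul_le_mul_of_nonneg_left h1 hc₀.le
  have hyq : Real.exp (c₁ / 2 * q * S) ≤ y ^ q := by
    have h1 : Real.exp (c₁ / 2 * q * S) = Real.exp (c₁ / 2 * S) ^ q := by
      rw [← Real.exp_mul]; congr 1; ring
    rw [h1]
    exact Real.rpow_le_rpow (Real.exp_pos _).le hyS (by linarith only [hq])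
  obtain ⟨J, hJ⟩ : ∃ J : ℝ, J = ∫ t in Set.Ioc (τ - R) (τ + R) ∩ SS u κ₀, ‖zl t‖ ^ q * gw τ H t := ⟨_, rfl⟩
  rw [← hJ] at hreso ⊢
  have hJ0 : 0 ≤ J := by
    rw [hJ]
    refine integral_nonneg fun t => ?_
    have := gw_nonneg τ H t hH
    simp only [Pi.zero_apply]
    positivity
  have hBT : B * B ≤ T ^ ε := hBB.trans (Real.rpow_le_rpow_of_exponent_le hT1 (by linarith only [hε]))
  have hfin : Real.exp (c₁ / 2 * q * S) ≤ T ^ ε * J :=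
    (hyq.trans hreso).trans (mul_le_mul_of_nonneg_right hBT hJ0)
  rw [Real.rpow_neg hT0.le, inv_mul_le_iff₀ (Real.rpow_pos_of_pos hT0 _)]
  exact hfin

end

end Pool.Agent.R311.SE
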