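import Pool.Agent.R311.SE.V3
import Pool.Agent.R311.SE.R6
import Pool.Agent.R311.SE.X8

set_option autoImplicit false

/-! Large values of zeta exactly on a prescribed ray, in one window. -/

namespace Pool.Agent.R311.SE

open Finset MeasureTheory Filter Topology
open Pool.Agent.W188.QS (cp XX)
open Pool.Agent.H306R2
open Pool.Agent.R311.BS (ex ex_norm gq gq_nonneg gq_far Lam Lam_ge_one zX ev_small ev_pow ev_rpow_ge
  ev_log_rpow_ge U_lower zX_eq l1)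
open Pool.Agent.R311.AP (mass_le gwk_summable Kw mem_Kw sum_Kw_le)

noncomputable section

lemma grid_one {Ω ψ α β : ℝ} (hΩ0 : 0 < Ω) (hα : α = 2 * Real.pi / Ω) (hβ : β = -ψ / Ω) (k : ℤ) :
    Complex.exp ((ψ : ℂ) * Complex.I) * ex Ω (α * k + β) = 1 := by
  unfold ex
  rw [← Complex.exp_add, Complex.exp_eq_one_iff]
  refine ⟨k, ?_⟩
  have e1 : ψ + Ω * (α * k + β) = k * (2 * Real.pi) := by
    rw [hα, hβ]; field_simp; ring
  have e2 : (ψ : ℂ) * Complex.I + ((Ω * (α * k + β) : ℝ) : ℂ) * Complex.I =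
      ((ψ + Ω * (α * k + β) : ℝ) : ℂ) * Complex.I := by
    push_cast; ring
  rw [e2, e1]
  push_cast
  ring

lemma to_ray {τ R Ω ψ w α β y : ℝ} {u : ℂ} (hu : ‖u‖ = 1) (hτR : 51 ≤ τ - R)
    (hw0 : 0 < w) (hw1 : w ≤ 1 / 10) (hΩ : 2 ≤ Ω) (hα : α = 2 * Real.pi / Ω)
    (hβ : β = -ψ / Ω)
    (hlin : ∀ t : ℝ, |t - τ| ≤ R + 1 →
      ‖Complex.exp ((ψ : ℂ) * Complex.I) * ex Ω t - u ^ 2 * XX (cp t)‖ ≤ w)
    (hlip : ∀ s t : ℝ, |s - τ| ≤ R + 1 → |t - τ| ≤ R + 1 → |t - s| ≤ 2 * w / Ω → ‖zl t - zl s‖ ≤ 1 / 4)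
    (hy : 1 / 2 ≤ y) (k : ℤ) (hk : k ∈ Kw α β τ R) (hkS : α * k + β ∈ SS u (1 / 2))
    (hky : y < ‖zl (α * k + β)‖) :
    ∃ t r : ℝ, |t - τ| ≤ R + 1 ∧ y - 1 / 4 ≤ r ∧ riemannZeta (1 / 2 + t * Complex.I) = r * u := by
  have hpi := Real.pi_pos
  have hΩ0 : 0 < Ω := by linarith
  have hα0 : 0 < α := by rw [hα]; positivity
  have hη1 : 2 * w / Ω ≤ 1 := by
    rw [div_le_one hΩ0]; linarith
  rw [mem_Kw hα0] at hk
  have hs1 := grid_one hΩ0 hα hβ k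
  obtain ⟨s, hs⟩ : ∃ s : ℝ, s = α * (k:ℝ) + β := ⟨_, rfl⟩
  rw [← hs] at hk hkS hky hs1
  have hsR : |s - τ| ≤ R := by
    rw [abs_le]; constructor <;> linarith [hk.1, hk.2]
  obtain ⟨t, ht1, ht2⟩ := exact_pt hu hτR hw0 hw1 hΩ hsR hlin hs1
  have hst := abs_le.mp ht1
  have hsR' := abs_le.mp hsR
  have htR : |t - τ| ≤ R + 1 := by
    rw [abs_le]; constructor <;> linarith
  have hsR1 : |s - τ| ≤ R + 1 := by linarith
  have hL := hlip s t hsR1 htR ht1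
  have hS : 1 / 2 * ‖zl s‖ < ((starRingEnd ℂ) u * zl s).re := hkS
  have hre : 0 < ((starRingEnd ℂ) u * zl t).re := by
    have h5 : ((starRingEnd ℂ) u * zl s).re - ((starRingEnd ℂ) u * zl t).re ≤ 1 / 4 := by
      rw [← Complex.sub_re, ← mul_sub]
      refine (Complex.re_le_norm _).trans ?_
      rw [norm_mul, RCLike.norm_conj, hu, one_mul, norm_sub_rev]
      exact hL
    linarith
  have ht1' : 1 ≤ t := by linarith
  obtain ⟨r, hr0, hr⟩ := on_ray hu ht1' ht2 hre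
  refine ⟨t, r, htR, ?_, hr⟩
  have h6 : ‖zl t‖ = r := by
    have : zl t = r * u := hr
    rw [this, norm_mul, hu, mul_one, Complex.norm_real, Real.norm_of_nonneg hr0.le]
  have h7 := norm_sub_norm_le (zl s) (zl t)
  rw [norm_sub_rev] at h7
  linarith

set_option maxHeartbeats 4000000 in
theorem window_ext {ε : ℝ} (hε : 0 < ε) (hε1 : ε ≤ 1 / 16) :
    ∃ c : ℝ, 0 < c ∧ ∀ᶠ T : ℝ in atTop, ∀ τ : ℝ, T ≤ τ → τ ≤ 3 * T → ∀ u : ℂ, ‖u‖ = 1 →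
      ∃ t r : ℝ, |t - τ| ≤ T ^ (2 * ε) + 1 ∧
        Real.exp (c * Real.sqrt (Real.log T / Real.log (Real.log T))) ≤ r ∧
        riemannZeta (1 / 2 + t * Complex.I) = r * u := by
  have hLam := Lam_ge_one
  have hLam0 : 0 < Lam := by linarith only [hLam]
  have hpi := Real.pi_pos
  -- exponents
  obtain ⟨ν, hν⟩ : ∃ ν : ℝ, ν = ε / 80 := ⟨_, rfl⟩
  have hνpos : 0 < ν := by rw [hν]; positivity
  have hν1 : ν ≤ 1 := by rw [hν]; linarith only [hε1]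
  -- constants
  obtain ⟨n, hn1, h32, h16, h11⟩ := small_const (δ := 1) one_pos
  simp only [one_pow, one_mul] at h32 h16 h11
  obtain ⟨c₁, hc₁, hpar⟩ := params n hνpos hν1
  obtain ⟨c₀, hc₀def⟩ : ∃ c₀ : ℝ, c₀ = Sd n ((n:ℝ) ^ 2) 0 2 / (64 * (Cc n + 1)) := ⟨_, rfl⟩
  have hCc := Cc_nonneg n
  have hA1 : 0 < Sd n ((n:ℝ) ^ 2) 0 2 := by linarith only [h32]
  have hc₀ : 0 < c₀ := by rw [hc₀def]; positivity
  refine ⟨c₁ / 2, by positivity, ?_⟩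
  have evS : ∀ᶠ T : ℝ in atTop, 1 ≤ c₀ / 2 * Real.exp (c₁ / 2 * Real.sqrt (Real.log T / Real.log (Real.log T))) :=
    ev_res (by positivity) (by positivity)
  obtain ⟨B₁, hB₁d⟩ : ∃ B₁ : ℝ, B₁ = ((10:ℝ) ^ 6) ^ 2 := ⟨_, rfl⟩
  have hB₁pos : 0 < B₁ := by rw [hB₁d]; positivity
  have ev4 := ev_small 24 (1 / 36) ε (12 * ((Lam + 1) * B₁)) (by norm_num) (by positivity)
  have ev5 := ev_small 24 (1 / 2) (2 * ε) (24 * ((Lam + 1) * B₁)) (by norm_num) (by positivity)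
  have ev7 := ev_pow (12 * ((Lam + 1) * (1575 * Real.sqrt 2))) (1 / 2 - ε / 2) (by linarith only [hε1])
  have ev8 := ev_pow (4 * 240) (1 / 2 - (4 * ε + ε / 2)) (by linarith only [hε1])
  have ev10 := ev_rpow_ge ((n:ℝ) ^ 2) ν hνpos
  have ev11 : ∀ᶠ T : ℝ in atTop, 10 ≤ Real.log T :=
    Real.tendsto_log_atTop.eventually (eventually_ge_atTop 10)
  have ev12 := ev_pow (16 * (1575 * Real.sqrt 2)) (1 / 2) (by norm_num)
  have ev13 := ev_pow 40 (1 - 4 * ε) (by linarith only [hε1])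
  have ev14 := ev_rpow_ge 28 (2 * ε) (by positivity)
  have ev15 := ev_pow 8 (1 - 2 * ε) (by linarith only [hε1])
  have ev16 := ev_pow (448 / ε) (1 / 2 - 5 * ε) (by linarith only [hε1])
  have ev18 := ev_rpow_ge 4 ε hε
  filter_upwards [hpar, evS, ev4, ev5, ev7, ev8, ev10, ev11, ev12, ev13, ev14,
    ev15, ev16, ev18, eventually_ge_atTop 1000] with T g1 g2 g7 g8 g10 g11 g13 g14 g15 g16 g17 g18 g19 g21 hT τ hτ1 hτ2 u hu
  clear hpar evS ev4 ev5 ev7 ev8 ev10 ev11 ev12 ev13 ev14 ev15 ev16 ev18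
  obtain ⟨Q, a, Kk, M, ha0, hM1, hQp, hQM, hQn, hQa1, hQa2, hQK, hMK, hgain⟩ := g1
  have hT0 : 0 < T := by linarith only [hT]
  have hT1 : 1 ≤ T := by linarith only [hT]
  obtain ⟨Y, hYdef⟩ : ∃ Y : ℝ, Y = ((M ^ Kk * n ^ 2 : ℕ) : ℝ) := ⟨_, rfl⟩
  have hY1 : 1 ≤ Y := by
    rw [hYdef]
    have : 1 ≤ M ^ Kk * n ^ 2 := Nat.mul_pos (Nat.pow_pos hM1) (Nat.pow_pos hn1)
    exact_mod_cast this
  have hY0 : 0 < Y := by linarith only [hY1]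
  have hYT : Y ≤ T ^ (ε / 40) := by
    rw [hYdef, Nat.cast_mul]
    calc ((M ^ Kk : ℕ) : ℝ) * ((n ^ 2 : ℕ) : ℝ) ≤ T ^ ν * T ^ ν := by
          push_cast at hMK ⊢
          gcongr
      _ = T ^ (ε / 40) := by rw [← Real.rpow_add hT0, hν]; congr 1; ring
  have hY64 : Y ≤ T ^ (1 / 64 : ℝ) :=
    hYT.trans (Real.rpow_le_rpow_of_exponent_le hT1 (by linarith only [hε1]))
  have hT64 : T ^ (1 / 64 : ℝ) ≤ T := by
    calc T ^ (1 / 64 : ℝ) ≤ T ^ (1:ℝ) := Real.rpow_le_rpow_of_exponent_le hT1 (by norm_num)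
      _ = T := Real.rpow_one T
  obtain ⟨B, hBdef⟩ : ∃ B : ℝ, B = Y ^ 5 := ⟨_, rfl⟩
  have hBB : B * B ≤ T ^ (ε / 4) := by
    calc B * B = Y ^ 10 := by rw [hBdef]; ring
      _ ≤ (T ^ (ε / 40)) ^ 10 := pow_le_pow_left₀ hY0.le hYT 10
      _ = T ^ (ε / 4) := by
          rw [← Real.rpow_natCast, ← Real.rpow_mul hT0.le]; congr 1; push_cast; ring
  have hB0 : 0 ≤ B := by rw [hBdef]; positivity
  have hBB0 : 0 ≤ B * B := mul_self_nonneg B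
  have hN2 : B * B ≤ T ^ (ε / 2) :=
    hBB.trans (Real.rpow_le_rpow_of_exponent_le hT1 (by linarith only [hε]))
  obtain ⟨X₀, hX₀⟩ : ∃ X₀ : ℕ, X₀ = ⌈3 * τ⌉₊ := ⟨_, rfl⟩
  have hτ0 : 0 < τ := by linarith only [hτ1, hT0]
  have hX3 : 3 * τ ≤ X₀ := by rw [hX₀]; exact Nat.le_ceil _
  have hX4 : (X₀:ℝ) ≤ 3 * τ + 1 := by
    rw [hX₀]
    exact (Nat.ceil_lt_add_one (by linarith only [hτ0])).le
  have hXT : (X₀:ℝ) ≤ 10 * T := by linarith only [hX4, hτ2, hT]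
  have hXTl : T ≤ (X₀:ℝ) := by linarith only [hX3, hτ1, hT0]
  have hX1r : (1:ℝ) ≤ X₀ := by linarith only [hXTl, hT1]
  have hX1 : 1 ≤ X₀ := by exact_mod_cast hX1r
  have hX0 : (0:ℝ) ≤ X₀ := Nat.cast_nonneg _
  have hYX : Y ≤ (X₀:ℝ) := by linarith only [hY64, hT64, hXTl]
  obtain ⟨H, hHdef⟩ : ∃ H : ℝ, H = T ^ ε := ⟨_, rfl⟩
  have hH4 : 4 ≤ H := by rw [hHdef]; exact g21
  have hH : 0 < H := by linarith only [hH4]
  obtain ⟨R, hRdef⟩ : ∃ R : ℝ, R = T ^ (2 * ε) := ⟨_, rfl⟩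
  have hR28 : 28 ≤ R := by rw [hRdef]; exact g17
  have hR : 0 < R := by linarith only [hR28]
  rw [← hRdef]
  obtain ⟨Z, hZdef⟩ : ∃ Z : ℝ, Z = 3 * Y := ⟨_, rfl⟩
  have hZ3 : 3 ≤ Z := by rw [hZdef]; linarith only [hY1]
  obtain ⟨ρ, hρdef⟩ : ∃ ρ : ℝ, ρ = 1 / Z := ⟨_, rfl⟩
  have hZ0 : 0 < Z := by linarith only [hZ3]
  have hρ0 : 0 < ρ := by rw [hρdef]; exact one_div_pos.mpr hZ0
  have hρ1 : ρ ≤ 1 := by rw [hρdef, div_le_one hZ0]; linarith only [hZ3]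
  have hZe : Y * Real.exp 1 ≤ Z := by
    rw [hZdef]
    have := Real.exp_one_lt_d9
    nlinarith only [this, hY1]
  obtain ⟨L, hLdef⟩ : ∃ L : ℝ, L = 10 ^ 6 * T ^ 12 := ⟨_, rfl⟩
  have hL : (Y * (X₀:ℝ)) ^ 6 ≤ L := by
    have h1 : Y * (X₀:ℝ) ≤ 10 * T ^ 2 := by
      calc Y * (X₀:ℝ) ≤ T * (10 * T) :=
            mul_le_mul (hY64.trans hT64) hXT hX0 hT0.le
        _ = 10 * T ^ 2 := by ring
    calc (Y * (X₀:ℝ)) ^ 6 ≤ (10 * T ^ 2) ^ 6 := pow_le_pow_left₀ (by positivity) h1 _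
      _ = L := by rw [hLdef]; ring
  have hL1 : 1 ≤ L := by
    rw [hLdef]
    exact one_le_mul_of_one_le_of_one_le (by norm_num) (one_le_pow₀ hT1)
  have hLL : L * L = B₁ * T ^ 24 := by
    rw [hLdef, hB₁d]; ring
  -- errors
  have hgq := gq_val3 hT1 hε hHdef hY0 hYT hZdef hρdef
  have hRH := RH_val hT0 hHdef hRdef hH
  obtain ⟨e₁, he₁def⟩ : ∃ e₁ : ℝ, e₁ = 1575 * (Real.sqrt 2 * T ^ (-(1 / 2) : ℝ)) := ⟨_, rfl⟩
  have he₁0 : 0 ≤ e₁ := by rw [he₁def]; positivity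
  have he₁1 : e₁ ≤ 1 / 16 := by
    have e1 : e₁ = (16 * (1575 * Real.sqrt 2) * T ^ (-(1 / 2) : ℝ)) / 16 := by rw [he₁def]; ring
    rw [e1]
    linarith only [g15]
  have h8R := RK_le hT0 hRdef g18
  have h4R : 4 * (R + 2) ≤ T := by linarith only [h8R, hR28]
  have happ2 := app_val hT hτ1 h4R hX3 hX4 he₁def
  have happ : ∀ t ∈ Set.Ioc (τ - R) (τ + R), ‖zl t - zX X₀ t‖ ≤ e₁ := by
    intro t ht
    have k1 := ht.1
    have k2 := ht.2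
    exact happ2 t ⟨by linarith only [k1], by linarith only [k2]⟩
  have hZb0 := Zb_val hT hXT (by linarith only [he₁1]) happ
  obtain ⟨Zb, hZbdef⟩ : ∃ Zb : ℝ, Zb = 8 * T ^ (1 / 2 : ℝ) := ⟨_, rfl⟩
  have hZb : ∀ t ∈ Set.Ioc (τ - R) (τ + R), ‖zl t‖ ≤ Zb := by
    rw [hZbdef]; exact hZb0
  obtain ⟨w, hw⟩ : ∃ w : ℝ, w = (R + 1) * (28 + 2 * (R + 1)) / τ := ⟨_, rfl⟩
  have hw0 : 0 < w := by rw [hw]; positivity
  have hwb := w_val2 hT hτ1 hRdef hR28 hw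
  have hw1 : w ≤ 1 / 10 := by linarith only [hwb, g16]
  have hZbn : 0 ≤ Zb := by rw [hZbdef]; positivity
  obtain ⟨e₂, he₂def⟩ : ∃ e₂ : ℝ, e₂ = Zb * w := ⟨_, rfl⟩
  have he₂0 : 0 ≤ e₂ := by rw [he₂def]; exact mul_nonneg hZbn hw0.le
  obtain ⟨Ω, hΩdef⟩ : ∃ Ω : ℝ, Ω = Real.log (τ / (2 * Real.pi)) := ⟨_, rfl⟩
  have hΩ : Real.log T - 2 ≤ Ω := by rw [hΩdef]; exact Om_val hT hτ1
  have hΩ2 : 2 ≤ Ω := by linarith only [hΩ, g14]
  have hΩ0 : 0 < Ω := by linarith only [hΩ2]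
  have hnr := nr_val (q := 1) (N := Y) hT g14 hΩ hX0 hXT (by rw [pow_one]; exact hY64)
  have hnr1 := nr1_val (q := 1) (N := Y) hT g14 hΩ (by rw [pow_one]; exact hY64)
  simp only [pow_one] at hnr hnr1
  obtain ⟨ψ, hψ⟩ := phaseL (τ := τ) (R := R + 1) (by linarith only [hτ1, hT])
    (by linarith only [hτ1, hT, h4R, hR]) hu
  rw [← hΩdef, ← hw] at hψ
  obtain ⟨α, hαdef⟩ : ∃ α : ℝ, α = 2 * Real.pi / Ω := ⟨_, rfl⟩
  obtain ⟨β, hβdef⟩ : ∃ β : ℝ, β = -ψ / Ω := ⟨_, rfl⟩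
  have hα0 : 0 < α := by rw [hαdef]; positivity
  have hαΩ : 2 * Real.pi / α = Ω := by rw [hαdef]; field_simp
  have hβΩ : -(Ω * β) = ψ := by rw [hβdef]; field_simp
  have hy : 1 ≤ H ^ 2 * (2 * Real.pi / α) ^ 2 / 16 := by
    rw [hαΩ]
    have k1 : 16 ≤ H ^ 2 := by nlinarith only [hH4]
    have k2 : 4 ≤ Ω ^ 2 := by nlinarith only [hΩ2]
    nlinarith only [k1, k2]
  have hLL0 : 0 ≤ L * L := mul_self_nonneg L
  have hE1 : (Lam + 1) * (L * L * gq H ρ) ≤ 1 / 12 := by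
    have h1 : (Lam + 1) * (L * L * gq H ρ) ≤ (Lam + 1) * (L * L * Real.exp (-(1 / 36 * T ^ ε))) := by
      gcongr
    refine h1.trans ?_
    rw [hLL]
    exact E12_val g7 (by norm_num)
  have hy2 : Lam * Real.exp (-(H ^ 2 * (2 * Real.pi / α) ^ 2 / 16)) ≤ 1 := by
    rw [hαΩ]
    have k1 := exp_le_gq H Ω hΩ2
    have k2 : gq H 1 ≤ gq H ρ := gq_far H 1 ρ hρ0.le (by rw [abs_one]; exact hρ1)
    have k3 := gq_nonneg H ρ
    have k4 : 1 ≤ L * L := one_le_mul_of_one_le_of_one_le hL1 hL1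
    calc Lam * Real.exp (-(H ^ 2 * Ω ^ 2 / 16)) ≤ (Lam + 1) * (L * L * gq H ρ) := by
          refine mul_le_mul (by linarith only) ?_ (Real.exp_pos _).le (by linarith only [hLam0])
          refine (k1.trans k2).trans ?_
          nlinarith only [k3, k4]
      _ ≤ 1 := by linarith only [hE1]
  have hτR : 51 ≤ τ - R := by linarith only [hτ1, hT, h4R, hR]
  have hph : ∀ t ∈ Set.Ioc (τ - R) (τ + R), ‖ex 1 (-(2 * Real.pi / α * β)) * ex (2 * Real.pi / α) t * zl t -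
      u ^ 2 * (starRingEnd ℂ) (zl t)‖ ≤ e₂ := by
    intro t ht
    have k1 := ht.1
    have k2 := ht.2
    rw [hαΩ, hβΩ, fe (by linarith only [k1, hτR])]
    have e0 : ex 1 ψ = Complex.exp ((ψ : ℂ) * Complex.I) := by unfold ex; rw [one_mul]
    have e1 : ex 1 ψ * ex Ω t * zl t - u ^ 2 * (XX (cp t) * zl t) =
        (Complex.exp ((ψ : ℂ) * Complex.I) * ex Ω t - u ^ 2 * XX (cp t)) * zl t := by rw [e0]; ring
    rw [e1, norm_mul, he₂def, mul_comm Zb w]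
    have htR : |t - τ| ≤ R + 1 := by rw [abs_le]; constructor <;> linarith only [k1, k2]
    exact mul_le_mul (hψ t htR) (hZb t ht) (norm_nonneg _) hw0.le
  have hB : ∀ k ∈ Kw α β τ R, |((starRingEnd ℂ) u * zl (α * k + β)).im| ≤ w / 2 * ‖zl (α * k + β)‖ := by
    intro k hk
    rw [mem_Kw hα0] at hk
    have k1 := hk.1
    have k2 := hk.2
    refine im_small hu (by linarith only [k1, hτR]) ?_
    have htR : |(α * k + β) - τ| ≤ R + 1 := by rw [abs_le]; constructor <;> linarith only [k1, k2]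
    have h1 := hψ _ htR
    rwa [grid_one hΩ0 hαdef hβdef k] at h1
  have hE2 : (Lam + 1) * (L * L * (2 * Real.exp (-(R ^ 2 / (2 * H ^ 2))))) ≤ 1 / 12 := by
    rw [hLL, hRH]
    have h1 := E12_val g8 (by norm_num)
    calc _ = 2 * ((Lam + 1) * (B₁ * T ^ 24 * Real.exp (-(1 / 2 * T ^ (2 * ε))))) := by ring
      _ ≤ 2 * (1 / 24) := by gcongr
      _ = 1 / 12 := by norm_num
  have hE3 := E3_val2 hT0 hLam0.le hN2 he₁def g10
  have hE4 : e₂ * (B * B) ≤ 1 / 4 := by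
    rw [he₂def]
    exact E4_val2 hT0 hBB0 hN2 hw0.le hZbdef hwb g11
  have hErb : 3 * ((Lam + 1) * (L * L * gq H ρ + L * L * (2 * Real.exp (-(R ^ 2 / (2 * H ^ 2)))) +
      e₁ * (B * B))) + e₂ * (B * B) ≤ 1 := by
    have : (Lam + 1) * (L * L * gq H ρ + L * L * (2 * Real.exp (-(R ^ 2 / (2 * H ^ 2)))) + e₁ * (B * B)) =
      (Lam + 1) * (L * L * gq H ρ) + (Lam + 1) * (L * L * (2 * Real.exp (-(R ^ 2 / (2 * H ^ 2))))) +
        (Lam + 1) * (e₁ * (B * B)) := by ring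
    linarith only [this, hE1, hE2, hE3, hE4]
  have hgB : (Lam + 5) * (B * B * gq H ρ) ≤ 1 := by
    have h1 : (Lam + 5) * (B * B) ≤ 12 * ((Lam + 1) * B₁) * T ^ 24 := by
      have h2 : T ^ (ε / 4) ≤ T := by
        calc T ^ (ε / 4) ≤ T ^ (1:ℝ) := Real.rpow_le_rpow_of_exponent_le hT1 (by linarith only [hε1])
          _ = T := Real.rpow_one T
      have h3 : T ≤ T ^ 24 := le_self_pow₀ hT1 (by norm_num)
      have h4 : Lam + 5 ≤ 12 * ((Lam + 1) * B₁) := by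
        rw [hB₁d]
        nlinarith only [hLam]
      have h5 : B * B ≤ T ^ 24 := by linarith only [hBB, h2, h3]
      exact mul_le_mul h4 h5 hBB0 (by positivity)
    have hg0 := gq_nonneg H ρ
    calc (Lam + 5) * (B * B * gq H ρ) = ((Lam + 5) * (B * B)) * gq H ρ := by ring
      _ ≤ (12 * ((Lam + 1) * B₁) * T ^ 24) * Real.exp (-(1 / 36 * T ^ ε)) := by gcongr
      _ = 12 * ((Lam + 1) * B₁) * (T ^ 24 * Real.exp (-(1 / 36 * T ^ ε))) := by ring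
      _ ≤ 1 := g7
  obtain ⟨E, hEdef⟩ : ∃ E : ℝ, E = Real.exp (a * (∑ p ∈ Q, 1 / (p:ℝ)) / 4) := ⟨_, rfl⟩
  obtain ⟨y, hyd⟩ : ∃ y : ℝ, y = c₀ * E := ⟨_, rfl⟩
  have hy' : y = Sd n ((n:ℝ) ^ 2) 0 2 * Real.exp (a * (∑ p ∈ Q, 1 / (p:ℝ)) / 4) /
      (64 * (Cc n + 1)) := by
    rw [hyd, hc₀def, hEdef]; ring
  obtain ⟨k, hk, hkS, hky⟩ := resoD hQp ha0 Kk M n hM1 hn1 hQM hQn hQa1 hQa2 hQK X₀ Y Z ρ τ H R
    e₁ e₂ L B α β (1 / 2) (w / 2) u hu hX1r hYdef hYX hρ0.le hρ1 hZe (le_of_eq hρdef) hH hR he₁0 he₂0 hBdef hL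
    (by linarith only [hw0]) (by linarith only [hw1]) (by linarith only [hw1]) hα0 (by rw [hαΩ]; exact hΩ2) hy hy2
    happ (by rw [hαΩ]; exact hnr) (by rw [hαΩ]; exact hnr1) hph hB h32 h16 h11 hErb hgB y hy'
  obtain ⟨S, hS⟩ : ∃ S : ℝ, S = Real.sqrt (Real.log T / Real.log (Real.log T)) := ⟨_, rfl⟩
  rw [← hS] at hgain g2 ⊢
  have hS0 : 0 ≤ S := by rw [hS]; exact Real.sqrt_nonneg _
  have hexp1 : 1 ≤ Real.exp (c₁ / 2 * S) := Real.one_le_exp (by positivity)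
  have hyS : 2 * Real.exp (c₁ / 2 * S) ≤ y := by
    have h1 : Real.exp (c₁ * S) ≤ E := by rw [hEdef]; exact Real.exp_le_exp.mpr hgain
    have h2 : Real.exp (c₁ * S) = Real.exp (c₁ / 2 * S) * Real.exp (c₁ / 2 * S) := by
      rw [← Real.exp_add]; congr 1; ring
    have h3 := Real.exp_pos (c₁ / 2 * S)
    rw [hyd]
    calc 2 * Real.exp (c₁ / 2 * S) = 2 * (1 * Real.exp (c₁ / 2 * S)) := by rw [one_mul]
      _ ≤ 2 * ((c₀ / 2 * Real.exp (c₁ / 2 * S)) * Real.exp (c₁ / 2 * S)) := by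
          have := mul_le_mul_of_nonneg_right g2 h3.le
          linarith only [this]
      _ = c₀ * Real.exp (c₁ * S) := by rw [h2]; ring
      _ ≤ c₀ * E := mul_le_mul_of_nonneg_left h1 hc₀.le
  obtain ⟨t, r, h1, h2, h3⟩ := to_ray hu hτR hw0 hw1 hΩ2 hαdef hβdef hψ
    (lip_val hT hX1 hXT hε g14 hw0.le hwb he₁1 hΩ2 happ2 g19) (by linarith only [hyS, hexp1]) k hk hkS hky
  exact ⟨t, r, h1, by linarith only [h2, hyS, hexp1], h3⟩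

end

end Pool.Agent.R311.SE
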