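import Pool.Agent.R311.SE.V4

set_option autoImplicit false

/-! Many large values of zeta exactly on a prescribed ray. -/

namespace Pool.Agent.R311.SE

open Finset Filter Topology
open Pool.Agent.H306R2
open Pool.Agent.R311.BS (ev_rpow_ge)

noncomputable section

theorem ext_pts {ε : ℝ} (hε : 0 < ε) :
    ∃ c : ℝ, 0 < c ∧ ∀ᶠ T : ℝ in atTop, ∀ H : ℝ, T ^ ε ≤ H → H ≤ T → ∀ u : ℂ, ‖u‖ = 1 →
      ∃ F : Finset ℝ, H * T ^ (-ε) ≤ F.card ∧ ∀ t ∈ F, T ≤ t ∧ t ≤ T + H ∧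
        ∃ r : ℝ, Real.exp (c * Real.sqrt (Real.log T / Real.log (Real.log T))) ≤ r ∧
          riemannZeta (1 / 2 + t * Complex.I) = r * u := by
  classical
  obtain ⟨e, he⟩ : ∃ e : ℝ, e = min (ε / 4) (1 / 16) := ⟨_, rfl⟩
  have he0 : 0 < e := by rw [he]; exact lt_min (by positivity) (by norm_num)
  have he1 : e ≤ 1 / 16 := by rw [he]; exact min_le_right _ _
  have he2 : e ≤ ε / 4 := by rw [he]; exact min_le_left _ _
  obtain ⟨c, hc, h⟩ := window_ext he0 he1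
  refine ⟨c, hc, ?_⟩
  filter_upwards [h, ev_rpow_ge 12 (ε / 2) (by positivity), eventually_ge_atTop 1000] with T hw g1 hT H hH1 hH2 u hu
  have hT0 : 0 < T := by linarith
  have hT1 : 1 ≤ T := by linarith
  obtain ⟨S, hS⟩ : ∃ S : ℝ, S = Real.sqrt (Real.log T / Real.log (Real.log T)) := ⟨_, rfl⟩
  rw [← hS] at hw ⊢
  obtain ⟨A, hA⟩ : ∃ A : ℝ, A = T ^ (2 * e) := ⟨_, rfl⟩
  have hA1 : 1 ≤ A := by rw [hA]; exact Real.one_le_rpow hT1 (by positivity)
  obtain ⟨D, hD⟩ : ∃ D : ℝ, D = A + 1 := ⟨_, rfl⟩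
  have hD0 : 0 < D := by linarith
  have hD2 : D ≤ 2 * A := by linarith
  have hAε : 12 * A ≤ T ^ ε := by
    calc 12 * A ≤ T ^ (ε / 2) * T ^ (2 * e) := by rw [hA]; gcongr
      _ = T ^ (ε / 2 + 2 * e) := by rw [← Real.rpow_add hT0]
      _ ≤ T ^ ε := Real.rpow_le_rpow_of_exponent_le hT1 (by linarith)
  obtain ⟨m, hm⟩ : ∃ m : ℕ, m = ⌊H / (3 * D)⌋₊ := ⟨_, rfl⟩
  have hH0 : 0 < H := lt_of_lt_of_le (by positivity) hH1
  have hmH : 3 * D * m ≤ H := by
    have hmle : (m:ℝ) ≤ H / (3 * D) := by rw [hm]; exact Nat.floor_le (by positivity)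
    rw [le_div_iff₀ (by positivity)] at hmle
    linarith
  have hj : ∀ j : ℕ, j < m → 3 * D * j + 3 * D ≤ H := by
    intro j hj
    have hjm : (j:ℝ) + 1 ≤ m := by exact_mod_cast hj
    have : 3 * D * ((j:ℝ) + 1) ≤ 3 * D * m := mul_le_mul_of_nonneg_left hjm (by positivity)
    linarith
  have hpt : ∀ j : ℕ, j < m → ∃ t : ℝ, |t - (T + D + 3 * D * j)| ≤ D ∧
      ∃ r : ℝ, Real.exp (c * S) ≤ r ∧ riemannZeta (1 / 2 + t * Complex.I) = r * u := by
    intro j hjm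
    have h1 := hj j hjm
    have h2 : 0 ≤ 3 * D * (j:ℝ) := by positivity
    obtain ⟨t, r, k1, k2, k3⟩ := hw (T + D + 3 * D * j) (by linarith) (by linarith) u hu
    rw [← hA, ← hD] at k1
    exact ⟨t, k1, r, k2, k3⟩
  choose! g hg1 hg2 using hpt
  have hinj : Set.InjOn g ((range m : Finset ℕ) : Set ℕ) := by
    intro i hi j hj' hij
    rw [mem_coe, mem_range] at hi hj'
    by_contra hne
    have h2 := abs_le.mp (hg1 i hi)
    have h3 := abs_le.mp (hg1 j hj')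
    rw [hij] at h2
    have h4 : |3 * D * ((i:ℝ) - j)| ≤ 2 * D := by
      rw [abs_le]; constructor <;> linarith
    have h5 : (1:ℝ) ≤ |(i:ℝ) - j| := by
      have h6 : (1:ℤ) ≤ |(i:ℤ) - (j:ℤ)| := Int.one_le_abs (by
        intro h7
        apply hne
        have : (i:ℤ) = j := by linarith
        exact_mod_cast this)
      exact_mod_cast h6
    rw [abs_mul, abs_of_pos (by positivity : (0:ℝ) < 3 * D)] at h4
    have h6 : 3 * D * 1 ≤ 3 * D * |(i:ℝ) - j| := mul_le_mul_of_nonneg_left h5 (by positivity)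
    linarith
  refine ⟨(range m).image g, ?_, ?_⟩
  · rw [card_image_of_injOn hinj, card_range]
    have h1 : H / (3 * D) < m + 1 := by rw [hm]; exact Nat.lt_floor_add_one _
    have h2 : H / (6 * A) ≤ H / (3 * D) := div_le_div_of_nonneg_left hH0.le (by positivity) (by linarith)
    have h3 : 2 ≤ H / (6 * A) := by
      rw [le_div_iff₀ (by positivity)]
      linarith
    have h4 : H * T ^ (-ε) ≤ H / (12 * A) := by
      rw [Real.rpow_neg hT0.le, ← div_eq_mul_inv]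
      exact div_le_div_of_nonneg_left hH0.le (by positivity) hAε
    have h5 : H / (12 * A) = H / (6 * A) / 2 := by field_simp; ring
    linarith
  · intro t ht
    rw [mem_image] at ht
    obtain ⟨j, hjm, rfl⟩ := ht
    rw [mem_range] at hjm
    have h1 := hj j hjm
    have h2 : 0 ≤ 3 * D * (j:ℝ) := by positivity
    have h3 := abs_le.mp (hg1 j hjm)
    exact ⟨by linarith, by linarith, hg2 j hjm⟩

theorem main_ext (ε : ℝ) (hε : 0 < ε) :
    ∃ c : ℝ, 0 < c ∧ ∀ᶠ T : ℝ in atTop, ∀ H : ℝ, T ^ ε ≤ H → H ≤ T → ∀ u : ℂ, ‖u‖ = 1 →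
      (RY u T (T + H)).Finite ∧
      H * T ^ (-ε) ≤ ({t : ℝ | T ≤ t ∧ t ≤ T + H ∧
        ∃ r : ℝ, Real.exp (c * Real.sqrt (Real.log T / Real.log (Real.log T))) ≤ r ∧
          riemannZeta (1 / 2 + t * Complex.I) = r * u}.ncard : ℝ) ∧
      ∀ q : ℝ, 0 ≤ q →
      H * T ^ (-ε) * Real.exp (c * q * Real.sqrt (Real.log T / Real.log (Real.log T))) ≤
        ∑ᶠ t ∈ RY u T (T + H), ‖zl t‖ ^ q := by
  obtain ⟨c, hc, h⟩ := ext_pts hε
  refine ⟨c, hc, ?_⟩
  filter_upwards [h, eventually_ge_atTop 1000] with T hT hT1 H hH1 hH2 u hu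
  have hT0 : 0 < T := by linarith
  obtain ⟨F, hF1, hF2⟩ := hT H hH1 hH2 u hu
  have hfin := RY_finite hu (A := T) (B := T + H) (by linarith)
  obtain ⟨S, hS⟩ : ∃ S : ℝ, S = Real.sqrt (Real.log T / Real.log (Real.log T)) := ⟨_, rfl⟩
  rw [← hS] at hF2 ⊢
  have hsub : {t : ℝ | T ≤ t ∧ t ≤ T + H ∧ ∃ r : ℝ, Real.exp (c * S) ≤ r ∧
      riemannZeta (1 / 2 + t * Complex.I) = r * u} ⊆ RY u T (T + H) := by
    rintro t ⟨h1, h2, r, h3, h4⟩
    exact ⟨h1, h2, r, (Real.exp_pos _).trans_le h3, h4⟩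
  refine ⟨hfin, ?_, ?_⟩
  · refine hF1.trans ?_
    have h1 : (F : Set ℝ) ⊆ {t : ℝ | T ≤ t ∧ t ≤ T + H ∧ ∃ r : ℝ, Real.exp (c * S) ≤ r ∧
      riemannZeta (1 / 2 + t * Complex.I) = r * u} := fun t ht => hF2 t ht
    have h2 := Set.ncard_le_ncard h1 (hfin.subset hsub)
    rw [Set.ncard_coe_finset] at h2
    exact_mod_cast h2
  · intro q hq
    rw [finsum_mem_eq_finite_toFinset_sum _ hfin]
    have hFs : F ⊆ hfin.toFinset := by
      intro t ht
      rw [Set.Finite.mem_toFinset]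
      exact hsub (hF2 t ht)
    calc H * T ^ (-ε) * Real.exp (c * q * S) ≤ F.card * Real.exp (c * q * S) := by gcongr
      _ = ∑ _t ∈ F, Real.exp (c * q * S) := by rw [sum_const, nsmul_eq_mul]
      _ ≤ ∑ t ∈ F, ‖zl t‖ ^ q := by
          refine sum_le_sum fun t ht => ?_
          obtain ⟨-, -, r, h3, h4⟩ := hF2 t ht
          have h6 : ‖zl t‖ = r := by
            have h7 : zl t = r * u := h4
            rw [h7, norm_mul, hu, mul_one, Complex.norm_real, Real.norm_of_nonneg ((Real.exp_pos _).le.trans h3)]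
          have e1 : Real.exp (c * q * S) = Real.exp (c * S) ^ q := by
            rw [← Real.exp_mul]; congr 1; ring
          rw [e1, h6]
          exact Real.rpow_le_rpow (Real.exp_pos _).le h3 hq
      _ ≤ ∑ t ∈ hfin.toFinset, ‖zl t‖ ^ q :=
          sum_le_sum_of_subset_of_nonneg hFs fun t _ _ => by positivity

end

end Pool.Agent.R311.SE
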