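import Pool.Agent.R311.SE.E
import Pool.Agent.R311.SE.X1

set_option autoImplicit false

/-! The core inequality in one window, arbitrary polynomials. -/

namespace Pool.Agent.R311.SE

open Finset MeasureTheory Filter Topology
open Pool.Agent.H306R2 Pool.Agent.R311.BS

noncomputable section

theorem coreG (f g h : ArithmeticFunction ℝ) (D : ℕ) (hD : 1 ≤ D) {δ : ℝ} (hδ : 0 ≤ δ) (hδ1 : δ ≤ 1 / 4)
    (X Y Z ρ τ H R e₁ e₂ Ω L B ψ κ₀ κ₁ Zb : ℝ) (u : ℂ) (hu : ‖u‖ = 1) (hX1 : 1 ≤ X) (hY1 : 1 ≤ Y)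
    (hρ : 0 ≤ ρ) (hρ1 : ρ ≤ 1)
    (hZ : Y * Real.exp 1 ≤ Z) (hρ2 : ρ ≤ 1 / Z) (hH : 0 < H) (hR : 0 < R) (he₁ : 0 ≤ e₁) (he₂ : 0 ≤ e₂)
    (hfs : ∀ n : ℕ, Y < n → f n = 0) (hgs : ∀ n : ℕ, Y < n → g n = 0) (hhs : ∀ n : ℕ, Y < n → h n = 0)
    (hLf : l1 (zf f X) (Y * X) ≤ L) (hLg : l1 (zf g X) (Y * X) ≤ L) (hLh : l1 (zf h X) (Y * X) ≤ L)
    (hBf : l1 f Y ≤ B) (hBg : l1 g Y ≤ B) (hBh : l1 h Y ≤ B) (hBL : B ≤ L)
    (hfg : ∀ t : ℝ, ‖FL f Y t‖ * ‖FL g Y t‖ = ‖FL h Y t‖ ^ 2)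
    (hSfg : 0 ≤ Sg f g X Y) (hSgf : 0 ≤ Sg g f X Y) (hShh : 0 ≤ Sg h h X Y) (hκ₁ : 0 ≤ κ₁) (hκ1 : κ₁ ≤ 1 / 2) (hκ : κ₀ < 1 - κ₁)
    (happ : ∀ t ∈ Set.Ioc (τ - R) (τ + R), ‖zl t - zX X t‖ ≤ e₁)
    (hnr : ∀ m : ℤ, m ≠ 0 → m ≠ 1 → ∀ n l : ℕ, 1 ≤ n → (n:ℝ) ≤ Y * X → 1 ≤ l → (l:ℝ) ≤ Y →
      1 ≤ |m * Ω - Real.log n + Real.log l|)
    (hph : ∀ t ∈ Set.Ioc (τ - R) (τ + R), ‖Complex.exp ((ψ : ℂ) * Complex.I) * ex Ω t * zl t -
      u ^ 2 * (starRingEnd ℂ) (zl t)‖ ≤ e₂)
    (hB : ∀ t ∈ Set.Ioc (τ - R) (τ + R), ∀ n : ℤ, |(Ω * t + ψ) / (2 * Real.pi) - n| < 2 * δ →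
      |((starRingEnd ℂ) u * zl t).im| ≤ κ₁ * ‖zl t‖)
    (hZb : ∀ t ∈ Set.Ioc (τ - R) (τ + R), ‖zl t‖ ≤ Zb) :
    1 / 2 * (δ ^ 2 * Sg f g X Y - Sg g f X Y -
        ((Lam + 1) * (L * L * gq H ρ + L * L * (2 * Real.exp (-(R ^ 2 / (2 * H ^ 2)))) +
          e₁ * (B * B)) + e₂ * (B * B))) - 2 * Sg h h X Y -
        ((Lam + 1) * (L * L * gq H ρ + L * L * (2 * Real.exp (-(R ^ 2 / (2 * H ^ 2)))) +
          e₁ * (B * B)) + e₂ * (B * B)) -
        2 * (2 * D * Real.cos (Real.pi * δ) ^ (2 * D)) * Zb * (B * B) ≤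
      2 * (Lam * ∫ t in Set.Ioc (τ - R) (τ + R) ∩ SS u κ₀, ‖zl t‖ * ‖FL h Y t‖ ^ 2 * gw τ H t) := by
  have hLam := Lam_ge_one
  have hδ1' : δ ≤ 1 := by linarith
  set I := Set.Ioc (τ - R) (τ + R) with hI
  have hImeas : MeasurableSet I := measurableSet_Ioc
  have hgwI := gw_integrable τ H hH
  obtain ⟨Er, hEr⟩ : ∃ Er : ℝ, Er = (Lam + 1) * (L * L * gq H ρ +
    L * L * (2 * Real.exp (-(R ^ 2 / (2 * H ^ 2)))) + e₁ * (B * B)) + e₂ * (B * B) := ⟨_, rfl⟩
  have hlw1 := LWg f g D hD hδ hδ1' X Y Z ρ τ H R e₁ e₂ Ω L B ψ (u ^ 2) (by rw [norm_pow, hu, one_pow]) hX1 hY1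
    hfs hgs hρ hρ1 hZ hρ2 hH hR.le he₁ he₂ hLf hLg hBf hBg hBL happ hnr hph
  have hlw2 := LWg h h D hD hδ hδ1' X Y Z ρ τ H R e₁ e₂ Ω L B ψ (u ^ 2) (by rw [norm_pow, hu, one_pow]) hX1 hY1
    hhs hhs hρ hρ1 hZ hρ2 hH hR.le he₁ he₂ hLh hLh hBh hBh hBL happ hnr hph
  rw [← hEr] at hlw1 hlw2
  have hB0 : 0 ≤ B := (l1_nonneg _ _).trans hBf
  have hcD0 : cD D δ 0 = δ ^ 2 := cD_zero D δ
  have hcD1 : 0 ≤ cD D δ 1 := cD_nonneg _ _ _
  have hcD1' : cD D δ 1 ≤ 1 := by
    have := cD_le D δ hδ hδ1' 1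
    unfold lam at this
    simpa using this
  -- continuity
  have c1 := FL_cont f Y
  have c2 := FL_cont g Y
  have c3 := FL_cont h Y
  have c4 := zl_cont
  have c7 : Continuous fun t : ℝ => gw τ H t := gw_continuous τ H
  have c9 : Continuous fun t : ℝ => Wk D δ Ω ψ t := Wk_cont D δ Ω ψ
  have c10 : Continuous fun t : ℝ => ((starRingEnd ℂ) u * zl t).re :=
    Complex.continuous_re.comp (continuous_const.mul c4)
  have hcI : ∀ F : ℝ → ℂ, Continuous F → IntegrableOn F I := fun F hF =>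
    (hF.integrableOn_Icc (a := τ - R) (b := τ + R)).mono_set Set.Ioc_subset_Icc_self
  have hcIr : ∀ F : ℝ → ℝ, Continuous F → IntegrableOn F I := fun F hF =>
    (hF.integrableOn_Icc (a := τ - R) (b := τ + R)).mono_set Set.Ioc_subset_Icc_self
  set W := Wk D δ Ω ψ with hW
  have hW0 : ∀ t, 0 ≤ W t := fun t => Wk_nonneg D hδ Ω ψ t
  have hW1 : ∀ t, W t ≤ Lam := fun t => Wk_le D hδ hδ1' Ω ψ t
  -- the mass
  set FM : ℝ → ℝ := fun t => W t * ‖zl t‖ * ‖FL h Y t‖ ^ 2 * gw τ H t with hFM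
  set FR : ℝ → ℝ := fun t => W t * ((starRingEnd ℂ) u * zl t).re * ‖FL h Y t‖ ^ 2 * gw τ H t with hFR
  have cFM : Continuous FM := by rw [hFM]; fun_prop
  have cFR : Continuous FR := by rw [hFR]; fun_prop
  have hFM0 : ∀ t, 0 ≤ FM t := by
    intro t
    have a1 := hW0 t
    have a2 := gw_nonneg τ H t hH
    rw [hFM]; simp only
    positivity
  set MW := ∫ t in I, FM t with hMW
  have hMW0 : 0 ≤ MW := setIntegral_nonneg hImeas fun t _ => hFM0 t
  have hMW1 : δ ^ 2 * Sg f g X Y - Sg g f X Y - Er ≤ MW := by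
    have h1 := hlw1
    set J := ∫ t in I, ((W t : ℝ) : ℂ) *
        (zl t * FL f Y t * (starRingEnd ℂ) (FL g Y t)) * (gw τ H t : ℂ) with hJ
    have h2 : ‖J‖ ≤ MW := by
      refine (norm_integral_le_integral_norm _).trans (le_of_eq ?_)
      refine setIntegral_congr_fun hImeas fun t _ => ?_
      have a2 := gw_nonneg τ H t hH
      rw [norm_mul, norm_mul, norm_mul, norm_mul, RCLike.norm_conj,
        Complex.norm_real, Complex.norm_real, Real.norm_of_nonneg a2, Real.norm_of_nonneg (hW0 t), hFM]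
      simp only
      rw [← hfg t]; ring
    have h3 : ‖(cD D δ 0 : ℂ) * ((Sg f g X Y : ℝ) : ℂ) +
        (cD D δ 1 : ℂ) * u ^ 2 * ((Sg g f X Y : ℝ) : ℂ)‖ ≥
        δ ^ 2 * Sg f g X Y - Sg g f X Y := by
      have h4 := norm_sub_norm_le ((cD D δ 0 : ℂ) * ((Sg f g X Y : ℝ) : ℂ))
        (-((cD D δ 1 : ℂ) * u ^ 2 * ((Sg g f X Y : ℝ) : ℂ)))
      rw [sub_neg_eq_add, norm_neg, norm_mul, norm_mul, norm_mul, norm_pow, hu, one_pow, mul_one,
        Complex.norm_real, Complex.norm_real, Complex.norm_real, Complex.norm_real,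
        Real.norm_of_nonneg (hSfg), Real.norm_of_nonneg (hSgf),
        Real.norm_of_nonneg hcD1, hcD0, Real.norm_of_nonneg (by positivity : (0:ℝ) ≤ δ ^ 2)] at h4
      have h5 : cD D δ 1 * Sg g f X Y ≤ 1 * Sg g f X Y :=
        mul_le_mul_of_nonneg_right hcD1' (hSgf)
      rw [hcD0]
      linarith
    have h6 := norm_sub_norm_le ((cD D δ 0 : ℂ) * ((Sg f g X Y : ℝ) : ℂ) +
        (cD D δ 1 : ℂ) * u ^ 2 * ((Sg g f X Y : ℝ) : ℂ)) J
    rw [norm_sub_rev] at h6
    linarith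
  have hFR1 : -(2 * Sg h h X Y + Er) ≤ ∫ t in I, FR t := by
    have h1 := hlw2
    set J := ∫ t in I, ((W t : ℝ) : ℂ) *
        (zl t * FL h Y t * (starRingEnd ℂ) (FL h Y t)) * (gw τ H t : ℂ) with hJ
    have h2 : ∫ t in I, FR t = ((starRingEnd ℂ) u * J).re := by
      have hc : Continuous fun t : ℝ => (starRingEnd ℂ) u * (((W t : ℝ) : ℂ) *
        (zl t * FL h Y t * (starRingEnd ℂ) (FL h Y t)) * (gw τ H t : ℂ)) := by
        have c5 : Continuous fun t : ℝ => (starRingEnd ℂ) (FL h Y t) := Complex.continuous_conj.comp c3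
        have c8 : Continuous fun t : ℝ => ((gw τ H t : ℝ) : ℂ) := Complex.continuous_ofReal.comp c7
        have c11 : Continuous fun t : ℝ => ((W t : ℝ) : ℂ) := Complex.continuous_ofReal.comp c9
        fun_prop
      rw [hJ, ← integral_const_mul]
      have h3 := integral_re (hcI _ hc)
      have h4 : ∀ z : ℂ, RCLike.re z = z.re := fun z => rfl
      simp only [h4] at h3
      rw [← h3]
      refine setIntegral_congr_fun hImeas fun t _ => ?_
      have e1 : (starRingEnd ℂ) u * (((W t : ℝ) : ℂ) *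
        (zl t * FL h Y t * (starRingEnd ℂ) (FL h Y t)) * (gw τ H t : ℂ)) =
        ((W t * ‖FL h Y t‖ ^ 2 * gw τ H t : ℝ) : ℂ) * ((starRingEnd ℂ) u * zl t) := by
        have e2 : FL h Y t * (starRingEnd ℂ) (FL h Y t) = ((‖FL h Y t‖ ^ 2 : ℝ) : ℂ) := by
          rw [Complex.mul_conj, Complex.normSq_eq_norm_sq]
        calc _ = ((W t : ℝ) : ℂ) * (FL h Y t * (starRingEnd ℂ) (FL h Y t)) *
              (gw τ H t : ℂ) * ((starRingEnd ℂ) u * zl t) := by ring
          _ = _ := by rw [e2]; push_cast; ring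
      rw [e1, Complex.re_ofReal_mul, hFR]
      ring
    rw [h2]
    have h5 : ‖J‖ ≤ 2 * Sg h h X Y + Er := by
      have h6 : ‖(cD D δ 0 : ℂ) * ((Sg h h X Y : ℝ) : ℂ) +
        (cD D δ 1 : ℂ) * u ^ 2 * ((Sg h h X Y : ℝ) : ℂ)‖ ≤ 2 * Sg h h X Y := by
        refine (norm_add_le _ _).trans ?_
        rw [norm_mul, norm_mul, norm_mul, norm_pow, hu, one_pow, mul_one, Complex.norm_real,
          Complex.norm_real, Complex.norm_real, Real.norm_of_nonneg (hShh),
          Real.norm_of_nonneg hcD1, hcD0, Real.norm_of_nonneg (by positivity : (0:ℝ) ≤ δ ^ 2)]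
        have h7 := hShh
        have h8 : δ ^ 2 ≤ 1 := pow_le_one₀ hδ hδ1'
        nlinarith
      have h7 := norm_sub_norm_le J ((cD D δ 0 : ℂ) * ((Sg h h X Y : ℝ) : ℂ) +
        (cD D δ 1 : ℂ) * u ^ 2 * ((Sg h h X Y : ℝ) : ℂ))
      linarith
    have h8 : |((starRingEnd ℂ) u * J).re| ≤ ‖J‖ := by
      refine (Complex.abs_re_le_norm _).trans (le_of_eq ?_)
      rw [norm_mul, RCLike.norm_conj, hu, one_mul]
    have h9 := (abs_le.mp h8).1
    linarith
  -- the tail of the kernel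
  set TL := 2 * (D:ℝ) * Real.cos (Real.pi * δ) ^ (2 * D) with hTL
  have hcos : 0 ≤ Real.cos (Real.pi * δ) := by
    apply Real.cos_nonneg_of_mem_Icc
    constructor <;> nlinarith [Real.pi_pos]
  have hTL0 : 0 ≤ TL := by positivity
  have hSm := SS_meas u κ₀
  have hsum : ∫ t in I, (FM t + FR t) ≤ 2 * (∫ t in I ∩ SS u κ₀, FM t) + κ₁ * MW +
      2 * TL * Zb * (B * B) := by
    have e1 : ∫ t in I ∩ SS u κ₀, FM t = ∫ t in I, (SS u κ₀).indicator FM t := by
      rw [integral_indicator hSm, Measure.restrict_restrict hSm, Set.inter_comm]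
    have hi1 : IntegrableOn (fun t => (SS u κ₀).indicator FM t) I := (hcIr FM cFM).indicator hSm
    have hi2 : IntegrableOn (fun t => 2 * TL * Zb * (B * B) * gw τ H t) I :=
      (hgwI.const_mul _).integrableOn
    have hi12 : IntegrableOn (fun t => 2 * (SS u κ₀).indicator FM t + κ₁ * FM t) I :=
      (hi1.const_mul 2).add ((hcIr FM cFM).const_mul κ₁)
    calc ∫ t in I, (FM t + FR t) ≤ ∫ t in I, (2 * (SS u κ₀).indicator FM t + κ₁ * FM t +
          2 * TL * Zb * (B * B) * gw τ H t) := by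
          refine setIntegral_mono_on ((hcIr FM cFM).add (hcIr FR cFR)) (hi12.add hi2) hImeas fun t ht => ?_
          have hg := gw_nonneg τ H t hH
          have hw := hW0 t
          have hz := hZb t ht
          have hz0 : 0 ≤ ‖zl t‖ := norm_nonneg _
          have ha := (FL_norm h Y t).trans hBh
          have hnw : ‖(starRingEnd ℂ) u * zl t‖ = ‖zl t‖ := by
            rw [norm_mul, RCLike.norm_conj, hu, one_mul]
          have hre : ((starRingEnd ℂ) u * zl t).re ≤ ‖zl t‖ := by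
            rw [← hnw]; exact Complex.re_le_norm _
          have hind : 0 ≤ (SS u κ₀).indicator FM t := Set.indicator_nonneg (fun t _ => hFM0 t) t
          have hPow : 0 ≤ ‖FL h Y t‖ ^ 2 := by positivity
          have hPow2 : ‖FL h Y t‖ ^ 2 ≤ (B * B) := by
            rw [sq]; exact mul_le_mul ha ha (norm_nonneg _) hB0
          by_cases hn : ∃ n : ℤ, |(Ω * t + ψ) / (2 * Real.pi) - n| < 2 * δ
          · obtain ⟨n, hn⟩ := hn
            have him := hB t ht n hn
            rw [← hnw] at him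
            have hp := point hκ him
            rw [hnw] at hp
            have hlast : 0 ≤ 2 * TL * Zb * (B * B) * gw τ H t := by
              have : 0 ≤ Zb := hz0.trans hz
              positivity
            have hFMt : FM t = W t * ‖zl t‖ * ‖FL h Y t‖ ^ 2 * gw τ H t := rfl
            have hFRt : FR t = W t * ((starRingEnd ℂ) u * zl t).re * ‖FL h Y t‖ ^ 2 * gw τ H t := rfl
            have hK : 0 ≤ W t * ‖FL h Y t‖ ^ 2 * gw τ H t := by positivity
            have hFM0t := hFM0 t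
            rcases hp with hp | hp | hp
            · have h1 : FM t + FR t ≤ κ₁ * FM t := by
                have h2 := mul_le_mul_of_nonneg_left hp hK
                rw [hFMt, hFRt]
                nlinarith
              linarith
            · have h3 : (SS u κ₀).indicator FM t = FM t := Set.indicator_of_mem (show t ∈ SS u κ₀ from hp) FM
              have h1 : FR t ≤ FM t := by
                have h2 := mul_le_mul_of_nonneg_left hre hK
                rw [hFMt, hFRt]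
                nlinarith
              rw [h3]
              have h4 : 0 ≤ κ₁ * FM t := by positivity
              linarith
            · have h1 : FM t + FR t = 0 := by
                rw [hFMt, hFRt, ← hnw, hp]
                simp
              rw [h1]
              have h4 : 0 ≤ κ₁ * FM t := by positivity
              linarith
          · have htail : W t ≤ TL := by
              refine FD_tail D hD δ _ hδ hδ1 fun n => ?_
              push Not at hn
              exact hn n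
            have hK : 0 ≤ ‖FL h Y t‖ ^ 2 * gw τ H t := by positivity
            have h1 : FM t + FR t ≤ 2 * (W t * ‖zl t‖ * ‖FL h Y t‖ ^ 2 * gw τ H t) := by
              have h2 := mul_le_mul_of_nonneg_left hre (mul_nonneg hw hK)
              rw [hFM, hFR]
              simp only
              nlinarith
            have h2 : W t * ‖zl t‖ * ‖FL h Y t‖ ^ 2 * gw τ H t ≤ TL * Zb * (B * B) * gw τ H t := by
              have : 0 ≤ Zb := hz0.trans hz
              gcongr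
            have h4 : 0 ≤ κ₁ * FM t := mul_nonneg hκ₁ (hFM0 t)
            linarith
      _ = 2 * (∫ t in I ∩ SS u κ₀, FM t) + κ₁ * MW + ∫ t in I, 2 * TL * Zb * (B * B) * gw τ H t := by
          rw [integral_add hi12 hi2, integral_add (hi1.const_mul 2) ((hcIr FM cFM).const_mul κ₁),
            integral_const_mul, integral_const_mul, e1]
      _ ≤ _ := by
          have h1 : ∫ t in I, 2 * TL * Zb * (B * B) * gw τ H t ≤ 2 * TL * Zb * (B * B) := by
            rw [integral_const_mul]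
            have h2 : ∫ t in I, gw τ H t ≤ 1 := by
              rw [← gw_integral τ H hH]
              exact setIntegral_le_integral hgwI (Eventually.of_forall fun t => gw_nonneg τ H t hH)
            have ht : τ ∈ I := by
              rw [hI]
              constructor <;> linarith
            have hzb : 0 ≤ Zb := (norm_nonneg _).trans (hZb τ ht)
            have : 0 ≤ 2 * TL * Zb * (B * B) := by positivity
            nlinarith
          linarith
  rw [integral_add (hcIr FM cFM) (hcIr FR cFR)] at hsum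
  have hG1 : ∫ t in I ∩ SS u κ₀, FM t ≤ Lam * ∫ t in I ∩ SS u κ₀, ‖zl t‖ * ‖FL h Y t‖ ^ 2 * gw τ H t := by
    have hIS : MeasurableSet (I ∩ SS u κ₀) := hImeas.inter hSm
    have cc : Continuous fun t => ‖zl t‖ * ‖FL h Y t‖ ^ 2 * gw τ H t := by fun_prop
    rw [← integral_const_mul]
    refine setIntegral_mono_on ((hcIr FM cFM).mono_set Set.inter_subset_left)
      (((hcIr _ cc).mono_set Set.inter_subset_left).const_mul _) hIS fun t ht => ?_
    have hg := gw_nonneg τ H t hH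
    have hw1 := hW1 t
    calc FM t = W t * (‖zl t‖ * ‖FL h Y t‖ ^ 2 * gw τ H t) := by rw [hFM]; ring
      _ ≤ Lam * (‖zl t‖ * ‖FL h Y t‖ ^ 2 * gw τ H t) := by gcongr
  have hhalf : 1 / 2 * MW ≤ (1 - κ₁) * MW := by nlinarith
  have hm : 1 / 2 * (δ ^ 2 * Sg f g X Y - Sg g f X Y - Er) ≤ 1 / 2 * MW := by linarith
  rw [← hEr]
  have e9 : (∫ t in I, FM t) = MW := rfl
  rw [e9] at hsum
  linarith

end

end Pool.Agent.R311.SE
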