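import Pool.Agent.R311.SE.X1

set_option autoImplicit false

/-! Diagonal sums of products with disjoint prime supports. -/

namespace Pool.Agent.R311.SE

open Finset MeasureTheory Filter Topology
open Pool.Agent.H306R2 Pool.Agent.R311.BS

noncomputable section

lemma dsum (F : ℕ → ℝ) (f g : ArithmeticFunction ℝ) (A B N : ℕ) (hf : ∀ n, A < n → f n = 0)
    (hg : ∀ n, B < n → g n = 0) (hN : A * B ≤ N) :
    ∑ n ∈ Icc 1 N, F n * (f * g) n = ∑ a ∈ Icc 1 A, ∑ b ∈ Icc 1 B, F (a * b) * (f a * g b) := by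
  rw [← sum_product']
  have hmaps : ∀ p ∈ (Icc 1 A) ×ˢ (Icc 1 B), p.1 * p.2 ∈ Icc 1 N := by
    intro p hp
    rw [mem_product, mem_Icc, mem_Icc] at hp
    rw [mem_Icc]
    refine ⟨Nat.mul_pos hp.1.1 hp.2.1, (Nat.mul_le_mul hp.1.2 hp.2.2).trans hN⟩
  rw [← sum_fiberwise_of_maps_to hmaps]
  refine sum_congr rfl fun n hn => ?_
  rw [mem_Icc] at hn
  rw [ArithmeticFunction.mul_apply, mul_sum]
  symm
  refine sum_subset_zero_on_sdiff ?_ ?_ ?_
  · intro p hp
    rw [mem_filter] at hp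
    rw [Nat.mem_divisorsAntidiagonal]
    exact ⟨hp.2, by omega⟩
  · intro p hp
    rw [Finset.mem_sdiff, Nat.mem_divisorsAntidiagonal, mem_filter, mem_product, mem_Icc, mem_Icc] at hp
    obtain ⟨⟨h1, h2⟩, h3⟩ := hp
    by_cases ha : A < p.1
    · rw [hf _ ha]; ring
    · by_cases hb : B < p.2
      · rw [hg _ hb]; ring
      · exfalso
        apply h3
        have h4 : p.1 ≠ 0 := by
          intro h; rw [h, zero_mul] at h1; omega
        have h5 : p.2 ≠ 0 := by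
          intro h; rw [h, mul_zero] at h1; omega
        exact ⟨⟨⟨by omega, by omega⟩, by omega, by omega⟩, h1⟩
  · intro p hp
    rw [mem_filter] at hp
    rw [hp.2]

lemma zf_val (f : ArithmeticFunction ℝ) (N : ℕ) (X : ℝ) (hf : ∀ n, N < n → f n = 0) (n : ℕ) (hn : 1 ≤ n)
    (hnX : (n:ℝ) ≤ X) : zf f X n = ∑ k ∈ Icc 1 N, (if k ∣ n then (1:ℝ) else 0) * f k := by
  unfold zf
  rw [ArithmeticFunction.mul_apply]
  have h1 : ∑ x ∈ n.divisorsAntidiagonal, f x.1 * cA 1 X 1 x.2 = ∑ x ∈ n.divisorsAntidiagonal, f x.1 := by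
    refine sum_congr rfl fun x hx => ?_
    rw [Nat.mem_divisorsAntidiagonal] at hx
    have h2 : 1 ≤ x.2 := by
      rcases Nat.eq_zero_or_pos x.2 with h | h
      · rw [h, mul_zero] at hx; omega
      · exact h
    have h3 : x.2 ≤ n := Nat.le_of_dvd (by omega) (Dvd.intro_left _ hx.1)
    have h4 : (x.2 : ℝ) ≤ X := le_trans (by exact_mod_cast h3) hnX
    rw [cA_apply, if_pos ⟨h4, Nat.coprime_one_right _⟩, dv_one_left (by omega), mul_one]
  rw [h1, Nat.sum_divisorsAntidiagonal (fun k _ => f k)]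
  have h5 : ∑ k ∈ Icc 1 N, (if k ∣ n then (1:ℝ) else 0) * f k = ∑ k ∈ (Icc 1 N).filter (fun k => k ∣ n), f k := by
    rw [sum_filter]
    refine sum_congr rfl fun k _ => ?_
    split_ifs <;> ring
  rw [h5]
  symm
  refine sum_subset_zero_on_sdiff ?_ ?_ (fun _ _ => rfl)
  · intro k hk
    rw [mem_filter] at hk
    rw [Nat.mem_divisors]
    exact ⟨hk.2, by omega⟩
  · intro k hk
    rw [Finset.mem_sdiff, Nat.mem_divisors, mem_filter, mem_Icc] at hk
    obtain ⟨⟨h6, h7⟩, h8⟩ := hk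
    apply hf
    by_contra h9
    apply h8
    refine ⟨⟨?_, by omega⟩, h6⟩
    exact Nat.pos_of_dvd_of_pos h6 (by omega)

/-- all prime factors exceed `B` -/
def Lg (B n : ℕ) : Prop := ∀ p, p.Prime → p ∣ n → B < p

lemma cop {B d e : ℕ} (hd : Lg B d) (he1 : 1 ≤ e) (he : e ≤ B) : Nat.Coprime d e := by
  rw [Nat.coprime_iff_gcd_eq_one]
  by_contra h
  obtain ⟨p, hp, hpd⟩ := Nat.exists_prime_and_dvd h
  have h1 := hd p hp (hpd.trans (Nat.gcd_dvd_left d e))
  have h2 := Nat.le_of_dvd (by omega) (hpd.trans (Nat.gcd_dvd_right d e))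
  omega

lemma dvd_iff {B a b d e : ℕ} (ha : Lg B a) (hd : Lg B d) (hb1 : 1 ≤ b) (hb : b ≤ B) (he1 : 1 ≤ e) (he : e ≤ B) :
    a * b ∣ d * e ↔ a ∣ d ∧ b ∣ e := by
  constructor
  · intro h
    refine ⟨(cop ha he1 he).dvd_of_dvd_mul_right ((Dvd.intro _ rfl).trans h), ?_⟩
    exact ((cop hd hb1 hb).symm).dvd_of_dvd_mul_left ((Dvd.intro_left _ rfl).trans h)
  · rintro ⟨h1, h2⟩
    exact Nat.mul_dvd_mul h1 h2

/-- divisor sums -/
def ds (f : ArithmeticFunction ℝ) (N n : ℕ) : ℝ := ∑ k ∈ Icc 1 N, (if k ∣ n then (1:ℝ) else 0) * f k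

theorem Sg_factor (r x y : ArithmeticFunction ℝ) (A B : ℕ) (X : ℝ) (hrA : ∀ n, A < n → r n = 0)
    (hxB : ∀ n, B < n → x n = 0) (hyB : ∀ n, B < n → y n = 0) (hX : ((A * B : ℕ) : ℝ) ≤ X)
    (hr : ∀ n, r n ≠ 0 → Lg B n) :
    Sg (r * x) (r * y) X ((A * B : ℕ) : ℝ) = (∑ d ∈ Icc 1 A, ds r A d * r d / d) * ∑ e ∈ Icc 1 B, ds x B e * y e / e := by
  unfold Sg
  rw [Nat.floor_natCast]
  have hrx : ∀ n, A * B < n → (r * x) n = 0 := by
    intro n hn
    rw [ArithmeticFunction.mul_apply]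
    refine sum_eq_zero fun p hp => ?_
    rw [Nat.mem_divisorsAntidiagonal] at hp
    by_cases h1 : A < p.1
    · rw [hrA _ h1, zero_mul]
    · by_cases h2 : B < p.2
      · rw [hxB _ h2, mul_zero]
      · exfalso
        have := Nat.mul_le_mul (not_lt.mp h1) (not_lt.mp h2)
        omega
  have e1 : ∑ n ∈ Icc 1 (A * B), zf (r * x) X n * (r * y) n / n =
      ∑ n ∈ Icc 1 (A * B), (zf (r * x) X n / n) * (r * y) n := by
    refine sum_congr rfl fun n _ => ?_
    ring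
  rw [e1, dsum _ r y A B (A * B) hrA hyB le_rfl, sum_mul_sum]
  refine sum_congr rfl fun d hd => sum_congr rfl fun e he => ?_
  rw [mem_Icc] at hd he
  by_cases hrd : r d = 0
  · rw [hrd]; ring
  have hLd := hr d hrd
  have hde : 1 ≤ d * e := Nat.mul_pos hd.1 he.1
  have hdeX : ((d * e : ℕ) : ℝ) ≤ X := by
    refine le_trans ?_ hX
    exact_mod_cast Nat.mul_le_mul hd.2 he.2
  rw [zf_val (r * x) (A * B) X hrx (d * e) hde hdeX,
    dsum (fun k => if k ∣ d * e then (1:ℝ) else 0) r x A B (A * B) hrA hxB le_rfl]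
  have e2 : ∑ a ∈ Icc 1 A, ∑ b ∈ Icc 1 B, (if a * b ∣ d * e then (1:ℝ) else 0) * (r a * x b) =
      ds r A d * ds x B e := by
    unfold ds
    rw [sum_mul_sum]
    refine sum_congr rfl fun a ha => sum_congr rfl fun b hb => ?_
    rw [mem_Icc] at ha hb
    by_cases hra : r a = 0
    · rw [hra]; ring
    have h3 := dvd_iff (hr a hra) hLd hb.1 hb.2 he.1 he.2
    by_cases h4 : a ∣ d
    · by_cases h5 : b ∣ e
      · rw [if_pos (h3.mpr ⟨h4, h5⟩), if_pos h4, if_pos h5]; ring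
      · rw [if_neg (fun h => h5 (h3.mp h).2), if_pos h4, if_neg h5]; ring
    · rw [if_neg (fun h => h4 (h3.mp h).1), if_neg h4]; ring
  rw [e2]
  push_cast
  have hd0 : (d:ℝ) ≠ 0 := by exact_mod_cast (by omega : d ≠ 0)
  have he0 : (e:ℝ) ≠ 0 := by exact_mod_cast (by omega : e ≠ 0)
  field_simp

theorem sq_factor (r x : ArithmeticFunction ℝ) (A B : ℕ) (hrA : ∀ n, A < n → r n = 0)
    (hxB : ∀ n, B < n → x n = 0) (hr : ∀ n, r n ≠ 0 → Lg B n) :
    ∑ n ∈ Icc 1 (A * B), (r * x) n * (r * x) n / n =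
      (∑ d ∈ Icc 1 A, r d * r d / d) * ∑ e ∈ Icc 1 B, x e * x e / e := by
  have e1 : ∑ n ∈ Icc 1 (A * B), (r * x) n * (r * x) n / n =
      ∑ n ∈ Icc 1 (A * B), ((r * x) n / n) * (r * x) n := by
    refine sum_congr rfl fun n _ => ?_
    ring
  rw [e1, dsum _ r x A B (A * B) hrA hxB le_rfl, sum_mul_sum]
  refine sum_congr rfl fun d hd => sum_congr rfl fun e he => ?_
  rw [mem_Icc] at hd he
  by_cases hrd : r d = 0
  · rw [hrd]; ring
  have hLd := hr d hrd
  have hde : 1 ≤ d * e := Nat.mul_pos hd.1 he.1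
  have e2 : (r * x) (d * e) = r d * x e := by
    rw [ArithmeticFunction.mul_apply]
    rw [sum_eq_single (d, e)]
    · rintro ⟨a, b⟩ hab hne
      rw [Nat.mem_divisorsAntidiagonal] at hab
      simp only at hab ⊢
      by_cases hra : r a = 0
      · rw [hra, zero_mul]
      by_cases hxb : B < b
      · rw [hxB _ hxb, mul_zero]
      exfalso
      apply hne
      have ha0 : a ≠ 0 := by rintro rfl; omega
      have hb0 : b ≠ 0 := by rintro rfl; omega
      have h3 := (dvd_iff (hr a hra) hLd (by omega : 1 ≤ b) (not_lt.mp hxb) he.1 he.2).mp (by rw [hab.1])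
      have h4 := (dvd_iff hLd (hr a hra) he.1 he.2 (by omega : 1 ≤ b) (not_lt.mp hxb)).mp (by rw [hab.1])
      rw [Nat.dvd_antisymm h3.1 h4.1, Nat.dvd_antisymm h3.2 h4.2]
    · intro h
      exfalso
      apply h
      rw [Nat.mem_divisorsAntidiagonal]
      exact ⟨rfl, by omega⟩
  rw [e2]
  push_cast
  have hd0 : (d:ℝ) ≠ 0 := by exact_mod_cast (by omega : d ≠ 0)
  have he0 : (e:ℝ) ≠ 0 := by exact_mod_cast (by omega : e ≠ 0)
  field_simp

end

end Pool.Agent.R311.SE
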