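import Pool.Agent.R311.SE.X3

set_option autoImplicit false

/-! A resonator supported on integers with few, medium sized prime factors. -/

namespace Pool.Agent.R311.SE

open Finset MeasureTheory Filter Topology
open Pool.Agent.H306R2 Pool.Agent.R311.BS

noncomputable section

/-- the resonator -/
def rr (Q : Finset ℕ) (a : ℝ) (K : ℕ) : ArithmeticFunction ℝ :=
  ⟨fun n => if ∏ p ∈ n.primeFactors, p = n ∧ n.primeFactors ⊆ Q ∧ #n.primeFactors ≤ K then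
    a ^ #n.primeFactors else 0, by simp⟩

lemma rr_apply (Q : Finset ℕ) (a : ℝ) (K n : ℕ) : rr Q a K n =
    if ∏ p ∈ n.primeFactors, p = n ∧ n.primeFactors ⊆ Q ∧ #n.primeFactors ≤ K then
    a ^ #n.primeFactors else 0 := rfl

/-- index sets -/
def QQ (Q : Finset ℕ) (K : ℕ) : Finset (Finset ℕ) := Q.powerset.filter fun T => #T ≤ K

lemma mem_QQ {Q : Finset ℕ} {K : ℕ} {T : Finset ℕ} : T ∈ QQ Q K ↔ T ⊆ Q ∧ #T ≤ K := by
  unfold QQ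
  rw [mem_filter, mem_powerset]

lemma prod_pos' {Q T : Finset ℕ} (hQ : ∀ p ∈ Q, p.Prime) (hT : T ⊆ Q) : 0 < ∏ p ∈ T, p :=
  Finset.prod_pos fun p hp => (hQ p (hT hp)).pos

lemma prod_le_pow {Q T : Finset ℕ} {K M : ℕ} (hM : 1 ≤ M) (hQM : ∀ p ∈ Q, p ≤ M) (hT : T ∈ QQ Q K) :
    ∏ p ∈ T, p ≤ M ^ K := by
  rw [mem_QQ] at hT
  calc ∏ p ∈ T, p ≤ ∏ _p ∈ T, M := Finset.prod_le_prod' fun p hp => hQM p (hT.1 hp)
    _ = M ^ #T := by rw [prod_const]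
    _ ≤ M ^ K := Nat.pow_le_pow_right hM hT.2

lemma rr_prod {Q T : Finset ℕ} (hQ : ∀ p ∈ Q, p.Prime) (a : ℝ) {K : ℕ} (hT : T ∈ QQ Q K) :
    rr Q a K (∏ p ∈ T, p) = a ^ #T := by
  rw [mem_QQ] at hT
  have h := Nat.primeFactors_prod (s := T) fun p hp => hQ p (hT.1 hp)
  rw [rr_apply, h, if_pos ⟨rfl, hT.1, hT.2⟩]

theorem rr_sum {Q : Finset ℕ} (hQ : ∀ p ∈ Q, p.Prime) (a : ℝ) (K M : ℕ) (hM : 1 ≤ M) (hQM : ∀ p ∈ Q, p ≤ M)
    (G : ℕ → ℝ) : ∑ n ∈ Icc 1 (M ^ K), G n * rr Q a K n = ∑ T ∈ QQ Q K, G (∏ p ∈ T, p) * a ^ #T := by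
  have h1 : ∑ n ∈ Icc 1 (M ^ K), G n * rr Q a K n = ∑ n ∈ (Icc 1 (M ^ K)).filter (fun n =>
      ∏ p ∈ n.primeFactors, p = n ∧ n.primeFactors ⊆ Q ∧ #n.primeFactors ≤ K), G n * a ^ #n.primeFactors := by
    rw [sum_filter]
    refine sum_congr rfl fun n _ => ?_
    rw [rr_apply]
    split_ifs <;> ring
  rw [h1]
  refine sum_nbij' (fun n => n.primeFactors) (fun T => ∏ p ∈ T, p) ?_ ?_ ?_ ?_ ?_
  · intro n hn
    rw [mem_filter] at hn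
    rw [mem_QQ]
    exact hn.2.2
  · intro T hT
    have h2 := mem_QQ.mp hT
    have h3 := Nat.primeFactors_prod (s := T) fun p hp => hQ p (h2.1 hp)
    rw [mem_filter, mem_Icc, h3]
    exact ⟨⟨prod_pos' hQ h2.1, prod_le_pow hM hQM hT⟩, rfl, h2.1, h2.2⟩
  · intro n hn
    rw [mem_filter] at hn
    exact hn.2.1
  · intro T hT
    have h2 := mem_QQ.mp hT
    exact Nat.primeFactors_prod (s := T) fun p hp => hQ p (h2.1 hp)
  · intro n hn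
    rw [mem_filter] at hn
    rw [hn.2.1]

lemma rr_supp {Q : Finset ℕ} (a : ℝ) (K M : ℕ) (hM : 1 ≤ M) (hQM : ∀ p ∈ Q, p ≤ M) (n : ℕ) (hn : M ^ K < n) :
    rr Q a K n = 0 := by
  rw [rr_apply, if_neg]
  rintro ⟨h1, h2, h3⟩
  have h4 := prod_le_pow (T := n.primeFactors) hM hQM (mem_QQ.mpr ⟨h2, h3⟩)
  rw [h1] at h4
  omega

lemma rr_large {Q : Finset ℕ} (a : ℝ) (K B : ℕ) (hQB : ∀ p ∈ Q, B < p) (n : ℕ) (hn : rr Q a K n ≠ 0) : Lg B n := by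
  rw [rr_apply] at hn
  split_ifs at hn with h
  · intro p hp hpn
    have h0 : n ≠ 0 := by
      rintro rfl
      simp at h
    exact hQB p (h.2.1 (Nat.mem_primeFactors.mpr ⟨hp, hpn, h0⟩))
  · exact absurd rfl hn

lemma rr_nonneg (Q : Finset ℕ) {a : ℝ} (ha : 0 ≤ a) (K n : ℕ) : 0 ≤ rr Q a K n := by
  rw [rr_apply]
  split_ifs <;> positivity

lemma rr_PB {Q : Finset ℕ} {a : ℝ} (ha : 0 ≤ a) (K : ℕ) (hQa : ∀ p ∈ Q, a ≤ (p:ℝ)) : PB (rr Q a K) 1 := by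
  intro n
  rw [abs_of_nonneg (rr_nonneg Q ha K n), rr_apply, pow_one]
  split_ifs with h
  · calc a ^ #n.primeFactors = ∏ _p ∈ n.primeFactors, a := by rw [prod_const]
      _ ≤ ∏ p ∈ n.primeFactors, (p:ℝ) := Finset.prod_le_prod (fun _ _ => ha) fun p hp => hQa p (h.2.1 hp)
      _ = ((∏ p ∈ n.primeFactors, p : ℕ) : ℝ) := by push_cast; rfl
      _ = n := by rw [h.1]
  · positivity

lemma dvd_sub {Q S T : Finset ℕ} (hQ : ∀ p ∈ Q, p.Prime) (hS : S ⊆ Q) (hT : T ⊆ Q) :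
    (∏ p ∈ T, p) ∣ (∏ p ∈ S, p) ↔ T ⊆ S := by
  constructor
  · intro h
    have h1 := Nat.primeFactors_mono h (prod_pos' hQ hS).ne'
    rwa [Nat.primeFactors_prod fun p hp => hQ p (hT hp), Nat.primeFactors_prod fun p hp => hQ p (hS hp)] at h1
  · intro h
    exact Finset.prod_dvd_prod_of_subset _ _ _ h

lemma rr_ds {Q S : Finset ℕ} (hQ : ∀ p ∈ Q, p.Prime) (a : ℝ) (K M : ℕ) (hM : 1 ≤ M) (hQM : ∀ p ∈ Q, p ≤ M)
    (hS : S ∈ QQ Q K) : ds (rr Q a K) (M ^ K) (∏ p ∈ S, p) = (1 + a) ^ #S := by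
  unfold ds
  rw [rr_sum hQ a K M hM hQM (fun k => if k ∣ ∏ p ∈ S, p then (1:ℝ) else 0)]
  have hS' := mem_QQ.mp hS
  have h1 : ∑ T ∈ QQ Q K, (if (∏ p ∈ T, p) ∣ ∏ p ∈ S, p then (1:ℝ) else 0) * a ^ #T =
      ∑ T ∈ S.powerset, a ^ #T := by
    have h2 : ∑ T ∈ QQ Q K, (if (∏ p ∈ T, p) ∣ ∏ p ∈ S, p then (1:ℝ) else 0) * a ^ #T =
        ∑ T ∈ (QQ Q K).filter (fun T => T ⊆ S), a ^ #T := by
      rw [sum_filter]
      refine sum_congr rfl fun T hT => ?_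
      have h3 := dvd_sub hQ hS'.1 (mem_QQ.mp hT).1
      by_cases h : T ⊆ S
      · rw [if_pos (h3.mpr h), if_pos h, one_mul]
      · rw [if_neg (fun h' => h (h3.mp h')), if_neg h, zero_mul]
    rw [h2]
    congr 1
    ext T
    rw [mem_filter, mem_QQ, mem_powerset]
    constructor
    · exact fun h => h.2
    · exact fun h => ⟨⟨h.trans hS'.1, (card_le_card h).trans hS'.2⟩, h⟩
  rw [h1]
  have h4 := Finset.sum_pow_mul_eq_add_pow a (1:ℝ) S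
  simp only [one_pow, mul_one] at h4
  rw [h4, add_comm]

lemma prod_one_add_le_exp (Q : Finset ℕ) (w : ℕ → ℝ) (hw : ∀ p ∈ Q, 0 ≤ w p) :
    ∏ p ∈ Q, (1 + w p) ≤ Real.exp (∑ p ∈ Q, w p) := by
  rw [Real.exp_sum]
  refine Finset.prod_le_prod (fun p hp => by have := hw p hp; linarith) fun p _ => ?_
  have := Real.add_one_le_exp (w p)
  linarith

lemma trunc (Q : Finset ℕ) (w : ℕ → ℝ) (hw : ∀ p ∈ Q, 0 ≤ w p) (K : ℕ)
    (hK : Real.exp (2 * ∑ p ∈ Q, w p) ≤ 2 ^ K) :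
    (∏ p ∈ Q, (1 + w p)) / 2 ≤ ∑ T ∈ QQ Q K, ∏ p ∈ T, w p := by
  have h0 : ∀ T ∈ Q.powerset, 0 ≤ ∏ p ∈ T, w p := fun T hT =>
    Finset.prod_nonneg fun p hp => hw p (mem_powerset.mp hT hp)
  have h1 : ∏ p ∈ Q, (1 + w p) = ∑ T ∈ QQ Q K, ∏ p ∈ T, w p +
      ∑ T ∈ Q.powerset.filter (fun T => ¬ #T ≤ K), ∏ p ∈ T, w p := by
    rw [prod_one_add]
    unfold QQ
    rw [sum_filter_add_sum_filter_not]
  have h2 : ∑ T ∈ Q.powerset.filter (fun T => ¬ #T ≤ K), ∏ p ∈ T, w p ≤ 1 / 2 := by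
    calc ∑ T ∈ Q.powerset.filter (fun T => ¬ #T ≤ K), ∏ p ∈ T, w p ≤
        ∑ T ∈ Q.powerset.filter (fun T => ¬ #T ≤ K), (∏ p ∈ T, (2 * w p)) / 2 ^ (K + 1) := by
          refine sum_le_sum fun T hT => ?_
          rw [mem_filter] at hT
          rw [prod_mul_distrib, prod_const, le_div_iff₀ (by positivity), mul_comm]
          have h3 := h0 T hT.1
          have h4 : (2:ℝ) ^ (K + 1) ≤ 2 ^ #T := pow_le_pow_right₀ (by norm_num) (by omega)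
          gcongr
      _ ≤ ∑ T ∈ Q.powerset, (∏ p ∈ T, (2 * w p)) / 2 ^ (K + 1) := by
          refine sum_le_sum_of_subset_of_nonneg (filter_subset _ _) fun T hT _ => ?_
          have : 0 ≤ ∏ p ∈ T, (2 * w p) := Finset.prod_nonneg fun p hp => by
            have := hw p (mem_powerset.mp hT hp)
            positivity
          positivity
      _ = (∏ p ∈ Q, (1 + 2 * w p)) / 2 ^ (K + 1) := by rw [← sum_div, prod_one_add]
      _ ≤ Real.exp (2 * ∑ p ∈ Q, w p) / 2 ^ (K + 1) := by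
          have := prod_one_add_le_exp Q (fun p => 2 * w p) (fun p hp => by have := hw p hp; positivity)
          rw [← mul_sum] at this
          gcongr
      _ ≤ 2 ^ K / 2 ^ (K + 1) := by gcongr
      _ = 1 / 2 := by rw [pow_succ]; field_simp
  have h3 : 1 ≤ ∏ p ∈ Q, (1 + w p) := by
    calc (1:ℝ) = ∏ _p ∈ Q, (1:ℝ) := by simp
      _ ≤ _ := Finset.prod_le_prod (fun _ _ => zero_le_one) fun p hp => by have := hw p hp; linarith
  linarith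

/-- the large sum -/
theorem rr_V {Q : Finset ℕ} (hQ : ∀ p ∈ Q, p.Prime) {a : ℝ} (ha : 0 ≤ a) (K M : ℕ) (hM : 1 ≤ M)
    (hQM : ∀ p ∈ Q, p ≤ M) (hK : Real.exp (2 * ∑ p ∈ Q, a * (1 + a) / p) ≤ 2 ^ K) :
    (∏ p ∈ Q, (1 + a * (1 + a) / (p:ℝ))) / 2 ≤
      ∑ d ∈ Icc 1 (M ^ K), ds (rr Q a K) (M ^ K) d * rr Q a K d / d := by
  have e1 : ∑ d ∈ Icc 1 (M ^ K), ds (rr Q a K) (M ^ K) d * rr Q a K d / d =
      ∑ d ∈ Icc 1 (M ^ K), (ds (rr Q a K) (M ^ K) d / d) * rr Q a K d :=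
    sum_congr rfl fun d _ => by ring
  rw [e1, rr_sum hQ a K M hM hQM (fun d => ds (rr Q a K) (M ^ K) d / d)]
  have e2 : ∑ T ∈ QQ Q K, ds (rr Q a K) (M ^ K) (∏ p ∈ T, p) / ((∏ p ∈ T, p : ℕ) : ℝ) * a ^ #T =
      ∑ T ∈ QQ Q K, ∏ p ∈ T, (a * (1 + a) / (p:ℝ)) := by
    refine sum_congr rfl fun T hT => ?_
    rw [rr_ds hQ a K M hM hQM hT, Finset.prod_div_distrib, prod_const, mul_pow]
    push_cast
    ring
  rw [e2]
  exact trunc Q (fun p => a * (1 + a) / (p:ℝ)) (fun p _ => by positivity) K hK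

theorem rr_D {Q : Finset ℕ} (hQ : ∀ p ∈ Q, p.Prime) {a : ℝ} (K M : ℕ) (hM : 1 ≤ M)
    (hQM : ∀ p ∈ Q, p ≤ M) :
    ∑ d ∈ Icc 1 (M ^ K), rr Q a K d * rr Q a K d / d ≤ ∏ p ∈ Q, (1 + a ^ 2 / (p:ℝ)) := by
  have e1 : ∑ d ∈ Icc 1 (M ^ K), rr Q a K d * rr Q a K d / d =
      ∑ d ∈ Icc 1 (M ^ K), (rr Q a K d / d) * rr Q a K d :=
    sum_congr rfl fun d _ => by ring
  rw [e1, rr_sum hQ a K M hM hQM (fun d => rr Q a K d / d)]
  have e2 : ∑ T ∈ QQ Q K, rr Q a K (∏ p ∈ T, p) / ((∏ p ∈ T, p : ℕ) : ℝ) * a ^ #T =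
      ∑ T ∈ QQ Q K, ∏ p ∈ T, (a ^ 2 / (p:ℝ)) := by
    refine sum_congr rfl fun T hT => ?_
    rw [rr_prod hQ a hT, Finset.prod_div_distrib, prod_const, ← pow_mul, mul_comm 2, pow_mul]
    push_cast
    ring
  rw [e2, prod_one_add]
  unfold QQ
  exact sum_le_sum_of_subset_of_nonneg (filter_subset _ _) fun T _ _ =>
    Finset.prod_nonneg fun p _ => by positivity

lemma term_ratio {a p : ℝ} (ha : 0 ≤ a) (hp : 1 ≤ p) (hap : a ^ 2 ≤ p) :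
    (1 + a ^ 2 / p) * Real.exp (a / (4 * p)) ≤ 1 + a * (1 + a) / p := by
  have hp0 : 0 < p := by linarith
  have hap' : a ≤ p := by nlinarith
  have h1 : Real.exp (a / (4 * p)) ≤ 1 + a / (2 * p) := by
    have h2 : 0 < 1 + a / (2 * p) := by positivity
    rw [← Real.le_log_iff_exp_le h2]
    refine le_trans ?_ (Real.one_sub_inv_le_log_of_pos h2)
    have h3 : a / (2 * p) ≤ 1 := by rw [div_le_one (by positivity)]; linarith
    obtain ⟨x, hx⟩ : ∃ x : ℝ, x = a / (2 * p) := ⟨_, rfl⟩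
    have hx0 : 0 ≤ x := by rw [hx]; positivity
    have e : a / (4 * p) = x / 2 := by rw [hx]; field_simp; ring
    have hx1 : x ≤ 1 := by rw [hx]; exact h3
    rw [e, ← hx]
    have e2 : 1 - (1 + x)⁻¹ = x / (1 + x) := by field_simp; ring
    rw [e2, div_le_div_iff₀ (by norm_num) (by linarith)]
    nlinarith
  have h4 : (1 + a ^ 2 / p) * (1 + a / (2 * p)) ≤ 1 + a * (1 + a) / p := by
    have h5 : a ^ 2 / p ≤ 1 := by rw [div_le_one hp0]; exact hap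
    have h6 : 0 ≤ a / (2 * p) := by positivity
    have e : 1 + a * (1 + a) / p = 1 + a ^ 2 / p + 2 * (a / (2 * p)) := by field_simp; ring
    rw [e]
    nlinarith
  have h7 : 0 ≤ 1 + a ^ 2 / p := by positivity
  exact (mul_le_mul_of_nonneg_left h1 h7).trans h4

/-- the gain of the resonator -/
theorem rr_ratio {Q : Finset ℕ} (hQ : ∀ p ∈ Q, p.Prime) {a : ℝ} (ha : 0 ≤ a) (K M : ℕ) (hM : 1 ≤ M)
    (hQM : ∀ p ∈ Q, p ≤ M) (hQa : ∀ p ∈ Q, a ^ 2 ≤ (p:ℝ))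
    (hK : Real.exp (2 * ∑ p ∈ Q, a * (1 + a) / p) ≤ 2 ^ K) :
    (∏ p ∈ Q, (1 + a ^ 2 / (p:ℝ))) * Real.exp (a * (∑ p ∈ Q, 1 / (p:ℝ)) / 4) ≤
      2 * ∑ d ∈ Icc 1 (M ^ K), ds (rr Q a K) (M ^ K) d * rr Q a K d / d := by
  have h1 := rr_V hQ ha K M hM hQM hK
  have h2 : (∏ p ∈ Q, (1 + a ^ 2 / (p:ℝ))) * Real.exp (a * (∑ p ∈ Q, 1 / (p:ℝ)) / 4) ≤
      ∏ p ∈ Q, (1 + a * (1 + a) / (p:ℝ)) := by
    have e : a * (∑ p ∈ Q, 1 / (p:ℝ)) / 4 = ∑ p ∈ Q, a / (4 * (p:ℝ)) := by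
      rw [mul_sum, sum_div]
      refine sum_congr rfl fun p _ => ?_
      ring
    rw [e, Real.exp_sum, ← prod_mul_distrib]
    refine Finset.prod_le_prod (fun p _ => by positivity) fun p hp => ?_
    exact term_ratio ha (by exact_mod_cast (hQ p hp).one_le) (hQa p hp)
  linarith

end

end Pool.Agent.R311.SE
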