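import Pool.Agent.R311.SE.X2
import Pool.Agent.R311.SE.X4
import Pool.Agent.R311.SE.F

set_option autoImplicit false

/-! The resonance inequality in one window. -/

namespace Pool.Agent.R311.SE

open Finset MeasureTheory Filter Topology
open Pool.Agent.H306R2 Pool.Agent.R311.BS

noncomputable section

lemma Sd_small (n a b : ℕ) (hn : 1 ≤ n) (ha : a ≤ 2) (hb : b ≤ 2) :
    ∑ e ∈ Icc 1 (n ^ 2), ds (Aq n a) (n ^ 2) e * Aq n b e / e = Sd n ((n:ℝ) ^ 2) a b := by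
  have hn1 : (1:ℝ) ≤ n := by exact_mod_cast hn
  have hsupp : ∀ k : ℕ, k ≤ 2 → ∀ m : ℕ, n ^ 2 < m → Aq n k m = 0 := by
    intro k hk m hm
    have h1 := (Dp_pow (cA 1 (n:ℝ) (1 / 2)) n hn1 (cA_supp 1 n (1 / 2)) 0 k).1 m
    apply h1
    have h2 : (n:ℝ) ^ k ≤ (n:ℝ) ^ 2 := pow_le_pow_right₀ hn1 hk
    refine lt_of_le_of_lt h2 ?_
    exact_mod_cast hm
  unfold Sd
  have h3 : ⌊(n:ℝ) ^ b⌋₊ = n ^ b := by
    rw [← Nat.cast_pow, Nat.floor_natCast]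
  rw [h3]
  symm
  refine sum_subset_zero_on_sdiff ?_ ?_ ?_
  · exact Icc_subset_Icc_right (Nat.pow_le_pow_right hn hb)
  · intro e he
    rw [Finset.mem_sdiff, mem_Icc, mem_Icc] at he
    have h4 : Aq n b e = 0 := by
      have h1 := (Dp_pow (cA 1 (n:ℝ) (1 / 2)) n hn1 (cA_supp 1 n (1 / 2)) 0 b).1 e
      apply h1
      have : n ^ b < e := by omega
      exact_mod_cast this
    rw [h4]; ring
  · intro e he
    rw [mem_Icc] at he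
    have h5 : zA n ((n:ℝ) ^ 2) a = zf (Aq n a) ((n:ℝ) ^ 2) := rfl
    have h6 : e ≤ n ^ 2 := he.2.trans (Nat.pow_le_pow_right hn hb)
    rw [h5, zf_val (Aq n a) (n ^ 2) _ (hsupp a ha) e he.1 (by exact_mod_cast h6)]
    rfl

/-- the short polynomial: a constant gain -/
theorem small_const {δ : ℝ} (hδ : 0 < δ) : ∃ n : ℕ, 1 ≤ n ∧ 32 ≤ δ ^ 2 * Sd n ((n:ℝ) ^ 2) 0 2 ∧
    Sd n ((n:ℝ) ^ 2) 2 0 ≤ δ ^ 2 * Sd n ((n:ℝ) ^ 2) 0 2 / 16 ∧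
    Sd n ((n:ℝ) ^ 2) 1 1 ≤ δ ^ 2 * Sd n ((n:ℝ) ^ 2) 0 2 / 32 := by
  obtain ⟨cS, hcS, hSev⟩ := U_lower (κ := 1) le_rfl
  obtain ⟨C2, hC2, h2ev⟩ := Sd_upper 2 2 0 (by norm_num) (by norm_num) (by norm_num) 1 one_pos
  obtain ⟨C3, hC3, h3ev⟩ := Sd_upper 2 1 1 (by norm_num) (by norm_num) (by norm_num) 1 one_pos
  obtain ⟨A₀, hA₀⟩ : ∃ A₀ : ℝ, A₀ = δ ^ 2 * cS := ⟨_, rfl⟩
  have hA₀pos : 0 < A₀ := by rw [hA₀]; positivity
  have ev1 := ev_logpow (16 * C2 / A₀) 0 1 (by norm_num)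
  have ev2 := ev_logpow (32 * C3 / A₀) (3 / 4) 1 (by norm_num)
  have ev3 := ev_log_rpow_ge 32 A₀ 1 hA₀pos one_pos
  have ev4 := Real.tendsto_log_atTop.eventually hSev
  have hev := (ev1.and (ev2.and (ev3.and (ev4.and (h2ev.and (h3ev.and (eventually_ge_atTop (1:ℝ))))))))
  obtain ⟨n, hn⟩ := (tendsto_natCast_atTop_atTop (R := ℝ)).eventually hev |>.exists
  obtain ⟨g1, g2, g3, g4, g5, g6, g7⟩ := hn
  have hn1 : 1 ≤ n := by exact_mod_cast g7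
  refine ⟨n, hn1, ?_⟩
  rw [Real.rpow_one] at g1 g2 g3 g5 g6
  have hn0 : (0:ℝ) < n := by linarith
  rw [Real.exp_log hn0] at g4
  have hSd := Pool.Agent.R311.SE.Sd_ge (n:ℝ) ((n:ℝ) ^ 2) g7 (by nlinarith) 2 le_rfl le_rfl
  have h5 := g5 ((n:ℝ) ^ 2) le_rfl
  have h6 := g6 ((n:ℝ) ^ 2) le_rfl
  norm_num at hSd h5 h6 g4
  rw [show ((3:ℝ) / 4) = 3 / 2 * (1 / 2) by norm_num] at g2
  norm_num at g1 g2
  have hS : A₀ * Real.log n ≤ δ ^ 2 * Sd (n:ℝ) ((n:ℝ) ^ 2) 0 2 := by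
    rw [hA₀, mul_assoc]
    exact mul_le_mul_of_nonneg_left (g4.trans hSd) (by positivity)
  rw [div_le_iff₀ hA₀pos] at g1
  rw [div_mul_eq_mul_div, div_le_iff₀ hA₀pos] at g2
  refine ⟨g3.trans hS, ?_, ?_⟩
  · linarith only [h5, g1, hS]
  · linarith only [h6, g2, hS]

lemma PB_rA {Q : Finset ℕ} {a : ℝ} (ha : 0 ≤ a) (K : ℕ) (hQa : ∀ p ∈ Q, a ≤ (p:ℝ)) (N : ℝ) (k : ℕ) (hk : k ≤ 2) :
    PB (rr Q a K * Aq N k) 4 := by
  have h1 := rr_PB ha K hQa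
  have h2 := (PB_cA_one 1 N (α := 1 / 2) (by norm_num) (by norm_num)).pow k
  have h3 : PB (Aq N k) k := h2.mono (by simp)
  exact (h1.mul h3).mono (by omega)

lemma PB_zf {f : ArithmeticFunction ℝ} (hf : PB f 4) (X : ℝ) : PB (zf f X) 5 := by
  have h2 := PB_cA_one 1 X (α := 1) (by norm_num) (by norm_num)
  exact (hf.mul h2).mono (by omega)

lemma supp_mul {f g : ArithmeticFunction ℝ} (A B : ℕ) (hf : ∀ n, A < n → f n = 0) (hg : ∀ n, B < n → g n = 0)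
    (n : ℕ) (hn : A * B < n) : (f * g) n = 0 := by
  rw [ArithmeticFunction.mul_apply]
  refine sum_eq_zero fun p hp => ?_
  rw [Nat.mem_divisorsAntidiagonal] at hp
  by_cases h1 : A < p.1
  · rw [hf _ h1, zero_mul]
  · by_cases h2 : B < p.2
    · rw [hg _ h2, mul_zero]
    · exfalso
      have := Nat.mul_le_mul (not_lt.mp h1) (not_lt.mp h2)
      omega

lemma Aq_supp (n : ℕ) (hn : 1 ≤ n) (k : ℕ) (hk : k ≤ 2) (m : ℕ) (hm : n ^ 2 < m) : Aq n k m = 0 := by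
  have hn1 : (1:ℝ) ≤ n := by exact_mod_cast hn
  have h1 := (Dp_pow (cA 1 (n:ℝ) (1 / 2)) n hn1 (cA_supp 1 n (1 / 2)) 0 k).1 m
  apply h1
  have h2 : (n:ℝ) ^ k ≤ (n:ℝ) ^ 2 := pow_le_pow_right₀ hn1 hk
  refine lt_of_le_of_lt h2 ?_
  exact_mod_cast hm

/-- the pointwise form of Hölder's inequality -/
lemma hold {z y q : ℝ} (hz : 0 ≤ z) (hy : 0 < y) (hq : 1 ≤ q) : z ≤ y + y ^ (1 - q) * z ^ q := by
  rcases le_or_gt z y with h | h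
  · have : 0 ≤ y ^ (1 - q) * z ^ q := by positivity
    linarith
  · have hz0 : 0 < z := by linarith
    have h1 : z ^ (1 - q) ≤ y ^ (1 - q) := Real.rpow_le_rpow_of_nonpos hy h.le (by linarith)
    have h2 : z = z ^ (1 - q) * z ^ q := by
      rw [← Real.rpow_add hz0]; simp
    have h3 : 0 ≤ z ^ q := by positivity
    calc z = z ^ (1 - q) * z ^ q := h2
      _ ≤ y ^ (1 - q) * z ^ q := mul_le_mul_of_nonneg_right h1 h3
      _ ≤ _ := by linarith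

lemma fin_res {A1 V S20 S11 Er TLt G : ℝ} (hV0 : 0 ≤ V)
    (h : 1 / 2 * (A1 * V - V * S20 - Er) - 2 * (V * S11) - Er - TLt ≤ G)
    (h2 : S20 ≤ A1 / 16) (h3 : S11 ≤ A1 / 32) (hE : Er ≤ 1) (hT : TLt ≤ 1) (hA : 32 ≤ A1) (hV : 1 / 2 ≤ V) :
    A1 * V / 8 ≤ G := by
  have k1 : V * S20 ≤ V * (A1 / 16) := mul_le_mul_of_nonneg_left h2 hV0
  have k2 : V * S11 ≤ V * (A1 / 32) := mul_le_mul_of_nonneg_left h3 hV0
  have k3 : 32 * (1 / 2) ≤ A1 * V := mul_le_mul hA hV (by norm_num) (by linarith)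
  nlinarith

end

end Pool.Agent.R311.SE
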