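import Pool.Agent.R311.SE.X8

set_option autoImplicit false

/-! Averaging over windows: uniform high moments and large values in sectors. -/

namespace Pool.Agent.R311.SE

open Finset MeasureTheory Filter Topology
open Pool.Agent.H306R2
open Pool.Agent.R311.BS (ev_rpow_ge averaging gw_uncurry gw_lint)

noncomputable section

/-- the sector over an interval -/
def SI (u : ℂ) (κ₀ T H : ℝ) : Set ℝ :=
  {t : ℝ | t ∈ Set.Icc T (T + H) ∧ κ₀ * ‖zl t‖ < ((starRingEnd ℂ) u * zl t).re}

theorem res_moments (ε κ₀ : ℝ) (hε : 0 < ε) (hκ₀ : κ₀ < 1) :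
    ∃ c : ℝ, 0 < c ∧ ∀ᶠ T : ℝ in atTop, ∀ H : ℝ, T ^ ε ≤ H → H ≤ T → ∀ u : ℂ, ‖u‖ = 1 → ∀ q : ℝ, 1 ≤ q →
      H * T ^ (-ε) * Real.exp (c * q * Real.sqrt (Real.log T / Real.log (Real.log T))) ≤
        ∫ t in SI u κ₀ T H, ‖zl t‖ ^ q := by
  obtain ⟨e, he⟩ : ∃ e : ℝ, e = min (ε / 3) (1 / 16) := ⟨_, rfl⟩
  have he0 : 0 < e := by rw [he]; exact lt_min (by positivity) (by norm_num)
  have he1 : e ≤ 1 / 16 := by rw [he]; exact min_le_right _ _
  have he2 : e ≤ ε / 3 := by rw [he]; exact min_le_left _ _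
  obtain ⟨c, hc, h⟩ := window_res he0 he1 hκ₀
  refine ⟨c, hc, ?_⟩
  filter_upwards [h, ev_rpow_ge 4 (ε / 3) (by positivity), eventually_ge_atTop 1] with T hT h4 hT1 H hH1 hH2 u hu q hq
  have hT0 : 0 < T := by linarith
  obtain ⟨R, hR⟩ : ∃ R : ℝ, R = T ^ (2 * e) := ⟨_, rfl⟩
  have hR0 : 0 < R := by rw [hR]; positivity
  have hRH : 4 * R ≤ H := by
    refine le_trans ?_ hH1
    calc 4 * R ≤ T ^ (ε / 3) * T ^ (2 * e) := by rw [hR]; gcongr
      _ = T ^ (ε / 3 + 2 * e) := by rw [← Real.rpow_add hT0]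
      _ ≤ T ^ ε := Real.rpow_le_rpow_of_exponent_le hT1 (by linarith)
  have hH0 : 0 < H := by linarith
  rw [← hR] at hT
  have hset : SI u κ₀ T H = Set.Icc T (T + H) ∩ SS u κ₀ := rfl
  rw [hset]
  obtain ⟨E, hE⟩ : ∃ E : ℝ, E = Real.exp (c * q * Real.sqrt (Real.log T / Real.log (Real.log T))) := ⟨_, rfl⟩
  have hE0 : 0 < E := by rw [hE]; exact Real.exp_pos _
  have hcz : Continuous fun t => ‖zl t‖ ^ q := zl_cont.norm.rpow_const fun _ => Or.inr (by linarith)
  have hav := averaging (fun t => ‖zl t‖ ^ q) hcz (fun t => by positivity)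
    (Set.Icc T (T + H) ∩ SS u κ₀) (measurableSet_Icc.inter (SS_meas u κ₀)) T (T + H)
    Set.inter_subset_left (fun τ t => gw τ (T ^ e) t) (gw_uncurry _)
    (fun τ t => gw_nonneg _ _ _ (by positivity)) (gw_lint _ (by positivity)) (T + R) (T + H - R)
    (T ^ (-e) * E) (by linarith) (by positivity) (by
      intro τ hτ
      have h1 := hT τ (by linarith [hτ.1]) (by linarith [hτ.2]) u hu q hq
      rw [← hE] at h1
      refine h1.trans ?_
      refine setIntegral_mono_set ?_ ?_ ?_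
      · have hc : Continuous fun t => ‖zl t‖ ^ q * gw τ (T ^ e) t :=
          hcz.mul (gw_continuous _ _)
        exact hc.integrableOn_Icc.mono_set Set.inter_subset_left
      · refine Eventually.of_forall fun t => ?_
        have := gw_nonneg τ (T ^ e) t (by positivity)
        simp only [Pi.zero_apply]
        positivity
      · refine Eventually.of_forall fun t ht => ?_
        refine ⟨⟨?_, ?_⟩, ht.2⟩
        · linarith [ht.1.1, hτ.1]
        · linarith [ht.1.2, hτ.2])
  refine le_trans ?_ hav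
  have h5 : T ^ (-ε) ≤ T ^ (-e) / 2 := by
    have h6 : T ^ (-ε) * 4 ≤ T ^ (-e) := by
      calc T ^ (-ε) * 4 ≤ T ^ (-ε) * T ^ (ε / 3) := by gcongr
        _ = T ^ (-ε + ε / 3) := by rw [← Real.rpow_add hT0]
        _ ≤ T ^ (-e) := Real.rpow_le_rpow_of_exponent_le hT1 (by linarith)
    have h7 : 0 < T ^ (-ε) := by positivity
    linarith
  rw [← hE]
  have h8 : 0 ≤ T ^ (-e) * E := by positivity
  calc H * T ^ (-ε) * E ≤ H * (T ^ (-e) / 2) * E := by gcongr
    _ = (H / 2) * (T ^ (-e) * E) := by ring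
    _ ≤ (T + H - R - (T + R)) * (T ^ (-e) * E) := by
        gcongr
        linarith

theorem main_res (ε κ₀ : ℝ) (hε : 0 < ε) (hκ₀ : κ₀ < 1) :
    ∃ c : ℝ, 0 < c ∧ ∀ᶠ T : ℝ in atTop, ∀ H : ℝ, T ^ ε ≤ H → H ≤ T → ∀ u : ℂ, ‖u‖ = 1 →
      (∃ t ∈ SI u κ₀ T H, Real.exp (c * Real.sqrt (Real.log T / Real.log (Real.log T))) ≤ ‖zl t‖) ∧
      ∀ q : ℝ, 1 ≤ q →
      H * T ^ (-ε) * Real.exp (c * q * Real.sqrt (Real.log T / Real.log (Real.log T))) ≤
        ∫ t in SI u κ₀ T H, ‖zl t‖ ^ q := by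
  obtain ⟨c, hc, h⟩ := res_moments ε κ₀ hε hκ₀
  refine ⟨c / 2, by positivity, ?_⟩
  filter_upwards [h, ev_res (c₀ := 1 / 2) (c := c / 2) (by norm_num) (by positivity),
    eventually_gt_atTop 1] with T hT hS1 hT1 H hH1 hH2 u hu
  have hT0 : 0 < T := by linarith
  obtain ⟨S, hS⟩ : ∃ S : ℝ, S = Real.sqrt (Real.log T / Real.log (Real.log T)) := ⟨_, rfl⟩
  rw [← hS] at hS1
  have hS0 : 0 ≤ S := by rw [hS]; positivity
  have hH0 : 0 < H := lt_of_lt_of_le (by positivity) hH1
  have hT' := hT H hH1 hH2 u hu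
  rw [← hS] at hT' ⊢
  constructor
  · by_contra hne
    push Not at hne
    have hSpos : 0 < c / 2 * S := by
      by_contra h0
      have h1 : c / 2 * S = 0 := le_antisymm (not_lt.mp h0) (by positivity)
      rw [h1, Real.exp_zero] at hS1
      norm_num at hS1
    obtain ⟨q, hq⟩ : ∃ q : ℝ, q = max 1 ((ε * Real.log T + 1) / (c / 2 * S)) := ⟨_, rfl⟩
    have hq1 : 1 ≤ q := by rw [hq]; exact le_max_left _ _
    have hq2 : ε * Real.log T + 1 ≤ c / 2 * S * q := by
      have h1 : (ε * Real.log T + 1) / (c / 2 * S) ≤ q := by rw [hq]; exact le_max_right _ _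
      rw [div_le_iff₀ hSpos] at h1
      linarith
    have h1 := hT' q hq1
    have hsub : SI u κ₀ T H ⊆ Set.Icc T (T + H) := fun t ht => ht.1
    have h2 : ∫ t in SI u κ₀ T H, ‖zl t‖ ^ q ≤ H * Real.exp (c / 2 * q * S) := by
      have hmeas : MeasurableSet (SI u κ₀ T H) := measurableSet_Icc.inter (SS_meas u κ₀)
      have hcz : Continuous fun t => ‖zl t‖ ^ q := zl_cont.norm.rpow_const fun _ => Or.inr (by linarith)
      have hfin : volume (SI u κ₀ T H) < ⊤ := lt_of_le_of_lt (measure_mono hsub) (by simp)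
      calc ∫ t in SI u κ₀ T H, ‖zl t‖ ^ q ≤ ∫ t in SI u κ₀ T H, Real.exp (c / 2 * q * S) := by
            refine setIntegral_mono_on (hcz.integrableOn_Icc.mono_set hsub)
              (integrableOn_const (hs := hfin.ne)) hmeas fun t ht => ?_
            have h3 := (hne t ht).le
            have e1 : Real.exp (c / 2 * q * S) = Real.exp (c / 2 * S) ^ q := by
              rw [← Real.exp_mul]; congr 1; ring
            rw [e1]
            exact Real.rpow_le_rpow (norm_nonneg _) h3 (by linarith)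
        _ = volume.real (SI u κ₀ T H) * Real.exp (c / 2 * q * S) := by
            rw [setIntegral_const, smul_eq_mul]
        _ ≤ H * Real.exp (c / 2 * q * S) := by
            have h4 : volume.real (SI u κ₀ T H) ≤ H := by
              calc volume.real (SI u κ₀ T H) ≤ volume.real (Set.Icc T (T + H)) :=
                    measureReal_mono hsub (by simp)
                _ = H := by rw [Real.volume_real_Icc_of_le (by linarith)]; ring
            gcongr
    have h3 : H * T ^ (-ε) * Real.exp (c * q * S) ≤ H * Real.exp (c / 2 * q * S) := h1.trans h2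
    have h4 : T ^ (-ε) * Real.exp (c * q * S) ≤ Real.exp (c / 2 * q * S) := by
      have : H * (T ^ (-ε) * Real.exp (c * q * S)) ≤ H * Real.exp (c / 2 * q * S) := by linarith
      exact le_of_mul_le_mul_left this hH0
    rw [Real.rpow_def_of_pos hT0, ← Real.exp_add, Real.exp_le_exp] at h4
    nlinarith
  · intro q hq
    refine le_trans ?_ (hT' q hq)
    have h1 : c / 2 * q * S ≤ c * q * S := by
      have : 0 ≤ c * q * S := by positivity
      linarith
    gcongr

end

end Pool.Agent.R311.SE
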